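import Mathlib

/-!
Functions of bounded valence on lines, and the doubling inequality for them.
-/

namespace Pool.Agent.P.MP_f17f76_ag.K

open Filter Topology Set Metric

variable {E F : Type*} [NormedAddCommGroup E] [NormedSpace ℂ E] [NormedAddCommGroup F]
  [NormedSpace ℂ F]

/-- On complex lines `f = c` has at most `K` isolated solutions in `U`, and on real lines
`Im (f - c) = 0` has at most `K` isolated solutions in `U`. -/
def Val (K : ℕ) (U : Set E) (f : E → ℂ) : Prop :=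
  ∀ (x v : E) (c : ℂ),
    (∀ S : Finset ℂ, (∀ t ∈ S, x + t • v ∈ U ∧ f (x + t • v) = c ∧
      ∀ᶠ s in 𝓝[≠] t, f (x + s • v) ≠ c) → S.card ≤ K) ∧
    ∀ S : Finset ℝ, (∀ t ∈ S, x + (t : ℂ) • v ∈ U ∧ (f (x + (t : ℂ) • v) - c).im = 0 ∧
      ∀ᶠ s : ℝ in 𝓝[≠] t, (f (x + (s : ℂ) • v) - c).im ≠ 0) → S.card ≤ K

variable {K : ℕ} {U : Set E} {f : E → ℂ}

theorem Val.mono (h : Val K U f) {K' : ℕ} (hK : K ≤ K') {U' : Set E} (hU : U' ⊆ U) :
    Val K' U' f := fun x v c =>
  ⟨fun S hS => ((h x v c).1 S fun t ht => ⟨hU (hS t ht).1, (hS t ht).2⟩).trans hK,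
    fun S hS => ((h x v c).2 S fun t ht => ⟨hU (hS t ht).1, (hS t ht).2⟩).trans hK⟩

theorem Val.comp (h : Val K U f) (a : E) (L : F →ₗ[ℂ] E) :
    Val K ((fun y => a + L y) ⁻¹' U) fun y => f (a + L y) := fun x v c => by
  have := h (a + L x) (L v) c
  simpa only [mem_preimage, map_add, map_smul, add_assoc] using this

theorem Val.sub_const (h : Val K U f) (b : ℂ) : Val K U fun y => f y - b := fun x v c => by
  have := h x v (c + b)
  simpa only [sub_eq_iff_eq_add, ne_eq, sub_sub, add_comm b c] using this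

theorem exists_log {g : ℂ → ℂ} {w : ℂ} {r : ℝ} (hr : 0 < r) (hg : DifferentiableOn ℂ g (ball w r))
    (h0 : ∀ z ∈ ball w r, g z ≠ 0) : ∃ u : ℂ → ℂ, ∀ z ∈ ball w r,
      HasDerivAt u (deriv g z / g z) z ∧ Complex.exp (u z) = g z := by
  obtain ⟨u, hu0, hu⟩ := ((hg.deriv isOpen_ball).div hg h0).isExactOn_ball.with_val_at w
    (Complex.log (g w))
  refine ⟨u, fun z hz => ⟨hu z hz, ?_⟩⟩
  have hD : ∀ z ∈ ball w r, HasDerivAt (fun z => g z * Complex.exp (-u z)) 0 z := by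
    intro z hz
    have h1 := (hg.differentiableAt (isOpen_ball.mem_nhds hz)).hasDerivAt
    refine (h1.fun_mul (hu z hz).fun_neg.cexp).congr_deriv ?_
    have := h0 z hz
    simp only [Pi.div_apply]
    field_simp
    ring
  have := isOpen_ball.is_const_of_deriv_eq_zero (convex_ball w r).isPreconnected
    (fun z hz => (hD z hz).differentiableAt.differentiableWithinAt) (fun z hz => (hD z hz).deriv)
    hz (mem_ball_self hr)
  rw [hu0, Complex.exp_neg, Complex.exp_neg, Complex.exp_log (h0 w (mem_ball_self hr)),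
    mul_inv_cancel₀ (h0 w (mem_ball_self hr)), mul_inv_eq_one₀ (Complex.exp_ne_zero _)] at this
  exact this.symm

/-- The argument of a function without zeros has bounded oscillation. -/
theorem arg_osc {g u : ℂ → ℂ} {w : ℂ} {r : ℝ} (hg : DifferentiableOn ℂ g (ball w r))
    (hV : Val K (ball w r) g) (hu : ContinuousOn u (ball w r))
    (he : ∀ z ∈ ball w r, Complex.exp (u z) = g z) {z : ℂ} (hz : z ∈ ball w r) :
    |(u z).im - (u w).im| ≤ Real.pi * (K + 2) := by
  classical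
  by_contra hcon
  have hw : w ∈ ball w r := mem_ball_self (pos_of_mem_ball hz)
  let ℓ : ℝ → ℂ := fun s => w + (s : ℂ) • (z - w)
  have hℓ : ∀ s, AnalyticAt ℝ ℓ s := fun s =>
    analyticAt_const.add ((Complex.ofRealCLM.analyticAt s).mul analyticAt_const)
  have hcv : Convex ℝ (ℓ ⁻¹' ball w r) := by
    have e : ℓ = (AffineMap.lineMap w z : ℝ →ᵃ[ℝ] ℂ) := by
      funext s
      simp [ℓ, AffineMap.lineMap_apply, add_comm]
    rw [e]
    exact (convex_ball w r).affine_preimage _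
  have hI : uIcc (0 : ℝ) 1 ⊆ ℓ ⁻¹' ball w r :=
    hcv.ordConnected.uIcc_subset (by simpa [ℓ] using hw) (by simpa [ℓ] using hz)
  have hac : ContinuousOn (fun s => (u (ℓ s)).im) (uIcc 0 1) :=
    Complex.continuous_im.comp_continuousOn (hu.comp
      (fun s _ => (hℓ s).continuousAt.continuousWithinAt) hI)
  have hiv := intermediate_value_uIcc hac
  simp only [ℓ, Complex.ofReal_zero, zero_smul, add_zero, Complex.ofReal_one, one_smul,
    add_sub_cancel] at hiv
  set lo := min (u w).im (u z).im with hlo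
  have hp := Real.pi_pos
  have hval : ∀ y : ℝ, 0 ≤ y → y ≤ K + 1 → ∃ s ∈ uIcc (0 : ℝ) 1,
      (u (ℓ s)).im = (⌈lo / Real.pi⌉ + y) * Real.pi := by
    intro y h0 h1
    have h2 := (div_le_iff₀ hp).1 (Int.le_ceil (lo / Real.pi))
    have h3 := Int.ceil_lt_add_one (lo / Real.pi)
    rw [← sub_lt_iff_lt_add, lt_div_iff₀ hp] at h3
    refine hiv ⟨by nlinarith, ?_⟩
    have h4 : max (u w).im (u z).im - lo = |(u z).im - (u w).im| := max_sub_min_eq_abs _ _
    have h5 := not_le.1 hcon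
    nlinarith
  have hb : AnalyticOnNhd ℝ (fun s => (g (ℓ s) - 0).im) (ℓ ⁻¹' ball w r) := fun s hs =>
    (Complex.imCLM.analyticAt _).comp
      ((((hg.analyticAt (isOpen_ball.mem_nhds hs)).restrictScalars (𝕜 := ℝ)).comp (hℓ s)).sub
        analyticAt_const)
  have him : ∀ s ∈ uIcc (0 : ℝ) 1, (g (ℓ s) - 0).im =
      Real.exp (u (ℓ s)).re * Real.sin (u (ℓ s)).im := fun s hs => by
    rw [sub_zero, ← he _ (hI hs), Complex.exp_im]
  choose! s hs hs' using fun i : Fin (K + 1) => hval i (by positivity) (by exact_mod_cast i.2.le)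
  have hinj : Function.Injective s := fun i j e => by
    have := hs' i
    rw [e, hs' j] at this
    have h2 := add_left_cancel (mul_right_cancel₀ hp.ne' this)
    exact Fin.ext (by exact_mod_cast h2.symm)
  have := (hV w (z - w) 0).2 (Finset.univ.image s) fun t ht => ?_
  · rw [Finset.card_image_of_injective _ hinj] at this
    simp at this
  obtain ⟨i, -, rfl⟩ := Finset.mem_image.1 ht
  refine ⟨hI (hs i), ?_, ?_⟩
  · have e : ((⌈lo / Real.pi⌉ : ℝ) + (i : ℕ)) = ((⌈lo / Real.pi⌉ + (i : ℕ) : ℤ) : ℝ) := by simp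
    rw [him _ (hs i), hs' i, e, Real.sin_int_mul_pi, mul_zero]
  · by_contra hn
    rw [not_eventually] at hn
    obtain ⟨t, ht, ht'⟩ := hval (1 / 2) (by norm_num) (by
      have : (0 : ℝ) ≤ K := Nat.cast_nonneg K
      linarith)
    have h1 := hb.eqOn_zero_of_preconnected_of_frequently_eq_zero hcv.isPreconnected
      (hI (hs i)) (hn.mono fun _ h => not_not.1 h) (hI ht)
    have h2 : (g (ℓ t) - 0).im = 0 := h1
    rw [him t ht, ht', add_mul, add_comm, Real.sin_add_int_mul_pi,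
      show 1 / 2 * Real.pi = Real.pi / 2 by ring, Real.sin_pi_div_two, mul_one] at h2
    exact mul_ne_zero (Real.exp_ne_zero _) (zpow_ne_zero _ (by norm_num)) h2

/-- A bound for the logarithmic derivative. -/
theorem logder_le {g : ℂ → ℂ} {w : ℂ} {r : ℝ} (hr : 0 < r) (hg : DifferentiableOn ℂ g (ball w r))
    (hV : Val K (ball w r) g) (h0 : ∀ z ∈ ball w r, g z ≠ 0) :
    ‖deriv g w‖ ≤ (Real.exp (Real.pi * (K + 2)) + 1) / r * ‖g w‖ := by
  obtain ⟨u, hu⟩ := exists_log hr hg h0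
  have hD : ∀ z ∈ ball w r, HasDerivAt (fun z => Complex.exp (-Complex.I * (u z - u w)))
      (Complex.exp (-Complex.I * (u z - u w)) * (-Complex.I * (deriv g z / g z))) z :=
    fun z hz => (((hu z hz).1.sub_const _).const_mul _).cexp
  have h1 := Complex.norm_deriv_le_div_of_mapsTo_ball
    (fun z hz => (hD z hz).differentiableAt.differentiableWithinAt)
    (R₂ := Real.exp (Real.pi * (K + 2)) + 1) (fun z hz => ?_) hr
  · rw [(hD w (mem_ball_self hr)).deriv] at h1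
    simp only [sub_self, mul_zero, Complex.exp_zero, one_mul, norm_mul, norm_neg, Complex.norm_I,
      norm_div] at h1
    exact (div_le_iff₀ (norm_pos_iff.2 (h0 w (mem_ball_self hr)))).1 h1
  · have h2 := arg_osc hg hV (fun z hz => (hu z hz).1.continuousAt.continuousWithinAt)
      (fun z hz => (hu z hz).2) hz
    refine mem_closedBall_iff_norm.2 ((norm_sub_le _ _).trans (add_le_add ?_ (by simp)))
    rw [Complex.norm_exp]
    refine Real.exp_le_exp.2 (le_trans ?_ h2)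
    simpa using le_abs_self ((u z).im - (u w).im)

theorem dbl_one (K : ℕ) : ∃ C : ℝ, 1 ≤ C ∧ ∀ g : ℂ → ℂ, DifferentiableOn ℂ g (ball 0 1) →
    Val K (ball 0 1) g → ∀ t₁ : ℂ, ‖t₁‖ = 1 / 2 → ∃ t : ℂ, ‖t‖ ≤ 1 / 4 ∧ ‖g t₁‖ ≤ C * ‖g t‖ := by
  classical
  set η : ℝ := 1 / (10 * (K + 1)) with hη
  have hη0 : 0 < η := by positivity
  have hη1 : η * (K + 1) = 1 / 10 := by
    rw [hη]
    field_simp
  set L : ℝ := (Real.exp (Real.pi * (K + 2)) + 1) / η with hL
  have hL0 : 0 ≤ L := by positivity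
  refine ⟨Real.exp (L * (2 * Real.pi)), Real.one_le_exp (by positivity),
    fun g hg hV t₁ ht₁ => ?_⟩
  by_cases h0 : g t₁ = 0
  · exact ⟨0, by norm_num, by rw [h0, norm_zero]; positivity⟩
  have hsub : ∀ z, ‖z - t₁‖ < 1 / 2 → z ∈ ball (0 : ℂ) 1 := fun z hz =>
    mem_ball_zero_iff.2 (by linarith [norm_le_insert' z t₁])
  obtain ⟨ρ, hρ1, hρ2, hρ⟩ : ∃ ρ : ℝ, 1 / 4 + η ≤ ρ ∧ ρ + η ≤ 9 / 20 ∧
      ∀ z, |‖z - t₁‖ - ρ| < η → g z ≠ 0 := by
    by_contra hcon
    have h1 : ∀ i : Fin (K + 1), ∃ z, |‖z - t₁‖ - (1 / 4 + (2 * i + 1) * η)| < η ∧ g z = 0 := by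
      intro i
      by_contra h
      have hi : ((i : ℕ) : ℝ) + 1 ≤ K + 1 := by exact_mod_cast i.2
      have hi0 : (0 : ℝ) ≤ (i : ℕ) := Nat.cast_nonneg _
      exact hcon ⟨_, by nlinarith, by nlinarith, fun z hz h' => h ⟨z, hz, h'⟩⟩
    choose z hz hz0 using h1
    have hinj : Function.Injective z := fun i j e => by
      have h2 := abs_lt.1 (hz i)
      have h3 := abs_lt.1 (hz j)
      rw [e] at h2
      have h4 : ((i : ℕ) : ℝ) < (j : ℕ) + 1 := by nlinarith
      have h5 : ((j : ℕ) : ℝ) < (i : ℕ) + 1 := by nlinarith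
      have h6 : (i : ℕ) < j + 1 := by exact_mod_cast h4
      have h7 : (j : ℕ) < i + 1 := by exact_mod_cast h5
      exact Fin.ext (by omega)
    have := (hV 0 1 0).1 (Finset.univ.image z) fun t ht => ?_
    · rw [Finset.card_image_of_injective _ hinj] at this
      simp at this
    obtain ⟨i, -, rfl⟩ := Finset.mem_image.1 ht
    have hi : ((i : ℕ) : ℝ) + 1 ≤ K + 1 := by exact_mod_cast i.2
    have h2 : z i ∈ ball (0 : ℂ) 1 := hsub _ (by nlinarith [abs_lt.1 (hz i)])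
    simp only [smul_eq_mul, mul_one, zero_add]
    refine ⟨h2, hz0 i, ?_⟩
    by_contra hn
    rw [not_eventually] at hn
    exact h0 ((hg.analyticOnNhd isOpen_ball).eqOn_zero_of_preconnected_of_frequently_eq_zero
      (convex_ball 0 1).isPreconnected h2 (hn.mono fun _ h => not_not.1 h) (hsub t₁ (by simp)))
  have hρ0 : 0 < ρ := by linarith
  have hn : ∀ θ, ‖circleMap t₁ ρ θ - t₁‖ = ρ := fun θ => by
    rw [circleMap_sub_center, norm_circleMap_zero, abs_of_pos hρ0]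
  have hball : ∀ θ, ∀ z ∈ ball (circleMap t₁ ρ θ) η, |‖z - t₁‖ - ρ| < η := fun θ z hz => by
    have := abs_norm_sub_norm_le (z - t₁) (circleMap t₁ ρ θ - t₁)
    rw [hn, sub_sub_sub_cancel_right] at this
    exact this.trans_lt (mem_ball_iff_norm.1 hz)
  have hball' : ∀ θ, ball (circleMap t₁ ρ θ) η ⊆ ball 0 1 := fun θ z hz =>
    hsub z (by linarith [abs_lt.1 (hball θ z hz)])
  have hD : ∀ θ, HasDerivAt (fun θ => g (circleMap t₁ ρ θ))
      (deriv g (circleMap t₁ ρ θ) * (circleMap 0 ρ θ * Complex.I)) θ := fun θ =>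
    (hg.differentiableAt (isOpen_ball.mem_nhds (hball' θ (mem_ball_self hη0)))).hasDerivAt.comp_of_eq
      θ (hasDerivAt_circleMap t₁ ρ θ) rfl
  obtain ⟨θ₀, hθ₀⟩ : t₁ - (2 * ρ : ℝ) * t₁ ∈ range (circleMap t₁ ρ) := by
    rw [range_circleMap, mem_sphere_iff_norm, sub_sub_cancel_left, norm_neg, norm_mul, ht₁,
      Complex.norm_real, Real.norm_eq_abs, abs_of_pos hρ0, abs_of_pos (by positivity)]
    ring
  refine ⟨circleMap t₁ ρ θ₀, ?_, ?_⟩
  · rw [hθ₀, ← one_sub_mul, norm_mul, ht₁, ← Complex.ofReal_one, ← Complex.ofReal_sub,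
      Complex.norm_real, Real.norm_eq_abs, abs_of_pos (by linarith)]
    linarith
  refine Complex.norm_le_of_forall_mem_frontier_norm_le (U := ball t₁ ρ) isBounded_ball
    (DifferentiableOn.diffContOnCl (hg.mono ?_)) (fun z hz => ?_)
    (subset_closure (mem_ball_self hρ0))
  · exact closure_ball_subset_closedBall.trans fun z hz =>
      hsub z ((mem_closedBall_iff_norm.1 hz).trans_lt (by linarith))
  rw [frontier_ball _ hρ0.ne', ← abs_of_pos hρ0, ← range_circleMap] at hz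
  obtain ⟨θ, rfl⟩ := hz
  obtain ⟨θ', hθ', e⟩ := (periodic_circleMap t₁ ρ).exists_mem_Ico Real.two_pi_pos θ θ₀
  have := norm_le_gronwallBound_of_norm_deriv_right_le (K := L) (ε := 0) (a := θ₀)
    (b := θ₀ + 2 * Real.pi) (fun θ _ => (hD θ).continuousAt.continuousWithinAt)
    (fun θ _ => (hD θ).hasDerivWithinAt) le_rfl (fun θ _ => ?_) θ' (Ico_subset_Icc_self hθ')
  · rw [gronwallBound_ε0, mul_comm] at this
    rw [e]
    refine this.trans (mul_le_mul_of_nonneg_right (Real.exp_le_exp.2 ?_) (norm_nonneg _))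
    exact mul_le_mul_of_nonneg_left (by linarith [hθ'.2]) hL0
  · have h1 := logder_le hη0 (hg.mono (hball' θ)) (hV.mono le_rfl (hball' θ))
      fun z hz => hρ z (hball θ z hz)
    rw [norm_mul, norm_mul, norm_circleMap_zero, abs_of_pos hρ0, Complex.norm_I, mul_one,
      add_zero]
    nlinarith [norm_nonneg (deriv g (circleMap t₁ ρ θ))]

/-- The doubling inequality. -/
theorem dbl (K : ℕ) : ∃ C : ℝ, 1 ≤ C ∧ ∀ {E : Type} [NormedAddCommGroup E] [NormedSpace ℂ E]
    (f : E → ℂ) (x : E) (r : ℝ), 0 < r → DifferentiableOn ℂ f (ball x r) → Val K (ball x r) f →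
    ∀ n : ℕ, ∀ y ∈ closedBall x (r / 2), ∃ z ∈ closedBall x (r / 2 / 2 ^ n),
      ‖f y‖ ≤ C ^ n * ‖f z‖ := by
  obtain ⟨C, hC, h⟩ := dbl_one K
  refine ⟨C, hC, fun {E} _ _ f x r hr hf hV n => ?_⟩
  induction n with
  | zero => exact fun y hy => ⟨y, by simpa using hy, by simp⟩
  | succ n ih =>
    intro y hy
    obtain ⟨z, hz, hyz⟩ := ih y hy
    have hz' := mem_closedBall_iff_norm.1 hz
    have h1 : (1 : ℝ) ≤ 2 ^ n := one_le_pow₀ (by norm_num)
    have h2 : r / 2 / 2 ^ n ≤ r / 2 := div_le_self (by positivity) h1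
    have hm : ∀ t : ℂ, ‖x + t • ((2 : ℂ) • (z - x)) - x‖ ≤ ‖t‖ * (2 * (r / 2 / 2 ^ n)) := by
      intro t
      rw [add_sub_cancel_left, norm_smul, norm_smul, Complex.norm_two]
      gcongr
    have hb : ∀ t ∈ ball (0 : ℂ) 1, x + t • ((2 : ℂ) • (z - x)) ∈ ball x r := fun t ht => by
      have h3 := mem_ball_zero_iff.1 ht
      refine mem_ball_iff_norm.2 ((hm t).trans_lt ?_)
      nlinarith [norm_nonneg t]
    obtain ⟨t, ht, ht'⟩ := h (fun t => f (x + t • ((2 : ℂ) • (z - x))))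
      (hf.comp (by fun_prop) hb)
      ((hV.comp x (LinearMap.toSpanSingleton ℂ E ((2 : ℂ) • (z - x)))).mono le_rfl hb)
      (1 / 2) (by simp)
    refine ⟨_, mem_closedBall_iff_norm.2 ((hm t).trans ?_), hyz.trans ?_⟩
    · rw [pow_succ, ← div_div]
      nlinarith [show 0 < r / 2 / 2 ^ n by positivity]
    · rw [smul_smul, show (1 / 2 * 2 : ℂ) = 1 by norm_num, one_smul, add_sub_cancel] at ht'
      rw [pow_succ, mul_assoc]
      exact mul_le_mul_of_nonneg_left ht' (by positivity)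

/-- On a small ball about any point near the centre the function is not too small. -/
theorem remez (K : ℕ) : ∃ (C : ℝ) (m : ℕ), 1 ≤ C ∧ ∀ {E : Type} [NormedAddCommGroup E]
    [NormedSpace ℂ E] (f : E → ℂ), DifferentiableOn ℂ f (ball 0 1) → Val K (ball 0 1) f →
    ∀ x ∈ closedBall (0 : E) (1 / 4), ∀ ε : ℝ, 0 < ε → ε ≤ 1 → ∀ y ∈ closedBall (0 : E) (1 / 2),
      ∃ z ∈ closedBall x ε, z ∈ ball (0 : E) 1 ∧ ε ^ m * ‖f y‖ ≤ C * ‖f z‖ := by
  obtain ⟨C, hC, h⟩ := dbl K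
  obtain ⟨m, hm⟩ := pow_unbounded_of_one_lt C (one_lt_two (α := ℝ))
  refine ⟨C ^ 3, m, one_le_pow₀ hC, fun f hf hV x hx ε h0 h1 y hy => ?_⟩
  obtain ⟨n, hn1, hn2⟩ := exists_nat_pow_near_of_lt_one h0 h1 (y := 1 / 2) (by norm_num)
    (by norm_num)
  have hx' := mem_closedBall_zero_iff.1 hx
  have hs : ball x (3 / 4) ⊆ ball 0 1 := ball_subset_ball' (by rw [dist_zero_right]; linarith)
  obtain ⟨z₁, hz₁, h2⟩ := h f 0 1 one_pos hf hV 2 y hy
  obtain ⟨z, hz, h3⟩ := h f x (3 / 4) (by norm_num) (hf.mono hs) (hV.mono le_rfl hs) (n + 1) z₁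
    (mem_closedBall_iff_norm.2 ((norm_sub_le _ _).trans (by
      have := mem_closedBall_zero_iff.1 hz₁
      norm_num at this ⊢
      linarith)))
  have h4 : (3 : ℝ) / 4 / 2 / 2 ^ (n + 1) = 3 / 8 * (1 / 2) ^ (n + 1) := by
    rw [one_div_pow]
    ring
  have h5 : ((1 : ℝ) / 2) ^ (n + 1) ≤ 1 := pow_le_one₀ (by norm_num) (by norm_num)
  rw [h4] at hz
  refine ⟨z, closedBall_subset_closedBall (by linarith) hz,
    hs (closedBall_subset_ball (by linarith) hz), ?_⟩
  have h6 : ε ^ m * C ^ n ≤ 1 := by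
    calc ε ^ m * C ^ n ≤ ((1 / 2) ^ n) ^ m * (2 ^ m) ^ n := by gcongr
      _ = 1 := by rw [← pow_mul, ← pow_mul, mul_comm m n, ← mul_pow]; norm_num
  calc ε ^ m * ‖f y‖ ≤ ε ^ m * (C ^ 2 * (C ^ (n + 1) * ‖f z‖)) := by
        gcongr
        exact h2.trans (by gcongr)
    _ = ε ^ m * C ^ n * (C ^ 3 * ‖f z‖) := by ring
    _ ≤ _ := mul_le_of_le_one_left (by positivity) h6

end Pool.Agent.P.MP_f17f76_ag.K
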