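import Pool.Agent.P.MP_f17f76_ag.K.Iso
import Pool.Agent.P.MP_f17f76_ag.K.Dbl
import Pool.Agent.P.MP_f17f76_ag.GermPrime

/-!
Bounded valence for solutions of systems with abelian functions, and recentring.
-/

namespace Pool.Agent.P.MP_f17f76_ag.K

open Filter Topology Set Metric MvPolynomial

variable {g N : ℕ}

/-- Polynomials on a graph that is locally the solution set of a system have bounded valence. -/
theorem val_of_graph (A : AbVar g N) : ∃ δ > 0, ∀ (M σ J : Type) [Fintype M] [Fintype σ]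
    [Fintype J] (D : ℕ), ∃ K : ℕ, ∀ (W : J → Fin g → MvPolynomial (M ⊕ σ) ℂ) (w₀ : J → Fin g → ℂ)
      (P : Set (MvPolynomial ((M ⊕ σ) ⊕ J × Fin N) ℂ)),
      (∀ j e, (W j e).totalDegree ≤ D) → (∀ p ∈ P, p.totalDegree ≤ D) →
      ∀ (U : Set (M → ℂ)) (G : (M → ℂ) → σ → ℂ),
      (∀ x ∈ U, (∀ j, (fun e => eval (Sum.elim x (G x)) (W j e)) ∈ ball (w₀ j) δ) ∧
        Sum.elim x (G x) ∈ Sol A W ∅ P ∧ ∀ᶠ η in 𝓝 (Sum.elim x (G x)), η ∈ Sol A W ∅ P →
          (fun i => η (Sum.inr i)) = G fun m => η (Sum.inl m)) →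
      ∀ p : MvPolynomial (M ⊕ σ) ℂ, p.totalDegree ≤ D →
        Val K U fun x => eval (Sum.elim x (G x)) p := by
  classical
  obtain ⟨δ, hδ, hA⟩ := iso_count A
  refine ⟨δ, hδ, fun M σ J _ _ _ D => ?_⟩
  obtain ⟨K, hA⟩ := hA (Option (M ⊕ σ)) J (D + 1)
  refine ⟨K, fun W w₀ P hW hP U G hG p hp x v c => ?_⟩
  let pt : ℂ → Option (M ⊕ σ) → ℂ := fun t o => o.elim t (Sum.elim (x + t • v) (G (x + t • v)))
  have aux : ∀ Q : Set (MvPolynomial (Option (M ⊕ σ)) ℂ), (∀ q ∈ Q, q.totalDegree ≤ D + 1) →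
      ∀ S : Finset ℂ, (∀ t ∈ S, x + t • v ∈ U ∧ (∀ q ∈ Q, (eval (pt t) q).im = 0) ∧
        ∀ᶠ s in 𝓝[≠] t, ¬ ∀ q ∈ Q, (eval (pt s) q).im = 0) → S.card ≤ K := by
    intro Q hQ S hS
    let P' : Set (MvPolynomial (Option (M ⊕ σ) ⊕ J × Fin N) ℂ) :=
      rename (Sum.map some id) '' P ∪ range fun m =>
        X (Sum.inl (some (Sum.inl m))) - (C (x m) + C (v m) * X (Sum.inl none))
    have key : ∀ η : Option (M ⊕ σ) → ℂ, η ∈ Sol A (fun j e => rename some (W j e)) Q P' ↔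
        (∀ q ∈ Q, (eval η q).im = 0) ∧ (η ∘ some) ∈ Sol A W ∅ P ∧
          (fun m => η (some (Sum.inl m))) = x + η none • v := by
      intro η
      refine and_congr_right fun _ => ?_
      simp only [P', Sol, mem_ofPred_eq, mem_empty_iff_false, false_imp_iff, implies_true,
        true_and, mem_union, or_imp, forall_and, forall_mem_image, forall_mem_range,
        eval_rename, Sum.elim_comp_map, Function.comp_id]
      refine and_congr Iff.rfl ?_
      simp [funext_iff, sub_eq_zero, mul_comm]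
    rw [← Finset.card_image_of_injective S (f := pt) fun a b h => congrFun h none]
    refine hA (fun j e => rename some (W j e)) w₀ Q P'
      (fun j e => (totalDegree_rename_le _ _).trans ((hW j e).trans (by omega))) hQ ?_ _ ?_
    · rintro _ (⟨r, hr, rfl⟩ | ⟨m, rfl⟩)
      · exact (totalDegree_rename_le _ _).trans ((hP r hr).trans (by omega))
      · refine (totalDegree_sub _ _).trans (max_le (by simp) ((totalDegree_add _ _).trans
          (max_le (by simp) ((totalDegree_mul _ _).trans (by simp)))))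
    · intro ξ hξ
      obtain ⟨t, ht, rfl⟩ := Finset.mem_image.1 hξ
      obtain ⟨h1, h2, h3⟩ := hS t ht
      obtain ⟨h4, h5, h6⟩ := hG _ h1
      refine ⟨fun j => by simp only [eval_rename]; exact h4 j, (key _).2 ⟨h2, h5, rfl⟩, ?_⟩
      have t1 : Tendsto (fun η : Option (M ⊕ σ) → ℂ => η ∘ some) (𝓝 (pt t))
          (𝓝 (Sum.elim (x + t • v) (G (x + t • v)))) := Continuous.tendsto' (by fun_prop) _ _ rfl
      have t2 : Tendsto (fun η : Option (M ⊕ σ) → ℂ => η none) (𝓝 (pt t)) (𝓝 t) :=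
        (continuous_apply none).tendsto _
      filter_upwards [t1.eventually h6, t2.eventually (eventually_nhdsWithin_iff.1 h3)]
        with η h7 h8 h9
      obtain ⟨h10, h11, h12⟩ := (key η).1 h9
      have e : η = pt (η none) := by
        funext o
        rcases o with _ | m | i
        · rfl
        · exact congrFun h12 m
        · exact (congrFun (h7 h11) i).trans (congrFun (congrArg G h12) i)
      by_cases h : η none = t
      · rw [e, h]
      · exact absurd (e ▸ h10) (h8 h)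
  have hr : (rename some p - C c : MvPolynomial (Option (M ⊕ σ)) ℂ).totalDegree ≤ D :=
    (totalDegree_sub _ _).trans (max_le ((totalDegree_rename_le _ _).trans hp) (by simp))
  have he : ∀ t, eval (pt t) (rename some p - C c) =
      eval (Sum.elim (x + t • v) (G (x + t • v))) p - c := fun t => by
    rw [map_sub, eval_rename, eval_C]
    rfl
  refine ⟨fun S hS => aux {rename some p - C c, C Complex.I * (rename some p - C c)} ?_ S ?_,
    fun S hS => ?_⟩
  · rintro _ (rfl | rfl)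
    · exact hr.trans (by omega)
    · exact (totalDegree_mul _ _).trans (by simpa using hr.trans (by omega))
  · intro t ht
    obtain ⟨h1, h2, h3⟩ := hS t ht
    simp only [mem_insert_iff, mem_singleton_iff, forall_eq_or_imp, forall_eq, map_mul, he,
      eval_C]
    refine ⟨h1, by simp [show eval _ p = c from h2], h3.mono fun s hs h => hs ?_⟩
    exact sub_eq_zero.1 (Complex.ext (by simpa using h.2) h.1)
  · rw [← Finset.card_image_of_injective S Complex.ofReal_injective]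
    refine aux {rename some p - C c, X none} ?_ _ fun t ht => ?_
    · rintro _ (rfl | rfl)
      · exact hr.trans (by omega)
      · simp
    obtain ⟨t, ht', rfl⟩ := Finset.mem_image.1 ht
    obtain ⟨h1, h2, h3⟩ := hS t ht'
    simp only [mem_insert_iff, mem_singleton_iff, forall_eq_or_imp, forall_eq, he, eval_X]
    refine ⟨h1, ⟨h2, rfl⟩, eventually_nhdsWithin_iff.2 ?_⟩
    filter_upwards [(Complex.continuous_re.tendsto' (t : ℂ) t rfl).eventually
      (eventually_nhdsWithin_iff.1 h3)] with s hs hne h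
    have e : (s.re : ℂ) = s := Complex.ext rfl h.2.symm
    refine hs (fun h' => hne ?_) (e.symm ▸ h.1)
    rw [← e, show s.re = t from h']
    rfl

/-- Local uniqueness of a solution graph from the injectivity of the differentials. -/
theorem loc_unique {M σ α : Type*} [Fintype M] [Fintype σ] {Φ : α → (M ⊕ σ → ℂ) → ℂ}
    {G : (M → ℂ) → σ → ℂ} {x : M → ℂ} (hΦ : ∀ a, AnalyticAt ℂ (Φ a) (Sum.elim x (G x)))
    (hker : ∀ u : σ → ℂ, (∀ a, fderiv ℂ (Φ a) (Sum.elim x (G x)) (Sum.elim 0 u) = 0) → u = 0)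
    (hG : ContinuousAt G x) (h0 : ∀ᶠ y in 𝓝 x, ∀ a, Φ a (Sum.elim y (G y)) = 0) :
    ∀ᶠ η in 𝓝 (Sum.elim x (G x)), (∀ a, Φ a η = 0) →
      (fun i => η (Sum.inr i)) = G fun m => η (Sum.inl m) := by
  classical
  let e : (σ → ℂ) →ₗ[ℂ] (M ⊕ σ → ℂ) := LinearMap.pi (Sum.elim (fun _ => 0) LinearMap.proj)
  have he : ∀ u, e u = Sum.elim (0 : M → ℂ) u := fun u => funext (by rintro (m | i) <;> rfl)
  let L : (T : Finset α) → (M ⊕ σ → ℂ) →L[ℂ] (T → ℂ) := fun T =>
    ContinuousLinearMap.pi fun a => fderiv ℂ (Φ a) (Sum.elim x (G x))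
  obtain ⟨_, ⟨T, rfl⟩, hT⟩ := (wellFounded_lt (α := Submodule ℂ (σ → ℂ))).has_min
    (range fun T => LinearMap.ker ((L T).toLinearMap ∘ₗ e)) ⟨_, ∅, rfl⟩
  have hT0 : LinearMap.ker ((L T).toLinearMap ∘ₗ e) = ⊥ := by
    refine eq_bot_iff.2 fun u hu => hker u fun a => ?_
    have h1 : LinearMap.ker ((L (insert a T)).toLinearMap ∘ₗ e) ≤
        LinearMap.ker ((L T).toLinearMap ∘ₗ e) := fun w hw => funext fun b =>
      congrFun hw ⟨b.1, Finset.mem_insert_of_mem b.2⟩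
    have h2 := eq_of_le_of_not_lt h1 (hT _ ⟨_, rfl⟩)
    rw [← h2] at hu
    exact he u ▸ congrFun hu ⟨a, Finset.mem_insert_self _ _⟩
  obtain ⟨k, hk, hL⟩ := LinearMap.exists_antilipschitzWith _ hT0
  have hs : HasStrictFDerivAt (fun η (a : T) => Φ a η) (L T) (Sum.elim x (G x)) :=
    hasStrictFDerivAt_pi.2 fun a => (hΦ a).hasStrictFDerivAt
  have t1 : Tendsto (fun (η : M ⊕ σ → ℂ) m => η (Sum.inl m)) (𝓝 (Sum.elim x (G x))) (𝓝 x) :=
    Continuous.tendsto' (by fun_prop) _ _ rfl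
  have t2 : Tendsto (fun η : M ⊕ σ → ℂ => (Sum.elim (fun m => η (Sum.inl m))
      (G fun m => η (Sum.inl m)) : M ⊕ σ → ℂ)) (𝓝 (Sum.elim x (G x))) (𝓝 (Sum.elim x (G x))) := by
    refine tendsto_pi_nhds.2 ?_
    rintro (m | i)
    · exact tendsto_pi_nhds.1 t1 m
    · exact tendsto_pi_nhds.1 (hG.tendsto.comp t1) i
  have hk' : (0 : ℝ) < k := hk
  filter_upwards [(tendsto_id.prodMk_nhds t2).eventually
    (hs.isLittleO.def (c := (2 * k : ℝ)⁻¹) (by positivity)), t1.eventually h0] with η h1 h2 h3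
  set u : σ → ℂ := (fun i => η (Sum.inr i)) - G fun m => η (Sum.inl m) with hu
  have e1 : η - Sum.elim (fun m => η (Sum.inl m)) (G fun m => η (Sum.inl m)) = e u := by
    funext a
    rcases a with m | i
    · exact sub_self _
    · rfl
  have e2 : ‖e u‖ ≤ ‖u‖ := (pi_norm_le_iff_of_nonneg (norm_nonneg _)).2 (by
    rintro (m | i)
    · exact norm_zero.trans_le (norm_nonneg _)
    · exact norm_le_pi_norm u i)
  simp only [id, h2, h3, e1] at h1
  have h4 := hL.le_mul_norm (map_zero _) u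
  have h5 : ‖L T (e u)‖ ≤ (2 * k : ℝ)⁻¹ * ‖u‖ := by
    refine le_trans (le_of_eq ?_) (h1.trans (by gcongr))
    rw [sub_self, zero_sub, norm_neg]
  have h6 : ‖u‖ ≤ k * ((2 * k : ℝ)⁻¹ * ‖u‖) := h4.trans (by gcongr; exact h5)
  rw [← mul_assoc, show (k : ℝ) * (2 * (k : ℝ))⁻¹ = 1 / 2 by field_simp] at h6
  exact sub_eq_zero.1 (norm_le_zero_iff.1 (by linarith))

/-- Bounded valence from the infinitesimal rigidity of the system in the fibre direction. -/
theorem val_of_ker (A : AbVar g N) : ∃ δ > 0, ∀ (M σ J : Type) [Fintype M] [Fintype σ]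
    [Fintype J] (D : ℕ), ∃ K : ℕ, ∀ (W : J → Fin g → MvPolynomial (M ⊕ σ) ℂ) (w₀ : J → Fin g → ℂ)
      (P : Set (MvPolynomial ((M ⊕ σ) ⊕ J × Fin N) ℂ)),
      (∀ j e, (W j e).totalDegree ≤ D) → (∀ p ∈ P, p.totalDegree ≤ D) →
      ∀ (U : Set (M → ℂ)) (G : (M → ℂ) → σ → ℂ), IsOpen U → ContinuousOn G U →
      (∀ x ∈ U, (∀ j, (fun e => eval (Sum.elim x (G x)) (W j e)) ∈ ball (w₀ j) δ) ∧
        Sum.elim x (G x) ∈ Sol A W ∅ P ∧ ∀ u : σ → ℂ, (∀ p ∈ P, ∀ t : J → ℂ, fderiv ℂ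
          (fun η => eval (Sum.elim η fun a => t a.1 * A.θ (fun e => eval η (W a.1 e)) a.2) p)
            (Sum.elim x (G x)) (Sum.elim 0 u) = 0) → u = 0) →
      ∀ p : MvPolynomial (M ⊕ σ) ℂ, p.totalDegree ≤ D →
        Val K U fun x => eval (Sum.elim x (G x)) p := by
  obtain ⟨δ, hδ, hA⟩ := val_of_graph A
  refine ⟨δ, hδ, fun M σ J _ _ _ D => ?_⟩
  obtain ⟨K, hK⟩ := hA M σ J D
  refine ⟨K, fun W w₀ P hW hP U G hU hG h =>
    hK W w₀ P hW hP U G fun x hx => ⟨(h x hx).1, (h x hx).2.1, ?_⟩⟩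
  have hk : ∀ (k : M ⊕ σ) (η : M ⊕ σ → ℂ), AnalyticAt ℂ (fun η : M ⊕ σ → ℂ => η k) η :=
    fun k η => (ContinuousLinearMap.proj (R := ℂ) (φ := fun _ : M ⊕ σ => ℂ) k).analyticAt η
  let Φ : P × (J → ℂ) → (M ⊕ σ → ℂ) → ℂ := fun b η => eval (Sum.elim η
    fun a : J × Fin N => b.2 a.1 * A.θ (fun e => eval η (W a.1 e)) a.2) b.1.1
  have h1 : ∀ b, AnalyticAt ℂ (Φ b) (Sum.elim x (G x)) := fun b => by
    refine analyticAt_eval _ _ ?_
    rintro (k | a)
    · exact hk k _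
    · have h2 : AnalyticAt ℂ (fun (η : M ⊕ σ → ℂ) e => eval η (W a.1 e)) (Sum.elim x (G x)) :=
        analyticAt_pi_iff.2 fun e => analyticAt_eval _ _ fun k => hk k _
      exact analyticAt_const.mul (A.analyticAt_coord h2 a.2)
  have h2 : ∀ᶠ y in 𝓝 x, ∀ b, Φ b (Sum.elim y (G y)) = 0 := by
    filter_upwards [hU.mem_nhds hx] with y hy b using (h y hy).2.1.2 _ b.1.2 _
  have h3 := loc_unique h1 (fun u hu => (h x hx).2.2 u fun p hp t => hu (⟨p, hp⟩, t))
    (hG.continuousAt (hU.mem_nhds hx)) h2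
  filter_upwards [h3] with η hη hs using hη fun b => hs.2 _ b.1.2 _

variable {E : Type} [NormedAddCommGroup E] [NormedSpace ℂ E]

theorem exists_ulim {ι : Type*} (𝒰 : Ultrafilter ι) {F : ι → E → ℂ} {r : ℝ}
    (hd : ∀ᶠ n in 𝒰, DifferentiableOn ℂ (F n) (ball 0 r))
    (hb : ∀ᶠ n in 𝒰, ∀ y ∈ ball (0 : E) r, ‖F n y‖ ≤ 1) :
    ∃ h : E → ℂ, TendstoLocallyUniformlyOn F h 𝒰 (ball 0 r) := by
  have h1 : ∀ y ∈ ball (0 : E) r, ∃ c, Tendsto (fun n => F n y) 𝒰 (𝓝 c) := fun y hy => by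
    obtain ⟨c, -, hc⟩ := (isCompact_closedBall (0 : ℂ) 1).ultrafilter_le_nhds
      (𝒰.map fun n => F n y) (le_principal_iff.2 (hb.mono fun n hn =>
        mem_closedBall_zero_iff.2 (hn y hy)))
    exact ⟨c, hc⟩
  choose! h hh using h1
  refine ⟨h, Metric.tendstoLocallyUniformlyOn_iff.2 fun ε hε x hx => ?_⟩
  obtain ⟨ρ, hρ, hs⟩ := Metric.isOpen_iff.1 isOpen_ball x hx
  have h2 : ∀ᶠ n in 𝒰, ∀ y ∈ ball x ρ, dist (F n y) (F n x) ≤ 2 / ρ * dist y x := by
    filter_upwards [hd, hb] with n h3 h4 y hy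
    refine Complex.dist_le_div_mul_dist_of_mapsTo_ball (h3.mono hs) (fun z hz => ?_) hy
    refine mem_closedBall_iff_norm.2 ((norm_sub_le _ _).trans ?_)
    linarith [h4 z (hs hz), h4 x hx]
  have h3 : ∀ y ∈ ball x ρ, dist (h y) (h x) ≤ 2 / ρ * dist y x := fun y hy =>
    le_of_tendsto ((hh y (hs hy)).dist (hh x hx)) (h2.mono fun n hn => hn y hy)
  refine ⟨ball x (min ρ (ε * ρ / 6)), mem_nhdsWithin_of_mem_nhds (ball_mem_nhds _ (by positivity)),
    ?_⟩
  filter_upwards [h2, Metric.tendsto_nhds.1 (hh x hx) (ε / 3) (by positivity)] with n h4 h5 y hy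
  have h6 := lt_min_iff.1 (mem_ball.1 hy)
  have h7 : 2 / ρ * dist y x < ε / 3 := by
    rw [div_mul_eq_mul_div, div_lt_iff₀ hρ]
    linarith [h6.2]
  have h8 := dist_triangle4 (h y) (h x) (F n x) (F n y)
  rw [dist_comm (h x), dist_comm (F n x) (F n y)] at h8
  linarith [h3 y h6.1, h4 y h6.1]

theorem line_id {h : E → ℂ} {U : Set E} (ho : IsOpen U) (hc : Convex ℝ U)
    (hh : ∀ x v : E, DifferentiableOn ℂ (fun t : ℂ => h (x + t • v)) {t | x + t • v ∈ U})
    {x v : E} (hx : x ∈ U) (hz : ∀ᶠ s : ℝ in 𝓝 0, h (x + (s : ℂ) • v) = 0) {t : ℂ}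
    (ht : x + t • v ∈ U) : h (x + t • v) = 0 := by
  have h1 : IsOpen {t : ℂ | x + t • v ∈ U} := ho.preimage (by fun_prop)
  have h2 : Convex ℝ {t : ℂ | x + t • v ∈ U} := fun a ha b hb p q hp hq e => by
    have := hc ha hb hp hq e
    rw [smul_add, smul_add, add_add_add_comm, ← add_smul, e, one_smul, ← smul_assoc,
      ← smul_assoc, ← add_smul] at this
    exact this
  have t1 : Tendsto ((↑) : ℝ → ℂ) (𝓝[≠] 0) (𝓝[≠] 0) :=
    tendsto_nhdsWithin_iff.2 ⟨(Complex.continuous_ofReal.tendsto' 0 0 rfl).mono_left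
      nhdsWithin_le_nhds, eventually_nhdsWithin_of_forall fun s hs => Complex.ofReal_ne_zero.2 hs⟩
  exact ((hh x v).analyticOnNhd h1).eqOn_zero_of_preconnected_of_frequently_eq_zero
    h2.isPreconnected (z₀ := 0) (by simpa using hx)
    (t1.frequently (hz.filter_mono nhdsWithin_le_nhds).frequently) ht

/-- Recentring: a point of a generic real form `X` where countably many sequences of functions of
bounded valence are all comparable with their maximum, and nearly constant nearby. -/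
theorem recentre [ProperSpace E] {ι α : Type*} [Countable α] (𝒰 : Ultrafilter ι) {X : Set E}
    (hX : IsClosed X) (hX0 : (0 : E) ∈ X) (hXa : ∀ x ∈ X, ∀ a ∈ X, ∀ s : ℝ, x + (s : ℂ) • a ∈ X)
    (hXc : ∀ e, ∃ a ∈ X, ∃ b ∈ X, e = a + Complex.I • b) {f : α → ι → E → ℂ}
    (hd : ∀ a, ∀ᶠ n in 𝒰, DifferentiableOn ℂ (f a n) (ball 0 1))
    (hV : ∀ a, ∃ K, ∀ᶠ n in 𝒰, Val K (ball 0 1) (f a n)) :
    ∃ x ∈ X, ‖x‖ < 1 / 4 ∧ ∀ a, ∃ c > (0 : ℝ), ∀ η > (0 : ℝ), ∃ ε > 0, ∀ᶠ n in 𝒰,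
      ∀ u ∈ ball x ε, (∀ y ∈ closedBall (0 : E) (1 / 2), c * ‖f a n y‖ ≤ ‖f a n u‖) ∧
        ∀ u' ∈ ball x ε, ‖f a n u' - f a n u‖ ≤ η * ‖f a n u‖ := by
  have hs : closedBall (0 : E) (1 / 2) ⊆ ball 0 1 := closedBall_subset_ball (by norm_num)
  have h1 : ∀ a n, ∃ y ∈ closedBall (0 : E) (1 / 2), DifferentiableOn ℂ (f a n) (ball 0 1) →
      ∀ z ∈ closedBall (0 : E) (1 / 2), ‖f a n z‖ ≤ ‖f a n y‖ := fun a n => by
    by_cases h : DifferentiableOn ℂ (f a n) (ball 0 1)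
    · obtain ⟨y, hy, hy'⟩ := (isCompact_closedBall (0 : E) (1 / 2)).exists_isMaxOn
        ⟨0, by simp⟩ (h.continuousOn.mono hs).norm
      exact ⟨y, hy, fun _ => hy'⟩
    · exact ⟨0, by simp, fun h' => absurd h' h⟩
  choose y hy hy' using h1
  have hd' : ∀ a, ∀ᶠ n in 𝒰, DifferentiableOn ℂ (fun z => f a n z / f a n (y a n))
      (ball 0 (1 / 2)) := fun a => (hd a).mono fun n hn => by
    simpa only [div_eq_mul_inv] using (hn.mono (ball_subset_closedBall.trans hs)).mul_const _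
  choose h hh using fun a => exists_ulim 𝒰 (hd' a) ((hd a).mono fun n hn z hz => by
    rw [norm_div]
    exact div_le_one_of_le₀ (hy' a n hn z (ball_subset_closedBall hz)) (norm_nonneg _))
  have hl : ∀ a (x v : E), DifferentiableOn ℂ (fun t : ℂ => h a (x + t • v))
      {t | x + t • v ∈ ball 0 (1 / 2)} := fun a x v =>
    ((hh a).comp (fun t : ℂ => x + t • v) (fun _ ht => ht) (by fun_prop)).differentiableOn
      ((hd' a).mono fun n hn => hn.comp (by fun_prop) fun _ ht => ht)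
      (isOpen_ball.preimage (by fun_prop))
  have hc : ∀ a, ContinuousOn (h a) (ball 0 (1 / 2)) := fun a =>
    (hh a).continuousOn ((hd' a).mono fun n hn => hn.continuousOn).frequently
  have := hX.completeSpace_coe
  have hD : Dense (⋂ a : {a // ∀ᶠ n in 𝒰, f a n (y a n) ≠ 0}, {x : X |
      x.1 ∈ (closedBall 0 (1 / 4))ᶜ ∪ ball 0 (1 / 2) ∩ h a.1 ⁻¹' {0}ᶜ}) := by
    refine dense_iInter_of_isOpen (fun a => (isClosed_closedBall.isOpen_compl.union
      ((hc a.1).isOpen_inter_preimage isOpen_ball isOpen_compl_singleton)).preimage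
        continuous_subtype_val) fun a x => ?_
    by_contra hx
    rw [← mem_compl_iff, ← interior_compl, mem_interior_iff_mem_nhds, nhds_subtype,
      mem_comap] at hx
    obtain ⟨O, hO, hO'⟩ := hx
    have h2 : ∀ z ∈ X, z ∈ O → z ∈ ball (0 : E) (1 / 2) ∧ h a.1 z = 0 := fun z hz hzO => by
      have := hO' (a := ⟨z, hz⟩) hzO
      simp only [mem_compl_iff, mem_ofPred_eq, mem_union, not_or, not_not] at this
      have h3 := closedBall_subset_ball (by norm_num : (1 : ℝ) / 4 < 1 / 2) this.1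
      exact ⟨h3, not_not.1 fun h => this.2 ⟨h3, h⟩⟩
    have hx := (h2 x x.2 (mem_of_mem_nhds hO)).1
    have h3 : ∀ z ∈ ball (0 : E) (1 / 2), h a.1 z = 0 := by
      intro z hz
      obtain ⟨p, hp, q, hq, e⟩ := hXc (z - x)
      have t1 : ∀ w v : E, Tendsto (fun s : ℝ => w + (s : ℂ) • v) (𝓝 0) (𝓝 w) := fun w v =>
        Continuous.tendsto' (by fun_prop) _ _ (by simp)
      have := line_id isOpen_ball (convex_ball _ _) (hl a.1) hx (v := z - x) (t := 1) ?_
        (by simpa using hz)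
      · simpa using this
      filter_upwards [(t1 x p).eventually (eventually_eventually_nhds.2 hO),
        (t1 x (z - x)).eventually (isOpen_ball.mem_nhds hx)] with s h4 h5
      have e' : x.1 + (s : ℂ) • (z - x) = x.1 + (s : ℂ) • p + ((s : ℂ) * Complex.I) • q := by
        rw [e, smul_add, smul_smul, add_assoc]
      rw [e'] at h5 ⊢
      refine line_id isOpen_ball (convex_ball _ _) (hl a.1)
        (h2 _ (hXa _ x.2 _ hp s) h4.self_of_nhds).1 ?_ h5
      exact ((t1 _ q).eventually h4).mono fun τ hτ =>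
        (h2 _ (hXa _ (hXa _ x.2 _ hp s) _ hq τ) hτ).2
    obtain ⟨K, hK⟩ := hV a.1
    obtain ⟨C, hC, hdb⟩ := dbl K
    have hs' : closedBall (0 : E) (1 / 2 / 2 ^ 1) ⊆ ball 0 (1 / 2) :=
      closedBall_subset_ball (by norm_num)
    have h4 := (tendstoLocallyUniformlyOn_iff_tendstoUniformlyOn_of_compact
      (isCompact_closedBall _ _)).1 ((hh a.1).mono hs')
    obtain ⟨n, h5, h6, h7, h8⟩ := ((Metric.tendstoUniformlyOn_iff.1 h4 C⁻¹ (by positivity)).and
      ((hd a.1).and (hK.and a.2))).exists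
    obtain ⟨z, hz, h9⟩ := hdb _ 0 1 one_pos h6 h7 1 _ (hy a.1 n)
    have h10 := h5 z hz
    rw [h3 z (hs' hz), dist_zero_left, norm_div, div_lt_iff₀ (norm_pos_iff.2 h8),
      lt_inv_mul_iff₀ (by positivity)] at h10
    rw [pow_one] at h9
    linarith
  obtain ⟨x, hx, hx'⟩ := hD.inter_open_nonempty {x : X | x.1 ∈ ball 0 (1 / 4)}
    (isOpen_ball.preimage continuous_subtype_val) ⟨⟨0, hX0⟩, by simp⟩
  have hx4 : ‖x.1‖ < 1 / 4 := mem_ball_zero_iff.1 hx
  have hsx : ball x.1 (1 / 4) ⊆ closedBall 0 (1 / 2) := ball_subset_closedBall.trans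
    (closedBall_subset_closedBall' (by rw [dist_zero_right]; linarith))
  refine ⟨x, x.2, hx4, fun a => ?_⟩
  obtain ⟨c, hc0, hc1⟩ : ∃ c > (0 : ℝ), ∀ᶠ n in 𝒰, c * ‖f a n (y a n)‖ ≤ ‖f a n x‖ := by
    by_cases ha : ∀ᶠ n in 𝒰, f a n (y a n) ≠ 0
    · obtain h2 | ⟨h2, h3⟩ := mem_iInter.1 hx' ⟨a, ha⟩
      · exact absurd (ball_subset_closedBall hx) h2
      have h4 : 0 < ‖h a x‖ := norm_pos_iff.2 h3
      refine ⟨_, half_pos h4, ?_⟩
      filter_upwards [ha, ((hh a).tendsto_at h2).norm.eventually_const_lt (half_lt_self h4)]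
        with n h5 h6
      rw [norm_div, lt_div_iff₀ (norm_pos_iff.2 h5)] at h6
      exact h6.le
    · refine ⟨1, one_pos, (Ultrafilter.eventually_not.2 ha).mono fun n hn => ?_⟩
      rw [not_not.1 hn, norm_zero, mul_zero]
      exact norm_nonneg _
  refine ⟨c / 2, half_pos hc0, fun η hη => ⟨min (1 / 4) (min (c / 16) (η * c / 32)),
    by positivity, ?_⟩⟩
  filter_upwards [hc1, hd a] with n h2 h3
  have h4 : ∀ u ∈ ball x.1 (min (1 / 4) (min (c / 16) (η * c / 32))),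
      ‖f a n u - f a n x‖ ≤ 8 * min (c / 16) (η * c / 32) * ‖f a n (y a n)‖ := fun u hu => by
    have h5 := lt_min_iff.1 (mem_ball.1 hu)
    have h6 := Complex.dist_le_div_mul_dist_of_mapsTo_ball (R₂ := 2 * ‖f a n (y a n)‖)
      (h3.mono (hsx.trans hs)) (fun z hz => mem_closedBall_iff_norm.2 ((norm_sub_le _ _).trans (by
        linarith [hy' a n h3 z (hsx hz), hy' a n h3 x (hsx (mem_ball_self (by norm_num)))]))) h5.1
    rw [dist_eq_norm] at h6
    nlinarith [h5.2, norm_nonneg (f a n (y a n))]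
  have h0 := norm_nonneg (f a n (y a n))
  intro u hu
  have h5 : c / 2 * ‖f a n (y a n)‖ ≤ ‖f a n u‖ := by
    have := mul_le_mul_of_nonneg_right (min_le_left (c / 16) (η * c / 32)) h0
    linarith [h4 u hu, norm_le_insert (f a n u) (f a n x)]
  refine ⟨fun z hz => le_trans (by gcongr; exact hy' a n h3 z hz) h5, fun u' hu' => ?_⟩
  have h6 := mul_le_mul_of_nonneg_right (min_le_right (c / 16) (η * c / 32)) h0
  have h7 := norm_sub_le (f a n u' - f a n x) (f a n u - f a n x)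
  rw [sub_sub_sub_cancel_right] at h7
  nlinarith [h4 u hu, h4 u' hu']

/-- Recentring in a polydisc at a point that is real in prescribed coordinates. -/
theorem recentre_pi {M ι α : Type} [Fintype M] [Countable α] (𝒰 : Ultrafilter ι) (R : Set M)
    {f : α → ι → (M → ℂ) → ℂ} (hd : ∀ a, ∀ᶠ n in 𝒰, DifferentiableOn ℂ (f a n) (ball 0 1))
    (hV : ∀ a, ∃ K, ∀ᶠ n in 𝒰, Val K (ball 0 1) (f a n)) :
    ∃ x : M → ℂ, (∀ m ∈ R, (x m).im = 0) ∧ ‖x‖ < 1 / 4 ∧ ∀ a, ∃ c > (0 : ℝ), ∀ η > (0 : ℝ),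
      ∃ ε > 0, ∀ᶠ n in 𝒰, ∀ u ∈ ball x ε,
        (∀ y ∈ closedBall (0 : M → ℂ) (1 / 2), c * ‖f a n y‖ ≤ ‖f a n u‖) ∧
        ∀ u' ∈ ball x ε, ‖f a n u' - f a n u‖ ≤ η * ‖f a n u‖ := by
  classical
  refine recentre 𝒰 (X := {x | ∀ m ∈ R, (x m).im = 0}) ?_ (fun _ _ => rfl)
    (fun x hx a ha s m hm => by simp [hx m hm, ha m hm]) (fun e => ⟨fun m => (e m).re,
      fun _ _ => rfl, fun m => (e m).im, fun _ _ => rfl, funext fun m => ?_⟩) hd hV
  · simp only [Set.ofPred_forall]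
    exact isClosed_iInter fun m => isClosed_iInter fun _ =>
      isClosed_eq (by fun_prop) continuous_const
  · simp [mul_comm Complex.I]

end Pool.Agent.P.MP_f17f76_ag.K
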