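import Mathlib

/-!
Weyl's inequality in inverse form and Heilbronn's recurrence theorem with a polynomial rate.
-/

namespace Pool.Agent.P.MP_f17f76_ag.K

open Finset Polynomial

/-- The additive character `e(x)`. -/
noncomputable def ee (x : ℝ) : ℂ := Complex.exp (Complex.I * (2 * Real.pi * x : ℝ))

theorem ee_add (x y : ℝ) : ee (x + y) = ee x * ee y := by
  rw [ee, ee, ee, ← Complex.exp_add]
  congr 1
  push_cast
  ring

theorem ee_zero : ee 0 = 1 := by simp [ee]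

theorem norm_ee (x : ℝ) : ‖ee x‖ = 1 := Complex.norm_exp_I_mul_ofReal _

theorem ee_int (m : ℤ) : ee m = 1 := by
  rw [ee, ← Complex.exp_int_mul_two_pi_mul_I m]
  congr 1
  push_cast
  ring

theorem conj_ee (x : ℝ) : (starRingEnd ℂ) (ee x) = ee (-x) := by
  rw [ee, ee, ← Complex.exp_conj]
  congr 1
  rw [map_mul, Complex.conj_I, Complex.conj_ofReal]
  push_cast
  ring

theorem norm_ee_sub_one (x : ℝ) : 4 * |x - round x| ≤ ‖ee x - 1‖ := by
  have h : ee x = ee (x - round x) := by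
    rw [sub_eq_add_neg, ee_add, ← Int.cast_neg, ee_int, mul_one]
  have h1 := abs_sub_round x
  rw [h, ee, Complex.norm_exp_I_mul_ofReal_sub_one]
  generalize x - round x = y at h1
  have h2 : |Real.pi * y| ≤ Real.pi / 2 := by
    rw [abs_mul, abs_of_pos Real.pi_pos]
    nlinarith [Real.pi_pos]
  have h3 := Real.mul_abs_le_abs_sin h2
  rw [abs_mul, abs_of_pos Real.pi_pos, ← mul_assoc, div_mul_cancel₀ _ Real.pi_pos.ne'] at h3
  rw [show 2 * Real.pi * y / 2 = Real.pi * y by ring, Real.norm_eq_abs, abs_mul, abs_two]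
  linarith

theorem geom_bound (c α : ℝ) (a b : ℤ) :
    2 * |α - round α| * ‖∑ t ∈ Ico a b, ee (c + α * t)‖ ≤ 1 := by
  rcases le_or_gt a b with h | h
  · have key : ∀ n : ℕ, (ee α - 1) * ∑ t ∈ Ico a (a + n), ee (c + α * t) =
        ee (c + α * (a + n : ℤ)) - ee (c + α * a) := by
      intro n
      induction n with
      | zero => simp
      | succ n ih =>
        rw [Nat.cast_succ, ← add_assoc, ← insert_Ico_right_eq_Ico_add_one (by omega),
          sum_insert (by simp), mul_add, ih, show c + α * ((a + n + 1 : ℤ) : ℝ) =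
            α + (c + α * (a + n : ℤ)) by push_cast; ring, ee_add α]
        ring
    obtain ⟨n, rfl⟩ := Int.le.dest h
    have h1 := congrArg norm (key n)
    have h2 := norm_sub_le (ee (c + α * (a + n : ℤ))) (ee (c + α * a))
    rw [norm_mul] at h1
    rw [norm_ee, norm_ee, ← h1] at h2
    have h3 := mul_le_mul_of_nonneg_right (norm_ee_sub_one α)
      (norm_nonneg (∑ t ∈ Ico a (a + n), ee (c + α * t)))
    linarith
  · simp [Ico_eq_empty_of_le h.le]

theorem card_int_le (S : Finset ℤ) {u v : ℝ} (huv : u ≤ v) (h : ∀ j ∈ S, u ≤ j ∧ (j : ℝ) ≤ v) :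
    (S.card : ℝ) ≤ v - u + 1 := by
  have h1 : S ⊆ Icc ⌈u⌉ ⌊v⌋ := fun j hj =>
    mem_Icc.2 ⟨Int.ceil_le.2 (h j hj).1, Int.le_floor.2 (h j hj).2⟩
  have h2 : (S.card : ℝ) ≤ ((⌊v⌋ + 1 - ⌈u⌉).toNat : ℝ) := by
    rw [← Int.card_Icc]
    exact Nat.cast_le.2 (card_le_card h1)
  refine h2.trans ?_
  rcases le_or_gt 0 (⌊v⌋ + 1 - ⌈u⌉) with h3 | h3
  · rw [← Int.cast_natCast, Int.toNat_of_nonneg h3]
    push_cast
    linarith [Int.floor_le v, Int.le_ceil u]
  · rw [Int.toNat_of_nonpos h3.le]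
    push_cast
    linarith

/-- Many small multiples force a very small multiple with a small factor. -/
theorem vino {N : ℕ} {L ε α : ℝ} (hL : 1 ≤ L) (hN : 8 * L ≤ N) (hε : 32 * L * ε ≤ 1)
    (S : Finset ℤ) (hS : ∀ h ∈ S, |h| ≤ N ∧ ∃ m : ℤ, |h * α - m| ≤ ε) (hc : N ≤ L * S.card) :
    ∃ q : ℕ, 1 ≤ q ∧ (q : ℝ) ≤ 5 * L ∧ ∃ m : ℤ, |q * α - m| * N ≤ 80 * L ^ 2 * ε := by
  classical
  choose! hS m hm using hS
  set Q : ℤ := ⌈4 * L⌉ with hQ
  have hQ1 : 4 * L ≤ Q := Int.le_ceil _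
  have hQ2 : (Q : ℝ) ≤ 5 * L := by linarith [Int.ceil_lt_add_one (4 * L)]
  have hQ0 : 0 < Q := Int.ceil_pos.2 (by linarith)
  have hQr : (0 : ℝ) < Q := Int.cast_pos.2 hQ0
  obtain ⟨h, hh, h', hh', hlt, e⟩ : ∃ h ∈ S, ∃ h' ∈ S, h < h' ∧ h / Q = h' / Q := by
    have hcard : (S.image fun h => h / Q).card < S.card := by
      have h1 := card_int_le (S.image fun h => h / Q) (u := -(N / Q) - 1) (v := N / Q)
        (by have : (0 : ℝ) ≤ N / Q := by positivity
            linarith) fun j hj => by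
        obtain ⟨h, hh, rfl⟩ := mem_image.1 hj
        have a1 : ((h / Q * Q : ℤ) : ℝ) ≤ h := Int.cast_le.2 (Int.ediv_mul_le _ hQ0.ne')
        have a2 : (h : ℝ) < ((h / Q + 1) * Q : ℤ) := Int.cast_lt.2
          (Int.lt_ediv_add_one_mul_self _ hQ0)
        have a3 : ((|h| : ℤ) : ℝ) ≤ (N : ℤ) := Int.cast_le.2 (hS h hh)
        push_cast at a1 a2 a3
        obtain ⟨a4, a5⟩ := abs_le.1 a3
        refine ⟨?_, (le_div_iff₀ hQr).2 (by linarith)⟩
        have : -((h / Q : ℤ) + 1 : ℝ) ≤ N / Q := (le_div_iff₀ hQr).2 (by linarith)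
        linarith
      have h2 : (N : ℝ) / Q * (4 * L) ≤ N := by
        rw [div_mul_eq_mul_div, div_le_iff₀ hQr]
        exact mul_le_mul_of_nonneg_left hQ1 (Nat.cast_nonneg _)
      refine Nat.cast_lt (α := ℝ).1 (lt_of_mul_lt_mul_left (a := L) ?_ (by linarith))
      nlinarith
    obtain ⟨x, hx, y, hy, hne, e⟩ := exists_ne_map_eq_of_card_lt_of_maps_to hcard
      fun a ha => mem_coe.2 (mem_image_of_mem _ ha)
    rcases lt_or_gt_of_ne hne with h | h
    · exact ⟨x, hx, y, hy, h, e⟩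
    · exact ⟨y, hy, x, hx, h, e.symm⟩
  obtain ⟨q, hq⟩ := Int.le.dest hlt.le
  have hq1 : 1 ≤ q := by omega
  have hqQ : (q : ℤ) ≤ Q := by
    have a1 := Int.ediv_mul_le h hQ0.ne'
    have a2 := Int.lt_ediv_add_one_mul_self h' hQ0
    rw [← e] at a2
    linarith
  have hqL : (q : ℝ) ≤ 5 * L := le_trans (by exact_mod_cast hqQ) hQ2
  refine ⟨q, hq1, hqL, m h' - m h, ?_⟩
  set θ : ℝ := q * α - (m h' - m h : ℤ) with hθ
  have hε0 : 0 ≤ ε := (abs_nonneg _).trans (hm h hh)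
  have hθε : |θ| ≤ 2 * ε := by
    have a1 := hm h hh
    have a2 := hm h' hh'
    rw [← hq] at a2
    have : θ = (((h + q : ℤ) : ℝ) * α - m (h + q)) - (h * α - m h) := by
      rw [hθ, ← hq]
      push_cast
      ring
    rw [this]
    linarith [abs_sub (((h + q : ℤ) : ℝ) * α - m (h + q)) (h * α - m h)]
  rcases (abs_nonneg θ).eq_or_lt with h0 | h0
  · rw [← h0, zero_mul]
    positivity
  have hq0 : (0 : ℤ) < q := by omega
  have hqr : (0 : ℝ) < q := by exact_mod_cast hq0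
  have hdec : ∀ x ∈ S, |(x % q : ℤ) * α + (x / q : ℤ) * θ - (m x - x / q * (m h' - m h) : ℤ)|
      ≤ ε := fun x hx => by
    convert hm x hx using 2
    have : (x : ℝ) = ((x % q : ℤ) : ℝ) + q * (x / q : ℤ) := by exact_mod_cast (Int.emod_add_mul_ediv x q).symm
    rw [hθ]
    conv_rhs => rw [this]
    push_cast
    ring
  have hj : ∀ x ∈ S, |((x / q : ℤ) : ℝ)| ≤ N / q + 1 := fun x hx => by
    have a1 : ((x / q * q : ℤ) : ℝ) ≤ x := Int.cast_le.2 (Int.ediv_mul_le _ hq0.ne')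
    have a2 : (x : ℝ) < ((x / q + 1) * q : ℤ) := Int.cast_lt.2
      (Int.lt_ediv_add_one_mul_self _ hq0)
    have a3 : ((|x| : ℤ) : ℝ) ≤ (N : ℤ) := Int.cast_le.2 (hS x hx)
    push_cast at a1 a2 a3
    obtain ⟨a4, a5⟩ := abs_le.1 a3
    have b1 : ((x / q : ℤ) : ℝ) ≤ N / q := (le_div_iff₀ hqr).2 (by linarith)
    have b2 : -((x / q : ℤ) + 1 : ℝ) ≤ N / q := (le_div_iff₀ hqr).2 (by linarith)
    exact abs_le.2 ⟨by linarith, by linarith⟩
  let B : ℝ := (N / q + 1) * |θ| + ε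
  have hB : 0 ≤ B := by positivity
  have c1 : ∀ r : ℤ, ((S.filter fun x => x % q = r).card : ℝ) ≤ (2 * B + 1) * (4 * ε / |θ|) := by
    intro r
    let n : ℤ → ℤ := fun x => m x - x / q * (m h' - m h)
    have d1 : (((S.filter fun x => x % q = r).image n).card : ℝ) ≤ 2 * B + 1 := by
      have := card_int_le ((S.filter fun x => x % q = r).image n) (u := r * α - B)
        (v := r * α + B) (by linarith) fun j hj' => by
        obtain ⟨x, hx', rfl⟩ := mem_image.1 hj'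
        obtain ⟨hx, rfl⟩ := mem_filter.1 hx'
        have a1 := abs_le.1 (hdec x hx)
        have a2 : |((x / q : ℤ) : ℝ) * θ| ≤ (N / q + 1) * |θ| := by
          rw [abs_mul]
          exact mul_le_mul_of_nonneg_right (hj x hx) h0.le
        have a3 := abs_le.1 a2
        constructor <;> simp only [n, B] <;> linarith [a1.1, a1.2, a3.1, a3.2]
      linarith
    rw [card_eq_sum_card_image n, Nat.cast_sum]
    refine (sum_le_card_nsmul _ _ (4 * ε / |θ|) fun k _ => ?_).trans ?_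
    · rw [← card_image_of_injOn (f := fun x : ℤ => x / (q : ℤ)) fun x hx y hy e => by
        have a1 := (mem_filter.1 (mem_filter.1 hx).1).2
        have a2 := (mem_filter.1 (mem_filter.1 hy).1).2
        rw [← Int.emod_add_mul_ediv x q, ← Int.emod_add_mul_ediv y q, a1, a2]
        exact congrArg (fun z => r + q * z) e]
      have hθ0 : θ ≠ 0 := abs_pos.1 h0
      have a0 : 0 ≤ ε / |θ| := by positivity
      have := card_int_le (((S.filter fun x => x % q = r).filter fun x => n x = k).image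
        fun x => x / q) (u := (k - r * α) / θ - ε / |θ|) (v := (k - r * α) / θ + ε / |θ|)
        (by linarith) fun j hj' => by
        obtain ⟨x, hx1, rfl⟩ := mem_image.1 hj'
        obtain ⟨hx2, rfl⟩ := mem_filter.1 hx1
        obtain ⟨hx, rfl⟩ := mem_filter.1 hx2
        have a1 : |((x / q : ℤ) : ℝ) - (n x - (x % q : ℤ) * α) / θ| ≤ ε / |θ| := by
          rw [le_div_iff₀ h0, ← abs_mul]
          refine le_trans (le_of_eq ?_) (hdec x hx)
          rw [sub_mul, div_mul_cancel₀ _ hθ0]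
          congr 1
          change _ = _ - ((n x : ℤ) : ℝ)
          ring
        have a2 := abs_le.1 a1
        constructor <;> linarith [a2.1, a2.2]
      have a3 : 1 ≤ 2 * (ε / |θ|) := by
        rw [← mul_div_assoc, le_div_iff₀ h0]
        linarith
      rw [mul_div_assoc]
      linarith
    · rw [nsmul_eq_mul]
      exact mul_le_mul_of_nonneg_right d1 (by positivity)
  have c2 : (S.card : ℝ) ≤ q * ((2 * B + 1) * (4 * ε / |θ|)) := by
    rw [card_eq_sum_card_fiberwise (f := fun x : ℤ => x % (q : ℤ)) (t := Ico (0 : ℤ) (q : ℤ)) fun x _ =>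
      mem_coe.2 (mem_Ico.2 ⟨Int.emod_nonneg _ hq0.ne', Int.emod_lt_of_pos _ hq0⟩), Nat.cast_sum]
    refine (sum_le_card_nsmul _ _ _ fun r _ => c1 r).trans_eq ?_
    simp
  have c3 : q * ((2 * B + 1) * (4 * ε / |θ|)) * |θ| =
      8 * ε * (N + q) * |θ| + q * (2 * ε + 1) * (4 * ε) := by
    simp only [B]
    field_simp
    ring
  have c4 := mul_le_mul_of_nonneg_right c2 h0.le
  rw [c3] at c4
  have c5 : N * |θ| ≤ L * (8 * ε * (N + q) * |θ| + q * (2 * ε + 1) * (4 * ε)) := by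
    have := mul_le_mul_of_nonneg_right hc h0.le
    have := mul_le_mul_of_nonneg_left c4 (show 0 ≤ L by linarith)
    nlinarith
  have c6 : L * (8 * ε * (N + q) * |θ|) ≤ N * |θ| / 2 := by
    have a1 : (N + q : ℝ) * |θ| ≤ 2 * N * |θ| := mul_le_mul_of_nonneg_right (by linarith) h0.le
    have a2 : 0 ≤ (N + q : ℝ) * |θ| := by positivity
    nlinarith
  have c7 : q * (2 * ε + 1) * (4 * ε) ≤ 5 * L * 2 * (4 * ε) :=
    mul_le_mul_of_nonneg_right (mul_le_mul hqL (by nlinarith) (by positivity) (by linarith))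
      (by positivity)
  nlinarith

theorem diff_poly {k : ℕ} {p : ℝ[X]} (hp : p.natDegree ≤ k + 1) (h : ℝ) :
    (taylor h p - p).natDegree ≤ k ∧ (taylor h p - p).coeff k = (k + 1) * h * p.coeff (k + 1) := by
  have key : ∀ n, k ≤ n → (taylor h p - p).coeff n = (n + 1) * h * p.coeff (n + 1) := by
    intro n hn
    have h1 : (hasseDeriv n p).natDegree < 2 := (natDegree_hasseDeriv_le p n).trans_lt (by omega)
    rw [coeff_sub, taylor_coeff, eval_eq_sum_range' h1]
    simp [sum_range_succ, hasseDeriv_coeff, add_comm 1 n]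
    ring
  refine ⟨natDegree_le_iff_coeff_eq_zero.2 fun n hn => ?_, key k le_rfl⟩
  rw [key n hn.le, coeff_eq_zero_of_natDegree_lt (by omega), mul_zero]

theorem vdc (f : ℤ → ℝ) {a b : ℤ} {N : ℕ} (h : b - a ≤ N) :
    ‖∑ t ∈ Ico a b, ee (f t)‖ ^ 2 ≤ ∑ h ∈ Icc (-(N : ℤ)) N,
      ‖∑ t ∈ Ico (max a (a - h)) (min b (b - h)), ee (f (t + h) - f t)‖ := by
  have e : ((‖∑ t ∈ Ico a b, ee (f t)‖ ^ 2 : ℝ) : ℂ) = ∑ h ∈ Icc (-(N : ℤ)) N,
      ∑ t ∈ Ico (max a (a - h)) (min b (b - h)), ee (f (t + h) - f t) := by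
    rw [Complex.ofReal_pow, ← Complex.conj_mul', map_sum, sum_mul_sum, sum_sigma', sum_sigma']
    refine sum_bij' (fun x _ => ⟨x.2 - x.1, x.1⟩) (fun y _ => ⟨y.2, y.2 + y.1⟩) ?_ ?_ ?_ ?_ ?_
    · rintro ⟨s, t⟩ hx
      simp only [mem_sigma, mem_Ico, mem_Icc] at hx ⊢
      omega
    · rintro ⟨s, t⟩ hx
      simp only [mem_sigma, mem_Ico, mem_Icc] at hx ⊢
      omega
    · rintro ⟨s, t⟩ _
      simp
    · rintro ⟨s, t⟩ _
      simp
    · rintro ⟨s, t⟩ _
      simp only [conj_ee, ← ee_add, add_sub_cancel]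
      rw [neg_add_eq_sub]
  have := congrArg norm e
  rw [Complex.norm_real, Real.norm_of_nonneg (by positivity)] at this
  exact this.trans_le (norm_sum_le _ _)

theorem norm_sum_ee_le (f : ℤ → ℝ) {a b : ℤ} {N : ℕ} (h : b - a ≤ N) :
    ‖∑ t ∈ Ico a b, ee (f t)‖ ≤ N := by
  refine (norm_sum_le _ _).trans ?_
  simp only [norm_ee, sum_const, Int.card_Ico, nsmul_eq_mul, mul_one, Nat.cast_le]
  omega

/-- Inverse form of Weyl's inequality. -/
theorem weyl (k : ℕ) : ∃ C : ℕ, ∀ (p : ℝ[X]) (M : ℝ) (N : ℕ) (a b : ℤ), p.natDegree ≤ k + 1 →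
    2 ≤ M → b - a ≤ N → M ^ C ≤ N → N ≤ M * ‖∑ t ∈ Ico a b, ee (p.eval (t : ℝ))‖ →
      ∃ q : ℕ, 1 ≤ q ∧ (q : ℝ) ≤ M ^ C ∧ ∃ m : ℤ,
        |q * p.coeff (k + 1) - m| * N ^ (k + 1) ≤ M ^ C := by
  induction k with
  | zero =>
    refine ⟨1, fun p M N a b hp hM _ _ hS => ⟨1, le_rfl, by simp; linarith,
      round (p.coeff 1), ?_⟩⟩
    have h1 := geom_bound (p.coeff 0) (p.coeff 1) a b
    have h2 : ∀ t : ℝ, p.eval t = p.coeff 0 + p.coeff 1 * t := fun t => by
      rw [eval_eq_sum_range' (Nat.lt_succ_of_le hp)]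
      simp [sum_range_succ]
    simp only [h2] at hS
    simp only [Nat.cast_one, one_mul, zero_add, pow_one]
    have h3 := mul_le_mul_of_nonneg_left hS (abs_nonneg (p.coeff 1 - round (p.coeff 1)))
    nlinarith
  | succ k ih =>
    obtain ⟨C, hC⟩ := ih
    refine ⟨15 * C + 20 + k, fun p M N a b hp hM hab hN hS => ?_⟩
    classical
    have hM1 : 1 ≤ M := by linarith
    have hpow : ∀ i j, i ≤ j → M ^ i ≤ M ^ j := fun i j h => pow_le_pow_right₀ hM1 h
    have h2 : ∀ i, (2 : ℝ) ^ i ≤ M ^ i := fun i => pow_le_pow_left₀ (by norm_num) hM i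
    set M' := 6 * M ^ 2 with hM'
    have hM'5 : M' ≤ M ^ 5 := by
      have := h2 3
      have : 0 ≤ M ^ 2 := by positivity
      rw [show M ^ 5 = M ^ 3 * M ^ 2 by ring]
      nlinarith
    have hP : M' ^ C ≤ M ^ (5 * C) := by
      rw [pow_mul]
      exact pow_le_pow_left₀ (by positivity) hM'5 C
    have hP1 : 1 ≤ M' ^ C := one_le_pow₀ (by nlinarith)
    have hN1 : (1 : ℝ) ≤ N := (one_le_pow₀ hM1).trans hN
    let T : ℤ → ℝ := fun h => ‖∑ t ∈ Ico (max a (a - h)) (min b (b - h)),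
      ee ((taylor (h : ℝ) p - p).eval (t : ℝ))‖
    have hv : ‖∑ t ∈ Ico a b, ee (p.eval (t : ℝ))‖ ^ 2 ≤ ∑ h ∈ Icc (-(N : ℤ)) N, T h := by
      simpa only [T, eval_sub, taylor_eval, Int.cast_add] using
        vdc (fun t => p.eval (t : ℝ)) hab
    let G := (Icc (-(N : ℤ)) N).filter fun h => N ≤ M' * T h
    have hG : N ≤ 2 * M ^ 2 * G.card := by
      rw [← sum_filter_add_sum_filter_not (Icc (-(N : ℤ)) N) fun h => N ≤ M' * T h] at hv
      have a1 := sum_le_card_nsmul G T N fun h _ => norm_sum_ee_le _ (by omega)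
      have a2 := sum_le_card_nsmul ((Icc (-(N : ℤ)) N).filter fun h => ¬ N ≤ M' * T h) T (N / M')
        fun h hh => (le_div_iff₀' (by positivity)).2 (not_le.1 (mem_filter.1 hh).2).le
      have a3 : (((Icc (-(N : ℤ)) N).filter fun h => ¬ N ≤ M' * T h).card : ℝ) ≤ 3 * N := by
        have := card_int_le ((Icc (-(N : ℤ)) N).filter fun h => ¬ N ≤ M' * T h) (u := -N)
          (v := N) (by linarith) fun j hj => by exact_mod_cast mem_Icc.1 (mem_filter.1 hj).1
        linarith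
      rw [nsmul_eq_mul] at a1 a2
      have a4 := mul_le_mul_of_nonneg_right a3 (show (0 : ℝ) ≤ N / M' by positivity)
      have a5 : (N : ℝ) ^ 2 ≤ M ^ 2 * (G.card * N + 3 * N * (N / M')) := by
        refine (pow_le_pow_left₀ (by positivity) hS 2).trans ?_
        rw [mul_pow]
        exact mul_le_mul_of_nonneg_left (by linarith) (by positivity)
      have a6 : M ^ 2 * (3 * N * (N / M')) = N ^ 2 / 2 := by
        rw [hM']
        field_simp
        ring
      refine le_of_mul_le_mul_right ?_ (show (0 : ℝ) < N by linarith)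
      nlinarith
    choose! q hq1 hq2 m hm using fun h (hh : h ∈ G) => hC (taylor (h : ℝ) p - p) M' N _ _
      (diff_poly hp h).1 (by nlinarith) (by omega)
      (hP.trans ((hpow _ _ (by omega)).trans hN)) (mem_filter.1 hh).2
    obtain ⟨q₀, hq₀, hq₀G⟩ := exists_le_card_fiber_of_nsmul_le_card_of_maps_to (s := G)
      (t := Icc 1 ⌊M' ^ C⌋₊) (f := q) (b := (G.card : ℝ) / M' ^ C)
      (fun h hh => mem_Icc.2 ⟨hq1 h hh, Nat.le_floor (hq2 h hh)⟩)
      ⟨1, mem_Icc.2 ⟨le_rfl, Nat.le_floor (by simpa using hP1)⟩⟩ (by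
        rw [nsmul_eq_mul, Nat.card_Icc, Nat.add_sub_cancel, mul_comm, div_mul_eq_mul_div,
          div_le_iff₀ (by positivity)]
        exact mul_le_mul_of_nonneg_left (Nat.floor_le (by positivity)) (Nat.cast_nonneg _))
    have hq₀1 := (mem_Icc.1 hq₀).1
    have hq₀2 : (q₀ : ℝ) ≤ M' ^ C := (Nat.cast_le.2 (mem_Icc.1 hq₀).2).trans
      (Nat.floor_le (by positivity))
    set L := 2 * M ^ 2 * M' ^ C with hL
    have hL5 : L ≤ M ^ (5 * C + 3) := by
      rw [pow_add, mul_comm (M ^ (5 * C))]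
      refine mul_le_mul ?_ hP (by positivity) (by positivity)
      have : 0 ≤ M ^ 2 := by positivity
      rw [pow_succ M 2]
      nlinarith
    have hL0 : 1 ≤ L := one_le_mul_of_one_le_of_one_le (by nlinarith) hP1
    have hNk : (N : ℝ) ≤ N ^ (k + 1) := le_self_pow₀ hN1 (by omega)
    have mulp : ∀ {x y : ℝ} {i j l : ℕ}, 0 ≤ y → x ≤ M ^ i → y ≤ M ^ j → i + j ≤ l →
        x * y ≤ M ^ l := fun hy h1 h2' h3 =>
      (mul_le_mul h1 h2' hy (by positivity)).trans (by rw [← pow_add]; exact hpow _ _ h3)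
    obtain ⟨q', hq'1, hq'2, m', hm'⟩ := vino (N := N) (L := L) (ε := M' ^ C / N ^ (k + 1))
      (α := q₀ * (k + 2) * p.coeff (k + 2)) hL0
      ((mulp (by linarith) ((by norm_num : (8 : ℝ) ≤ 2 ^ 3).trans (h2 3)) hL5
        (by omega)).trans hN) (by
        rw [← mul_div_assoc, div_le_one (by positivity)]
        exact (mulp (by positivity) (mulp (by linarith)
          ((by norm_num : (32 : ℝ) ≤ 2 ^ 5).trans (h2 5)) hL5 le_rfl) hP (by omega)).trans
            (hN.trans hNk))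
      (G.filter fun h => q h = q₀) (fun h hh => by
        obtain ⟨hh, e⟩ := mem_filter.1 hh
        refine ⟨abs_le.2 (mem_Icc.1 (mem_filter.1 hh).1), m h, ?_⟩
        have := hm h hh
        rw [(diff_poly hp h).2, e] at this
        rw [le_div_iff₀ (by positivity)]
        refine le_trans (le_of_eq ?_) this
        congr 3
        push_cast
        ring) (by
        rw [div_le_iff₀ (by positivity)] at hq₀G
        have := mul_le_mul_of_nonneg_left hq₀G (show 0 ≤ 2 * M ^ 2 by positivity)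
        rw [hL]
        linarith)
    refine ⟨q' * q₀ * (k + 2), Nat.mul_pos (Nat.mul_pos hq'1 hq₀1) (by omega), ?_, m', ?_⟩
    · push_cast
      have b1 : (q' : ℝ) ≤ M ^ (3 + (5 * C + 3)) := hq'2.trans (mulp (by linarith)
        ((by norm_num : (5 : ℝ) ≤ 2 ^ 3).trans (h2 3)) hL5 le_rfl)
      have b2 : (k + 2 : ℝ) ≤ M ^ (k + 2) := le_trans (by
        exact_mod_cast (Nat.lt_two_pow_self (n := k + 2)).le) (h2 _)
      exact mulp (by positivity) (mulp (by positivity) b1 (hq₀2.trans hP) le_rfl) b2 (by omega)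
    · rw [← mul_div_assoc, le_div_iff₀ (by positivity)] at hm'
      have b1 : 80 * L ^ 2 * M' ^ C ≤ M ^ (15 * C + 20 + k) := by
        rw [pow_two L]
        exact mulp (by positivity) (mulp (by positivity)
          ((by norm_num : (80 : ℝ) ≤ 2 ^ 7).trans (h2 7))
          (mulp (by linarith) hL5 hL5 le_rfl) le_rfl) hP (by omega)
      refine le_trans (le_of_eq ?_) (hm'.trans b1)
      push_cast
      rw [mul_assoc _ (N : ℝ), ← pow_succ']
      congr 3
      ring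

/-- Heilbronn's theorem with a polynomial rate. -/
theorem heilbronn (k : ℕ) : ∃ C : ℕ, ∀ (K : ℕ) (β : ℝ), 2 ≤ K →
    ∃ t : ℕ, 1 ≤ t ∧ t ≤ K ^ C ∧ ∃ m : ℤ, |t ^ (k + 1) * β - m| * K ≤ 1 := by
  obtain ⟨C, hC⟩ := weyl k
  refine ⟨3 * C + 2, fun K β hK => ?_⟩
  by_contra hcon
  push Not at hcon
  set N := K ^ (3 * C + 2) with hN
  have hK2 : (2 : ℝ) ≤ K := by exact_mod_cast hK
  have hN1 : 1 ≤ N := Nat.one_le_pow _ _ (by omega)
  have hNr : (1 : ℝ) ≤ N := by exact_mod_cast hN1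
  let S : ℤ → ℂ := fun j => ∑ t ∈ Ico (1 : ℤ) (N + 1), ee (j * β * t ^ (k + 1))
  let J := Ico (0 : ℤ) (K ^ 2 : ℕ)
  have hJ : (J.card : ℝ) = K ^ 2 := by
    simp only [J, Int.card_Ico, sub_zero, Int.toNat_natCast]
    push_cast
    rfl
  obtain ⟨j, hj0, hjK, hjS⟩ : ∃ j : ℤ, j ≠ 0 ∧ |j| ≤ (K ^ 2 : ℕ) ∧ N ≤ 2 * K ^ 2 * ‖S j‖ := by
    by_contra h
    push Not at h
    have e : ∑ t ∈ Ico (1 : ℤ) (N + 1), ((‖∑ i ∈ J, ee (0 + β * t ^ (k + 1) * i)‖ ^ 2 : ℝ) : ℂ) =
        ∑ i ∈ J, ∑ i' ∈ J, S (i' - i) := by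
      simp only [S, Complex.ofReal_pow, ← Complex.conj_mul', map_sum, sum_mul_sum, conj_ee,
        ← ee_add]
      rw [sum_comm]
      refine sum_congr rfl fun i _ => ?_
      rw [sum_comm]
      refine sum_congr rfl fun i' _ => sum_congr rfl fun t _ => ?_
      congr 1
      push_cast
      ring
    have a1 : ∑ t ∈ Ico (1 : ℤ) (N + 1), ‖∑ i ∈ J, ee (0 + β * t ^ (k + 1) * i)‖ ^ 2 ≤
        N * (K ^ 2 / 4) := by
      refine (sum_le_card_nsmul _ _ (K ^ 2 / 4 : ℝ) fun t ht => ?_).trans_eq (by simp)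
      obtain ⟨n, rfl⟩ := Int.eq_ofNat_of_zero_le (show 0 ≤ t by have := mem_Ico.1 ht; omega)
      have b1 := hcon n (by have := mem_Ico.1 ht; omega) (by have := mem_Ico.1 ht; omega)
        (round (β * ((n : ℤ) : ℝ) ^ (k + 1)))
      have b2 := geom_bound 0 (β * ((n : ℤ) : ℝ) ^ (k + 1)) 0 (K ^ 2 : ℕ)
      rw [mul_comm _ β, ← Int.cast_natCast n] at b1
      have b3 := mul_le_mul_of_nonneg_right b1.le
        (norm_nonneg (∑ i ∈ J, ee (0 + β * ((n : ℤ) : ℝ) ^ (k + 1) * i)))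
      have b4 : ‖∑ i ∈ J, ee (0 + β * ((n : ℤ) : ℝ) ^ (k + 1) * i)‖ ≤ K / 2 := by nlinarith
      exact (pow_le_pow_left₀ (norm_nonneg _) b4 2).trans_eq (by ring)
    have a2 : ∀ i ∈ J, (N : ℝ) / 2 ≤ (∑ i' ∈ J, S (i' - i)).re := by
      intro i hi
      rw [← add_sum_erase _ _ hi, sub_self, Complex.add_re]
      have b1 : (S 0).re = N := by simp [S, ee_zero]
      have b2 : ‖∑ i' ∈ J.erase i, S (i' - i)‖ ≤ N / 2 := by
        refine (norm_sum_le _ _).trans ((sum_le_card_nsmul _ _ (N / (2 * K ^ 2) : ℝ)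
          fun i' hi' => (le_div_iff₀' (by positivity)).2 (h _ (sub_ne_zero.2 (mem_erase.1 hi').1)
            ?_).le).trans ?_)
        · have := mem_Ico.1 hi
          have := mem_Ico.1 (mem_erase.1 hi').2
          exact abs_le.2 ⟨by omega, by omega⟩
        · rw [nsmul_eq_mul]
          refine (mul_le_mul_of_nonneg_right ((Nat.cast_le.2 (card_erase_le)).trans_eq hJ)
            (by positivity)).trans_eq ?_
          field_simp
      linarith [(abs_le.1 ((Complex.abs_re_le_norm _).trans b2)).1]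
    have a3 := card_nsmul_le_sum _ _ _ a2
    rw [← Complex.re_sum, ← e, Complex.re_sum, nsmul_eq_mul, hJ] at a3
    simp only [Complex.ofReal_re] at a3
    have : (0 : ℝ) < N * K ^ 2 := by positivity
    nlinarith
  have hM : (2 * K ^ 2 : ℝ) ^ C ≤ K ^ (3 * C) := by
    rw [pow_mul]
    exact pow_le_pow_left₀ (by positivity) (by rw [pow_succ _ 2]; nlinarith) C
  have hNK : (N : ℝ) = K ^ (3 * C) * K ^ 2 := by
    rw [hN, ← pow_add]
    push_cast
    rfl
  have hKC : (0 : ℝ) < K ^ (3 * C) := by positivity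
  obtain ⟨q, hq1, hq2, m, hm⟩ := hC (monomial (k + 1) (j * β)) (2 * K ^ 2) N 1 (N + 1)
    (natDegree_monomial_le _) (by nlinarith) (by omega) (hM.trans (by
      rw [hNK]
      exact le_mul_of_one_le_right hKC.le (by nlinarith)))
    (by simpa only [eval_monomial] using hjS)
  rw [coeff_monomial, if_pos rfl] at hm
  have hjn : (j.natAbs : ℝ) ≤ K ^ 2 := by
    rw [← Int.cast_natCast, Int.natCast_natAbs]
    exact_mod_cast hjK
  have ht : ((q * j.natAbs : ℕ) : ℝ) ≤ N := by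
    push_cast [-Int.natCast_natAbs]
    rw [hNK]
    exact mul_le_mul (hq2.trans hM) hjn (by positivity) (by positivity)
  have h1 := hcon (q * j.natAbs) (Nat.mul_pos hq1 (Int.natAbs_pos.2 hj0)) (Nat.cast_le.1 ht)
    ((q * j.natAbs : ℕ) ^ k * (j.sign * m))
  have h2 : |((q * j.natAbs : ℕ) : ℝ) ^ (k + 1) * β -
      (((q * j.natAbs : ℕ) ^ k * (j.sign * m) : ℤ) : ℝ)| =
      ((q * j.natAbs : ℕ) : ℝ) ^ k * |q * (j * β) - m| := by
    have e1 : (j.natAbs : ℝ) = j.sign * j := by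
      rw [← Int.cast_natCast, ← Int.sign_mul_self_eq_natAbs, Int.cast_mul]
    have e2 : |(j.sign : ℝ)| = 1 := by
      rw [← Int.cast_abs, Int.abs_sign_of_ne_zero hj0, Int.cast_one]
    rw [← one_mul |q * (j * β) - m|, ← e2, ← abs_mul,
      ← abs_of_nonneg (show 0 ≤ ((q * j.natAbs : ℕ) : ℝ) ^ k by positivity), ← abs_mul, pow_succ,
      Int.cast_mul, Int.cast_pow, Int.cast_natCast, mul_assoc, ← mul_sub]
    congr 2
    rw [Nat.cast_mul, e1]
    push_cast
    ring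
  rw [h2] at h1
  have h3 : ((q * j.natAbs : ℕ) : ℝ) ^ k * |q * (j * β) - m| * N ≤ K ^ (3 * C) := by
    refine le_trans ?_ (hm.trans hM)
    rw [pow_succ, mul_comm _ |q * (j * β) - m|, mul_assoc]
    exact mul_le_mul_of_nonneg_left (mul_le_mul_of_nonneg_right
      (pow_le_pow_left₀ (by positivity) ht k) (by positivity)) (abs_nonneg _)
  rw [hNK] at h3
  generalize ((q * j.natAbs : ℕ) : ℝ) ^ k * |q * (j * β) - m| = x at h1 h3
  have h4 : x * K ^ 2 ≤ 1 := le_of_mul_le_mul_left (by linarith) hKC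
  nlinarith

/-- Simultaneous recurrence for finitely many monomials. -/
theorem heilbronn_all {ι : Type*} (s : Finset ι) (k : ι → ℕ) : ∃ C : ℕ, ∀ (K : ℕ) (β : ι → ℝ),
    2 ≤ K → ∃ t : ℕ, 1 ≤ t ∧ t ≤ K ^ C ∧
      ∀ i ∈ s, ∃ m : ℤ, |t ^ (k i + 1) * β i - m| * K ≤ 1 := by
  classical
  induction s using Finset.induction_on with
  | empty => exact ⟨0, fun K β _ => ⟨1, le_rfl, by simp, by simp⟩⟩
  | insert a s ha ih =>
    obtain ⟨C, hC⟩ := ih
    obtain ⟨C', hC'⟩ := heilbronn (k a)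
    refine ⟨(C * (k a + 1) + 1) * C' + C, fun K β hK => ?_⟩
    obtain ⟨t, h1, h2, m, hm⟩ := hC' (K ^ (C * (k a + 1) + 1)) (β a)
      (hK.trans (Nat.le_self_pow (by omega) K))
    obtain ⟨u, h3, h4, h5⟩ := hC K (fun i => t ^ (k i + 1) * β i) hK
    refine ⟨u * t, Nat.mul_pos h3 h1, ?_, fun i hi => ?_⟩
    · rw [pow_add, pow_mul, mul_comm u]
      exact Nat.mul_le_mul h2 h4
    · rcases mem_insert.1 hi with rfl | hi
      · refine ⟨u ^ (k i + 1) * m, le_trans ?_ hm⟩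
        push_cast
        rw [mul_pow, mul_assoc, ← mul_sub, abs_mul, abs_of_nonneg (by positivity),
          mul_comm ((u : ℝ) ^ _), mul_assoc, pow_succ (K : ℝ), pow_mul]
        refine mul_le_mul_of_nonneg_left (mul_le_mul_of_nonneg_right
          (pow_le_pow_left₀ (by positivity) (by exact_mod_cast h4) _) (by positivity))
          (abs_nonneg _)
      · obtain ⟨m', hm'⟩ := h5 i hi
        refine ⟨m', ?_⟩
        push_cast
        rwa [mul_pow, mul_assoc]

end Pool.Agent.P.MP_f17f76_ag.K
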