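import Pool.Agent.P.MP_f17f76_ag.K.GD
import Pool.Agent.P.MP_f17f76_ag.E.Loc

/-!
The generic point lemma in the language of fields.
-/

namespace Pool.Agent.P.MP_f17f76_ag.AbVar

open Filter Topology Set Module MvPolynomial E

variable {g N : ℕ} {A : AbVar g N} {k : Subfield ℂ} {F : Set ℂ}

theorem Over.mem_of_locI (h : A.Over k) (hk : (k : Set ℂ) ⊆ acl F) {B : Submodule ℂ (Fin g → ℂ)}
    (hB : A.IsLie B) {b : Fin g → ℂ} (hb : b ∈ B) {q : (Fin g → ℂ) × (Fin g → ℂ)}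
    (hq : q ∈ A.zeroSet (A.locI (acl F) (0, b))) : q.1 = 0 ∧ ∃ m ∈ A.Λ, q.2 - m ∈ B := by
  refine ⟨funext fun j => by
    simpa using hq _ ((mem_locI (cf_X (Sum.inl j))).2 fun _ => by simp) 1, ?_⟩
  obtain ⟨u, hu, t, ht⟩ := (h.zero_iff hB (y := A.θ q.2)).1 fun p hp hc => by
    simpa [eval_rename] using hq _ ((mem_locI ((hc.mono hk).rename Sum.inr)).2 fun t => by
      simpa [eval_rename] using A.mem_lieI.1 hp b hb t) 1
  exact ⟨_, (A.per u q.2).1 ⟨t, ht⟩, by simpa using hu⟩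

/-- A point `b` of `B` whose locus over `F` is transversal to `L'` and of complementary dimension
has a conjugate over `F` in the closure of every coset of a free subspace `L ≥ L'`. -/
theorem Over.g_field (h : A.Over k) (hF : F.Countable) (hk : (k : Set ℂ) ⊆ acl F)
    {B L' L : Submodule ℂ (Fin g → ℂ)} (hB : A.IsLie B) (hL : L' ≤ L) (hLB : L ≤ B)
    (hfree : ∀ H, A.IsLie H → L ≤ H → B ≤ H) {b : Fin g → ℂ} (hb : b ∈ B) {κ : Type}
    {θ : κ → Fin g → ℂ} (hθ : ∀ v ∈ B, (∀ j, θ j ⬝ᵥ v = 0) → v ∈ L')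
    (hd : trd F (range (A.crd b)) + finrank ℂ L' ≤ finrank ℂ B) (hp : A.Pair F b θ)
    {w : Fin g → ℂ} (hw : w ∈ B) : ∃ s : ℂ ≃+* ℂ, (∀ a ∈ acl F, s a = a) ∧ ∃ x ∈ B,
      A.crd x = s ∘ A.crd b ∧ x - w ∈ closure {x | ∃ l ∈ L, ∃ m ∈ A.Λ, m ∈ B ∧ x = l + m} := by
  obtain ⟨n, y, ε, i, Ψ, e, -, hε, h1, h2, h3, h4⟩ := h.exists_loc hF hk (0, b)
  have h5 := h.idl_locI hF hk (0, b)
  have l := (h4 y (Metric.mem_ball_self hε)).1
  obtain ⟨x, hx, h6, h7, h8⟩ := K.g_lemma (A := A) (V := A.zeroSet (A.locI (acl F) (0, b)))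
    (ψ := fun u => (Ψ u).2) (y := y) (𝒟 := {p | Cf (acl F) p ∧ p ∉ A.locI (acl F) (0, b)})
    hB hL hLB hfree (by
      change (A.idl _).IsPrime
      rw [h5]
      exact h3.isPrime) (fun q hq => h.mem_of_locI hk hB hb hq) (by
      rw [h5, h.tdeg_locI hF hk, trd_cs_zero]
      omega) l.snd.an (by
      filter_upwards [Metric.ball_mem_nhds y hε] with u hu
      rw [h5, show (0, (Ψ u).2) = Ψ u from
        Prod.ext (h.mem_of_locI hk hB hb (h3.mem_zeroSet hu)).1.symm rfl]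
      exact h3.mem_zeroSet hu) (fun v hv => by
      obtain ⟨D, hD, h6⟩ := hp fun j => θ j ⬝ᵥ v
      have h7 := l.snd.dl h hk h2.algebraicClosure ((kil_acl F).ge hD)
      rw [h1] at h7
      rw [← add_sub_cancel (A.dl b D) v]
      refine Submodule.add_mem_sup ⟨_, h7.symm⟩ (hθ _ (B.sub_mem hv
        (h.dl_mem (kil_le hk hD) hB hb)) fun j => ?_)
      rw [dotProduct_sub, ← pv_apply, h6, sub_self])
    ((countable_cf (countable_acl hF)).mono fun _ h => h.1) (fun D hD => h5.symm ▸ hD.2) hw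
  rw [h5] at h6
  obtain ⟨s, h9, -, h10⟩ := conj_of_locI (countable_acl hF) (le_antisymm (locI_le_iff.2 h6)
    (Ideal.span_le.2 fun p hp => by_contra fun h9 => (h7 p ⟨hp.1, h9⟩).elim fun t ht => ht (hp.2 t)))
  exact ⟨s, h9, x, hx, h10, h8⟩

end Pool.Agent.P.MP_f17f76_ag.AbVar
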