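import Pool.Agent.P.MP_f17f76_ag.K.Cx
import Pool.Agent.P.MP_f17f76_ag.Inv
import Pool.Agent.P.MP_f17f76_ag.Lift

/-!
Chains of abelian functions and the uniform bound for systems with abelian functions.
-/

set_option linter.unusedSectionVars false

namespace Pool.Agent.P.MP_f17f76_ag.K

open Filter Topology Set MvPolynomial

/-- Adjoin the inverse of `p (φ w)` to the functions `φ`. -/
noncomputable def adj {E κ : Type} (φ : E → κ → ℂ) (p : MvPolynomial κ ℂ) (w : E) :
    Option κ → ℂ := fun o => o.elim (eval (φ w) p)⁻¹ (φ w)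

section Rat

variable {ι κ : Type} [Fintype ι] [DecidableEq ι] [Fintype κ] {Ω : Set (ι → ℂ)}
  {φ : (ι → ℂ) → κ → ℂ} {d : ℕ} {p : MvPolynomial κ ℂ}

theorem totalDegree_pderiv_le' (k : κ) (p : MvPolynomial κ ℂ) :
    (pderiv k p).totalDegree ≤ p.totalDegree := by
  classical
  conv_lhs => rw [p.as_sum, map_sum]
  refine totalDegree_finsetSum_le fun m hm => ?_
  rw [pderiv_monomial]
  refine (totalDegree_monomial_le _ _).trans (le_trans ?_ (le_totalDegree hm))
  exact Finsupp.sum_le_sum_index tsub_le_self (fun _ _ => monotone_id) fun _ _ => rfl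

/-- Holomorphic functions whose derivatives are rational with denominator `p`. -/
theorem chain_adj (hΩ : IsOpen Ω) (hd : ∀ w ∈ Ω, ∀ k, DifferentiableAt ℂ (fun w => φ w k) w)
    (hp : p.totalDegree ≤ d) (hp0 : ∀ w ∈ Ω, eval (φ w) p ≠ 0)
    (hP : ∀ k i, ∃ P : MvPolynomial κ ℂ, P.totalDegree ≤ d ∧
      ∀ w ∈ Ω, eval (φ w) p * fderiv ℂ (fun w => φ w k) w (Pi.single i 1) = eval (φ w) P) :
    Chain (2 * d + 3) (cx ⁻¹' Ω) fun x => rl (adj φ p (cx x)) := by
  choose P hPd hP using hP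
  have hD : ∀ w ∈ Ω, HasFDerivAt (fun w => (eval (φ w) p)⁻¹) (-((eval (φ w) p) ^ 2)⁻¹ •
      ∑ k, eval (φ w) (pderiv k p) • fderiv ℂ (fun w => φ w k) w) w := fun w hw =>
    (hasDerivAt_inv (hp0 w hw)).comp_hasFDerivAt w
      (Pool.Agent.P.MP_f17f76_ag.hasFDerivAt_eval p φ _ fun k => (hd w hw k).hasFDerivAt)
  have hX : (X none : MvPolynomial (Option κ) ℂ).totalDegree ≤ 1 := by simp
  have h1 : ∀ k i, (X none * rename some (P k i) : MvPolynomial (Option κ) ℂ).totalDegree ≤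
      d + 1 := fun k i => (totalDegree_mul _ _).trans (by
    have := (totalDegree_rename_le (some : κ → Option κ) (P k i)).trans (hPd k i)
    omega)
  have h2 : ∀ k i, ∀ w ∈ Ω, fderiv ℂ (fun w => φ w k) w (Pi.single i 1) =
      eval (adj φ p w) (X none * rename some (P k i)) := fun k i w hw => by
    rw [map_mul, eval_X, eval_rename]
    change _ = (eval (φ w) p)⁻¹ * eval (φ w) (P k i)
    rw [← hP k i w hw, inv_mul_cancel_left₀ (hp0 w hw)]
  refine chain_rl hΩ (fun w hw k => ?_) fun k i => ?_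
  · rcases k with _ | k
    · exact (hD w hw).differentiableAt
    · exact hd w hw k
  · rcases k with _ | k
    · refine ⟨-(X none * X none * ∑ k, rename some (pderiv k p) * (X none * rename some (P k i))),
        ?_, fun w hw => ?_⟩
      · rw [totalDegree_neg]
        refine (totalDegree_mul _ _).trans ?_
        have a1 := totalDegree_mul (X none : MvPolynomial (Option κ) ℂ) (X none)
        have a2 : (∑ k, rename some (pderiv k p) * (X none * rename some (P k i)) :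
            MvPolynomial (Option κ) ℂ).totalDegree ≤ d + (d + 1) :=
          totalDegree_finsetSum_le fun k _ => (totalDegree_mul _ _).trans (add_le_add
            ((totalDegree_rename_le _ _).trans ((totalDegree_pderiv_le' k p).trans hp)) (h1 k i))
        omega
      · have h3 : fderiv ℂ (fun w => adj φ p w none) w = _ := (hD w hw).fderiv
        rw [h3, map_neg, map_mul, map_mul, map_sum, eval_X]
        simp only [map_mul (eval (adj φ p w)) (rename some (pderiv _ p)), ← h2 _ i w hw,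
          eval_rename]
        change _ = -((eval (φ w) p)⁻¹ * (eval (φ w) p)⁻¹ * ∑ k, eval (φ w) (pderiv k p) * _)
        simp [pow_two]
    · exact ⟨_, (h1 k i).trans (by omega), h2 k i⟩

theorem emb_adj (hinj : InjOn φ Ω) (hp : p.totalDegree ≤ d) (hp0 : ∀ w ∈ Ω, eval (φ w) p ≠ 0)
    {α : Type} (T : Finset α) (P : α → MvPolynomial κ ℂ)
    (hP : ∀ a ∈ T, (P a).totalDegree ≤ d) (h0 : ∀ w ∈ Ω, ∀ a ∈ T, eval (φ w) (P a) = 0)
    (hl : ∀ w ∈ Ω, ∀ N ∈ 𝓝 w, ∀ᶠ y in 𝓝 (φ w), (∀ a ∈ T, eval y (P a) = 0) → y ∈ φ '' N)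
    {ρ : (ι → ℂ) → ℝ}
    (hρ : IsPol (cx ⁻¹' Ω) (fun x => rl (adj φ p (cx x))) (2 * (d + 1)) fun x => ρ (cx x))
    (hK : IsCompact {w | w ∈ Ω ∧ 0 ≤ ρ w}) :
    Emb (2 * (d + 1)) (cx ⁻¹' Ω) (fun x => rl (adj φ p (cx x))) fun x => ρ (cx x) := by
  classical
  refine emb_rl (fun w hw w' hw' e => hinj hw hw' (funext fun k => congrFun e (some k)))
    (Finset.insertNone T) (fun o => o.elim (X none * rename some p - 1) fun a => rename some (P a))
    ?_ ?_ ?_ hρ hK
  · rintro (_ | a) ha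
    · refine (totalDegree_sub _ _).trans (max_le ((totalDegree_mul _ _).trans ?_) (by simp))
      have := (totalDegree_rename_le (some : κ → Option κ) p).trans hp
      simp only [totalDegree_X]
      omega
    · exact ((totalDegree_rename_le _ _).trans (hP a (Finset.some_mem_insertNone.1 ha))).trans
        (by omega)
  · rintro w hw (_ | a) ha
    · simp only [Option.elim_none, map_sub, map_mul, eval_X, eval_rename, map_one]
      exact sub_eq_zero.2 (inv_mul_cancel₀ (hp0 w hw))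
    · simp only [Option.elim_some, eval_rename]
      exact h0 w hw a (Finset.some_mem_insertNone.1 ha)
  · intro w hw N hN
    have t : Tendsto (fun y : Option κ → ℂ => fun k => y (some k)) (𝓝 (adj φ p w)) (𝓝 (φ w)) :=
      Continuous.tendsto' (by fun_prop) _ _ rfl
    filter_upwards [t.eventually (hl w hw N hN)] with y hy hy0
    obtain ⟨w', hw', e⟩ := hy fun a ha => by
      have := hy0 (some a) (Finset.some_mem_insertNone.2 ha)
      rwa [Option.elim_some, eval_rename] at this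
    refine ⟨w', hw', funext ?_⟩
    rintro (_ | k)
    · have := hy0 none Finset.none_mem_insertNone
      simp only [Option.elim_none, map_sub, map_mul, eval_X, eval_rename, map_one] at this
      change (eval (φ w') p)⁻¹ = y none
      rw [e]
      exact (eq_inv_of_mul_eq_one_left (sub_eq_zero.1 this)).symm
    · exact congrFun e k

end Rat

variable {g N : ℕ}

/-- A chart of abelian functions around `w₀`. -/
theorem abel_chart (A : AbVar g N) (w₀ : Fin g → ℂ) : ∃ (d : ℕ) (Ω : Set (Fin g → ℂ))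
    (Φ : (Fin g → ℂ) → Option (Fin N) → ℂ) (q : (Fin g → ℂ) → ℝ) (δ : ℝ), 0 < δ ∧
      Chain d (cx ⁻¹' Ω) (fun x => rl (Φ (cx x))) ∧
      Emb d (cx ⁻¹' Ω) (fun x => rl (Φ (cx x))) (fun x => 1 - q (cx x)) ∧ (∀ w, 0 ≤ q w) ∧
      (∀ w ∈ Metric.ball w₀ δ, w ∈ Ω ∧ q w < 1 / 2) ∧
      ∀ w ∈ Ω, ∃ t : ℂ, t ≠ 0 ∧ ∀ k, Φ w (some k) = t * A.θ w k := by
  classical
  obtain ⟨Q, hQ0, hQ⟩ := A.add w₀ 0
  obtain ⟨j, hj⟩ := Function.ne_iff.1 hQ0
  have hθ : ∀ w k, AnalyticAt ℂ (fun w => A.θ w k) w := fun w k =>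
    analyticAt_pi_iff.1 (A.analytic w trivial) k
  have hj0 : A.θ w₀ j ≠ 0 := by
    obtain ⟨r, hr⟩ := hQ w₀ 0 1 1
    rw [one_smul, one_smul, add_zero] at hr
    intro h0
    exact hj ((congrFun hr j).trans (by simp [h0]))
  set c := A.θ w₀ j with hc
  let φ : (Fin g → ℂ) → Fin N → ℂ := fun w => (c / A.θ w j) • A.θ w
  have hφ0 : φ w₀ = A.θ w₀ := by simp only [φ, ← hc, div_self hj0, one_smul]
  let s : MvPolynomial (Fin N ⊕ Fin N) ℂ → MvPolynomial (Fin N) ℂ := fun f =>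
    aeval (Sum.elim X fun l => C (A.θ 0 l)) f
  have hs : ∀ y f, eval y (s f) = eval (Sum.elim y (A.θ 0)) f := fun y f => by
    rw [← aeval_eq_eval, ← aeval_eq_eval]
    refine (comp_aeval_apply _ (aeval y) f).trans ?_
    congr 2
    funext l
    rcases l with l | l <;> simp
  have hφa : ∀ w, A.θ w j ≠ 0 → ∀ k, AnalyticAt ℂ (fun w => φ w k) w := fun w hw k =>
    (analyticAt_const.div (hθ w j) hw).mul (hθ w k)
  -- a closed ball on which everything is defined
  obtain ⟨r, hr, hball⟩ : ∃ r > 0, (∀ w ∈ Metric.closedBall w₀ r,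
      A.θ w j ≠ 0 ∧ eval (φ w) (s (Q j)) ≠ 0) ∧ ∀ m ∈ A.Λ, ‖m‖ ≤ 2 * r → m = 0 := by
    have e1 := (hθ w₀ j).continuousAt.eventually_ne hj0
    have e2 := (analyticAt_eval (s (Q j)) φ (hφa w₀ hj0)).continuousAt.eventually_ne
      (y := 0) (by rw [hφ0, hs]; exact hj)
    obtain ⟨r₁, hr₁, h1⟩ := Metric.nhds_basis_closedBall.eventually_iff.1 (e1.and e2)
    have := A.discrete
    obtain ⟨r₂, hr₂, h2⟩ := Metric.isOpen_singleton_iff.1 (isOpen_discrete {(0 : A.Λ)})
    refine ⟨min r₁ (r₂ / 3), by positivity, fun w hw =>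
      h1 (Metric.closedBall_subset_closedBall (min_le_left _ _) hw), fun m hm hm' => ?_⟩
    have h3 := min_le_right r₁ (r₂ / 3)
    exact congrArg Subtype.val (h2 ⟨m, hm⟩ (by
      rw [Subtype.dist_eq]
      simp only [ZeroMemClass.coe_zero, dist_zero_right]
      linarith))
  have hinj : InjOn φ (Metric.closedBall w₀ r) := by
    intro w hw w' hw' e
    have t0 := div_ne_zero hj0 (hball.1 w' hw').1
    have : w' - w ∈ A.Λ := (A.per w w').1 ⟨(c / A.θ w' j)⁻¹ * (c / A.θ w j), by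
      rw [mul_smul]
      change _ = _ • φ w
      rw [e, smul_smul, inv_mul_cancel₀ t0, one_smul]⟩
    refine (sub_eq_zero.1 (hball.2 _ this ?_)).symm
    rw [← dist_eq_norm]
    have := dist_triangle_right w' w w₀
    have h1 := Metric.mem_closedBall.1 hw
    have h2 := Metric.mem_closedBall.1 hw'
    linarith
  let n : (Fin g → ℂ) → ℝ := fun w => ∑ k, Complex.normSq (φ w k - φ w₀ k)
  have hn0 : ∀ w, 0 ≤ n w := fun w => Finset.sum_nonneg fun k _ => Complex.normSq_nonneg _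
  have hnc : ∀ w ∈ Metric.closedBall w₀ r, ContinuousAt n w := fun w hw =>
    tendsto_finsetSum _ fun k _ => Complex.continuous_normSq.continuousAt.comp
      ((hφa w (hball.1 w hw).1 k).continuousAt.sub continuousAt_const)
  obtain ⟨η, hη, hηn⟩ : ∃ η > 0, ∀ w ∈ Metric.closedBall w₀ r \ Metric.ball w₀ (r / 2),
      η < n w := by
    obtain ⟨η, hη, h⟩ := ((isCompact_closedBall w₀ r).diff
      (Metric.isOpen_ball (x := w₀) (ε := r / 2))).exists_forall_le'
      (f := n) (a := 0) (fun w hw => (hnc w hw.1).continuousWithinAt) fun w hw => by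
        refine lt_of_le_of_ne (hn0 w) fun h0 => hw.2 ?_
        have : φ w = φ w₀ := funext fun k => sub_eq_zero.1 (Complex.normSq_eq_zero.1
          ((Finset.sum_eq_zero_iff_of_nonneg fun k _ => Complex.normSq_nonneg _).1 h0.symm k
            (Finset.mem_univ _)))
        rw [hinj hw.1 (Metric.mem_closedBall_self hr.le) this]
        exact Metric.mem_ball_self (by positivity)
    exact ⟨η / 2, by positivity, fun w hw => by have := h w hw; linarith⟩
  obtain ⟨J, hJ⟩ := A.closed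
  obtain ⟨T, hT⟩ := (isNoetherianRing_iff_ideal_fg _).1 inferInstance (Ideal.span J)
  have hTJ : ∀ y, (∀ p ∈ T, eval y p = 0) ↔ ∀ p ∈ J, eval y p = 0 := fun y => by
    have e1 : Ideal.span (T : Set (MvPolynomial (Fin N) ℂ)) ≤ RingHom.ker (eval y) ↔ _ :=
      Ideal.span_le
    have e2 : Ideal.span J ≤ RingHom.ker (eval y) ↔ _ := Ideal.span_le
    rw [hT, e2] at e1
    exact e1.symm
  let P : Fin N → Fin g → MvPolynomial (Fin N) ℂ := fun k i =>
    C c * (∑ l, s (pderiv l (Q k)) * C (invD A l (Pi.single i 1))) -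
      (∑ l, s (pderiv l (Q j)) * C (invD A l (Pi.single i 1))) * X k
  let T' := insert (X j - C c) T
  obtain ⟨d, hd1, hd2, hd3⟩ : ∃ d, (s (Q j)).totalDegree ≤ d ∧ (∀ k i, (P k i).totalDegree ≤ d) ∧
      ∀ a ∈ T', a.totalDegree ≤ d := by
    obtain ⟨d₂, h2⟩ := (finite_range fun a : Fin N × Fin g => (P a.1 a.2).totalDegree).bddAbove
    exact ⟨max (s (Q j)).totalDegree (max d₂ (T'.sup totalDegree)), le_max_left _ _,
      fun k i => le_max_of_le_right (le_max_of_le_left (h2 ⟨(k, i), rfl⟩)), fun a ha =>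
        le_max_of_le_right (le_max_of_le_right (Finset.le_sup (f := totalDegree) ha))⟩
  have hsub := Metric.ball_subset_closedBall (x := w₀) (ε := r)
  obtain ⟨δ, hδ, hδn⟩ := Metric.eventually_nhds_iff_ball.1
    ((show ∀ᶠ w in 𝓝 w₀, w ∈ Metric.ball w₀ r from Metric.ball_mem_nhds w₀ hr).and
      (((hnc w₀ (Metric.mem_closedBall_self hr.le)).const_mul η⁻¹).eventually_lt
        (continuousAt_const (y := (1 / 2 : ℝ))) (by simp [n])))
  refine ⟨2 * d + 3, Metric.ball w₀ r, adj φ (s (Q j)), fun w => η⁻¹ * n w, δ, hδ, ?_, ?_,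
    fun w => by have := hn0 w; positivity, hδn, fun w hw =>
      ⟨c / A.θ w j, div_ne_zero hj0 (hball.1 w (hsub hw)).1, fun k => rfl⟩⟩
  · refine chain_adj Metric.isOpen_ball
      (fun w hw k => (hφa w (hball.1 w (hsub hw)).1 k).differentiableAt) hd1
      (fun w hw => (hball.1 w (hsub hw)).2) fun k i => ⟨P k i, hd2 k i, fun w hw => ?_⟩
    have hw0 := (hball.1 w (hsub hw)).1
    have hadd : ∀ v, ∃ r : ℂ, (fun k => eval (Sum.elim (φ w) (A.θ v)) (Q k)) = r • A.θ (w + v) :=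
      fun v => by simpa only [one_smul] using hQ w v (c / A.θ w j) 1
    have hI := inv_ident A Q (φ w) w hadd (Pi.single i 1) j k
    obtain ⟨ρ, hρ⟩ := hadd 0
    rw [add_zero] at hρ
    have hk : eval (Sum.elim (φ w) (A.θ 0)) (Q k) = ρ * A.θ w k := congrFun hρ k
    have hj' : eval (Sum.elim (φ w) (A.θ 0)) (Q j) = ρ * A.θ w j := congrFun hρ j
    have d1 := hasFDerivAt_pi'.1 (inv_theta_hasFDerivAt A w)
    have d2 := (((hasDerivAt_inv hw0).comp_hasFDerivAt w (d1 j)).const_mul c).mul (d1 k)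
    have d3 : fderiv ℂ (fun w => φ w k) w = _ := d2.fderiv
    rw [d3]
    simp only [P, map_sub, map_mul, map_sum, eval_C, eval_X, hs, hj']
    rw [hk, hj'] at hI
    simp only [φ, Pi.smul_apply, smul_eq_mul, add_apply,
      smul_apply, ContinuousLinearMap.comp_apply,
      ContinuousLinearMap.proj_apply, Function.comp_apply] at hI ⊢
    field_simp
    linear_combination (-1 : ℂ) * hI
  · refine Emb.mono (emb_adj (d := d) (hinj.mono hsub) hd1
      (fun w hw => (hball.1 w (hsub hw)).2) T' id hd3 (fun w hw a ha => ?_)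
      (fun w hw M hM => ?_) (ρ := fun w => 1 - η⁻¹ * n w) ?_ ?_) (by omega)
    · rcases Finset.mem_insert.1 ha with rfl | ha
      · simp [φ, (hball.1 w (hsub hw)).1]
      · exact (hTJ _).2 ((hJ _).2 ⟨_, w, rfl⟩) a ha
    · obtain ⟨ω, τ, hω, -, hω0, -, hl, -⟩ := A.lift w (c / A.θ w j)
        (div_ne_zero hj0 (hball.1 w (hsub hw)).1)
      filter_upwards [hl, hω.continuousAt.eventually (show ∀ᶠ z in 𝓝 _, z ∈ M by rwa [hω0])]
        with y hy hyM hy0
      have e := hy ((hJ y).1 ((hTJ y).1 fun p hp => hy0 p (Finset.mem_insert_of_mem hp)))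
      have e2 := hy0 _ (Finset.mem_insert_self _ _)
      simp only [id, map_sub, eval_X, eval_C, sub_eq_zero] at e2
      refine ⟨ω y, hyM, ?_⟩
      have e3 : c = τ y * A.θ (ω y) j := e2.symm.trans (congrFun e j)
      have e4 : A.θ (ω y) j ≠ 0 := fun h => hj0 (by rw [e3, h, mul_zero])
      change (c / A.θ (ω y) j) • A.θ (ω y) = y
      rw [e3, mul_div_assoc, div_self e4, mul_one, ← e]
    · refine ((isPol_const 1).sub ((isPol_sum Finset.univ fun k _ =>
        ((isPolC_rl (some k)).sub (isPolC_const (φ w₀ k))).normSq).const_mul η⁻¹)).mono (by omega)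
    · have h1 := ((continuousOn_const (c := (1 : ℝ))).sub (ContinuousOn.const_mul (fun w hw =>
        (hnc w (Metric.closedBall_subset_closedBall (half_le_self hr.le) hw)).continuousWithinAt)
          η⁻¹)).preimage_isClosed_of_isClosed Metric.isClosed_closedBall (isClosed_Ici (a := 0))
      have h5 := (isCompact_closedBall w₀ (r / 2)).of_isClosed_subset h1 inter_subset_left
      refine (congrArg IsCompact (Set.ext fun w => ?_)).mpr h5
      refine ⟨fun hw => ⟨?_, hw.2⟩, fun hw => ⟨Metric.closedBall_subset_ball (half_lt_self hr) hw.1,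
        hw.2⟩⟩
      by_contra h
      have h2 := hηn w ⟨hsub hw.1, fun h' => h (Metric.ball_subset_closedBall h')⟩
      have h3 := hw.2
      have h4 : 1 < η⁻¹ * n w := by
        rw [← div_eq_inv_mul, lt_div_iff₀ hη]
        linarith
      linarith

/-- Finitely many charts suffice, up to periods. -/
theorem abel_charts (A : AbVar g N) : ∃ (d : ℕ) (δ : ℝ), 0 < δ ∧ ∀ w₀ : Fin g → ℂ,
    ∃ (m : Fin g → ℂ) (Ω : Set (Fin g → ℂ)) (Φ : (Fin g → ℂ) → Option (Fin N) → ℂ)
      (q : (Fin g → ℂ) → ℝ), Chain d (cx ⁻¹' Ω) (fun x => rl (Φ (cx x))) ∧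
      Emb d (cx ⁻¹' Ω) (fun x => rl (Φ (cx x))) (fun x => 1 - q (cx x)) ∧ (∀ w, 0 ≤ q w) ∧
      ∀ w ∈ Metric.ball w₀ δ, w - m ∈ Ω ∧ q (w - m) < 1 / 2 ∧
        ∃ t : ℂ, t ≠ 0 ∧ ∀ k, Φ (w - m) (some k) = t * A.θ w k := by
  choose d Ω Φ q δ hδ hC hE hq hb ht using abel_chart A
  obtain ⟨R, hR⟩ := A.exists_bdd
  obtain ⟨T, hT⟩ := (isCompact_closedBall (0 : Fin g → ℂ) R).elim_finite_subcover
    (fun w => Metric.ball w (δ w / 2)) (fun w => Metric.isOpen_ball)
    fun w _ => mem_iUnion.2 ⟨w, Metric.mem_ball_self (half_pos (hδ w))⟩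
  obtain ⟨ε, hε, hεT⟩ : ∃ ε > 0, ∀ w ∈ T, ε < δ w / 2 := by
    have : ∀ᶠ ε in 𝓝[>] (0 : ℝ), ∀ w ∈ T, ε < δ w / 2 := by
      rw [Finset.eventually_all]
      exact fun w _ => (eventually_lt_nhds (half_pos (hδ w))).filter_mono nhdsWithin_le_nhds
    obtain ⟨ε, h1, h2⟩ := (this.and self_mem_nhdsWithin).exists
    exact ⟨ε, h2, h1⟩
  refine ⟨T.sup d, ε, hε, fun w₀ => ?_⟩
  obtain ⟨m, hm, hmR⟩ := hR w₀
  obtain ⟨v, hv, hv'⟩ := mem_iUnion₂.1 (hT (mem_closedBall_zero_iff.2 hmR))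
  refine ⟨m, Ω v, Φ v, q v, (hC v).mono (Finset.le_sup hv), (hE v).mono (Finset.le_sup hv), hq v,
    fun w hw => ?_⟩
  have h1 : w - m ∈ Metric.ball v (δ v) := by
    have := dist_triangle (w - m) (w₀ - m) v
    rw [dist_sub_right] at this
    have h2 := hεT v hv
    have h3 := Metric.mem_ball.1 hw
    have h4 := Metric.mem_ball.1 hv'
    exact Metric.mem_ball.2 (by linarith)
  obtain ⟨t, ht0, ht'⟩ := ht v _ (hb v _ h1).1
  obtain ⟨u, hu⟩ := (A.per w (w - m)).2 (by simpa using hm)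
  have hu0 : u ≠ 0 := by
    rintro rfl
    exact A.ne_zero _ (by rw [hu, zero_smul])
  exact ⟨(hb v _ h1).1, (hb v _ h1).2, t * u, mul_ne_zero ht0 hu0, fun k => by
    rw [ht' k, hu, mul_assoc]
    rfl⟩

/-- The uniform bound after adjoining the abelian functions of an integral `W` whose values stay
in a ball of radius `δ`. -/
theorem abel_bound (A : AbVar g N) : ∃ δ > 0, ∀ (ι κ : Type) [Fintype ι] [DecidableEq ι]
    [Fintype κ] (d : ℕ), ∃ d', d ≤ d' ∧ ∀ D, ∃ K, ∀ (U : Set (ι → ℝ)) (γ : (ι → ℝ) → κ → ℝ)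
      (q : (ι → ℝ) → ℝ) (W : (ι → ℝ) → Fin g → ℂ) (w₀ : Fin g → ℂ), Chain d U γ →
      Emb d U γ (fun x => 1 - q x) → (∀ x ∈ U, 0 ≤ q x) →
      (∀ e, IsInt U γ d fun x => rl (W x) e) → (∀ x ∈ U, W x ∈ Metric.ball w₀ δ) →
      ∃ Y : (ι → ℝ) → Option (Fin N) → ℂ,
        Chain d' U (fun x => Sum.elim (γ x) (rl (Y x))) ∧
        Bound {x | x ∈ U ∧ q x ≤ 1 / 2} U (fun x => Sum.elim (γ x) (rl (Y x))) D K ∧
        ∀ x ∈ U, ∃ t : ℂ, t ≠ 0 ∧ ∀ k, Y x (some k) = t * A.θ (W x) k := by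
  obtain ⟨d₀, δ, hδ, hA⟩ := abel_charts A
  refine ⟨δ, hδ, fun ι κ _ _ _ d => ⟨max d d₀ + d, by omega, fun D => ?_⟩⟩
  obtain ⟨K, hK⟩ := khov (ι ⊕ (Fin g ⊕ Fin g)) (κ ⊕ (Option (Fin N) ⊕ Option (Fin N)))
    (2 * max d d₀) (Fintype.card (Fin g ⊕ Fin g)) (max D d)
  refine ⟨K, fun U γ q W w₀ hC hE hq hW hb => ?_⟩
  obtain ⟨m, Ω, Φ, q', hC', hE', hq', hΩ⟩ := hA w₀
  have c1 := (hC.mono (le_max_left d d₀)).prod (hC'.mono (le_max_right d d₀))
  have e1 := Emb.prod (hC.mono (le_max_left d d₀)) (hC'.mono (le_max_right d d₀))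
    (hE.mono (le_max_left d d₀)) (hE'.mono (le_max_right d d₀)) hq fun x _ => hq' _
  have hW' : ∀ e, IsInt U γ d fun x => rl (W x - m) e := by
    rintro (e | e)
    · exact (hW (Sum.inl e)).sub_const (m e).re
    · exact (hW (Sum.inr e)).sub_const (m e).im
  have hj : ∀ x ∈ U, Sum.elim x (rl (W x - m)) ∈ sprod U (cx ⁻¹' Ω) := fun x hx =>
    ⟨hx, (hΩ _ (hb x hx)).1⟩
  have b1 := bound_graph c1 hC.isOpen hj
    (fun x hx => differentiableAt_pi.2 fun e => (hW' e).1 x hx)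
    (fun e => (isInt_coord _).sub ((hW' e).inl.mono (le_max_right D d)))
    (hK _ _ _ (c1.mono (by omega)) e1)
  refine ⟨fun x => Φ (W x - m), ?_, fun F hF S hS => ?_, fun x hx => (hΩ _ (hb x hx)).2.2⟩
  · refine c1.comp hC.isOpen hj ?_
    rintro (i | e)
    · exact isInt_coord i
    · exact (hW' e).rename Sum.inl fun _ _ _ => rfl
  · refine b1 F (fun i => (hF i).mono (le_max_left _ _)) S fun x hx =>
      ⟨⟨(hS x hx).1.1, ?_⟩, (hS x hx).2⟩
    have h1 := (hΩ _ (hb x (hS x hx).1.1)).2.1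
    have h2 := (hS x hx).1.2
    change 0 < 1 - (q x + q' (W x - m))
    linarith

end Pool.Agent.P.MP_f17f76_ag.K
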