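import Pool.Agent.P.MP_f17f76_ag.K.Lift

/-!
A Bezout type bound for nondegenerate and for isolated real zeros of polynomials, the small Sard
theorem and the Morse perturbation.
-/

namespace Pool.Agent.P.MP_f17f76_ag.K

open Filter Topology Set MvPolynomial MeasureTheory

theorem totalDegree_pderiv_le {κ R : Type*} [CommRing R] (k : κ) (p : MvPolynomial κ R) :
    (pderiv k p).totalDegree ≤ p.totalDegree := by
  classical
  conv_lhs => rw [p.as_sum, map_sum]
  refine (totalDegree_finsetSum _ _).trans (Finset.sup_le fun s hs => ?_)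
  rw [pderiv_monomial]
  refine (totalDegree_monomial_le _ _).trans (le_trans ?_ (le_totalDegree hs))
  exact Finsupp.sum_le_sum_index tsub_le_self (fun _ _ => monotone_id) (fun _ _ => rfl)

theorem hasFDerivAt_eval {F κ : Type*} [Fintype κ] [NormedAddCommGroup F] [NormedSpace ℝ F] {y : F}
    (p : MvPolynomial κ ℝ) (f : F → κ → ℝ) (f' : κ → F →L[ℝ] ℝ)
    (h : ∀ k, HasFDerivAt (fun z => f z k) (f' k) y) :
    HasFDerivAt (fun z => eval (f z) p) (∑ k, eval (f y) (pderiv k p) • f' k) y := by
  classical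
  induction p using MvPolynomial.induction_on with
  | C c =>
    simp only [eval_C]
    refine (hasFDerivAt_const c y).congr_fderiv ?_
    ext v
    simp
  | add p q hp hq =>
    simp only [map_add (eval _) p q]
    refine (hp.add hq).congr_fderiv ?_
    ext v
    simp [add_mul, Finset.sum_add_distrib]
  | mul_X p i hp =>
    simp only [map_mul (eval _) p (X i), eval_X]
    refine (hp.mul (h i)).congr_fderiv ?_
    ext v
    have e1 : ∀ k, eval (f y) (pderiv k (p * X i)) * f' k v =
        (if i = k then eval (f y) p * f' k v else 0) +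
          f y i * (eval (f y) (pderiv k p) * f' k v) := by
      intro k
      rw [pderiv_mul, pderiv_X, map_add, map_mul, map_mul, eval_X]
      by_cases hk : i = k
      · subst hk
        simp only [Pi.single_eq_same, map_one, if_true]
        ring
      · simp only [Pi.single_eq_of_ne hk, map_zero, if_neg hk]
        ring
    simp only [add_apply, smul_apply, ContinuousLinearMap.sum_apply, smul_eq_mul, e1,
      Finset.sum_add_distrib, Finset.sum_ite_eq, Finset.mem_univ, if_true, Finset.mul_sum]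

variable {ι : Type*} [Fintype ι]

theorem contDiff_eval (p : MvPolynomial ι ℝ) (n : WithTop ℕ∞) :
    ContDiff ℝ n fun x : ι → ℝ => eval x p :=
  (AnalyticOnNhd.eval_continuousLinearMap (ContinuousLinearMap.id ℝ (ι → ℝ)) p).contDiff

theorem card_le_of_monic (D : ℕ) (P : ι → MvPolynomial ι ℝ) (hP : ∀ i, (P i).totalDegree ≤ D)
    (ε : ℝ) (hε : ε ≠ 0) (S : Finset (ι → ℝ))
    (hS : ∀ x ∈ S, ∀ i, eval x (P i) + ε * x i ^ (D + 1) = 0) :
    S.card ≤ (D + 1) ^ Fintype.card ι := by
  classical
  by_contra hlt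
  rw [not_le] at hlt
  let A : (S → ℝ) →ₗ[ℝ] ((ι → Fin (D + 1)) → ℝ) :=
    Matrix.mulVecLin (Matrix.of fun (α : ι → Fin (D + 1)) (x : S) => ∏ i, x.1 i ^ (α i : ℕ))
  obtain ⟨c, hc, hc0⟩ := Submodule.exists_mem_ne_zero_of_ne_bot
    (LinearMap.ker_ne_bot_of_finrank_lt (f := A) (by simpa using hlt))
  have key : ∀ n, ∀ p : MvPolynomial ι ℝ, p.totalDegree < n → ∑ x : S, c x * eval x.1 p = 0 := by
    intro n
    induction n with
    | zero => intro p hp; omega
    | succ n ih =>
      intro p hp
      have hm : ∀ s ∈ p.support, ∑ x : S, c x * eval x.1 (monomial s (1 : ℝ)) = 0 := by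
        intro s hs
        by_cases h : ∀ i, s i ≤ D
        · have := congrFun (LinearMap.mem_ker.1 hc) fun i => ⟨s i, Nat.lt_succ_of_le (h i)⟩
          simp only [A, Matrix.mulVecLin_apply, Matrix.mulVec, dotProduct, Matrix.of_apply,
            Pi.zero_apply] at this
          rw [← this]
          refine Finset.sum_congr rfl fun x _ => ?_
          rw [eval_monomial, one_mul, Finsupp.prod_fintype _ _ (by simp), mul_comm]
        · push Not at h
          obtain ⟨i, hi⟩ := h
          have hle : Finsupp.single i (D + 1) ≤ s := Finsupp.single_le_iff.2 hi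
          have e : s = (s - Finsupp.single i (D + 1)) + Finsupp.single i (D + 1) :=
            (tsub_add_cancel_of_le hle).symm
          have hdeg : (monomial (s - Finsupp.single i (D + 1)) (-ε⁻¹) * P i).totalDegree < n := by
            have h1 := le_totalDegree hs
            rw [e, Finsupp.sum_add_index' (fun _ => rfl) (fun _ _ _ => rfl),
              Finsupp.sum_single_index rfl] at h1
            have h2 := totalDegree_monomial_le (s - Finsupp.single i (D + 1)) (-ε⁻¹)
            have h3 := totalDegree_mul (monomial (s - Finsupp.single i (D + 1)) (-ε⁻¹)) (P i)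
            have h4 := hP i
            have h5 : ((s - Finsupp.single i (D + 1)).sum fun _ => id) =
              (s - Finsupp.single i (D + 1)).sum fun _ e => e := rfl
            omega
          rw [← ih _ hdeg]
          refine Finset.sum_congr rfl fun x _ => ?_
          congr 1
          have h1 := hS x.1 x.2 i
          conv_lhs => rw [e]
          rw [monomial_add_single, map_mul, map_mul, map_pow, eval_X, eval_monomial, eval_monomial]
          have h2 : eval x.1 (P i) = -(ε * x.1 i ^ (D + 1)) := by linarith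
          rw [h2]
          field_simp
      conv_lhs => rw [p.as_sum]
      simp only [map_sum, Finset.mul_sum]
      rw [Finset.sum_comm]
      refine Finset.sum_eq_zero fun s hs => ?_
      have := congrArg (fun t => coeff s p * t) (hm s hs)
      simp only [mul_zero, Finset.mul_sum] at this
      rw [← this]
      refine Finset.sum_congr rfl fun x _ => ?_
      rw [eval_monomial, eval_monomial]
      ring
  have hli := (linearIndependent_monoidHom (MvPolynomial ι ℝ) ℝ).comp
    (fun x : S => (eval x.1 : MvPolynomial ι ℝ →+* ℝ).toMonoidHom) (by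
      intro x y hxy
      apply Subtype.ext
      funext i
      simpa using DFunLike.congr_fun hxy (X i))
  apply hc0
  funext x
  refine Fintype.linearIndependent_iff.1 hli c ?_ x
  funext p
  simpa using key _ p (Nat.lt_succ_self _)

/-- Bound for the number of nondegenerate zeros of a square polynomial system. -/
theorem bezout (D : ℕ) (P : ι → MvPolynomial ι ℝ) (hP : ∀ i, (P i).totalDegree ≤ D)
    (S : Finset (ι → ℝ)) (hS : ∀ x ∈ S, ∀ i, eval x (P i) = 0)
    (hN : ∀ x ∈ S, Function.Injective (fderiv ℝ (fun x i => eval x (P i)) x)) :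
    S.card ≤ (D + 1) ^ Fintype.card ι := by
  classical
  let Pm : (ι → ℝ) → ι → ℝ := fun x i => eval x (P i)
  let G : (ι → ℝ) → ι → ℝ := fun x i => x i ^ (D + 1)
  have hPm : ContDiff ℝ 1 Pm := contDiff_pi.2 fun i => contDiff_eval _ _
  have hG : ContDiff ℝ 1 G := contDiff_pi.2 fun i => (contDiff_apply ℝ ℝ i).pow _
  let H : (ι → ℝ) × ℝ → (ι → ℝ) × ℝ := fun q => (Pm q.1 + q.2 • G q.1, q.2)
  have hH : ContDiff ℝ 1 H :=
    ((hPm.comp contDiff_fst).add (contDiff_snd.smul (hG.comp contDiff_fst))).prodMk contDiff_snd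
  have hloc : ∀ q ∈ S.image fun x => (x, (0 : ℝ)), LocHomeo H q := by
    intro q hq
    obtain ⟨x, hx, rfl⟩ := Finset.mem_image.1 hq
    refine locHomeo_of_contDiffAt hH.contDiffAt rfl ?_
    have h1 := (hPm.differentiable one_ne_zero x).hasFDerivAt
    have h2 := (hG.differentiable one_ne_zero x).hasFDerivAt
    have h3 :=
      ((HasFDerivAt.comp (x, (0 : ℝ)) (g := Pm) h1 hasFDerivAt_fst).add
        (hasFDerivAt_snd.smul
          (HasFDerivAt.comp (x, (0 : ℝ)) (g := G) h2 hasFDerivAt_fst))).prodMk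
        (hasFDerivAt_snd (𝕜 := ℝ) (p := (x, (0 : ℝ))))
    have h4 : fderiv ℝ H (x, 0) = _ := h3.fderiv
    rw [h4, injective_iff_map_eq_zero]
    rintro ⟨v, τ⟩ hv
    have hτ : τ = 0 := congrArg Prod.snd hv
    have hv1 := congrArg Prod.fst hv
    subst hτ
    have : fderiv ℝ Pm x v = 0 := by simpa using hv1
    rw [(injective_iff_map_eq_zero _).1 (hN x hx) v this]
    rfl
  have h := persist_finset (F := H) (y₀ := (0, 0)) (N := univ) _ (fun q hq => by
    obtain ⟨x, hx, rfl⟩ := Finset.mem_image.1 hq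
    refine Prod.ext ?_ rfl
    funext i
    simpa [H, Pm] using hS x hx i) hloc (fun _ _ => univ_mem)
  have ht : Tendsto (fun ε : ℝ => ((0 : ι → ℝ), ε)) (𝓝[≠] 0) (𝓝 (0, 0)) :=
    ((continuous_const.prodMk continuous_id).tendsto 0).mono_left nhdsWithin_le_nhds
  obtain ⟨ε, ⟨S', hc, hS'⟩, hε⟩ := ((ht.eventually h).and self_mem_nhdsWithin).exists
  rw [Finset.card_image_of_injective _ (fun a b hab => congrArg Prod.fst hab)] at hc
  have h2 : ∀ u ∈ S', u.2 = ε := fun u hu => congrArg Prod.snd (hS' u hu).2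
  rw [← hc, ← Finset.card_image_of_injOn (f := Prod.fst)
    (fun a ha b hb hab => Prod.ext hab (by rw [h2 a ha, h2 b hb]))]
  refine card_le_of_monic D P hP ε hε _ fun x hx i => ?_
  obtain ⟨u, hu, rfl⟩ := Finset.mem_image.1 hx
  have := congrFun (congrArg Prod.fst (hS' u hu).2) i
  simpa [H, Pm, G, h2 u hu] using this

/-- Sard in equal dimensions. -/
theorem sard {U : Set (ι → ℝ)} {G : (ι → ℝ) → ι → ℝ} (hG : ∀ x ∈ U, DifferentiableAt ℝ G x) :
    ∀ᵐ y, ∀ x ∈ U, G x = y → Function.Injective (fderiv ℝ G x) := by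
  have h := addHaar_image_eq_zero_of_det_fderivWithin_eq_zero (volume : Measure (ι → ℝ))
    (f := G) (s := {x ∈ U | ¬ Function.Injective (fderiv ℝ G x)}) (f' := fderiv ℝ G)
    (fun x hx => (hG x hx.1).hasFDerivAt.hasFDerivWithinAt) (fun x hx => by
      refine LinearMap.det_eq_zero_iff_ker_ne_bot.2 fun h => hx.2 ?_
      exact LinearMap.ker_eq_bot.1 h)
  filter_upwards [measure_eq_zero_iff_ae_notMem.1 h] with y hy x hx hxy
  by_contra hc
  exact hy ⟨x, ⟨hx, hc⟩, hxy⟩

theorem exists_of_ae {p : (ι → ℝ) → Prop} (h : ∀ᵐ y, p y) {O : Set (ι → ℝ)} {y₀ : ι → ℝ}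
    (hO : O ∈ 𝓝 y₀) : ∃ y ∈ O, p y :=
  Measure.exists_mem_of_measure_ne_zero_of_ae (Measure.measure_pos_of_mem_nhds _ hO).ne'
    (ae_restrict_of_ae h)

/-- A small linear perturbation has a critical point inside a compact set on whose boundary part
`B` the function is larger than at some point. -/
theorem morse_one {C B : Set (ι → ℝ)} (hC : IsCompact C) (hB : IsCompact B) (hBC : B ⊆ C)
    {h : (ι → ℝ) → ℝ} (hh : ContinuousOn h C) {x : ι → ℝ} (hx : x ∈ C)
    (hlt : ∀ b ∈ B, h x < h b) :
    ∀ᶠ l in 𝓝 (0 : ι → ℝ), ∃ y ∈ C \ B, IsMinOn (fun u => h u - ∑ j, l j * u j) C y := by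
  have hc : ∀ l : ι → ℝ, ContinuousOn (fun u => h u - ∑ j, l j * u j) C := fun l =>
    hh.sub (Continuous.continuousOn (by fun_prop))
  have h1 : ∀ᶠ l in 𝓝 (0 : ι → ℝ), ∀ b ∈ B, h x - ∑ j, l j * x j < h b - ∑ j, l j * b j := by
    obtain ⟨δ, hδ, hδB⟩ : ∃ δ > 0, ∀ b ∈ B, h x + δ ≤ h b := by
      rcases B.eq_empty_or_nonempty with rfl | hne
      · exact ⟨1, one_pos, by simp⟩
      · obtain ⟨b, hb, hmin⟩ := hB.exists_isMinOn hne (hh.mono hBC)
        exact ⟨h b - h x, sub_pos.2 (hlt b hb), fun b' hb' => by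
          have : h b ≤ h b' := hmin hb'
          linarith⟩
    have h2 : ∀ᶠ l in 𝓝 (0 : ι → ℝ), ∀ b ∈ B, ∑ j, l j * b j - ∑ j, l j * x j < δ := by
      refine hB.eventually_forall_of_forall_eventually fun b _ => ?_
      have hc : Continuous fun z : (ι → ℝ) × (ι → ℝ) => ∑ j, z.1 j * z.2 j - ∑ j, z.1 j * x j := by
        fun_prop
      exact hc.continuousAt.eventually_lt continuousAt_const (by simpa using hδ)
    filter_upwards [h2] with l hl b hb
    linarith [hl b hb, hδB b hb]
  filter_upwards [h1] with l hl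
  obtain ⟨y, hy, hmin⟩ := hC.exists_isMinOn ⟨x, hx⟩ (hc l)
  refine ⟨y, ⟨hy, fun hyB => ?_⟩, hmin⟩
  exact absurd (hmin hx) (not_le.2 (hl y hyB))

end Pool.Agent.P.MP_f17f76_ag.K
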