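import Pool.Agent.P.MP_f17f76_ag.K.Bez

/-!
Chains of functions closed under differentiation, and counting by Morse perturbation.
-/

namespace Pool.Agent.P.MP_f17f76_ag.K

open Filter Topology Set MvPolynomial MeasureTheory

variable {ι κ : Type*} [Fintype ι] [DecidableEq ι] [Fintype κ]

/-- On `U`, `f` is a polynomial of degree at most `D` in the functions `γ`. -/
def IsPol (U : Set (ι → ℝ)) (γ : (ι → ℝ) → κ → ℝ) (D : ℕ) (f : (ι → ℝ) → ℝ) : Prop :=
  ∃ p : MvPolynomial κ ℝ, p.totalDegree ≤ D ∧ ∀ x ∈ U, f x = eval (γ x) p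

/-- On `U`, the partial derivatives of `f` are polynomials of degree at most `D` in `γ`. -/
def IsInt (U : Set (ι → ℝ)) (γ : (ι → ℝ) → κ → ℝ) (D : ℕ) (f : (ι → ℝ) → ℝ) : Prop :=
  (∀ x ∈ U, DifferentiableAt ℝ f x) ∧
    ∀ j, IsPol U γ D fun x => fderiv ℝ f x (Pi.single j 1)

/-- The functions `γ` on the open set `U` are closed under differentiation. -/
structure Chain (d : ℕ) (U : Set (ι → ℝ)) (γ : (ι → ℝ) → κ → ℝ) : Prop where
  isOpen : IsOpen U
  der : ∀ k, IsInt U γ d fun x => γ x k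

/-- Square systems of degree at most `D` have at most `K` nondegenerate zeros in `U₀`. -/
def Bound (U₀ U : Set (ι → ℝ)) (γ : (ι → ℝ) → κ → ℝ) (D K : ℕ) : Prop :=
  ∀ F : ι → (ι → ℝ) → ℝ, (∀ i, IsPol U γ D (F i)) → ∀ S : Finset (ι → ℝ),
    (∀ x ∈ S, x ∈ U₀ ∧ (∀ i, F i x = 0) ∧ Function.Injective (fderiv ℝ (fun x i => F i x) x)) →
      S.card ≤ K

variable {U : Set (ι → ℝ)} {γ : (ι → ℝ) → κ → ℝ} {d D D' : ℕ} {f g : (ι → ℝ) → ℝ}

section Pol
omit [Fintype ι] [DecidableEq ι] [Fintype κ]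

theorem IsPol.mono (h : IsPol U γ D f) (hD : D ≤ D') : IsPol U γ D' f := by
  obtain ⟨p, h1, h2⟩ := h
  exact ⟨p, h1.trans hD, h2⟩

theorem IsPol.congr (h : IsPol U γ D f) (hg : ∀ x ∈ U, g x = f x) : IsPol U γ D g := by
  obtain ⟨p, h1, h2⟩ := h
  exact ⟨p, h1, fun x hx => (hg x hx).trans (h2 x hx)⟩

theorem isPol_const (c : ℝ) : IsPol U γ D fun _ => c := ⟨C c, by simp, by simp⟩

theorem isPol_eval (p : MvPolynomial κ ℝ) (h : p.totalDegree ≤ D) :
    IsPol U γ D fun x => eval (γ x) p := ⟨p, h, fun _ _ => rfl⟩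

theorem isPol_gen (k : κ) (h : 1 ≤ D) : IsPol U γ D fun x => γ x k :=
  ⟨X k, by simpa using h, by simp⟩

theorem IsPol.add (hf : IsPol U γ D f) (hg : IsPol U γ D g) : IsPol U γ D fun x => f x + g x := by
  obtain ⟨p, h1, h2⟩ := hf
  obtain ⟨q, h3, h4⟩ := hg
  exact ⟨p + q, (totalDegree_add p q).trans (max_le h1 h3), fun x hx => by
    rw [map_add, ← h2 x hx, ← h4 x hx]⟩

theorem IsPol.mul (hf : IsPol U γ D f) (hg : IsPol U γ D' g) :
    IsPol U γ (D + D') fun x => f x * g x := by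
  obtain ⟨p, h1, h2⟩ := hf
  obtain ⟨q, h3, h4⟩ := hg
  exact ⟨p * q, (totalDegree_mul p q).trans (add_le_add h1 h3), fun x hx => by
    rw [map_mul, ← h2 x hx, ← h4 x hx]⟩

theorem IsPol.const_mul (hf : IsPol U γ D f) (c : ℝ) : IsPol U γ D fun x => c * f x := by
  simpa using (isPol_const (D := 0) c).mul hf

theorem IsPol.neg (hf : IsPol U γ D f) : IsPol U γ D fun x => - f x := by
  simpa using hf.const_mul (-1)

theorem IsPol.sub (hf : IsPol U γ D f) (hg : IsPol U γ D g) : IsPol U γ D fun x => f x - g x := by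
  simpa [sub_eq_add_neg] using hf.add hg.neg

theorem isPol_sum {α : Type*} (s : Finset α) {F : α → (ι → ℝ) → ℝ}
    (h : ∀ a ∈ s, IsPol U γ D (F a)) : IsPol U γ D fun x => ∑ a ∈ s, F a x := by
  classical
  induction s using Finset.induction_on with
  | empty => simpa using isPol_const 0
  | insert a s ha ih =>
    simp only [Finset.sum_insert ha]
    exact (h a (Finset.mem_insert_self _ _)).add (ih fun b hb => h b (Finset.mem_insert_of_mem hb))

theorem isPol_prod {α : Type*} (s : Finset α) {F : α → (ι → ℝ) → ℝ}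
    (h : ∀ a ∈ s, IsPol U γ D (F a)) : IsPol U γ (s.card * D) fun x => ∏ a ∈ s, F a x := by
  classical
  induction s using Finset.induction_on with
  | empty => simpa using isPol_const 1
  | insert a s ha ih =>
    simp only [Finset.prod_insert ha, Finset.card_insert_of_notMem ha]
    exact ((h a (Finset.mem_insert_self _ _)).mul
      (ih fun b hb => h b (Finset.mem_insert_of_mem hb))).mono (le_of_eq (by ring))

theorem isPol_det {n : Type*} [Fintype n] [DecidableEq n] {M : (ι → ℝ) → Matrix n n ℝ}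
    (h : ∀ i j, IsPol U γ D fun x => M x i j) :
    IsPol U γ (Fintype.card n * D) fun x => (M x).det := by
  simp only [Matrix.det_apply']
  exact isPol_sum _ fun σ _ => (isPol_prod Finset.univ fun i _ => h (σ i) i).const_mul _

end Pol

omit [Fintype ι] [Fintype κ] in
theorem IsInt.mono (h : IsInt U γ D f) (hD : D ≤ D') : IsInt U γ D' f :=
  ⟨h.1, fun j => (h.2 j).mono hD⟩

omit [Fintype κ] in
theorem IsInt.sub_const (h : IsInt U γ D f) (c : ℝ) : IsInt U γ D fun x => f x - c :=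
  ⟨fun x hx => (h.1 x hx).sub_const c, fun j => by simpa only [fderiv_sub_const] using h.2 j⟩

theorem IsPol.isInt (hC : Chain d U γ) (h : IsPol U γ D f) : IsInt U γ (D + d) f := by
  obtain ⟨p, h1, h2⟩ := h
  have key : ∀ x ∈ U, HasFDerivAt f
      (∑ k, eval (γ x) (pderiv k p) • fderiv ℝ (fun x => γ x k) x) x := by
    intro x hx
    refine (hasFDerivAt_eval p γ _ fun k => ((hC.der k).1 x hx).hasFDerivAt).congr_of_eventuallyEq ?_
    filter_upwards [hC.isOpen.mem_nhds hx] with y hy using h2 y hy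
  refine ⟨fun x hx => (key x hx).differentiableAt, fun j => ?_⟩
  refine (isPol_sum Finset.univ fun k _ => (isPol_eval (pderiv k p)
    ((totalDegree_pderiv_le k p).trans h1)).mul ((hC.der k).2 j)).congr fun x hx => ?_
  rw [(key x hx).fderiv]
  simp

theorem IsPol.continuousOn (hC : Chain d U γ) (h : IsPol U γ D f) : ContinuousOn f U :=
  fun x hx => ((h.isInt hC).1 x hx).continuousAt.continuousWithinAt

omit [Fintype κ] in
theorem clm_eq_sum (L : (ι → ℝ) →L[ℝ] ℝ) :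
    L = ∑ j, L (Pi.single j 1) • (ContinuousLinearMap.proj j : (ι → ℝ) →L[ℝ] ℝ) := by
  ext v
  have h : v = ∑ j, v j • (Pi.single j 1 : ι → ℝ) := by
    funext i
    simp [Finset.sum_apply, Pi.single_apply]
  conv_lhs => rw [h]
  simp [mul_comm]

theorem IsInt.contDiffAt (hC : Chain d U γ) (h : IsInt U γ D f) {x : ι → ℝ} (hx : x ∈ U) :
    ContDiffAt ℝ 1 f x := by
  refine contDiffAt_one_iff.2 ⟨fderiv ℝ f, U, hC.isOpen.mem_nhds hx, ?_,
    fun y hy => (h.1 y hy).hasFDerivAt⟩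
  have : ContinuousOn (fun y => ∑ j, fderiv ℝ f y (Pi.single j 1) •
      (ContinuousLinearMap.proj j : (ι → ℝ) →L[ℝ] ℝ)) U :=
    continuousOn_finsetSum _ fun j _ => ((h.2 j).continuousOn hC).smul continuousOn_const
  exact this.congr fun y _ => clm_eq_sum _

/-- Counting compact sets with an interior minimum. -/
theorem morse_count {U₀ : Set (ι → ℝ)} {K : ℕ} (hC : Chain d U γ) (hK : Bound U₀ U γ (D + d) K)
    {h : (ι → ℝ) → ℝ} (hh : IsPol U γ D h) {α : Type*} (T : Finset α) (C B : α → Set (ι → ℝ))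
    (hCc : ∀ a ∈ T, IsCompact (C a)) (hBc : ∀ a ∈ T, IsCompact (B a)) (hBC : ∀ a ∈ T, B a ⊆ C a)
    (hCU : ∀ a ∈ T, C a ⊆ U) (hint : ∀ a ∈ T, ∀ y ∈ C a \ B a, y ∈ U₀ ∧ C a ∈ 𝓝 y)
    (hx : ∀ a ∈ T, ∃ x ∈ C a, ∀ b ∈ B a, h x < h b)
    (hdis : ∀ a ∈ T, ∀ a' ∈ T, ∀ y ∈ C a \ B a, y ∈ C a' \ B a' → a = a') : T.card ≤ K := by
  classical
  have hI := hh.isInt hC
  let G : (ι → ℝ) → ι → ℝ := fun x j => fderiv ℝ h x (Pi.single j 1)
  have hG : ∀ x ∈ U, DifferentiableAt ℝ G x := fun x hx =>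
    differentiableAt_pi.2 fun j => ((hI.2 j).isInt hC).1 x hx
  have h1 : ∀ᶠ l in 𝓝 (0 : ι → ℝ), ∀ a ∈ T,
      ∃ y ∈ C a \ B a, IsMinOn (fun u => h u - ∑ j, l j * u j) (C a) y := by
    rw [Finset.eventually_all]
    intro a ha
    obtain ⟨x, hxC, hlt⟩ := hx a ha
    exact morse_one (hCc a ha) (hBc a ha) (hBC a ha) ((hh.continuousOn hC).mono (hCU a ha)) hxC hlt
  obtain ⟨l, hl, hs⟩ := exists_of_ae (sard hG) h1
  choose! y hy hmin using hl
  have hcrit : ∀ a ∈ T, G (y a) = l := by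
    intro a ha
    funext j
    have h2 : HasFDerivAt (fun u : ι → ℝ => ∑ j, l j * u j)
        (∑ j, l j • (ContinuousLinearMap.proj j : (ι → ℝ) →L[ℝ] ℝ)) (y a) :=
      HasFDerivAt.fun_sum fun j _ =>
        (ContinuousLinearMap.proj (R := ℝ) (φ := fun _ : ι => ℝ) j).hasFDerivAt.const_mul (l j)
    have h3 := ((hmin a ha).isLocalMin (hint a ha _ (hy a ha)).2).hasFDerivAt_eq_zero
      ((hI.1 _ (hCU a ha (hy a ha).1)).hasFDerivAt.sub h2)
    have h4 := congrArg (fun L : (ι → ℝ) →L[ℝ] ℝ => L (Pi.single j 1)) h3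
    simpa [G, Pi.single_apply, sub_eq_zero] using h4
  rw [← Finset.card_image_of_injOn (f := y) fun a ha a' ha' h =>
    hdis a ha a' ha' _ (hy a ha) (h ▸ hy a' ha')]
  refine hK (fun j x => G x j - l j) (fun j => (hI.2 j).sub (isPol_const _)) _ fun x hx => ?_
  obtain ⟨a, ha, rfl⟩ := Finset.mem_image.1 hx
  refine ⟨(hint a ha _ (hy a ha)).1, fun j => by rw [hcrit a ha, sub_self], ?_⟩
  have : (fun x j => G x j - l j) = fun x => G x - l := rfl
  rw [this, fderiv_sub_const]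
  exact hs _ (hCU a ha (hy a ha).1) (hcrit a ha)

/-- Counting isolated minima. -/
theorem isolated_count {U₀ : Set (ι → ℝ)} {K : ℕ} (hC : Chain d U γ)
    (hK : Bound U₀ U γ (D + d) K) {h : (ι → ℝ) → ℝ} (hh : IsPol U γ D h) (S : Finset (ι → ℝ))
    (hU : ∀ x ∈ S, x ∈ U ∧ U₀ ∈ 𝓝 x) (hS : ∀ x ∈ S, ∀ᶠ y in 𝓝 x, y ≠ x → h x < h y) :
    S.card ≤ K := by
  obtain ⟨O, hO, hdis⟩ := S.finite_toSet.t2_separation
  have h1 : ∀ x ∈ S, ∃ r > 0, ∀ y ∈ Metric.closedBall x r,
      y ∈ O x ∧ y ∈ U ∧ y ∈ U₀ ∧ (y ≠ x → h x < h y) := by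
    intro x hx
    obtain ⟨r, hr, h2⟩ := Metric.nhds_basis_closedBall.eventually_iff.1
      ((show ∀ᶠ y in 𝓝 x, y ∈ O x from (hO x).2.mem_nhds (hO x).1).and
        ((show ∀ᶠ y in 𝓝 x, y ∈ U from hC.isOpen.mem_nhds (hU x hx).1).and
        ((show ∀ᶠ y in 𝓝 x, y ∈ U₀ from (hU x hx).2).and (hS x hx))))
    exact ⟨r, hr, fun y hy => h2 hy⟩
  choose! r hr hr' using h1
  refine morse_count hC hK hh S (fun x => Metric.closedBall x (r x))
    (fun x => Metric.sphere x (r x)) (fun x _ => isCompact_closedBall _ _)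
    (fun x _ => isCompact_sphere _ _) (fun x _ => Metric.sphere_subset_closedBall)
    (fun x hx y hy => (hr' x hx y hy).2.1) (fun x hx y hy => ⟨(hr' x hx y hy.1).2.2.1, ?_⟩)
    (fun x hx => ⟨x, Metric.mem_closedBall_self (hr x hx).le, fun b hb => ?_⟩)
    (fun x hx x' hx' y hy hy' => ?_)
  · rw [Metric.closedBall_sdiff_sphere] at hy
    exact mem_of_superset (Metric.isOpen_ball.mem_nhds hy) Metric.ball_subset_closedBall
  · refine (hr' x hx b (Metric.sphere_subset_closedBall hb)).2.2.2 ?_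
    rintro rfl
    have := hr b hx
    simp at hb
    linarith
  · by_contra hne
    exact (hdis hx hx' hne).ne_of_mem (hr' x hx y hy.1).1 (hr' x' hx' y hy'.1).1 rfl

omit [Fintype κ] in
theorem chain_id : Chain 0 (univ : Set (ι → ℝ)) (fun x => x) := by
  refine ⟨isOpen_univ, fun k => ⟨fun x _ => differentiableAt_apply k x, fun j => ?_⟩⟩
  refine (isPol_const ((Pi.single j 1 : ι → ℝ) k)).congr fun x _ => ?_
  rw [(hasFDerivAt_apply k x).fderiv]
  rfl

omit [Fintype κ] [DecidableEq ι] in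
theorem bound_id (D : ℕ) :
    Bound univ (univ : Set (ι → ℝ)) (fun x => x) D ((D + 1) ^ Fintype.card ι) := by
  intro F hF S hS
  choose P hP hP' using hF
  have : F = fun i x => eval x (P i) := by
    funext i x
    exact hP' i x trivial
  subst this
  exact bezout D P hP S (fun x hx => (hS x hx).2.1) fun x hx => (hS x hx).2.2

end Pool.Agent.P.MP_f17f76_ag.K
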