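import Pool.Agent.P.MP_f17f76_ag.K.Graph

/-!
The covering lemma: a zero set that avoids the faces of high codimension of a grid meets few cells.
-/

namespace Pool.Agent.P.MP_f17f76_ag.K

open Filter Topology Set MvPolynomial

variable {ι κ : Type*} [Fintype ι] [DecidableEq ι] [Fintype κ]

/-- The closed cell with index `a` of the grid with lines `t i m`. -/
def cell (t : ι → ℤ → ℝ) (a : ι → ℤ) : Set (ι → ℝ) :=
  {x | ∀ i, t i (a i) ≤ x i ∧ x i ≤ t i (a i + 1)}

open Classical in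
/-- The coordinates of `x` that lie on a grid line. -/
noncomputable def onGrid (t : ι → ℤ → ℝ) (x : ι → ℝ) : Finset ι :=
  Finset.univ.filter fun i => ∃ m, x i = t i m

omit [DecidableEq ι] in
theorem mem_onGrid {t : ι → ℤ → ℝ} {x : ι → ℝ} {i : ι} : i ∈ onGrid t x ↔ ∃ m, x i = t i m := by
  simp [onGrid]

/-- Cells with a common minimal face plane. -/
theorem cov_fibre {U₀ U : Set (ι → ℝ)} {γ : (ι → ℝ) → κ → ℝ} {d D K : ℕ} (hC : Chain d U γ)
    (hK : Bound U₀ U γ (D + d) K) (hx : ∀ i, IsPol U γ (D + d) fun x => x i)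
    {h : (ι → ℝ) → ℝ} (hh : IsPol U γ D h) {t : ι → ℤ → ℝ} (ht : ∀ i, StrictMono (t i))
    (T : Finset (ι → ℤ)) (J : Finset ι) (c : ι → ℝ) (m : ι → ℤ)
    (hU : ∀ a ∈ T, ∀ x ∈ cell t a, x ∈ U ∧ x ∈ U₀ ∧ 0 ≤ h x)
    (hm : ∀ a ∈ T, ∀ i ∈ J, a i = m i)
    (hz : ∀ a ∈ T, ∃ x ∈ cell t a, h x = 0 ∧ onGrid t x = J ∧ (∀ i ∈ J, x i = c i) ∧
      ∀ y ∈ cell t a, h y = 0 → (onGrid t y).card ≤ J.card) : T.card ≤ K := by
  classical
  let p : ι → Prop := fun i => i ∉ J
  let C : (ι → ℤ) → Set ({i // p i} → ℝ) := fun a =>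
    Icc (fun i => t i.1 (a i.1)) fun i => t i.1 (a i.1 + 1)
  let O : (ι → ℤ) → Set ({i // p i} → ℝ) := fun a =>
    Set.pi univ fun i => Ioo (t i.1 (a i.1)) (t i.1 (a i.1 + 1))
  have hO : ∀ a, IsOpen (O a) := fun a => isOpen_set_pi finite_univ fun i _ => isOpen_Ioo
  have hOC : ∀ a, O a ⊆ C a := fun a y hy =>
    ⟨fun i => (hy i trivial).1.le, fun i => (hy i trivial).2.le⟩
  have hcell : ∀ a ∈ T, ∀ y ∈ C a, plEmb p c y ∈ cell t a := by
    intro a ha y hy i
    by_cases hi : p i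
    · simp only [plEmb, dif_pos hi]
      exact ⟨hy.1 ⟨i, hi⟩, hy.2 ⟨i, hi⟩⟩
    · obtain ⟨x, hxc, -, -, hxJ, -⟩ := hz a ha
      simp only [plEmb, dif_neg hi]
      rw [← hxJ i (not_not.1 hi)]
      exact hxc i
  have hdiff : ∀ a, ∀ y ∈ C a \ (C a \ O a), y ∈ O a := fun a y hy => by
    by_contra h0
    exact hy.2 ⟨hy.1, h0⟩
  refine morse_count (hC.plane p c) (hK.plane hC hx p c) (hh.comp fun x hx => hx) T C
    (fun a => C a \ O a) (fun a _ => isCompact_Icc) (fun a _ => isCompact_Icc.diff (hO a))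
    (fun a _ => sdiff_subset) (fun a ha y hy => (hU a ha _ (hcell a ha y hy)).1)
    (fun a ha y hy => ⟨⟨(hU a ha _ (hcell a ha y hy.1)).1, (hU a ha _ (hcell a ha y hy.1)).2.1⟩,
      mem_of_superset ((hO a).mem_nhds (hdiff a y hy)) (hOC a)⟩) (fun a ha => ?_)
    (fun a ha a' ha' y hy hy' => ?_)
  · obtain ⟨x, hxc, hx0, hxG, hxJ, hmax⟩ := hz a ha
    have e : plEmb p c (fun i => x i.1) = x := by
      funext i
      by_cases hi : p i
      · simp only [plEmb, dif_pos hi]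
      · simp only [plEmb, dif_neg hi]
        exact (hxJ i (not_not.1 hi)).symm
    refine ⟨fun i => x i.1, ⟨fun i => (hxc i.1).1, fun i => (hxc i.1).2⟩, fun y hy => ?_⟩
    rw [e, hx0]
    refine lt_of_le_of_ne (hU a ha _ (hcell a ha y hy.1)).2.2 fun h0 => ?_
    have h1 := hmax _ (hcell a ha y hy.1) h0.symm
    obtain ⟨i, hi⟩ : ∃ i : {i // p i}, y i = t i.1 (a i.1) ∨ y i = t i.1 (a i.1 + 1) := by
      by_contra hne
      push Not at hne
      exact hy.2 fun i _ => ⟨lt_of_le_of_ne (hy.1.1 i) (hne i).1.symm,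
        lt_of_le_of_ne (hy.1.2 i) (hne i).2⟩
    have h2 : insert i.1 J ⊆ onGrid t (plEmb p c y) := by
      intro j hj
      rw [mem_onGrid]
      rcases Finset.mem_insert.1 hj with rfl | hj
      · simp only [plEmb, dif_pos i.2]
        rcases hi with hi | hi
        · exact ⟨_, hi⟩
        · exact ⟨_, hi⟩
      · have : ¬ p j := not_not.2 hj
        simp only [plEmb, dif_neg this]
        rw [← hxJ j hj]
        exact mem_onGrid.1 (hxG ▸ hj)
    have h3 := Finset.card_le_card h2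
    rw [Finset.card_insert_of_notMem i.2] at h3
    omega
  · funext i
    by_cases hi : p i
    · have h1 := hdiff a y hy ⟨i, hi⟩ trivial
      have h2 := hdiff a' y hy' ⟨i, hi⟩ trivial
      have h3 := (ht i).lt_iff_lt.1 (h1.1.trans h2.2)
      have h4 := (ht i).lt_iff_lt.1 (h2.1.trans h1.2)
      change a i < a' i + 1 at h3
      change a' i < a i + 1 at h4
      omega
    · rw [hm a ha i (not_not.1 hi), hm a' ha' i (not_not.1 hi)]

/-- The covering lemma. -/
theorem cov {U₀ U : Set (ι → ℝ)} {γ : (ι → ℝ) → κ → ℝ} {d D K : ℕ} (hC : Chain d U γ)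
    (hK : Bound U₀ U γ (D + d) K) (hx : ∀ i, IsPol U γ (D + d) fun x => x i)
    {h : (ι → ℝ) → ℝ} (hh : IsPol U γ D h) {t : ι → ℤ → ℝ} (ht : ∀ i, StrictMono (t i))
    (A : ι → Finset ℤ) {n p : ℕ} (hn : 1 ≤ n) (hA : ∀ i, (A i).card ≤ n)
    (T : Finset (ι → ℤ)) (hT : ∀ a ∈ T, ∀ i, a i ∈ A i)
    (hU : ∀ a ∈ T, ∀ x ∈ cell t a, x ∈ U ∧ x ∈ U₀ ∧ 0 ≤ h x)
    (hz : ∀ a ∈ T, ∃ x ∈ cell t a, h x = 0)
    (hp : ∀ a ∈ T, ∀ x ∈ cell t a, h x = 0 → (onGrid t x).card ≤ p) :
    T.card ≤ K * (4 ^ Fintype.card ι * n ^ p) := by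
  classical
  have h1 : ∀ a ∈ T, ∃ x ∈ cell t a, h x = 0 ∧
      ∀ y ∈ cell t a, h y = 0 → (onGrid t y).card ≤ (onGrid t x).card := by
    intro a ha
    obtain ⟨x₀, hx₀, h₀⟩ := hz a ha
    have hfin : ((fun x => (onGrid t x).card) '' {x | x ∈ cell t a ∧ h x = 0}).Finite :=
      (finite_Iic p).subset (by
        rintro _ ⟨x, hx, rfl⟩
        exact hp a ha x hx.1 hx.2)
    obtain ⟨_, ⟨x, hx, rfl⟩, hmax⟩ := Set.exists_max_image _ id hfin ⟨_, x₀, ⟨hx₀, h₀⟩, rfl⟩
    exact ⟨x, hx.1, hx.2, fun y hy h0 => hmax _ ⟨y, ⟨hy, h0⟩, rfl⟩⟩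
  choose! x hxc hx0 hmax using h1
  let key : (ι → ℤ) → Finset ι × (ι → Bool) × (ι → ℤ) := fun a =>
    (onGrid t (x a), fun i => decide (x a i = t i (a i)),
      fun i => if i ∈ onGrid t (x a) then a i else 0)
  refine (Finset.card_le_mul_card_image (f := key) T K ?_).trans (Nat.mul_le_mul_left _ ?_)
  · rintro ⟨J, e, m⟩ -
    refine cov_fibre hC hK hx hh ht _ J (fun i => if e i then t i (m i) else t i (m i + 1)) m
      (fun a ha => hU a (Finset.mem_filter.1 ha).1) (fun a ha i hi => ?_) fun a ha => ?_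
    · obtain ⟨-, h2⟩ := Finset.mem_filter.1 ha
      obtain ⟨rfl, -, rfl⟩ := (by simpa [key] using h2 : _ ∧ _ ∧ _)
      simp [hi]
    · obtain ⟨haT, h2⟩ := Finset.mem_filter.1 ha
      obtain ⟨rfl, rfl, rfl⟩ := (by simpa [key] using h2 : _ ∧ _ ∧ _)
      refine ⟨x a, hxc a haT, hx0 a haT, rfl, fun i hi => ?_, hmax a haT⟩
      simp only [if_pos hi, decide_eq_true_eq]
      split_ifs with h3
      · exact h3
      · obtain ⟨k, hk⟩ := mem_onGrid.1 hi
        have h4 := hxc a haT i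
        rw [hk] at h3 h4 ⊢
        have h5 := (ht i).le_iff_le.1 h4.1
        have h6 := (ht i).le_iff_le.1 h4.2
        have h7 : k ≠ a i := fun h => h3 (by rw [h])
        rw [show k = a i + 1 by omega]
  · have hsub : T.image key ⊆ ((Finset.univ : Finset (Finset ι)).filter fun J => J.card ≤ p).biUnion
        fun J => {J} ×ˢ (Finset.univ ×ˢ Fintype.piFinset fun i => if i ∈ J then A i else {0}) := by
      intro z hz
      obtain ⟨a, ha, rfl⟩ := Finset.mem_image.1 hz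
      refine Finset.mem_biUnion.2 ⟨onGrid t (x a), by
        simpa using hp a ha _ (hxc a ha) (hx0 a ha), ?_⟩
      simp only [key, Finset.mem_product, Finset.mem_singleton, Finset.mem_univ, true_and,
        Fintype.mem_piFinset]
      intro i
      split_ifs
      · exact hT a ha i
      · simp
    refine (Finset.card_le_card hsub).trans ((Finset.card_biUnion_le_card_mul _ _
      (2 ^ Fintype.card ι * n ^ p) fun J hJ => ?_).trans ?_)
    · rw [Finset.card_product, Finset.card_product, Finset.card_singleton, one_mul,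
        Finset.card_univ, Fintype.card_fun, Fintype.card_bool, Fintype.card_piFinset]
      refine Nat.mul_le_mul_left _ ?_
      calc ∏ i, (if i ∈ J then A i else {0}).card ≤ ∏ i, if i ∈ J then n else 1 :=
            Finset.prod_le_prod' fun i _ => by
              split_ifs
              · exact hA i
              · simp
        _ = n ^ J.card := by simp [Finset.prod_ite_mem]
        _ ≤ n ^ p := Nat.pow_le_pow_right hn (Finset.mem_filter.1 hJ).2
    · rw [show (4 : ℕ) = 2 * 2 from rfl, mul_pow, mul_assoc]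
      refine Nat.mul_le_mul_right _ ((Finset.card_filter_le _ _).trans ?_)
      simp

end Pool.Agent.P.MP_f17f76_ag.K
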