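import Pool.Agent.P.MP_f17f76_ag.K.Cov

/-!
Products of chains, complex valued polynomials in a chain, and realification of complex chains.
-/

set_option linter.unusedSectionVars false

namespace Pool.Agent.P.MP_f17f76_ag.K

open Filter Topology Set MvPolynomial

variable {ι ι' κ κ' : Type*}

theorem IsPol.rename {U : Set (ι → ℝ)} {γ : (ι → ℝ) → κ → ℝ} {γ' : (ι → ℝ) → κ' → ℝ} {D : ℕ}
    {f : (ι → ℝ) → ℝ} (h : IsPol U γ D f) (e : κ → κ') (he : ∀ x ∈ U, ∀ k, γ' x (e k) = γ x k) :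
    IsPol U γ' D f := by
  obtain ⟨p, h1, h2⟩ := h
  refine ⟨MvPolynomial.rename e p, (totalDegree_rename_le e p).trans h1, fun x hx => ?_⟩
  rw [eval_rename, h2 x hx]
  congr 2
  funext k
  exact (he x hx k).symm

theorem IsPol.subset {U U' : Set (ι → ℝ)} {γ : (ι → ℝ) → κ → ℝ} {D : ℕ}
    {f : (ι → ℝ) → ℝ} (h : IsPol U γ D f) (hU : U' ⊆ U) : IsPol U' γ D f := by
  obtain ⟨p, h1, h2⟩ := h
  exact ⟨p, h1, fun x hx => h2 x (hU hx)⟩

section Int

variable [Fintype ι] [DecidableEq ι] [Fintype ι'] [DecidableEq ι']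

theorem IsInt.rename {U : Set (ι → ℝ)} {γ : (ι → ℝ) → κ → ℝ} {γ' : (ι → ℝ) → κ' → ℝ} {D : ℕ}
    {f : (ι → ℝ) → ℝ} (h : IsInt U γ D f) (e : κ → κ') (he : ∀ x ∈ U, ∀ k, γ' x (e k) = γ x k) :
    IsInt U γ' D f := ⟨h.1, fun j => (h.2 j).rename e he⟩

theorem IsInt.subset {U U' : Set (ι → ℝ)} {γ : (ι → ℝ) → κ → ℝ} {D : ℕ}
    {f : (ι → ℝ) → ℝ} (h : IsInt U γ D f) (hU : U' ⊆ U) : IsInt U' γ D f :=
  ⟨fun x hx => h.1 x (hU hx), fun j => (h.2 j).subset hU⟩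

theorem IsInt.sub {U : Set (ι → ℝ)} {γ : (ι → ℝ) → κ → ℝ} {D : ℕ} {f g : (ι → ℝ) → ℝ}
    (hf : IsInt U γ D f) (hg : IsInt U γ D g) : IsInt U γ D fun x => f x - g x :=
  ⟨fun x hx => (hf.1 x hx).sub (hg.1 x hx), fun j => ((hf.2 j).sub (hg.2 j)).congr fun x hx => by
    rw [fderiv_fun_sub (hf.1 x hx) (hg.1 x hx)]
    rfl⟩

theorem isInt_coord {U : Set (ι → ℝ)} {γ : (ι → ℝ) → κ → ℝ} {D : ℕ} (i : ι) :
    IsInt U γ D fun x => x i :=
  ⟨fun x _ => differentiableAt_apply i x, fun j =>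
    (isPol_const ((Pi.single j 1 : ι → ℝ) i)).congr fun x _ => by
      rw [(hasFDerivAt_apply i x).fderiv]
      rfl⟩

theorem Chain.subset {U U' : Set (ι → ℝ)} {γ : (ι → ℝ) → κ → ℝ} {d : ℕ} (h : Chain d U γ)
    (ho : IsOpen U') (hU : U' ⊆ U) : Chain d U' γ := ⟨ho, fun k => (h.der k).subset hU⟩

theorem Chain.mono {U : Set (ι → ℝ)} {γ : (ι → ℝ) → κ → ℝ} {d d' : ℕ} (h : Chain d U γ)
    (hd : d ≤ d') : Chain d' U γ := ⟨h.isOpen, fun k => (h.der k).mono hd⟩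

/-- The product of two open sets, in the coordinates `ι ⊕ ι'`. -/
def sprod (U : Set (ι → ℝ)) (U' : Set (ι' → ℝ)) : Set (ι ⊕ ι' → ℝ) :=
  {y | (fun i => y (Sum.inl i)) ∈ U ∧ (fun i => y (Sum.inr i)) ∈ U'}

/-- The product of two chains. -/
def gprod (γ : (ι → ℝ) → κ → ℝ) (γ' : (ι' → ℝ) → κ' → ℝ) (y : ι ⊕ ι' → ℝ) : κ ⊕ κ' → ℝ :=
  Sum.elim (γ fun i => y (Sum.inl i)) (γ' fun i => y (Sum.inr i))

variable {U : Set (ι → ℝ)} {U' : Set (ι' → ℝ)} {γ : (ι → ℝ) → κ → ℝ} {γ' : (ι' → ℝ) → κ' → ℝ}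
  {d D : ℕ}

omit [Fintype ι] [DecidableEq ι] [Fintype ι'] [DecidableEq ι'] in
theorem IsPol.inl {f : (ι → ℝ) → ℝ} (h : IsPol U γ D f) :
    IsPol (sprod U U') (gprod γ γ') D fun y => f fun i => y (Sum.inl i) :=
  (h.comp (U' := sprod U U') fun _ hy => hy.1).rename Sum.inl fun _ _ _ => rfl

omit [Fintype ι] [DecidableEq ι] [Fintype ι'] [DecidableEq ι'] in
theorem IsPol.inr {f : (ι' → ℝ) → ℝ} (h : IsPol U' γ' D f) :
    IsPol (sprod U U') (gprod γ γ') D fun y => f fun i => y (Sum.inr i) :=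
  (h.comp (U' := sprod U U') fun _ hy => hy.2).rename Sum.inr fun _ _ _ => rfl

theorem IsInt.inl {f : (ι → ℝ) → ℝ} (h : IsInt U γ D f) :
    IsInt (sprod U U') (gprod γ γ') D fun y => f fun i => y (Sum.inl i) :=
  (h.comp (U' := sprod U U') (D' := 0) (fun _ hy => hy.1) fun _ => isInt_coord _).rename
    Sum.inl fun _ _ _ => rfl

theorem IsInt.inr {f : (ι' → ℝ) → ℝ} (h : IsInt U' γ' D f) :
    IsInt (sprod U U') (gprod γ γ') D fun y => f fun i => y (Sum.inr i) :=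
  (h.comp (U' := sprod U U') (D' := 0) (fun _ hy => hy.2) fun _ => isInt_coord _).rename
    Sum.inr fun _ _ _ => rfl

theorem Chain.prod (h : Chain d U γ) (h' : Chain d U' γ') : Chain d (sprod U U') (gprod γ γ') := by
  refine ⟨(h.isOpen.preimage (by fun_prop)).inter (h'.isOpen.preimage (by fun_prop)), ?_⟩
  rintro (k | k)
  · exact (h.der k).inl
  · exact (h'.der k).inr

variable [Fintype κ] [Fintype κ']

theorem Emb.mono {ρ : (ι → ℝ) → ℝ} {d' : ℕ} (h : Emb d U γ ρ) (hd : d ≤ d') : Emb d' U γ ρ := by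
  obtain ⟨Q, h1, h2⟩ := h.alg
  exact ⟨h.inj, ⟨Q, h1.trans hd, h2⟩, h.pol.mono hd, h.cpt⟩

theorem Emb.prod (hC : Chain d U γ) (hC' : Chain d U' γ') {q : (ι → ℝ) → ℝ} {q' : (ι' → ℝ) → ℝ}
    (h : Emb d U γ fun x => 1 - q x) (h' : Emb d U' γ' fun x => 1 - q' x)
    (hq : ∀ x ∈ U, 0 ≤ q x) (hq' : ∀ x ∈ U', 0 ≤ q' x) :
    Emb (2 * d) (sprod U U') (gprod γ γ')
      fun y => 1 - ((q fun i => y (Sum.inl i)) + q' fun i => y (Sum.inr i)) := by
  have hp : IsPol (sprod U U') (gprod γ γ') d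
      fun y => 1 - ((q fun i => y (Sum.inl i)) + q' fun i => y (Sum.inr i)) :=
    ((h.pol.inl.add h'.pol.inr).sub (isPol_const 1)).congr fun y _ => by ring
  refine ⟨fun y hy z hz e => ?_, ?_, hp.mono (by omega), ?_⟩
  · have e1 := h.inj hy.1 hz.1 (funext fun k => congrFun e (Sum.inl k))
    have e2 := h'.inj hy.2 hz.2 (funext fun k => congrFun e (Sum.inr k))
    funext a
    rcases a with a | a
    · exact congrFun e1 a
    · exact congrFun e2 a
  · obtain ⟨Q, hd, h0, hl⟩ := h.alg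
    obtain ⟨Q', hd', h0', hl'⟩ := h'.alg
    have a1 := (totalDegree_rename_le (Sum.inl : κ → κ ⊕ κ') Q).trans hd
    have a2 := (totalDegree_rename_le (Sum.inr : κ' → κ ⊕ κ') Q').trans hd'
    refine ⟨rename Sum.inl Q * rename Sum.inl Q + rename Sum.inr Q' * rename Sum.inr Q',
      (totalDegree_add _ _).trans (max_le ((totalDegree_mul _ _).trans (by omega))
        ((totalDegree_mul _ _).trans (by omega))), fun y hy => ?_, fun y hy N hN => ?_⟩
    · simp only [map_add, map_mul, eval_rename]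
      change eval (γ _) Q * eval (γ _) Q + eval (γ' _) Q' * eval (γ' _) Q' = 0
      rw [h0 _ hy.1, h0' _ hy.2]
      ring
    · have hc : Continuous fun p : (ι → ℝ) × (ι' → ℝ) => (Sum.elim p.1 p.2 : ι ⊕ ι' → ℝ) :=
        continuous_pi (by rintro (a | a) <;> simp only [Sum.elim_inl, Sum.elim_inr] <;> fun_prop)
      have hN' : (fun p : (ι → ℝ) × (ι' → ℝ) => (Sum.elim p.1 p.2 : ι ⊕ ι' → ℝ)) ⁻¹' N ∈
          𝓝 ((fun i => y (Sum.inl i)), fun i => y (Sum.inr i)) :=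
        hc.continuousAt.preimage_mem_nhds (by
          convert hN
          funext a
          rcases a with a | a <;> rfl)
      obtain ⟨N₁, hN₁, N₂, hN₂, hsub⟩ := mem_nhds_prod_iff.1 hN'
      have t1 : Tendsto (fun z : κ ⊕ κ' → ℝ => fun k => z (Sum.inl k)) (𝓝 (gprod γ γ' y))
          (𝓝 (γ fun i => y (Sum.inl i))) := Continuous.tendsto' (by fun_prop) _ _ rfl
      have t2 : Tendsto (fun z : κ ⊕ κ' → ℝ => fun k => z (Sum.inr k)) (𝓝 (gprod γ γ' y))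
          (𝓝 (γ' fun i => y (Sum.inr i))) := Continuous.tendsto' (by fun_prop) _ _ rfl
      filter_upwards [t1.eventually (hl _ hy.1 N₁ hN₁), t2.eventually (hl' _ hy.2 N₂ hN₂)]
        with z hz1 hz2 hz
      simp only [map_add, map_mul, eval_rename] at hz
      obtain ⟨z1, z2⟩ := mul_self_add_mul_self_eq_zero.1 hz
      obtain ⟨x, hx, ex⟩ := hz1 z1
      obtain ⟨x', hx', ex'⟩ := hz2 z2
      refine ⟨Sum.elim x x', hsub (mk_mem_prod hx hx'), ?_⟩
      funext a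
      rcases a with a | a
      · exact congrFun ex a
      · exact congrFun ex' a
  · have hc : Continuous fun p : (ι → ℝ) × (ι' → ℝ) => (Sum.elim p.1 p.2 : ι ⊕ ι' → ℝ) :=
      continuous_pi (by rintro (a | a) <;> simp only [Sum.elim_inl, Sum.elim_inr] <;> fun_prop)
    have hK := (h.cpt.prod h'.cpt).image hc
    have hKU : (fun p : (ι → ℝ) × (ι' → ℝ) => (Sum.elim p.1 p.2 : ι ⊕ ι' → ℝ)) ''
        {x | x ∈ U ∧ 0 ≤ 1 - q x} ×ˢ {x | x ∈ U' ∧ 0 ≤ 1 - q' x} ⊆ sprod U U' := by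
      rintro _ ⟨p, hp, rfl⟩
      exact ⟨hp.1.1, hp.2.1⟩
    have hcl := (((hp.continuousOn (hC.prod hC')).mono hKU).preimage_isClosed_of_isClosed
      hK.isClosed (isClosed_Ici (a := 0)))
    convert hK.of_isClosed_subset hcl inter_subset_left using 1
    ext y
    refine ⟨fun hy => ⟨⟨((fun i => y (Sum.inl i)), fun i => y (Sum.inr i)), ⟨⟨hy.1.1, ?_⟩,
      hy.1.2, ?_⟩, ?_⟩, hy.2⟩, fun hy => ⟨hKU hy.1, hy.2⟩⟩
    · have := hq' _ hy.1.2
      have := hy.2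
      linarith
    · have := hq _ hy.1.1
      have := hy.2
      linarith
    · funext a
      rcases a with a | a <;> rfl

end Int

/-- Real and imaginary part of `f` are polynomials in the chain. -/
def IsPolC (U : Set (ι → ℝ)) (γ : (ι → ℝ) → κ → ℝ) (D : ℕ) (f : (ι → ℝ) → ℂ) : Prop :=
  IsPol U γ D (fun x => (f x).re) ∧ IsPol U γ D fun x => (f x).im

section PolC

variable {U : Set (ι → ℝ)} {γ : (ι → ℝ) → κ → ℝ} {D D' : ℕ} {f g : (ι → ℝ) → ℂ}

theorem IsPolC.mono (h : IsPolC U γ D f) (hD : D ≤ D') : IsPolC U γ D' f :=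
  ⟨h.1.mono hD, h.2.mono hD⟩

theorem IsPolC.congr (h : IsPolC U γ D f) (hg : ∀ x ∈ U, g x = f x) : IsPolC U γ D g :=
  ⟨h.1.congr fun x hx => by rw [hg x hx], h.2.congr fun x hx => by rw [hg x hx]⟩

theorem isPolC_const (c : ℂ) : IsPolC U γ D fun _ => c := ⟨isPol_const _, isPol_const _⟩

theorem IsPol.ofReal {f : (ι → ℝ) → ℝ} (h : IsPol U γ D f) : IsPolC U γ D fun x => (f x : ℂ) :=
  ⟨by simpa using h, by simpa using isPol_const 0⟩

theorem IsPolC.add (hf : IsPolC U γ D f) (hg : IsPolC U γ D g) :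
    IsPolC U γ D fun x => f x + g x := ⟨hf.1.add hg.1, hf.2.add hg.2⟩

theorem IsPolC.sub (hf : IsPolC U γ D f) (hg : IsPolC U γ D g) :
    IsPolC U γ D fun x => f x - g x := ⟨hf.1.sub hg.1, hf.2.sub hg.2⟩

theorem IsPolC.mul (hf : IsPolC U γ D f) (hg : IsPolC U γ D' g) :
    IsPolC U γ (D + D') fun x => f x * g x :=
  ⟨(hf.1.mul hg.1).sub (hf.2.mul hg.2), (hf.1.mul hg.2).add (hf.2.mul hg.1)⟩

theorem IsPolC.const_mul (hf : IsPolC U γ D f) (c : ℂ) : IsPolC U γ D fun x => c * f x := by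
  simpa using (isPolC_const (D := 0) c).mul hf

theorem IsPolC.normSq (hf : IsPolC U γ D f) : IsPol U γ (2 * D) fun x => Complex.normSq (f x) :=
  ((hf.1.mul hf.1).add (hf.2.mul hf.2)).mono (by omega)

theorem isPolC_sum {α : Type*} (s : Finset α) {F : α → (ι → ℝ) → ℂ}
    (h : ∀ a ∈ s, IsPolC U γ D (F a)) : IsPolC U γ D fun x => ∑ a ∈ s, F a x :=
  ⟨by simpa only [Complex.re_sum] using isPol_sum s fun a ha => (h a ha).1,
    by simpa only [Complex.im_sum] using isPol_sum s fun a ha => (h a ha).2⟩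

theorem IsPolC.pow (hf : IsPolC U γ D f) (n : ℕ) : IsPolC U γ (n * D) fun x => f x ^ n := by
  induction n with
  | zero => simpa using isPolC_const 1
  | succ n ih => simpa only [pow_succ, Nat.succ_mul] using ih.mul hf

theorem isPolC_prod {α : Type*} (s : Finset α) {F : α → (ι → ℝ) → ℂ} (n : α → ℕ)
    (h : ∀ a ∈ s, IsPolC U γ (n a) (F a)) :
    IsPolC U γ (∑ a ∈ s, n a) fun x => ∏ a ∈ s, F a x := by
  classical
  induction s using Finset.induction_on with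
  | empty => simpa using isPolC_const 1
  | insert a s ha ih =>
    simp only [Finset.prod_insert ha, Finset.sum_insert ha]
    exact (h a (Finset.mem_insert_self _ _)).mul (ih fun b hb => h b (Finset.mem_insert_of_mem hb))

/-- A complex polynomial in complex polynomials of the chain. -/
theorem isPolC_eval {σ : Type*} {Y : (ι → ℝ) → σ → ℂ} (hY : ∀ k, IsPolC U γ D fun x => Y x k)
    (p : MvPolynomial σ ℂ) {n : ℕ} (hp : p.totalDegree ≤ n) :
    IsPolC U γ (n * D) fun x => eval (Y x) p := by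
  simp only [eval_eq]
  refine isPolC_sum _ fun m hm => IsPolC.const_mul ?_ _
  refine (isPolC_prod _ (fun k => m k * D) fun k _ => (hY k).pow (m k)).mono ?_
  rw [← Finset.sum_mul]
  exact Nat.mul_le_mul_right _ ((le_totalDegree hm).trans hp)

theorem IsPolC.rename {γ' : (ι → ℝ) → κ' → ℝ} (h : IsPolC U γ D f) (e : κ → κ')
    (he : ∀ x ∈ U, ∀ k, γ' x (e k) = γ x k) : IsPolC U γ' D f :=
  ⟨h.1.rename e he, h.2.rename e he⟩

theorem IsPolC.comp {U' : Set (ι' → ℝ)} (h : IsPolC U γ D f) {j : (ι' → ℝ) → ι → ℝ}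
    (hj : ∀ x ∈ U', j x ∈ U) : IsPolC U' (fun x => γ (j x)) D fun x => f (j x) :=
  ⟨h.1.comp hj, h.2.comp hj⟩

end PolC

/-- Real coordinates of a complex vector. -/
def rl (y : κ → ℂ) : κ ⊕ κ → ℝ := Sum.elim (fun k => (y k).re) fun k => (y k).im

/-- The complex vector with given real coordinates. -/
def cx (x : κ ⊕ κ → ℝ) : κ → ℂ := fun k => ⟨x (Sum.inl k), x (Sum.inr k)⟩

@[simp] theorem cx_rl (y : κ → ℂ) : cx (rl y) = y := rfl

@[simp] theorem rl_cx (x : κ ⊕ κ → ℝ) : rl (cx x) = x := by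
  funext a
  rcases a with a | a <;> rfl

theorem continuous_rl : Continuous (rl : (κ → ℂ) → κ ⊕ κ → ℝ) :=
  continuous_pi (by rintro (a | a) <;> simp only [rl, Sum.elim_inl, Sum.elim_inr] <;> fun_prop)

/-- `cx` as a continuous real linear map. -/
noncomputable def cxL (κ : Type*) : (κ ⊕ κ → ℝ) →L[ℝ] (κ → ℂ) :=
  ContinuousLinearMap.pi fun k =>
    Complex.ofRealCLM.comp (ContinuousLinearMap.proj (Sum.inl k)) +
      Complex.I • Complex.ofRealCLM.comp (ContinuousLinearMap.proj (Sum.inr k))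

theorem cxL_apply (x : κ ⊕ κ → ℝ) : cxL κ x = cx x := by
  funext k
  apply Complex.ext <;> simp [cxL, cx]

theorem continuous_cx : Continuous (cx : (κ ⊕ κ → ℝ) → κ → ℂ) :=
  (cxL κ).continuous.congr cxL_apply

theorem isPolC_rl {U : Set (ι → ℝ)} {Φ : (ι → ℝ) → κ → ℂ} (k : κ) :
    IsPolC U (fun x => rl (Φ x)) 1 fun x => Φ x k :=
  ⟨isPol_gen (Sum.inl k) le_rfl, isPol_gen (Sum.inr k) le_rfl⟩

/-- A holomorphic chain gives a real chain. -/
theorem chain_rl [Fintype ι] [DecidableEq ι] {Ω : Set (ι → ℂ)} (hΩ : IsOpen Ω)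
    {Φ : (ι → ℂ) → κ → ℂ} {d : ℕ} (hd : ∀ w ∈ Ω, ∀ k, DifferentiableAt ℂ (fun w => Φ w k) w)
    (hP : ∀ k i, ∃ P : MvPolynomial κ ℂ, P.totalDegree ≤ d ∧
      ∀ w ∈ Ω, fderiv ℂ (fun w => Φ w k) w (Pi.single i 1) = eval (Φ w) P) :
    Chain d (cx ⁻¹' Ω) fun x => rl (Φ (cx x)) := by
  have hcx : ∀ x : ι ⊕ ι → ℝ, HasFDerivAt cx (cxL ι) x := fun x => by
    have := (cxL ι).hasFDerivAt (x := x)
    rwa [show ⇑(cxL ι) = cx from funext cxL_apply] at this
  have hD : ∀ x ∈ cx ⁻¹' Ω, ∀ k, HasFDerivAt (fun x => Φ (cx x) k)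
      (((fderiv ℂ (fun w => Φ w k) (cx x)).restrictScalars ℝ).comp (cxL ι)) x := fun x hx k =>
    ((hd _ hx k).hasFDerivAt.restrictScalars ℝ).comp x (hcx x)
  have key : ∀ k j, IsPolC (cx ⁻¹' Ω) (fun x => rl (Φ (cx x))) d
      fun x => fderiv ℂ (fun w => Φ w k) (cx x) (cx (Pi.single j 1)) := by
    rintro k (i | i)
    · obtain ⟨P, h1, h2⟩ := hP k i
      refine ((isPolC_eval isPolC_rl P h1).mono (by omega)).congr fun x hx => ?_
      rw [← h2 _ hx]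
      congr 1
      funext l
      apply Complex.ext <;> simp [cx, Pi.single_apply, apply_ite]
    · obtain ⟨P, h1, h2⟩ := hP k i
      refine (((isPolC_eval isPolC_rl P h1).mono (by omega)).const_mul Complex.I).congr
        fun x hx => ?_
      rw [← h2 _ hx, ← smul_eq_mul, ← map_smul]
      congr 1
      funext l
      apply Complex.ext <;> simp [cx, Pi.single_apply, apply_ite]
  refine ⟨hΩ.preimage continuous_cx, ?_⟩
  rintro (k | k)
  · have h1 := fun x hx => Complex.reCLM.hasFDerivAt.comp x (hD x hx k)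
    refine ⟨fun x hx => (h1 x hx).differentiableAt, fun j => (key k j).1.congr fun x hx => ?_⟩
    have h2 : fderiv ℝ (fun x => rl (Φ (cx x)) (Sum.inl k)) x = _ := (h1 x hx).fderiv
    rw [h2]
    simp [cxL_apply]
  · have h1 := fun x hx => Complex.imCLM.hasFDerivAt.comp x (hD x hx k)
    refine ⟨fun x hx => (h1 x hx).differentiableAt, fun j => (key k j).2.congr fun x hx => ?_⟩
    have h2 : fderiv ℝ (fun x => rl (Φ (cx x)) (Sum.inr k)) x = _ := (h1 x hx).fderiv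
    rw [h2]
    simp [cxL_apply]

/-- A holomorphic embedding onto an open piece of an algebraic set. -/
theorem emb_rl [Fintype ι] [DecidableEq ι] [Fintype κ] {Ω : Set (ι → ℂ)} {Φ : (ι → ℂ) → κ → ℂ}
    {d : ℕ} (hinj : InjOn Φ Ω) {α : Type*} (T : Finset α) (p : α → MvPolynomial κ ℂ)
    (hp : ∀ a ∈ T, (p a).totalDegree ≤ d) (h0 : ∀ w ∈ Ω, ∀ a ∈ T, eval (Φ w) (p a) = 0)
    (hl : ∀ w ∈ Ω, ∀ N ∈ 𝓝 w, ∀ᶠ y in 𝓝 (Φ w), (∀ a ∈ T, eval y (p a) = 0) → y ∈ Φ '' N)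
    {ρ : (ι → ℂ) → ℝ} (hρ : IsPol (cx ⁻¹' Ω) (fun x => rl (Φ (cx x))) (2 * d) fun x => ρ (cx x))
    (hK : IsCompact {w | w ∈ Ω ∧ 0 ≤ ρ w}) :
    Emb (2 * d) (cx ⁻¹' Ω) (fun x => rl (Φ (cx x))) fun x => ρ (cx x) := by
  refine ⟨fun x hx y hy e => ?_, ?_, hρ, ?_⟩
  · have := hinj hx hy (congrArg cx e)
    simpa using congrArg rl this
  · have h1 : IsPol univ (fun y : κ ⊕ κ → ℝ => y) (2 * d)
        fun y => ∑ a ∈ T, Complex.normSq (eval (cx y) (p a)) :=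
      isPol_sum _ fun a ha => ((isPolC_eval (D := 1) (fun k =>
        ⟨isPol_gen (Sum.inl k) le_rfl, isPol_gen (Sum.inr k) le_rfl⟩) (p a) (hp a ha)).normSq).mono
          (by omega)
    obtain ⟨Q, hQ, hQ'⟩ := h1
    refine ⟨Q, hQ, fun x hx => ?_, fun x hx N hN => ?_⟩
    · rw [← hQ' _ trivial]
      exact Finset.sum_eq_zero fun a ha => by rw [cx_rl, h0 _ hx a ha, map_zero]
    · have hN' : rl ⁻¹' N ∈ 𝓝 (cx x) :=
        continuous_rl.continuousAt.preimage_mem_nhds (by rwa [rl_cx])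
      filter_upwards [(continuous_cx.tendsto' (rl (Φ (cx x))) _ rfl).eventually
        (hl _ hx _ hN')] with y hy hy0
      rw [← hQ' _ trivial] at hy0
      obtain ⟨w, hw, e⟩ := hy fun a ha => Complex.normSq_eq_zero.1
        ((Finset.sum_eq_zero_iff_of_nonneg fun a _ => Complex.normSq_nonneg _).1 hy0 a ha)
      exact ⟨rl w, hw, by simp [e]⟩
  · convert hK.image continuous_rl using 1
    ext x
    exact ⟨fun hx => ⟨cx x, hx, rl_cx x⟩, by rintro ⟨w, hw, rfl⟩; exact hw⟩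

end Pool.Agent.P.MP_f17f76_ag.K
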