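import Pool.Agent.P.MP_f17f76_ag.K.Cov

/-!
Counting along a deformation, refinement of grids, and null images.
-/

set_option linter.unusedSectionVars false

namespace Pool.Agent.P.MP_f17f76_ag.K

open Filter Topology Set MvPolynomial MeasureTheory

/-- Solutions at time `0` continue to time `T` or reach the boundary, at distinct points. -/
theorem def_count {X : Type*} [TopologicalSpace X] [T2Space X] [FirstCountableTopology X]
    {F : X → ℝ} {K : Set X} (hK : IsCompact K) (hFc : ContinuousOn F K)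
    (hF : ∀ x ∈ K, LocHomeo F x) (S : Finset X) (h0 : ∀ p ∈ S, p ∈ K ∧ F p = 0) {T : ℝ}
    (hT : 0 ≤ T) : ∃ S' : Finset X, S'.card = S.card ∧
      ∀ p ∈ S', p ∈ K ∧ F p ∈ Icc 0 T ∧ (F p = T ∨ p ∉ interior K) := by
  classical
  choose! t ht η hη h1 h2 h3 using fun p (hp : p ∈ S) =>
    exists_lift (γ := id) hK hFc hF continuous_id (h0 p hp).1 (h0 p hp).2 hT
  have he : ∀ p ∈ S, F (η p (t p)) = t p := fun p hp => (h2 p hp _ ⟨(ht p hp).1, le_rfl⟩).2
  refine ⟨S.image fun p => η p (t p), Finset.card_image_of_injOn fun p hp q hq e => ?_,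
    fun x hx => ?_⟩
  · have e' : η p (t p) = η q (t q) := e
    have e1 : t p = t q := by rw [← he p hp, e', he q hq]
    have := lift_unique (F := F) (hη p hp) (e1 ▸ hη q hq)
      (fun s hs => (h2 p hp s hs).2.trans (h2 q hq s (e1 ▸ hs)).2.symm)
      (fun s hs => (hF _ (h2 p hp s hs).1).inj) ⟨(ht p hp).1, le_rfl⟩ (by rw [e', e1]) 0
      ⟨le_rfl, (ht p hp).1⟩
    rwa [h1 p hp, h1 q hq] at this
  · obtain ⟨p, hp, rfl⟩ := Finset.mem_image.1 hx
    refine ⟨(h2 p hp _ ⟨(ht p hp).1, le_rfl⟩).1, (he p hp).symm ▸ ht p hp, ?_⟩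
    rw [he p hp]
    exact h3 p hp

variable {ι κ : Type*} [Fintype ι] [DecidableEq ι] [Fintype κ]

/-- The grid with origin `o` and mesh `b`. -/
def ugrid (o b : ι → ℝ) : ι → ℤ → ℝ := fun i m => o i + m * b i

theorem ugrid_mono (o : ι → ℝ) {b : ι → ℝ} (hb : ∀ i, 0 < b i) (i : ι) :
    StrictMono (ugrid o b i) := fun m m' h => by
  have : (m : ℝ) < m' := Int.cast_lt.2 h
  have := hb i
  simp only [ugrid]
  nlinarith

theorem cell_sub (o : ι → ℝ) {b : ι → ℝ} (hb : ∀ i, 0 < b i) {n : ι → ℕ} (hn : ∀ i, 0 < n i)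
    (a : ι → ℤ) : cell (ugrid o b) a ⊆ cell (ugrid o fun i => n i * b i) fun i => a i / n i := by
  intro x hx i
  have h0 : (0 : ℤ) < n i := Int.natCast_pos.2 (hn i)
  have h1 : a i / n i * n i ≤ a i := Int.ediv_mul_le _ h0.ne'
  have h2 : a i + 1 ≤ (a i / n i + 1) * n i := Int.lt_ediv_add_one_mul_self _ h0
  have h3 : ((a i / n i * n i : ℤ) : ℝ) ≤ a i := Int.cast_le.2 h1
  have h4 : ((a i + 1 : ℤ) : ℝ) ≤ ((a i / n i + 1) * n i : ℤ) := Int.cast_le.2 h2
  have h5 := hx i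
  have := hb i
  simp only [ugrid] at h5 ⊢
  push_cast at h3 h4 h5 ⊢
  constructor <;> nlinarith [h5.1, h5.2]

/-- Every point lies in a cell. -/
theorem mem_cell (o : ι → ℝ) {b : ι → ℝ} (hb : ∀ i, 0 < b i) (x : ι → ℝ) :
    x ∈ cell (ugrid o b) fun i => ⌊(x i - o i) / b i⌋ := by
  intro i
  have h1 := (le_div_iff₀ (hb i)).1 (Int.floor_le ((x i - o i) / b i))
  have h2 := (div_lt_iff₀ (hb i)).1 (Int.lt_floor_add_one ((x i - o i) / b i))
  simp only [ugrid]
  push_cast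
  constructor <;> linarith

/-- On the set `C`, the set `E` is the zero set of a nonnegative polynomial in a chain with the
bound `K`. -/
def Tame (κ : Type*) (K : ℕ) (C E : Set (ι → ℝ)) : Prop :=
  ∃ (U₀ U : Set (ι → ℝ)) (γ : (ι → ℝ) → κ → ℝ) (d D : ℕ) (h : (ι → ℝ) → ℝ), Chain d U γ ∧
    Bound U₀ U γ (D + d) K ∧ (∀ i, IsPol U γ (D + d) fun x => x i) ∧ IsPol U γ D h ∧
      ∀ x ∈ C, x ∈ U ∧ x ∈ U₀ ∧ 0 ≤ h x ∧ (x ∈ E ↔ h x = 0)

/-- One refinement step. -/
theorem cov_step {K N p : ℕ} (o : ι → ℝ) {b : ι → ℝ} (hb : ∀ i, 0 < b i) {n : ι → ℕ}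
    (hn : ∀ i, 0 < n i) (hN : ∀ i, n i ≤ N) (h1 : 1 ≤ N) {E : Set (ι → ℝ)}
    (T T' : Finset (ι → ℤ)) (hT : ∀ a ∈ T', (fun i => a i / n i) ∈ T)
    (hE : ∀ a ∈ T, Tame κ K (cell (ugrid o fun i => n i * b i) a) E)
    (hz : ∀ a ∈ T', ∃ x ∈ cell (ugrid o b) a, x ∈ E)
    (hp : ∀ x ∈ E, (onGrid (ugrid o b) x).card ≤ p) :
    T'.card ≤ K * (4 ^ Fintype.card ι * N ^ p) * T.card := by
  classical
  refine Finset.card_le_mul_card_image_of_maps_to hT _ fun a ha => ?_
  obtain ⟨U₀, U, γ, d, D, h, hC, hK, hx, hh, hU⟩ := hE a ha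
  have hs : ∀ a' ∈ T'.filter fun a' : ι → ℤ => (fun i => a' i / (n i : ℤ)) = a,
      cell (ugrid o b) a' ⊆ cell (ugrid o fun i => n i * b i) a := fun a' ha' =>
    (Finset.mem_filter.1 ha').2 ▸ cell_sub o hb hn a'
  refine cov hC hK hx hh (ugrid_mono o hb) (fun i => Finset.Ico (a i * n i) ((a i + 1) * n i)) h1
    (fun i => ?_) _ (fun a' ha' i => ?_) (fun a' ha' x hx => ?_) (fun a' ha' => ?_)
    fun a' ha' x hx h0 => hp x ((hU x (hs a' ha' hx)).2.2.2.2 h0)
  · rw [Int.card_Ico, show (a i + 1) * n i - a i * n i = n i by ring, Int.toNat_natCast]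
    exact hN i
  · have h0 : (0 : ℤ) < n i := Int.natCast_pos.2 (hn i)
    rw [← congrFun (Finset.mem_filter.1 ha').2 i]
    exact Finset.mem_Ico.2 ⟨Int.ediv_mul_le _ h0.ne', Int.lt_ediv_add_one_mul_self _ h0⟩
  · exact ⟨(hU x (hs a' ha' hx)).1, (hU x (hs a' ha' hx)).2.1, (hU x (hs a' ha' hx)).2.2.1⟩
  · obtain ⟨x, hx, hxE⟩ := hz a' (Finset.mem_filter.1 ha').1
    exact ⟨x, hx, (hU x (hs a' ha' hx)).2.2.2.1 hxE⟩

/-- The image of a differentiable map from a space of smaller dimension is null. -/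
theorem null_image {E F : Type*} [NormedAddCommGroup E] [NormedSpace ℝ E] [FiniteDimensional ℝ E]
    [NormedAddCommGroup F] [NormedSpace ℝ F] [FiniteDimensional ℝ F] [MeasurableSpace F]
    [BorelSpace F] (μ : Measure F) [μ.IsAddHaarMeasure] {f : E → F} {s : Set E}
    (hf : ∀ x ∈ s, DifferentiableAt ℝ f x) (hd : Module.finrank ℝ E < Module.finrank ℝ F) :
    μ (f '' s) = 0 := by
  obtain ⟨L, hL⟩ : ∃ L : E →ₗ[ℝ] F, Function.Injective L :=
    finrank_le_iff_exists_linearMap.1 hd.le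
  obtain ⟨π, hπ⟩ := L.exists_leftInverse_of_injective (LinearMap.ker_eq_bot.2 hL)
  have hπ' : ∀ x, π (L x) = x := fun x => LinearMap.congr_fun hπ x
  have h0 : μ (L '' s) = 0 := by
    refine measure_mono_null (image_subset_range _ _) (μ.addHaar_submodule (LinearMap.range L) ?_)
    intro h
    have := LinearMap.finrank_range_le L
    rw [h, finrank_top] at this
    omega
  have h1 := addHaar_image_eq_zero_of_differentiableOn_of_addHaar_eq_zero μ
    (f := fun y => f (π y)) (s := L '' s) ?_ h0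
  · rw [image_image] at h1
    simpa only [hπ'] using h1
  · rintro _ ⟨x, hx, rfl⟩
    refine DifferentiableAt.differentiableWithinAt (DifferentiableAt.comp (g := f) _ ?_
      π.toContinuousLinearMap.differentiableAt)
    change DifferentiableAt ℝ f (π (L x))
    rw [hπ']
    exact hf x hx

end Pool.Agent.P.MP_f17f76_ag.K
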