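import Pool.Agent.P.MP_f17f76_ag.K.Def

/-!
Counting solutions along a deformation in a large cube, and averaging over a real torus.
-/

namespace Pool.Agent.P.MP_f17f76_ag.K

open Filter Topology Set MeasureTheory Pointwise

variable {ι : Type} [Fintype ι] [DecidableEq ι]

/-- Near `x` the set `Z` is an analytic graph over the last coordinate. -/
def Arc (Z : Set (Option ι → ℝ)) (x : Option ι → ℝ) : Prop :=
  ∃ p : ℝ → Option ι → ℝ, AnalyticAt ℝ p (x none) ∧ (∀ τ, p τ none = τ) ∧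
    (∀ᶠ τ in 𝓝 (x none), p τ ∈ Z) ∧ ∀ᶠ y in 𝓝 x, y ∈ Z → y = p (y none)

/-- Coordinate slices of `Z` have at most `K` isolated points in a unit cell. -/
def Cnt (K : ℕ) (Z : Set (Option ι → ℝ)) : Prop :=
  ∀ (o : Option ι) (ρ : ℝ) (a : Option ι → ℤ) (S : Finset (Option ι → ℝ)),
    (∀ x ∈ S, x ∈ Z ∧ (∀ o', ⌊x o'⌋ = a o') ∧ x o = ρ ∧
      ∀ᶠ y in 𝓝 x, y ∈ Z → y o = ρ → y = x) → S.card ≤ K

variable {Z : Set (Option ι → ℝ)} {K : ℕ}

omit [DecidableEq ι] in
theorem Arc.locHomeo {x : Z} (h : Arc Z x.1) : LocHomeo (fun y : Z => y.1 none) x := by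
  classical
  obtain ⟨p, h1, h2, h3, h4⟩ := h
  refine ⟨{y | y.1 = p (y.1 none)}, fun τ => if h : p τ ∈ Z then ⟨p τ, h⟩ else x,
    (continuous_subtype_val.continuousAt.eventually h4).mono fun y hy => hy y.2,
    fun y hy => ?_, ?_⟩
  · have hy' : y.1 = p (y.1 none) := hy
    exact (dif_pos (hy' ▸ y.2)).trans (Subtype.ext hy'.symm)
  · filter_upwards [h3.eventually_nhds, h1.eventually_analyticAt] with τ h5 h6
    refine ⟨IsInducing.subtypeVal.continuousAt_iff.2 (h6.continuousAt.congr ?_), ?_⟩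
    · filter_upwards [h5] with s hs
      simp only [Function.comp_apply, dif_pos hs]
    · rw [dif_pos h5.self_of_nhds]
      exact h2 τ

omit [DecidableEq ι] in
theorem countable_levels (hA : ∀ x ∈ Z, Arc Z x) (o : Option ι) : ∃ B : Set ℝ, B.Countable ∧
    ∀ x ∈ Z, x o ∉ B → ∀ᶠ y in 𝓝 x, y ∈ Z → y o = x o → y = x := by
  obtain ⟨t, -, ht, hs⟩ := TopologicalSpace.countable_cover_nhdsWithin
    (s := {x | ∀ᶠ y in 𝓝 x, y ∈ Z → y o = x o} ∩ Z) (f := fun x => {y | y o = x o})
    fun x hx => mem_nhdsWithin_iff_eventually.2 (by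
      filter_upwards [hx.1] with y hy hy' using hy hy'.2)
  refine ⟨(fun x => x o) '' t, ht.image _, fun x hx hB => ?_⟩
  obtain ⟨p, h1, -, -, h4⟩ := hA x hx
  have e : x = p (x none) := h4.self_of_nhds hx
  have t1 : Tendsto (fun y : Option ι → ℝ => y none) (𝓝 x) (𝓝 (x none)) :=
    (continuous_apply none).tendsto x
  rcases (analyticAt_pi_iff.1 h1 o).eventually_eq_or_eventually_ne
    (analyticAt_const (v := x o)) with h | h
  · obtain ⟨y, hy, hxy⟩ := mem_iUnion₂.1 (hs (a := x) ⟨by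
      filter_upwards [h4, t1.eventually h] with y h5 h6 hy
      exact (congrFun (h5 hy) o).trans h6, hx⟩)
    exact absurd ⟨y, hy, (hxy : x o = y o).symm⟩ hB
  · filter_upwards [h4, t1.eventually (eventually_nhdsWithin_iff.1 h)] with y h5 h6 hy ho
    by_cases h7 : y none = x none
    · rw [h5 hy, h7, ← e]
    · exact absurd ((congrFun (h5 hy) o).symm.trans ho) (h6 h7)

omit [DecidableEq ι] in
theorem Cnt.card_le (hK : Cnt K Z) (o : Option ι) (ρ : ℝ) (S : Finset (Option ι → ℝ))
    (T : Finset (Option ι → ℤ)) (hT : ∀ x ∈ S, (fun o' => ⌊x o'⌋) ∈ T)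
    (hS : ∀ x ∈ S, x ∈ Z ∧ x o = ρ ∧ ∀ᶠ y in 𝓝 x, y ∈ Z → y o = ρ → y = x) :
    S.card ≤ K * T.card := by
  classical
  refine Finset.card_le_mul_card_image_of_maps_to hT _ fun a _ => hK o ρ a _ fun x hx => ?_
  obtain ⟨h1, h2⟩ := Finset.mem_filter.1 hx
  exact ⟨(hS x h1).1, congrFun h2, (hS x h1).2⟩

open Classical in
/-- Solutions at time zero persist to time `T` or leave the cube through a face. -/
theorem g_count (hZ : IsClosed Z) (hA : ∀ x ∈ Z, Arc Z x) (hK : Cnt K Z) (R T : ℕ) :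
    ((Fintype.piFinset fun _ : ι => Finset.Ico (0 : ℤ) R).filter fun k =>
        ∃ x ∈ Z, x none = 0 ∧ ∀ i, x (some i) ∈ Ioo (k i : ℝ) (k i + 1)).card ≤
      K * ((Fintype.piFinset fun _ : ι => Finset.Ico (-1 : ℤ) (R + 1)).filter fun k =>
        ∃ x ∈ Z, x none = T ∧ ∀ i, x (some i) ∈ Icc (k i : ℝ) (k i + 1)).card +
      K * (2 * Fintype.card ι * ((T + 1) * (R + 2) ^ (Fintype.card ι - 1))) := by
  choose B hB hB' using countable_levels hA
  obtain ⟨r, ⟨hr0, hr1⟩, hr⟩ := ((countable_iUnion fun o => ((hB o).preimage_of_injOn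
    (f := fun r : ℝ => -r) neg_injective.injOn).union ((hB o).preimage_of_injOn
      (f := fun r : ℝ => R + r) (add_right_injective _).injOn)).dense_compl ℝ).inter_open_nonempty
        (Ioo 0 1) isOpen_Ioo ⟨1 / 2, by norm_num, by norm_num⟩
  simp only [mem_compl_iff, mem_iUnion, mem_union, mem_preimage, not_exists, not_or] at hr
  let C : Set (Option ι → ℝ) := univ.pi fun o => o.elim (Icc (-1) (T + 1)) fun _ => Icc (-r) (R + r)
  have hC : IsCompact (Subtype.val ⁻¹' C : Set Z) :=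
    hZ.isClosedEmbedding_subtypeVal.isCompact_preimage (isCompact_univ_pi (by
      rintro (_ | i) <;> exact isCompact_Icc))
  set 𝒜 := (Fintype.piFinset fun _ : ι => Finset.Ico (0 : ℤ) R).filter fun k =>
    ∃ x ∈ Z, x none = 0 ∧ ∀ i, x (some i) ∈ Ioo (k i : ℝ) (k i + 1)
  have h1 : ∀ k : 𝒜, ∃ x : Z, x.1 none = 0 ∧ ∀ i, x.1 (some i) ∈ Ioo (k.1 i : ℝ) (k.1 i + 1) :=
    fun k => by
      obtain ⟨x, hx, h⟩ := (Finset.mem_filter.1 k.2).2
      exact ⟨⟨x, hx⟩, h⟩
  choose x hx0 hx using h1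
  have hinj : Function.Injective x := fun k k' e => Subtype.ext (funext fun i => by
    have h2 := hx k i
    have h3 := hx k' i
    rw [e] at h2
    exact (Int.floor_eq_iff.2 ⟨h2.1.le, h2.2⟩).symm.trans (Int.floor_eq_iff.2 ⟨h3.1.le, h3.2⟩))
  have hT0 : (0 : ℝ) ≤ T := Nat.cast_nonneg T
  have h0 : ∀ y ∈ Finset.univ.image x, y ∈ Subtype.val ⁻¹' C ∧ y.1 none = 0 := by
    intro y hy
    obtain ⟨k, -, rfl⟩ := Finset.mem_image.1 hy
    refine ⟨?_, hx0 k⟩
    rintro (_ | i) -
    · exact ⟨by rw [hx0]; norm_num, by rw [hx0]; linarith⟩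
    · have h2 := Finset.mem_Ico.1 (Fintype.mem_piFinset.1 (Finset.mem_filter.1 k.2).1 i)
      have h3 : (0 : ℝ) ≤ k.1 i := by exact_mod_cast h2.1
      have h4 : (k.1 i : ℝ) + 1 ≤ R := by exact_mod_cast h2.2
      exact ⟨by linarith [(hx k i).1], by linarith [(hx k i).2]⟩
  obtain ⟨S, hS, hS'⟩ := def_count (F := fun y : Z => y.1 none) hC
    ((continuous_apply none).comp continuous_subtype_val).continuousOn
    (fun y _ => (hA y.1 y.2).locHomeo) (Finset.univ.image x) h0 hT0
  rw [Finset.card_image_of_injective _ hinj, Finset.card_univ, Fintype.card_coe] at hS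
  rw [← hS, ← Finset.card_image_of_injective S Subtype.val_injective]
  set S' := S.image Subtype.val
  have hfl : ∀ y ∈ S', ∀ i, ⌊y (some i)⌋ ∈ Finset.Ico (-1 : ℤ) (R + 1) := fun y hy i => by
    obtain ⟨y, hy', rfl⟩ := Finset.mem_image.1 hy
    have h2 : y.1 (some i) ∈ Icc (-r) (R + r) := (hS' y hy').1 (some i) trivial
    exact Finset.mem_Ico.2 ⟨Int.le_floor.2 (by push_cast; linarith [h2.1]),
      Int.floor_lt.2 (by push_cast; linarith [h2.2])⟩
  have hZ' : ∀ y ∈ S', y ∈ Z ∧ y none ∈ Icc (0 : ℝ) T := fun y hy => by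
    obtain ⟨y, hy', rfl⟩ := Finset.mem_image.1 hy
    exact ⟨y.2, (hS' y hy').2.1⟩
  have hcov : S' ⊆ S'.filter (fun y => y none = T) ∪ (Finset.univ : Finset (ι × Bool)).biUnion
      fun a => S'.filter fun y => y (some a.1) = if a.2 then -r else R + r := by
    intro y hy
    obtain ⟨y, hy', rfl⟩ := Finset.mem_image.1 hy
    obtain ⟨h2, h3, h4 | h4⟩ := hS' y hy'
    · exact Finset.mem_union_left _ (Finset.mem_filter.2 ⟨hy, h4⟩)
    refine Finset.mem_union_right _ (Finset.mem_biUnion.2 ?_)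
    by_contra h5
    refine h4 (mem_interior_iff_mem_nhds.2 (continuous_subtype_val.continuousAt.preimage_mem_nhds
      (set_pi_mem_nhds finite_univ ?_)))
    rintro (_ | i) -
    · exact Icc_mem_nhds (by linarith [h3.1]) (by linarith [h3.2])
    · have h6 : y.1 (some i) ∈ Icc (-r) (R + r) := h2 (some i) trivial
      exact Icc_mem_nhds (h6.1.lt_of_ne fun e => h5 ⟨(i, true), Finset.mem_univ _,
        Finset.mem_filter.2 ⟨hy, e.symm⟩⟩) (h6.2.lt_of_ne fun e => h5 ⟨(i, false),
          Finset.mem_univ _, Finset.mem_filter.2 ⟨hy, e⟩⟩)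
  refine (Finset.card_le_card hcov).trans ((Finset.card_union_le _ _).trans (add_le_add ?_ ?_))
  · rw [← Finset.card_image_of_injective (Finset.filter _ (Fintype.piFinset _))
      (f := fun (k : ι → ℤ) (o : Option ι) => o.elim (T : ℤ) k)
      fun a b h => funext fun i => congrFun h (some i)]
    refine hK.card_le none T _ _ (fun y hy => ?_) fun y hy => ?_
    all_goals obtain ⟨h2, h3⟩ := Finset.mem_filter.1 hy
    · refine Finset.mem_image.2 ⟨fun i => ⌊y (some i)⌋, Finset.mem_filter.2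
        ⟨Fintype.mem_piFinset.2 (hfl y h2), y, (hZ' y h2).1, h3,
          fun i => ⟨Int.floor_le _, (Int.lt_floor_add_one _).le⟩⟩, funext ?_⟩
      rintro (_ | i)
      · rw [h3, Int.floor_natCast]
        rfl
      · rfl
    · obtain ⟨p, -, -, -, h4⟩ := hA y (hZ' y h2).1
      refine ⟨(hZ' y h2).1, h3, h4.mono fun z hz h5 h6 => ?_⟩
      rw [hz h5, h6, ← h3, ← h4.self_of_nhds (hZ' y h2).1]
  · refine (Finset.card_biUnion_le_card_mul _ _ (K * ((T + 1) * (R + 2) ^ (Fintype.card ι - 1)))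
      fun a _ => ?_).trans (le_of_eq (by simp; ring))
    set ρ : ℝ := if a.2 then -r else R + r with hρ
    refine (hK.card_le (some a.1) ρ _ (Fintype.piFinset fun o => o.elim (Finset.Icc (0 : ℤ) T)
      fun i => if i = a.1 then {⌊ρ⌋} else Finset.Ico (-1 : ℤ) (R + 1)) (fun y hy => ?_)
      fun y hy => ?_).trans (le_of_eq ?_)
    · obtain ⟨h2, h3⟩ := Finset.mem_filter.1 hy
      refine Fintype.mem_piFinset.2 ?_
      rintro (_ | i)
      · exact Finset.mem_Icc.2 ⟨Int.floor_nonneg.2 (hZ' y h2).2.1,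
          (Int.floor_le_floor (hZ' y h2).2.2).trans (Int.floor_natCast T).le⟩
      · by_cases h : i = a.1
        · simp [h, h3]
        · simpa only [Option.elim, if_neg h] using hfl y h2 i
    · obtain ⟨h2, h3⟩ := Finset.mem_filter.1 hy
      refine ⟨(hZ' y h2).1, h3, h3 ▸ hB' _ y (hZ' y h2).1 ?_⟩
      rw [h3, hρ]
      split_ifs
      · exact (hr _).1
      · exact (hr _).2
    · rw [Fintype.card_piFinset, Fintype.prod_option, ← Finset.mul_prod_erase _ _
        (Finset.mem_univ a.1), Finset.prod_congr rfl (g := fun _ => R + 2) fun i hi => by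
          simp only [Option.elim, if_neg (Finset.ne_of_mem_erase hi), Int.card_Ico]
          omega]
      simp

section Avg

variable {r : ℕ}

/-- The unit cube. -/
def cube (r : ℕ) : Set (Fin r → ℝ) := ZSpan.fundamentalDomain (Pi.basisFun ℝ (Fin r))

/-- Invariance under integral translations. -/
def Per (A : Set (Fin r → ℝ)) : Prop := ∀ (n : Fin r → ℤ) u, (fun i => (n i : ℝ)) + u ∈ A ↔ u ∈ A

instance : Countable (Submodule.span ℤ (range (Pi.basisFun ℝ (Fin r)))).toAddSubgroup :=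
  inferInstanceAs (Countable (Submodule.span ℤ (range (Pi.basisFun ℝ (Fin r)))))

theorem Per.span {A : Set (Fin r → ℝ)} (h : Per A)
    (m : (Submodule.span ℤ (range (Pi.basisFun ℝ (Fin r)))).toAddSubgroup) :
    (fun u => m +ᵥ u) ⁻¹' A = A := by
  choose n hn using (Module.Basis.mem_span_iff_repr_mem ℤ (Pi.basisFun ℝ (Fin r)) m.1).1 m.2
  ext u
  rw [← h n u]
  exact iff_of_eq (congrArg (fun v => v + u ∈ A) (funext fun i => (hn i).symm))

theorem Per.transl {A : Set (Fin r → ℝ)} (h : Per A) (hA : MeasurableSet A) (v : Fin r → ℝ) :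
    volume ((fun u => v + u) ⁻¹' A ∩ cube r) = volume (A ∩ cube r) := by
  have hD := ZSpan.isAddFundamentalDomain' (Pi.basisFun ℝ (Fin r)) volume
  rw [cube, hD.measure_set_eq (hD.vadd_of_comm v) hA h.span,
    ← measure_preimage_add volume v (A ∩ _), preimage_inter]
  congr 2
  ext u
  exact vadd_mem_vadd_set_iff.symm

theorem cube_lt_top : volume (cube r) < ⊤ :=
  (ZSpan.fundamentalDomain_isBounded _).measure_lt_top

theorem Per.pos {A : Set (Fin r → ℝ)} (h : Per A) (hA : IsOpen A) (hne : A.Nonempty) :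
    volume (A ∩ cube r) ≠ 0 := fun h0 =>
  (hA.measure_pos volume hne).ne' ((ZSpan.isAddFundamentalDomain' (Pi.basisFun ℝ (Fin r))
    volume).measure_zero_of_invariant A (fun m => by
      rw [← preimage_vadd_neg]
      exact h.span (-m)) h0)

open Classical in
theorem avg {κ : Type*} {A A' : Set (Fin r → ℝ)} (h : Per A) (h' : Per A') (hA : MeasurableSet A)
    (hA' : MeasurableSet A') (v : κ → Fin r → ℝ) (s s' : Finset κ) (K E : ℕ)
    (H : ∀ᵐ u, (s.filter fun k => v k + u ∈ A).card ≤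
      K * (s'.filter fun k => v k + u ∈ A').card + E) :
    s.card * volume.real (A ∩ cube r) ≤
      K * (s'.card * volume.real (A' ∩ cube r)) + E * volume.real (cube r) := by
  have key : ∀ (A : Set (Fin r → ℝ)) (s : Finset κ), Per A → MeasurableSet A →
      ∫⁻ u in cube r, ((s.filter fun k => v k + u ∈ A).card : ENNReal) =
        s.card * volume (A ∩ cube r) ∧
      Measurable fun u => ((s.filter fun k => v k + u ∈ A).card : ENNReal) := by
    intro A s h hA
    have hm : ∀ k, MeasurableSet ((fun u => v k + u) ⁻¹' A) := fun k =>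
      hA.preimage (measurable_const_add _)
    have e : (fun u => ((s.filter fun k => v k + u ∈ A).card : ENNReal)) =
        fun u => ∑ k ∈ s, ((fun u => v k + u) ⁻¹' A).indicator 1 u := by
      funext u
      rw [Finset.card_filter]
      push_cast
      rfl
    rw [e]
    refine ⟨?_, Finset.measurable_sum _ fun k _ => measurable_one.indicator (hm k)⟩
    rw [lintegral_finsetSum _ fun k _ => measurable_one.indicator (hm k)]
    simp only [lintegral_indicator_one (hm _), Measure.restrict_apply (hm _), h.transl hA]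
    simp
  have h1 := lintegral_mono_ae (μ := volume.restrict (cube r))
    (f := fun u => ((s.filter fun k => v k + u ∈ A).card : ENNReal))
    (g := fun u => K * ((s'.filter fun k => v k + u ∈ A').card : ENNReal) + E)
    ((ae_restrict_of_ae H).mono fun u hu => by exact_mod_cast hu)
  rw [lintegral_add_right _ measurable_const, lintegral_const_mul _ (key A' s' h' hA').2,
    (key A s h hA).1, (key A' s' h' hA').1, setLIntegral_const] at h1
  have f1 : volume (A' ∩ cube r) ≠ ⊤ := ((measure_mono inter_subset_right).trans_lt cube_lt_top).ne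
  have f2 := (cube_lt_top (r := r)).ne
  have h2 := ENNReal.toReal_mono (by finiteness) h1
  rw [ENNReal.toReal_add (by finiteness) (by finiteness)] at h2
  simpa [Measure.real] using h2

theorem le_of_growth {m m' a : ℝ} {n : ℕ}
    (h : ∀ R : ℕ, (R : ℝ) ^ n * m ≤ (R + 2) ^ n * m' + a * (R + 2) ^ (n - 1)) (h0 : n = 0 → a = 0) :
    m ≤ m' := by
  have t0 : Tendsto (fun R : ℕ => ((R : ℝ) + 2)⁻¹) atTop (𝓝 0) :=
    (tendsto_atTop_add_const_right _ 2 tendsto_natCast_atTop_atTop).inv_tendsto_atTop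
  have t1 : Tendsto (fun R : ℕ => (1 - 2 * ((R : ℝ) + 2)⁻¹) ^ n * m) atTop (𝓝 m) := by
    simpa using (((t0.const_mul 2).const_sub 1).pow n).mul_const m
  have t2 : Tendsto (fun R : ℕ => m' + a * ((R : ℝ) + 2)⁻¹) atTop (𝓝 m') := by
    simpa using (t0.const_mul a).const_add m'
  refine le_of_tendsto_of_tendsto' t1 t2 fun R => ?_
  have hR : (0 : ℝ) < R + 2 := by positivity
  have e : 1 - 2 * ((R : ℝ) + 2)⁻¹ = R / (R + 2) := by
    field_simp
    ring
  rw [e, div_pow, div_mul_eq_mul_div, div_le_iff₀ (by positivity)]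
  refine (h R).trans (le_of_eq ?_)
  rcases n with _ | n
  · simp [h0 rfl]
  · rw [Nat.add_sub_cancel, pow_succ]
    field_simp

/-- For every starting point a positive proportion of the torus orbit has a solution. -/
theorem pos_meas {G : Type*} [NormedAddCommGroup G] [NormedSpace ℝ G] [FiniteDimensional ℝ G]
    [MeasurableSpace G] [BorelSpace G] (μ : Measure G) [μ.IsAddHaarMeasure] {Y : Set G}
    (hY : IsClosed Y) (b : (ι → ℝ) →L[ℝ] G) (j : (Fin r → ℝ) →L[ℝ] G) (hbj : ∀ s, ∃ u, j u = b s)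
    (hper : ∀ (n : Fin r → ℤ) x, j (fun i => n i) + x ∈ Y ↔ x ∈ Y) (c₀ e : G) (T : ℕ)
    (hK : ∀ c, Cnt K {x | c + (b (fun i => x (some i)) + x none • e) ∈ Y})
    (hA : ∀ᵐ c ∂μ, ∀ x ∈ {x : Option ι → ℝ | c + (b (fun i => x (some i)) + x none • e) ∈ Y},
      Arc {x | c + (b (fun i => x (some i)) + x none • e) ∈ Y} x)
    (hc₀ : ∀ᶠ c in 𝓝 c₀, ∃ s, (∀ i, s i ∈ Ioo (0 : ℝ) 1) ∧ c + b s ∈ Y) :
    volume {u | ∃ s, c₀ + (T : ℝ) • e + j u + b s ∈ Y} ≠ 0 := by
  classical
  intro hnull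
  obtain ⟨η, hη, hO⟩ := Metric.eventually_nhds_iff_ball.1 hc₀
  set C : Set G := Y + -b '' Icc 0 1 with hC
  have hCc : IsClosed C := hY.add_right_of_isCompact (isCompact_Icc.image b.continuous).neg
  have hCm : ∀ c, c ∈ C ↔ ∃ s ∈ Icc (0 : ι → ℝ) 1, c + b s ∈ Y := fun c =>
    ⟨by
      rintro ⟨y, hy, z, hz, rfl⟩
      obtain ⟨s, hs, e⟩ := mem_neg.1 hz
      exact ⟨s, hs, by simpa [e] using hy⟩,
    fun ⟨s, hs, h⟩ => ⟨_, h, -b s, neg_mem_neg.2 ⟨s, hs, rfl⟩, add_neg_cancel_right _ _⟩⟩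
  have hCp : ∀ (n : Fin r → ℤ) x, j (fun i => n i) + x ∈ C ↔ x ∈ C := fun n x => by
    simp only [hCm, add_assoc, hper]
  let O : G → ℝ → Set (Fin r → ℝ) := fun c ε =>
    ⋃ n : Fin r → ℤ, {u | c + j ((fun i => (n i : ℝ)) + u) ∈ Metric.ball c₀ ε}
  have hOo : ∀ c ε, IsOpen (O c ε) := fun c ε =>
    isOpen_iUnion fun n => Metric.isOpen_ball.preimage (by fun_prop)
  have hOp : ∀ c ε, Per (O c ε) := fun c ε n u => by
    simp only [O, mem_iUnion, mem_ofPred_eq]
    refine ⟨fun ⟨k, hk⟩ => ⟨k + n, ?_⟩, fun ⟨k, hk⟩ => ⟨k - n, ?_⟩⟩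
    all_goals
      convert hk using 3
      funext i
      simp only [Pi.add_apply, Pi.sub_apply, Int.cast_add, Int.cast_sub]
      ring
  choose v hv using fun k : ι → ℤ => hbj fun i => k i
  obtain ⟨N, hN, hNm, hN0⟩ := exists_measurable_superset_of_null hA
  have hae : ∀ᵐ c ∂μ, ∀ᵐ u : Fin r → ℝ, c + j u ∉ N := by
    refine (Measure.ae_ae_comm (p := fun c u => c + j u ∉ N) (hNm.compl.preimage
      (f := fun p : G × (Fin r → ℝ) => p.1 + j p.2) (by fun_prop))).2 (.of_forall fun u => ?_)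
    exact (measurePreserving_add_right μ (j u)).quasiMeasurePreserving.ae
      (measure_eq_zero_iff_ae_notMem.1 hN0)
  have main : ∀ c, (∀ᵐ u : Fin r → ℝ, c + j u ∉ N) → volume.real (O c η ∩ cube r) ≤
      K * volume.real ({u | c + (T : ℝ) • e + j u ∈ C} ∩ cube r) := by
    intro c hc
    refine le_of_growth (n := Fintype.card ι)
      (a := K * (2 * Fintype.card ι * (T + 1)) * volume.real (cube r)) (fun R => ?_)
      fun h => by simp [h]
    have h1 := avg (A' := {u | c + (T : ℝ) • e + j u ∈ C}) (hOp c η)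
      (fun n u => by simp only [mem_ofPred_eq, map_add, add_left_comm _ (j _), hCp])
      (hOo c η).measurableSet (hCc.preimage (by fun_prop)).measurableSet v
      (Fintype.piFinset fun _ : ι => Finset.Ico (0 : ℤ) R)
      (Fintype.piFinset fun _ : ι => Finset.Ico (-1 : ℤ) (R + 1)) K
      (K * (2 * Fintype.card ι * ((T + 1) * (R + 2) ^ (Fintype.card ι - 1))))
      (hc.mono fun u hu => ?_)
    · have e1 : ((R : ℤ) + 1 - -1).toNat = R + 2 := by omega
      simp only [Fintype.card_piFinset, Int.card_Ico, sub_zero, Int.toNat_natCast,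
        Finset.prod_const, Finset.card_univ, e1] at h1
      push_cast at h1
      linarith
    have h2 := g_count (hY.preimage (by fun_prop)) (not_not.1 fun h => hu (hN h))
      (hK (c + j u)) R T
    refine le_trans (Finset.card_le_card fun k hk => ?_) (h2.trans (Nat.add_le_add_right
      (Nat.mul_le_mul_left _ (Finset.card_le_card fun k hk => ?_)) _))
    all_goals obtain ⟨h3, h4⟩ := Finset.mem_filter.1 hk
    · obtain ⟨n, hn⟩ := mem_iUnion.1 h4
      obtain ⟨s, hs, hs'⟩ := hO _ hn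
      refine Finset.mem_filter.2 ⟨h3, fun o => o.elim 0 fun i => k i + s i, ?_, rfl,
        fun i => ⟨lt_add_of_pos_right _ (hs i).1, add_lt_add_right (hs i).2 _⟩⟩
      refine (hper n _).1 ?_
      convert hs' using 1
      have : (fun i => (k i : ℝ) + s i) = (fun i => (k i : ℝ)) + s := rfl
      simp only [Option.elim, this, map_add, hv, zero_smul]
      abel
    · obtain ⟨x, hx, h5, h6⟩ := h4
      refine Finset.mem_filter.2 ⟨h3, (hCm _).2 ⟨(fun i => x (some i)) - fun i => (k i : ℝ),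
        ⟨fun i => sub_nonneg.2 (h6 i).1, fun i => sub_le_iff_le_add'.2 (h6 i).2⟩, ?_⟩⟩
      have hx' : c + j u + (b (fun i => x (some i)) + x none • e) ∈ Y := hx
      convert hx' using 1
      simp only [map_add, map_sub, hv, h5]
      abel
  have hfin : ∀ A, volume (A ∩ cube r) ≠ ⊤ := fun A =>
    ((measure_mono inter_subset_right).trans_lt cube_lt_top).ne
  let D : ℕ → Set (Fin r → ℝ) := fun n =>
    {u | c₀ + (T : ℝ) • e + j u ∈ Metric.cthickening (1 / ((n : ℝ) + 1)) C} ∩ cube r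
  have t1 := tendsto_measure_iInter_atTop (μ := volume) (s := D)
    (fun n => ((Metric.isClosed_cthickening.preimage (by fun_prop)).measurableSet.inter
      (ZSpan.fundamentalDomain_measurableSet _)).nullMeasurableSet)
    (fun n n' h => inter_subset_inter_left _ fun u hu => Metric.cthickening_mono
      (Nat.one_div_le_one_div h) _ hu) ⟨0, hfin _⟩
  have h3 : volume (⋂ n, D n) = 0 := by
    refine measure_mono_null (fun u hu => ?_) hnull
    have : c₀ + (T : ℝ) • e + j u ∈ closure C := by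
      rw [Metric.closure_eq_iInter_cthickening]
      refine mem_iInter₂.2 fun δ hδ => ?_
      obtain ⟨n, hn⟩ := exists_nat_one_div_lt hδ
      exact Metric.cthickening_mono hn.le _ (mem_iInter.1 hu n).1
    obtain ⟨s, -, hs⟩ := (hCm _).1 (hCc.closure_eq ▸ this)
    exact ⟨s, hs⟩
  have t2 : Tendsto (fun n => K * volume.real (D n)) atTop (𝓝 0) := by
    rw [h3] at t1
    simpa [Measure.real] using ((ENNReal.tendsto_toReal ENNReal.zero_ne_top).comp t1).const_mul
      (K : ℝ)
  refine (ENNReal.toReal_pos ((hOp c₀ (η / 2)).pos (hOo _ _) ⟨0, mem_iUnion.2 ⟨0, ?_⟩⟩)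
    (hfin _)).not_ge (ge_of_tendsto' t2 fun n => ?_)
  · have : (fun i : Fin r => (((0 : Fin r → ℤ) i : ℤ) : ℝ)) = 0 := funext fun _ => Int.cast_zero
    simp only [mem_ofPred_eq, this, add_zero, map_zero]
    exact Metric.mem_ball_self (half_pos hη)
  obtain ⟨c, hc, hc'⟩ := (μ.dense_of_ae hae).inter_open_nonempty _ Metric.isOpen_ball
    ⟨c₀, Metric.mem_ball_self (lt_min (half_pos hη) (Nat.one_div_pos_of_nat (n := n)))⟩
  have h4 := lt_min_iff.1 (Metric.mem_ball.1 hc)
  refine le_trans (measureReal_mono (inter_subset_inter_left _ fun u hu => ?_) (hfin _))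
    ((main c hc').trans (mul_le_mul_of_nonneg_left (measureReal_mono
      (inter_subset_inter_left _ fun u hu => ?_) (hfin _)) (Nat.cast_nonneg K)))
  · obtain ⟨k, hk⟩ := mem_iUnion.1 hu
    refine mem_iUnion.2 ⟨k, Metric.mem_ball.2
      ((dist_triangle _ (c₀ + j ((fun i => (k i : ℝ)) + u)) _).trans_lt ?_)⟩
    rw [dist_add_right]
    linarith [Metric.mem_ball.1 hk]
  · refine Metric.mem_cthickening_of_dist_le _ _ _ _ hu ?_
    rw [dist_add_right, dist_add_right, dist_comm]
    exact h4.2.le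

end Avg

end Pool.Agent.P.MP_f17f76_ag.K
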