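import Pool.Agent.P.MP_f17f76_ag.BrLeaf
import Pool.Agent.P.MP_f17f76_ag.K.Def

/-!
Induction over analytic pieces for null sets, and two null set criteria.
-/

namespace Pool.Agent.P.MP_f17f76_ag.K

open Filter Topology Set MeasureTheory Metric Module Pointwise

section

variable {F G : Type} [NormedAddCommGroup F] [NormedSpace ℂ F] [NormedAddCommGroup G]
  [NormedSpace ℂ G]

/-- The derivative in the direction `v`. -/
noncomputable def dir (v : F) (f : F → ℂ) : F → ℂ := fun y => fderiv ℂ f y v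

theorem dir_an {Ω : Set F} {f : F → ℂ} (hf : ∀ y ∈ Ω, AnalyticAt ℂ f y) (v : F) (k : ℕ) :
    ∀ y ∈ Ω, AnalyticAt ℂ ((dir v)^[k] f) y := by
  induction k with
  | zero => exact hf
  | succ k ih =>
    intro y hy
    rw [Function.iterate_succ_apply']
    exact ((ContinuousLinearMap.apply ℂ ℂ v).analyticAt _).comp (ih y hy).fderiv

theorem dir_line {Ω : Set F} (ho : IsOpen Ω) {f : F → ℂ} (hf : ∀ y ∈ Ω, AnalyticAt ℂ f y)
    (y v : F) (k : ℕ) : ∀ t : ℂ, y + t • v ∈ Ω →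
      iteratedDeriv k (fun t : ℂ => f (y + t • v)) t = (dir v)^[k] f (y + t • v) := by
  induction k with
  | zero => exact fun _ _ => rfl
  | succ k ih =>
    intro t ht
    have h1 : iteratedDeriv k (fun t : ℂ => f (y + t • v)) =ᶠ[𝓝 t]
        fun t => (dir v)^[k] f (y + t • v) :=
      mem_of_superset ((ho.preimage (f := fun t : ℂ => y + t • v) (by fun_prop)).mem_nhds ht) ih
    have h2 : HasDerivAt (fun t : ℂ => y + t • v) v t := by
      simpa using ((hasDerivAt_id t).smul_const v).const_add y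
    rw [iteratedDeriv_succ, h1.deriv_eq, Function.iterate_succ_apply']
    exact ((dir_an hf v k _ ht).differentiableAt.hasFDerivAt.comp_hasDerivAt t h2).deriv

theorem exists_dir {Ω : Set F} (ho : IsOpen Ω) (hc : Convex ℝ Ω) {f : F → ℂ}
    (hf : ∀ y ∈ Ω, AnalyticAt ℂ f y) (hne : ∃ y ∈ Ω, f y ≠ 0) {D : Set F} (hD : Dense D) {y : F}
    (hy : y ∈ Ω) (h0 : f y = 0) :
    ∃ v ∈ D, ∃ k, (dir v)^[k] f y = 0 ∧ fderiv ℂ ((dir v)^[k] f) y ≠ 0 := by
  by_contra hcon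
  obtain ⟨z, hz, hz0⟩ := hne
  have h1 : {v | y + v ∈ Ω ∧ f (y + v) ≠ 0} ∈ 𝓝 (z - y) := by
    have t1 : Tendsto (fun v => y + v) (𝓝 (z - y)) (𝓝 z) :=
      Continuous.tendsto' (by fun_prop) _ _ (by simp)
    exact t1.eventually ((ho.eventually_mem hz).and ((hf z hz).continuousAt.eventually_ne hz0))
  obtain ⟨v, ⟨h2, h3⟩, hv⟩ := mem_closure_iff_nhds.1 (hD (z - y)) _ h1
  have h4 : ∀ k, (dir v)^[k] f y = 0 := fun k => by
    induction k with
    | zero => exact h0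
    | succ k ih =>
      rw [Function.iterate_succ_apply', dir, not_not.1 fun h => hcon ⟨v, hv, k, ih, h⟩]
      rfl
  have h5 : AnalyticOnNhd ℂ (fun t : ℂ => f (y + t • v)) {t | y + t • v ∈ Ω} := fun t ht =>
    (hf _ ht).fun_comp (f := fun t : ℂ => y + t • v)
      (analyticAt_const.add (analyticAt_id.smul analyticAt_const))
  have h6 : Convex ℝ {t : ℂ | y + t • v ∈ Ω} := fun a ha b hb p q hp hq e => by
    have := hc ha hb hp hq e
    rw [smul_add, smul_add, add_add_add_comm, ← add_smul, e, one_smul, ← smul_assoc,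
      ← smul_assoc, ← add_smul] at this
    exact this
  have h7 : (0 : ℂ) ∈ {t : ℂ | y + t • v ∈ Ω} := by simpa using hy
  have h8 := analyticOrderAt_eq_top.1 (ENat.eq_top_iff_forall_ge.2 fun n =>
    (natCast_le_analyticOrderAt_iff_iteratedDeriv_eq_zero (h5 0 h7)).2 fun k _ => by
      rw [dir_line ho hf y v k 0 h7, zero_smul, add_zero, h4])
  have := h5.eqOn_zero_of_preconnected_of_eventuallyEq_zero h6.isPreconnected h7 h8
    (x := 1) (by simpa using h2)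
  exact h3 (by simpa using this)

variable {X : Type*} [MeasurableSpace X]

/-- The points related to a point of `S` form a null set. -/
def Nul (μ : Measure X) (R : X → G → Prop) (S : Set G) : Prop := μ {x | ∃ w ∈ S, R x w} = 0

variable {μ : Measure X} {R : X → G → Prop}

omit [NormedAddCommGroup G] [NormedSpace ℂ G] in
theorem Nul.mono {S S' : Set G} (h : Nul μ R S') (hs : S ⊆ S') : Nul μ R S :=
  measure_mono_null (fun _ hx => hx.imp fun _ hw => ⟨hs hw.1, hw.2⟩) h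

omit [NormedAddCommGroup G] [NormedSpace ℂ G] in
theorem nul_biUnion {α : Type*} {t : Set α} (ht : t.Countable) {S : α → Set G}
    (h : ∀ a ∈ t, Nul μ R (S a)) : Nul μ R (⋃ a ∈ t, S a) := by
  refine measure_mono_null ?_ ((measure_biUnion_null_iff ht).2 h)
  rintro x ⟨w, hw, hx⟩
  obtain ⟨a, ha, hw⟩ := mem_iUnion₂.1 hw
  exact mem_iUnion₂.2 ⟨a, ha, w, hw, hx⟩

omit [NormedAddCommGroup G] [NormedSpace ℂ G] in
theorem nul_loc {Y : Type*} [TopologicalSpace Y] [SecondCountableTopology Y] {σ : Y → G}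
    {s : Set Y} (h : ∀ y ∈ s, ∃ U ∈ 𝓝[s] y, Nul μ R (σ '' U)) : Nul μ R (σ '' s) := by
  choose! U hU hU' using h
  obtain ⟨t, hts, ht, hs⟩ := TopologicalSpace.countable_cover_nhdsWithin hU
  refine (nul_biUnion ht fun y hy => hU' y (hts hy)).mono ((image_mono hs).trans ?_)
  rw [image_iUnion₂]

/-- Induction over analytic pieces. -/
theorem an_ind (h : ∀ (F : Type) [NormedAddCommGroup F] [NormedSpace ℂ F] [FiniteDimensional ℂ F]
      (Ω : Set F) (σ : F → G), IsOpen Ω → IsPreconnected Ω → Ω.Nonempty →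
      (∀ y ∈ Ω, AnalyticAt ℂ σ y) → (∀ y ∈ Ω, Function.Injective (fderiv ℂ σ y)) →
      ∃ f : F → ℂ, (∀ y ∈ Ω, AnalyticAt ℂ f y) ∧ (∃ y ∈ Ω, f y ≠ 0) ∧
        ∀ y ∈ Ω, f y ≠ 0 → ∃ U ∈ 𝓝 y, Nul μ R (σ '' U)) (n : ℕ) :
    ∀ (F : Type) [NormedAddCommGroup F] [NormedSpace ℂ F] [FiniteDimensional ℂ F]
      (Ω : Set F) (σ : F → G), finrank ℂ F = n → IsOpen Ω → (∀ y ∈ Ω, AnalyticAt ℂ σ y) →
      (∀ y ∈ Ω, Function.Injective (fderiv ℂ σ y)) → Nul μ R (σ '' Ω) := by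
  induction n using Nat.strong_induction_on with
  | _ n ih =>
  intro F _ _ _ Ω σ hn ho ha hi
  have := FiniteDimensional.proper ℂ F
  refine nul_loc fun y₀ hy₀ => ?_
  obtain ⟨ε, hε, hB⟩ := Metric.isOpen_iff.1 ho y₀ hy₀
  refine ⟨ball y₀ ε, mem_nhdsWithin_of_mem_nhds (ball_mem_nhds _ hε), ?_⟩
  obtain ⟨f, hf, hne, hf'⟩ := h F (ball y₀ ε) σ isOpen_ball (convex_ball _ _).isPreconnected
    ⟨_, mem_ball_self hε⟩ (fun y hy => ha y (hB hy)) fun y hy => hi y (hB hy)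
  obtain ⟨D, hDc, hD⟩ := TopologicalSpace.exists_countable_dense F
  have h1 : Nul μ R (σ '' {y | y ∈ ball y₀ ε ∧ f y ≠ 0}) := nul_loc fun y hy =>
    (hf' y hy.1 hy.2).imp fun U hU => ⟨mem_nhdsWithin_of_mem_nhds hU.1, hU.2⟩
  have h2 : ∀ g : F → ℂ, (∀ y ∈ ball y₀ ε, AnalyticAt ℂ g y) →
      Nul μ R (σ '' {y | y ∈ ball y₀ ε ∧ g y = 0 ∧ fderiv ℂ g y ≠ 0}) := by
    refine fun g hg => nul_loc fun y ⟨hy, h0, hd⟩ => ?_
    have hr : LinearMap.range (fderiv ℂ g y).toLinearMap = ⊤ :=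
      Module.Dual.range_eq_top_of_ne_zero fun e => hd (ContinuousLinearMap.coe_injective e)
    obtain ⟨τ, t1, t2, t3, -, π, t4⟩ := exists_leaf (hg y hy) ⊥ (.of_forall fun z => by
      rw [hr, top_sup_eq, finrank_top]
      exact Submodule.finrank_le _)
    have := FiniteDimensional.complete ℂ ((⊥ : Submodule ℂ ℂ).comap (fderiv ℂ g y).toLinearMap)
    obtain ⟨δ, hδ, hb⟩ := Metric.eventually_nhds_iff_ball.1 (t1.eventually_analyticAt.and
      ((t1.fderiv.continuousAt.eventually (ContinuousLinearMap.isOpen_injective.mem_nhds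
        fun a b e => Subtype.ext ((t3 a).symm.trans (e.trans (t3 b))))).and
        (t1.continuousAt.eventually (isOpen_ball.mem_nhds (t2.symm ▸ hy)))))
    have h3 := ih _ (by
        have := finrank_comap_add (fderiv ℂ g y).toLinearMap ⊥
        rw [hr, top_sup_eq, finrank_top, finrank_self, finrank_bot] at this
        omega) _ (ball 0 δ) (fun u => σ (τ u)) rfl isOpen_ball
      (fun u hu => (ha _ (hB (hb u hu).2.2)).fun_comp (hb u hu).1) fun u hu => by
        rw [show fderiv ℂ (fun u => σ (τ u)) u = _ from fderiv_comp u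
          (ha _ (hB (hb u hu).2.2)).differentiableAt (hb u hu).1.differentiableAt]
        exact (hi _ (hB (hb u hu).2.2)).comp (hb u hu).2.1
    refine ⟨τ '' ball 0 δ, mem_nhdsWithin_iff_eventually.2 ?_, by rwa [image_image]⟩
    have t5 : Tendsto (fun z => π (z - y)) (𝓝 y) (𝓝 0) :=
      Continuous.tendsto' (by fun_prop) _ _ (by rw [sub_self, map_zero])
    filter_upwards [t4, t5.eventually (ball_mem_nhds _ hδ)] with z h4 h5 hz
    exact ⟨_, h5, h4 (by simp [hz.2.1, h0])⟩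
  have h3 := nul_biUnion (hDc.prod (countable_univ (α := ℕ)))
    fun a _ => h2 ((dir a.1)^[a.2] f) (dir_an hf a.1 a.2)
  refine measure_mono_null ?_ (measure_union_null h1 h3)
  rintro x ⟨_, ⟨y, hy, rfl⟩, hx⟩
  by_cases h0 : f y = 0
  · obtain ⟨v, hv, k, hk⟩ := exists_dir isOpen_ball (convex_ball _ _) hf hne hD hy h0
    exact Or.inr ⟨_, mem_iUnion₂.2 ⟨(v, k), ⟨hv, trivial⟩, y, ⟨hy, hk⟩, rfl⟩, hx⟩
  · exact Or.inl ⟨_, ⟨y, ⟨hy, h0⟩, rfl⟩, hx⟩

/-- The rank is maximal where a suitable minor does not vanish. -/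
theorem exists_minor [FiniteDimensional ℂ G] {Ω : Set F} (hne : Ω.Nonempty) {σ : F → G}
    (ha : ∀ y ∈ Ω, AnalyticAt ℂ σ y) (S : Submodule ℂ G) :
    ∃ f : F → ℂ, (∀ y ∈ Ω, AnalyticAt ℂ f y) ∧ (∃ y ∈ Ω, f y ≠ 0) ∧ ∀ y ∈ Ω, f y ≠ 0 → ∀ z ∈ Ω,
      finrank ℂ ↥(LinearMap.range (fderiv ℂ σ z).toLinearMap ⊔ S) ≤
        finrank ℂ ↥(LinearMap.range (fderiv ℂ σ y).toLinearMap ⊔ S) := by
  have := FiniteDimensional.complete ℂ G
  have hb : BddAbove ((fun z => finrank ℂ ↥(LinearMap.range (fderiv ℂ σ z).toLinearMap ⊔ S)) '' Ω) :=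
    ⟨finrank ℂ G, by rintro _ ⟨z, -, rfl⟩; exact Submodule.finrank_le _⟩
  obtain ⟨x, hx, hx'⟩ := Nat.sSup_mem (hne.image _) hb
  set R := LinearMap.range (fderiv ℂ σ x).toLinearMap ⊔ S
  let b := Module.finBasis ℂ R
  have h1 : ∀ i, ∃ u, ∃ s ∈ S, fderiv ℂ σ x u + s = (b i).1 := fun i => by
    obtain ⟨_, ⟨u, rfl⟩, s, hs, h⟩ := Submodule.mem_sup.1 (b i).2
    exact ⟨u, s, hs, h⟩
  choose u s hs hus using h1
  obtain ⟨ρ, hρ⟩ := LinearMap.exists_leftInverse_of_injective R.subtype R.ker_subtype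
  let ℓ : G →ₗ[ℂ] Fin (finrank ℂ R) → ℂ := b.equivFun.toLinearMap.comp ρ
  refine ⟨fun y => (Matrix.of fun i => ℓ (fderiv ℂ σ y (u i) + s i)).det, fun y hy => ?_,
    ⟨x, hx, ?_⟩, fun y _ h0 z hz => (le_csSup hb ⟨z, hz, rfl⟩).trans (hx'.symm.le.trans ?_)⟩
  · simp only [Matrix.det_apply']
    refine Finset.analyticAt_fun_sum _ fun e _ => analyticAt_const.mul
      (Finset.analyticAt_fun_prod _ fun i _ => ?_)
    have h2 : AnalyticAt ℂ (fun y => fderiv ℂ σ y (u (e i)) + s (e i)) y :=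
      (((ContinuousLinearMap.apply ℂ G (u (e i))).analyticAt _).comp (ha y hy).fderiv).add
        analyticAt_const
    exact analyticAt_pi_iff.1 ((ℓ.toContinuousLinearMap.analyticAt _).fun_comp h2) i
  · have : (Matrix.of fun i => ℓ (fderiv ℂ σ x (u i) + s i)) = 1 := by
      ext i k
      rw [Matrix.of_apply, hus]
      exact (congrFun (congrArg b.equivFun (LinearMap.congr_fun hρ (b i))) k).trans
        ((b.equivFun_self i k).trans (Matrix.one_apply).symm)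
    exact ((congrArg Matrix.det this).trans Matrix.det_one).trans_ne one_ne_zero
  · have h2 : LinearIndependent ℂ fun i => fderiv ℂ σ y (u i) + s i :=
      LinearIndependent.of_comp ℓ (Matrix.linearIndependent_rows_of_det_ne_zero h0)
    have h3 : LinearIndependent ℂ fun i => (⟨fderiv ℂ σ y (u i) + s i,
        Submodule.add_mem_sup ⟨_, rfl⟩ (hs i)⟩ :
          ↥(LinearMap.range (fderiv ℂ σ y).toLinearMap ⊔ S)) :=
      LinearIndependent.of_comp (Submodule.subtype _) h2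
    simpa using h3.fintype_card_le_finrank

theorem exists_box' [FiniteDimensional ℂ F] [FiniteDimensional ℂ G] {σ : F → G} {y : F}
    (ha : AnalyticAt ℂ σ y) (S : Submodule ℂ G)
    (hmax : ∀ᶠ z in 𝓝 y, finrank ℂ ↥(LinearMap.range (fderiv ℂ σ z).toLinearMap ⊔ S) ≤
      finrank ℂ ↥(LinearMap.range (fderiv ℂ σ y).toLinearMap ⊔ S)) :
    ∃ (r : ℕ) (p : G →L[ℂ] Fin r → ℂ) (H : (Fin r → ℂ) → G),
      r + finrank ℂ S = finrank ℂ ↥(LinearMap.range (fderiv ℂ σ y).toLinearMap ⊔ S) ∧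
      (∀ x ∈ S, p x = 0) ∧ AnalyticAt ℂ H 0 ∧
      (∀ a, fderiv ℂ H 0 a ∈ LinearMap.range (fderiv ℂ σ y).toLinearMap) ∧
      Tendsto (fun z => p (σ z - σ y)) (𝓝 y) (𝓝 0) ∧
      ∀ᶠ z in 𝓝 y, σ z - H (p (σ z - σ y)) ∈ S := by
  obtain ⟨r, p, π, χ, hr, h1, h2, h3, -, h5, h6⟩ := exists_box ha _ hmax
  have h4 : AnalyticAt ℂ (fun a : Fin r → ℂ => χ (0, a)) 0 :=
    h2.fun_comp_of_eq (analyticAt_const.prod analyticAt_id) rfl
  have t1 : Tendsto (fun z => (π (z - y), p (σ z - σ y))) (𝓝 y) (𝓝 0) := by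
    have : ContinuousAt (fun z => (π (z - y), p (σ z - σ y))) y := by
      have := ha.continuousAt
      fun_prop
    have h := this.tendsto
    rwa [sub_self, sub_self, map_zero, map_zero] at h
  refine ⟨r, p, fun a => σ (χ (0, a)), hr, h1, ha.fun_comp_of_eq h4 h3, fun a => ?_,
    (continuous_snd.tendsto _).comp t1, ?_⟩
  · have hσ : HasFDerivAt σ (fderiv ℂ σ y) (χ (0, 0)) := by
      rw [show χ (0, 0) = y from h3]
      exact ha.differentiableAt.hasFDerivAt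
    have h7 : HasFDerivAt (fun a : Fin r → ℂ => σ (χ (0, a))) _ 0 :=
      hσ.comp (0 : Fin r → ℂ) h4.differentiableAt.hasFDerivAt
    rw [h7.fderiv]
    exact ⟨_, rfl⟩
  · filter_upwards [h5, t1.eventually h6] with z h7 h8
    have := h8.2.2
    rwa [h7] at this

end

theorem null_zero {X : Type*} [NormedAddCommGroup X] [NormedSpace ℝ X] [FiniteDimensional ℝ X]
    [MeasurableSpace X] [BorelSpace X] (μ : Measure X) [μ.IsAddHaarMeasure] {Φ : X → ℂ}
    {Z : Set X} (h : ∀ u ∈ Z, Φ u = 0 ∧ AnalyticAt ℝ Φ u ∧ fderiv ℝ Φ u ≠ 0) : μ Z = 0 := by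
  refine measure_null_of_locally_null _ fun u hu => ?_
  obtain ⟨-, h1, h2⟩ := h u hu
  obtain ⟨v, hv⟩ := DFunLike.ne_iff.1 h2
  have hv' : 0 < ‖fderiv ℝ Φ u v‖ := norm_pos_iff.2 hv
  obtain ⟨W, hW, W', hW', hs⟩ := mem_nhds_prod_iff.1 (h1.hasStrictFDerivAt.isLittleO.def
    (c := ‖fderiv ℝ Φ u v‖ / (‖v‖ + 1)) (by positivity))
  obtain ⟨ε, hε, hb⟩ := nhds_basis_closedBall.mem_iff.1
    (inter_mem (inter_mem hW hW') h1.eventually_analyticAt)
  refine ⟨closedBall u ε ∩ Φ ⁻¹' {0}, mem_nhdsWithin_iff_eventually.2 ?_, ?_⟩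
  · filter_upwards [closedBall_mem_nhds u hε] with z hz hz' using ⟨hz, (h z hz').1⟩
  refine μ.addHaar_eq_zero_of_disjoint_translates (fun n : ℕ => (1 / ((n : ℝ) + 1)) • v)
    (Metric.isBounded_range_of_tendsto _ (tendsto_one_div_add_atTop_nhds_zero_nat.smul_const v))
    (fun n m hnm => disjoint_left.2 ?_) (ContinuousOn.preimage_isClosed_of_isClosed
      (fun z hz => (hb hz).2.continuousAt.continuousWithinAt) isClosed_closedBall
      isClosed_singleton).measurableSet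
  rintro _ ⟨_, rfl, z, hz, rfl⟩ ⟨_, rfl, z', hz', e⟩
  have h3 := hs (mk_mem_prod (hb hz.1).1.1 (hb hz'.1).1.2)
  have h4 : z - z' = (1 / ((m : ℝ) + 1) - 1 / ((n : ℝ) + 1)) • v := by
    rw [sub_smul, sub_eq_sub_iff_add_eq_add, add_comm z]
    exact e.symm
  have h5 : 0 < ‖1 / ((m : ℝ) + 1) - 1 / ((n : ℝ) + 1)‖ := by
    refine norm_pos_iff.2 (sub_ne_zero.2 fun e => hnm ?_)
    rw [one_div, one_div, inv_inj, add_left_inj, Nat.cast_inj] at e
    exact e.symm
  simp only [mem_ofPred_eq, show Φ z = 0 from hz.2, show Φ z' = 0 from hz'.2, h4, sub_self,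
    zero_sub, norm_neg, map_smul, norm_smul] at h3
  rw [mul_left_comm, mul_le_mul_iff_right₀ h5, div_mul_eq_mul_div,
    le_div_iff₀ (by positivity)] at h3
  linarith

variable {g : ℕ} {F : Type} [NormedAddCommGroup F] [NormedSpace ℂ F] [FiniteDimensional ℂ F]
  {σ : F → Fin g → ℂ} {y : F}

theorem finrank_cx (n : ℕ) : finrank ℝ (Fin n → ℂ) = 2 * n := by
  simp [Module.finrank_pi_fintype, mul_comm]

/-- A piece of deficient rank, moved along `S` and one real direction, is null. -/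
theorem nul_line (ha : AnalyticAt ℂ σ y) {d : ℕ} (β : (Fin d → ℂ) →L[ℂ] (Fin g → ℂ))
    (hβ : Function.Injective β) (e : Fin g → ℂ)
    (hmax : ∀ᶠ z in 𝓝 y, finrank ℂ ↥(LinearMap.range (fderiv ℂ σ z).toLinearMap ⊔
      LinearMap.range β.toLinearMap) ≤ finrank ℂ ↥(LinearMap.range (fderiv ℂ σ y).toLinearMap ⊔
        LinearMap.range β.toLinearMap))
    (hlt : finrank ℂ ↥(LinearMap.range (fderiv ℂ σ y).toLinearMap ⊔
      LinearMap.range β.toLinearMap) < g) :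
    ∃ U ∈ 𝓝 y, Nul volume (fun c w => ∃ s, ∃ τ : ℝ, w = c + (β s + τ • e)) (σ '' U) := by
  obtain ⟨r, p, H, hr, -, h2, -, t1, h5⟩ := exists_box' ha _ hmax
  refine ⟨_, h5.and (t1.eventually h2.eventually_analyticAt), measure_mono_null ?_
    (null_image volume
      (f := fun q : ((Fin r → ℂ) × (Fin d → ℂ)) × ℝ => H q.1.1 + (β q.1.2 - q.2 • e))
      (s := {q | AnalyticAt ℂ H q.1.1}) (fun q hq => ?_) ?_)⟩
  · rintro c ⟨_, ⟨z, ⟨⟨s', hs'⟩, h10⟩, rfl⟩, s, τ, h11⟩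
    refine ⟨((_, s' - s), τ), h10, ?_⟩
    have : β s' = _ := hs'
    simp only [map_sub β, this]
    rw [← sub_eq_iff_eq_add] at h11
    rw [← h11]
    abel
  · refine ((hq.differentiableAt.restrictScalars ℝ).fun_comp' q (by fun_prop)).add ?_
    have := β.differentiable.restrictScalars ℝ
    fun_prop
  · rw [LinearMap.finrank_range_of_inj hβ, Module.finrank_fin_fun] at hr
    simp only [Module.finrank_prod, finrank_cx, finrank_self]
    omega

/-- A piece whose tangent space together with `S` misses a direction of the real family `j`. -/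
theorem nul_real (ha : AnalyticAt ℂ σ y) (S : Submodule ℂ (Fin g → ℂ)) {r : ℕ}
    (j : (Fin r → ℝ) →L[ℝ] (Fin g → ℂ)) (c : Fin g → ℂ)
    (hmax : ∀ᶠ z in 𝓝 y, finrank ℂ ↥(LinearMap.range (fderiv ℂ σ z).toLinearMap ⊔ S) ≤
      finrank ℂ ↥(LinearMap.range (fderiv ℂ σ y).toLinearMap ⊔ S)) {u₀ : Fin r → ℝ}
    (hu : j u₀ ∉ LinearMap.range (fderiv ℂ σ y).toLinearMap ⊔ S) :
    ∃ U ∈ 𝓝 y, Nul volume (fun u w => w - (c + j u) ∈ S) (σ '' U) := by
  obtain ⟨ℓ₀, h0, hℓ⟩ := Submodule.exists_dual_map_eq_bot_of_notMem hu inferInstance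
  let ℓ := ℓ₀.toContinuousLinearMap
  have hℓ' : ∀ w ∈ LinearMap.range (fderiv ℂ σ y).toLinearMap ⊔ S, ℓ w = 0 := fun w hw =>
    (Submodule.eq_bot_iff _).1 hℓ _ ⟨w, hw, rfl⟩
  obtain ⟨k, p, H, -, h1, h2, h3, t1, h5⟩ := exists_box' ha _ hmax
  have h9 : ∀ᶠ a in 𝓝 (0 : Fin k → ℂ), ℓ (fderiv ℂ H a (p (j u₀))) ≠ ℓ (j u₀) :=
    (ℓ.continuous.continuousAt.comp (h2.fderiv.continuousAt.clm_apply
      continuousAt_const)).eventually_ne fun h => h0
        (h.symm.trans (hℓ' _ (Submodule.mem_sup_left (h3 _))))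
  refine ⟨_, h5.and (t1.eventually (h2.eventually_analyticAt.and h9)), null_zero volume
    (Φ := fun u => ℓ (c + j u - H (p (c + j u - σ y)))) ?_⟩
  rintro u ⟨_, ⟨z, ⟨h15, h12, h13⟩, rfl⟩, h14⟩
  have e : p (σ z - σ y) = p (c + j u - σ y) := by
    rw [← sub_eq_zero, ← map_sub, sub_sub_sub_cancel_right, h1 _ h14]
  rw [e] at h12 h13 h15
  have a1 : AnalyticAt ℝ (fun u => c + j u) u := analyticAt_const.add (j.analyticAt u)
  have a2 : AnalyticAt ℝ (fun u => p (c + j u - σ y)) u :=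
    ((p.restrictScalars ℝ).analyticAt _).fun_comp (f := fun u => c + j u - σ y)
      (a1.sub analyticAt_const)
  refine ⟨?_, ((ℓ.restrictScalars ℝ).analyticAt _).fun_comp
    (f := fun u => c + j u - H (p (c + j u - σ y))) (a1.sub
      (h12.restrictScalars.fun_comp (f := fun u => p (c + j u - σ y)) a2)), fun h => h13 ?_⟩
  · refine hℓ' _ (Submodule.mem_sup_right ?_)
    simpa using S.sub_mem h15 h14
  · have d1 := (ℓ.restrictScalars ℝ).hasFDerivAt.comp u ((j.hasFDerivAt.const_add c).sub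
      ((h12.differentiableAt.hasFDerivAt.restrictScalars ℝ).comp u
        ((p.restrictScalars ℝ).hasFDerivAt.comp u ((j.hasFDerivAt.const_add c).sub_const (σ y)))))
    have d2 : ℓ (j u₀ - _) = 0 := congrArg (fun L => L u₀) (d1.fderiv.symm.trans h)
    rw [map_sub, sub_eq_zero] at d2
    exact d2.symm

end Pool.Agent.P.MP_f17f76_ag.K
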