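import Pool.Agent.P.MP_f17f76_ag.K.Abel

/-!
Several abelian evaluations at once, and a uniform bound for the number of isolated solutions.
-/

set_option linter.unusedSectionVars false

namespace Pool.Agent.P.MP_f17f76_ag.K

open Filter Topology Set MvPolynomial

section Pi

variable {J ι κ : Type*} [Fintype J] [DecidableEq J] [Fintype ι] [DecidableEq ι] [Fintype κ]

/-- The product of a family of open sets. -/
def spi (U : J → Set (ι → ℝ)) : Set (J × ι → ℝ) := {y | ∀ j, (fun i => y (j, i)) ∈ U j}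

/-- The product of a family of chains. -/
def gpi (γ : J → (ι → ℝ) → κ → ℝ) (y : J × ι → ℝ) : J × κ → ℝ :=
  fun a => γ a.1 (fun i => y (a.1, i)) a.2

variable {U : J → Set (ι → ℝ)} {γ : J → (ι → ℝ) → κ → ℝ} {d D : ℕ}

theorem IsPol.pi {f : (ι → ℝ) → ℝ} (j : J) (h : IsPol (U j) (γ j) D f) :
    IsPol (spi U) (gpi γ) D fun y => f fun i => y (j, i) :=
  (h.comp (U' := spi U) fun _ hy => hy j).rename (Prod.mk j) fun _ _ _ => rfl

theorem IsInt.pi {f : (ι → ℝ) → ℝ} (j : J) (h : IsInt (U j) (γ j) D f) :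
    IsInt (spi U) (gpi γ) D fun y => f fun i => y (j, i) :=
  (h.comp (U' := spi U) (D' := 0) (fun _ hy => hy j) fun _ => isInt_coord _).rename
    (Prod.mk j) fun _ _ _ => rfl

theorem Chain.pi (h : ∀ j, Chain d (U j) (γ j)) : Chain d (spi U) (gpi γ) := by
  refine ⟨?_, fun a => ((h a.1).der a.2).pi a.1⟩
  have : spi U = ⋂ j, (fun (y : J × ι → ℝ) i => y (j, i)) ⁻¹' U j := by
    ext y
    simp [spi]
  rw [this]
  exact isOpen_iInter_of_finite fun j => (h j).isOpen.preimage (by fun_prop)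

theorem Emb.pow {U : Set (ι → ℝ)} {γ : (ι → ℝ) → κ → ℝ} {q : (ι → ℝ) → ℝ}
    (h : Emb d U γ fun x => 1 - q x) (hq : ∀ x ∈ U, 0 ≤ q x) (m : ℕ) :
    Emb ((m + 1) * d) U γ fun x => 1 - q x ^ (m + 1) := by
  have h1 : IsPol U γ d q := ((isPol_const 1).sub h.pol).congr fun x _ => by ring
  have h2 := isPol_prod (Finset.range (m + 1)) (F := fun _ => q) fun _ _ => h1
  simp only [Finset.prod_const, Finset.card_range] at h2
  obtain ⟨Q, hQ, hQ'⟩ := h.alg
  refine ⟨h.inj, ⟨Q, hQ.trans (Nat.le_mul_of_pos_left _ (by omega)), hQ'⟩,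
    (isPol_const 1).sub h2, ?_⟩
  convert h.cpt using 1
  ext x
  refine and_congr_right fun hx => ?_
  rw [sub_nonneg, sub_nonneg, pow_le_one_iff_of_nonneg (hq x hx) (by omega)]

theorem Emb.pi (hC : ∀ j, Chain d (U j) (γ j)) {q : J → (ι → ℝ) → ℝ}
    (h : ∀ j, Emb d (U j) (γ j) fun x => 1 - q j x) (hq : ∀ j, ∀ x ∈ U j, 0 ≤ q j x) :
    Emb (2 * d) (spi U) (gpi γ) fun y => 1 - ∑ j, q j fun i => y (j, i) := by
  have hp : IsPol (spi U) (gpi γ) d fun y => 1 - ∑ j, q j fun i => y (j, i) :=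
    (isPol_const 1).sub (isPol_sum _ fun j _ =>
      ((isPol_const 1).sub ((h j).pol.pi j)).congr fun x _ => by ring)
  have hc : Continuous fun (x : J → ι → ℝ) (a : J × ι) => x a.1 a.2 := by fun_prop
  refine ⟨fun y hy z hz e => ?_, ?_, hp.mono (by omega), ?_⟩
  · funext a
    exact congrFun ((h a.1).inj (hy a.1) (hz a.1) (funext fun k => congrFun e (a.1, k))) a.2
  · choose Q hd h0 hl using fun j => (h j).alg
    refine ⟨∑ j, rename (Prod.mk j) (Q j) * rename (Prod.mk j) (Q j),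
      totalDegree_finsetSum_le fun j _ => (totalDegree_mul _ _).trans ?_, fun y hy => ?_,
      fun y hy N hN => ?_⟩
    · have := (totalDegree_rename_le (Prod.mk j : κ → J × κ) (Q j)).trans (hd j)
      omega
    · simp only [map_sum, map_mul, eval_rename]
      refine Finset.sum_eq_zero fun j _ => ?_
      exact mul_eq_zero_of_left (h0 j _ (hy j)) _
    · have hN' : (fun (x : J → ι → ℝ) (a : J × ι) => x a.1 a.2) ⁻¹' N ∈
          𝓝 (fun j i => y (j, i)) := hc.continuousAt.preimage_mem_nhds hN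
      rw [nhds_pi, mem_pi'] at hN'
      obtain ⟨I, M, hM, hsub⟩ := hN'
      have t1 : ∀ j, Tendsto (fun z : J × κ → ℝ => fun k => z (j, k)) (𝓝 (gpi γ y))
          (𝓝 (γ j fun i => y (j, i))) := fun j => Continuous.tendsto' (by fun_prop) _ _ rfl
      filter_upwards [eventually_all.2 fun j => (t1 j).eventually (hl j _ (hy j) _ (hM j))]
        with z hz1 hz
      simp only [map_sum, map_mul, eval_rename] at hz
      have hz2 := (Finset.sum_eq_zero_iff_of_nonneg fun j _ => mul_self_nonneg _).1 hz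
      choose x hx ex using fun j => hz1 j (mul_self_eq_zero.1 (hz2 j (Finset.mem_univ j)))
      exact ⟨fun a => x a.1 a.2, hsub fun j _ => hx j, funext fun a => congrFun (ex a.1) a.2⟩
  · have hK := (isCompact_univ_pi fun j => (h j).cpt).image hc
    have hKU : (fun (x : J → ι → ℝ) (a : J × ι) => x a.1 a.2) ''
        univ.pi (fun j => {x | x ∈ U j ∧ 0 ≤ 1 - q j x}) ⊆ spi U := by
      rintro _ ⟨p, hp, rfl⟩ j
      exact (hp j trivial).1
    have hcl := (((hp.continuousOn (Chain.pi hC)).mono hKU).preimage_isClosed_of_isClosed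
      hK.isClosed (isClosed_Ici (a := 0)))
    convert hK.of_isClosed_subset hcl inter_subset_left using 1
    ext y
    refine ⟨fun hy => ⟨⟨fun j i => y (j, i), fun j _ => ⟨hy.1 j, ?_⟩, rfl⟩, hy.2⟩,
      fun hy => ⟨hKU hy.1, hy.2⟩⟩
    have h1 := Finset.single_le_sum (f := fun j => q j fun i => y (j, i))
      (fun j _ => hq j _ (hy.1 j)) (Finset.mem_univ j)
    have h2 := hy.2
    linarith

end Pi

/-- Isolated common zeros of an arbitrary family of polynomials in a chain. -/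
theorem iso_family {ι κ α : Type*} [Fintype ι] [DecidableEq ι] [Fintype κ] {U₀ U : Set (ι → ℝ)}
    {γ : (ι → ℝ) → κ → ℝ} {d D K : ℕ} (hC : Chain d U γ) (hK : Bound U₀ U γ (2 * D + d) K)
    {f : α → (ι → ℝ) → ℝ} (hf : ∀ a, IsPol U γ D (f a)) (S : Finset (ι → ℝ))
    (hU : ∀ x ∈ S, x ∈ U ∧ U₀ ∈ 𝓝 x) (h0 : ∀ x ∈ S, ∀ a, f a x = 0)
    (hS : ∀ x ∈ S, ∀ᶠ y in 𝓝 x, (∀ a, f a y = 0) → y = x) : S.card ≤ K := by
  classical
  choose p hp hp' using hf
  obtain ⟨T, hT, hs⟩ := (Submodule.fg_span_iff_fg_span_finset_subset (range p)).1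
    (IsNoetherian.noetherian (Ideal.span (range p)))
  have hT' : ∀ r ∈ T, r.totalDegree ≤ D := fun r hr => by
    obtain ⟨a, rfl⟩ := hT hr
    exact hp a
  have hh : IsPol U γ (2 * D) fun x => ∑ r ∈ T, eval (γ x) r * eval (γ x) r :=
    isPol_sum _ fun r hr => ((isPol_eval r (hT' r hr)).mul (isPol_eval r (hT' r hr))).mono
      (by omega)
  refine isolated_count hC hK hh S hU fun x hx => ?_
  filter_upwards [hS x hx, hC.isOpen.mem_nhds (hU x hx).1] with y hy hyU hne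
  have e : ∑ r ∈ T, eval (γ x) r * eval (γ x) r = 0 := Finset.sum_eq_zero fun r hr => by
    obtain ⟨a, rfl⟩ := hT hr
    rw [← hp' a x (hU x hx).1, h0 x hx a, mul_zero]
  rw [e]
  refine (Finset.sum_nonneg fun r _ => mul_self_nonneg _).lt_of_ne fun h => hne (hy fun a => ?_)
  have h1 := (Finset.sum_eq_zero_iff_of_nonneg fun r _ => mul_self_nonneg _).1 h.symm
  have h2 : Submodule.span (MvPolynomial κ ℝ) (T : Set (MvPolynomial κ ℝ)) ≤
      RingHom.ker (eval (γ y)) := Submodule.span_le.2 fun r hr => mul_self_eq_zero.1 (h1 r hr)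
  rw [hp' a y hyU]
  exact h2 (hs ▸ Submodule.subset_span ⟨a, rfl⟩)

variable {g N : ℕ}

/-- The uniform bound after adjoining the abelian functions of several integrals. -/
theorem abel_bound_pi (A : AbVar g N) : ∃ δ > 0, ∀ (J ι κ : Type) [Fintype J] [DecidableEq J]
    [Fintype ι] [DecidableEq ι] [Fintype κ] (d : ℕ), ∃ d', ∀ D, ∃ K,
      ∀ (U U' : Set (ι → ℝ)) (γ : (ι → ℝ) → κ → ℝ) (q : (ι → ℝ) → ℝ)
      (W : J → (ι → ℝ) → Fin g → ℂ) (w₀ : J → Fin g → ℂ), Chain d U γ →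
      Emb d U γ (fun x => 1 - q x) → (∀ x ∈ U, 0 ≤ q x) → IsOpen U' → U' ⊆ U →
      (∀ j e, IsInt U γ d fun x => rl (W j x) e) →
      (∀ j, ∀ x ∈ U', W j x ∈ Metric.ball (w₀ j) δ) →
      ∃ Y : (ι → ℝ) → J → Option (Fin N) → ℂ,
        Chain d' U' (fun x => Sum.elim (γ x) fun a : J × _ => rl (Y x a.1) a.2) ∧
        Bound {x | x ∈ U' ∧ q x ≤ 1 / 2} U'
          (fun x => Sum.elim (γ x) fun a : J × _ => rl (Y x a.1) a.2) D K ∧
        ∀ x ∈ U', ∀ j, ∃ t : ℂ, t ≠ 0 ∧ ∀ k, Y x j (some k) = t * A.θ (W j x) k := by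
  obtain ⟨d₀, δ, hδ, hA⟩ := abel_charts A
  refine ⟨δ, hδ, fun J ι κ _ _ _ _ _ d => ?_⟩
  set d₁ := 2 * ((Fintype.card J + 1) * d₀) with hd₁
  have h01 : d₀ ≤ (Fintype.card J + 1) * d₀ := Nat.le_mul_of_pos_left _ (by omega)
  refine ⟨max d d₁ + d, fun D => ?_⟩
  obtain ⟨K, hK⟩ := khov (ι ⊕ J × (Fin g ⊕ Fin g)) (κ ⊕ J × (Option (Fin N) ⊕ Option (Fin N)))
    (2 * max d d₁) (Fintype.card (J × (Fin g ⊕ Fin g))) (max D d)
  refine ⟨K, fun U U' γ q W w₀ hC hE hq hU' hUU hW hb => ?_⟩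
  choose m Ω Φ q' hC' hE' hq' hΩ using fun j => hA (w₀ j)
  have c0 := Chain.pi fun j => (hC' j).mono h01
  have e0 := Emb.pi (fun j => (hC' j).mono h01)
    (fun j => (hE' j).pow (fun x _ => hq' j _) (Fintype.card J))
    fun j x _ => pow_nonneg (hq' j _) _
  have c0' := (c0.mono (show _ ≤ d₁ by omega)).mono (le_max_right d d₁)
  have c1 := (hC.mono (le_max_left d d₁)).prod c0'
  have e1 := Emb.prod (hC.mono (le_max_left d d₁)) c0'
    (hE.mono (le_max_left d d₁)) (e0.mono (le_max_right d d₁)) hq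
    fun x _ => Finset.sum_nonneg fun j _ => pow_nonneg (hq' j _) _
  have hW' : ∀ a : J × (Fin g ⊕ Fin g), IsInt U γ d fun x => rl (W a.1 x - m a.1) a.2 := by
    rintro ⟨j, e | e⟩
    · exact (hW j (Sum.inl e)).sub_const (m j e).re
    · exact (hW j (Sum.inr e)).sub_const (m j e).im
  have hj : ∀ x ∈ U', Sum.elim x (fun a : J × (Fin g ⊕ Fin g) => rl (W a.1 x - m a.1) a.2) ∈
      sprod U (spi fun j => cx ⁻¹' Ω j) := fun x hx =>
    ⟨hUU hx, fun j => (hΩ j _ (hb j x hx)).1⟩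
  have b1 := bound_graph c1 hU' hj
    (fun x hx => differentiableAt_pi.2 fun e => (hW' e).1 x (hUU hx))
    (fun e => (isInt_coord _).sub ((hW' e).inl.mono (le_max_right D d)))
    (hK _ _ _ (c1.mono (by omega)) e1)
  refine ⟨fun x j => Φ j (W j x - m j), ?_, fun F hF S hS => ?_,
    fun x hx j => (hΩ j _ (hb j x hx)).2.2⟩
  · refine c1.comp hU' hj ?_
    rintro (i | e)
    · exact isInt_coord i
    · exact ((hW' e).subset hUU).rename Sum.inl fun _ _ _ => rfl
  · refine b1 F (fun i => (hF i).mono (le_max_left _ _)) S fun x hx =>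
      ⟨⟨(hS x hx).1.1, ?_⟩, (hS x hx).2⟩
    have h2 := (hS x hx).1.2
    change 0 < 1 - (q x + ∑ j, q' j (W j x - m j) ^ (Fintype.card J + 1))
    have h3 : ∑ j, q' j (W j x - m j) ^ (Fintype.card J + 1) ≤
        Fintype.card J * (1 / 2) ^ (Fintype.card J + 1) := by
      have := Finset.sum_le_card_nsmul Finset.univ
        (fun j => q' j (W j x - m j) ^ (Fintype.card J + 1)) ((1 / 2) ^ (Fintype.card J + 1))
        fun j _ => pow_le_pow_left₀ (hq' j _) (hΩ j _ (hb j x (hS x hx).1.1)).2.1.le _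
      simpa using this
    have h4 : (Fintype.card J : ℝ) < 2 ^ Fintype.card J := by
      exact_mod_cast Nat.lt_two_pow_self
    have h5 : (2 : ℝ) ^ Fintype.card J * (1 / 2) ^ (Fintype.card J + 1) = 1 / 2 := by
      rw [pow_succ, ← mul_assoc, ← mul_pow]
      norm_num
    have h6 := mul_lt_mul_of_pos_right h4 (by positivity : (0 : ℝ) < (1 / 2) ^ (Fintype.card J + 1))
    linarith

/-- Solutions of real equations `Im q = 0` and of equations `p = 0` that involve the points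
`exp (W j)` of the abelian variety in homogeneous coordinates. -/
def Sol (A : AbVar g N) {σ J : Type} (W : J → Fin g → MvPolynomial σ ℂ)
    (Q : Set (MvPolynomial σ ℂ)) (P : Set (MvPolynomial (σ ⊕ J × Fin N) ℂ)) : Set (σ → ℂ) :=
  {ξ | (∀ q ∈ Q, (eval ξ q).im = 0) ∧ ∀ p ∈ P, ∀ t : J → ℂ,
    eval (Sum.elim ξ fun a => t a.1 * A.θ (fun e => eval ξ (W a.1 e)) a.2) p = 0}

/-- The number of isolated solutions is bounded in terms of the degrees. -/
theorem iso_count (A : AbVar g N) : ∃ δ > 0, ∀ (σ J : Type) [Fintype σ] [Fintype J] (D : ℕ),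
    ∃ K : ℕ, ∀ (W : J → Fin g → MvPolynomial σ ℂ) (w₀ : J → Fin g → ℂ)
      (Q : Set (MvPolynomial σ ℂ)) (P : Set (MvPolynomial (σ ⊕ J × Fin N) ℂ)),
      (∀ j e, (W j e).totalDegree ≤ D) → (∀ q ∈ Q, q.totalDegree ≤ D) →
      (∀ p ∈ P, p.totalDegree ≤ D) → ∀ S : Finset (σ → ℂ),
      (∀ ξ ∈ S, (∀ j, (fun e => eval ξ (W j e)) ∈ Metric.ball (w₀ j) δ) ∧ ξ ∈ Sol A W Q P ∧
        ∀ᶠ η in 𝓝 ξ, η ∈ Sol A W Q P → η = ξ) → S.card ≤ K := by
  classical
  obtain ⟨δ, hδ, hA⟩ := abel_bound_pi A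
  refine ⟨δ, hδ, fun σ J _ _ D => ?_⟩
  obtain ⟨d', hA⟩ := hA J (σ ⊕ σ) (σ ⊕ σ) (D + 2)
  obtain ⟨K, hA⟩ := hA (2 * D + d')
  refine ⟨K, fun W w₀ Q P hW hQ hP S hS => ?_⟩
  obtain ⟨R, hR, hRS⟩ : ∃ R : ℝ, 0 < R ∧ ∀ ξ ∈ S, ∑ i, rl ξ i * rl ξ i < R / 2 := by
    obtain ⟨M, hM⟩ := (S.finite_toSet.image fun ξ => ∑ i, rl ξ i * rl ξ i).bddAbove
    refine ⟨2 * (|M| + 1), by positivity, fun ξ hξ => ?_⟩
    have := hM (mem_image_of_mem _ hξ)
    have := le_abs_self M
    linarith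
  have hq : IsPol (univ : Set (σ ⊕ σ → ℝ)) (fun x => x) (D + 2)
      fun x => 1 - R⁻¹ * ∑ i, x i * x i :=
    (isPol_const 1).sub ((isPol_sum _ fun i _ => ((isPol_gen i le_rfl).mul
      (isPol_gen i le_rfl)).mono (by omega)).const_mul _)
  have hcx : ∀ k, IsPolC (univ : Set (σ ⊕ σ → ℝ)) (fun x => x) 1 fun x => cx x k := fun k =>
    ⟨isPol_gen (Sum.inl k) le_rfl, isPol_gen (Sum.inr k) le_rfl⟩
  have hWc : ∀ j, Continuous fun (x : σ ⊕ σ → ℝ) e => eval (cx x) (W j e) := fun j =>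
    continuous_pi fun e => (MvPolynomial.continuous_eval _).comp continuous_cx
  obtain ⟨Y, hC, hB, hY⟩ := hA univ
    {x | ∀ j, (fun e => eval (cx x) (W j e)) ∈ Metric.ball (w₀ j) δ} (fun x => x)
    (fun x => R⁻¹ * ∑ i, x i * x i) (fun j x e => eval (cx x) (W j e)) w₀
    (chain_id.mono (by omega)) ⟨fun _ _ _ _ h => h, ⟨0, by simp, by simp, fun x _ M hM => by
      filter_upwards [hM] with y hy _ using ⟨y, hy, rfl⟩⟩, hq, by
        refine Metric.isCompact_of_isClosed_isBounded ?_ ?_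
        · exact isClosed_univ.inter (isClosed_le (f := fun _ => (0 : ℝ))
            (g := fun x : σ ⊕ σ → ℝ => 1 - R⁻¹ * ∑ i, x i * x i) continuous_const (by fun_prop))
        · refine (Metric.isBounded_closedBall (x := 0) (r := R + 1)).subset fun x hx => ?_
          refine mem_closedBall_zero_iff.2 ((pi_norm_le_iff_of_nonneg (by positivity)).2
            fun i => ?_)
          have h1 := Finset.single_le_sum (f := fun i => x i * x i)
            (fun i _ => mul_self_nonneg _) (Finset.mem_univ i)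
          have h2 : ∑ i, x i * x i ≤ R := by
            have := hx.2
            rw [sub_nonneg, inv_mul_le_iff₀ hR] at this
            linarith
          rw [Real.norm_eq_abs, abs_le]
          constructor <;> nlinarith⟩
    (fun x _ => mul_nonneg (inv_nonneg.2 hR.le) (Finset.sum_nonneg fun i _ => mul_self_nonneg _))
    (by
      rw [Set.ofPred_forall]
      exact isOpen_iInter_of_finite fun j => Metric.isOpen_ball.preimage (hWc j))
    (subset_univ _) (by
      rintro j (e | e)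
      · exact ((isPolC_eval hcx _ (hW j e)).1.isInt chain_id).mono (by omega)
      · exact ((isPolC_eval hcx _ (hW j e)).2.isInt chain_id).mono (by omega))
    fun j x hx => hx j
  set U' := {x : σ ⊕ σ → ℝ | ∀ j, (fun e => eval (cx x) (W j e)) ∈ Metric.ball (w₀ j) δ}
  set γ := fun x : σ ⊕ σ → ℝ => Sum.elim x fun a : J × _ => rl (Y x a.1) a.2
  have h1 : ∀ k, IsPolC U' γ 1 fun x => cx x k := fun k =>
    ⟨isPol_gen (Sum.inl (Sum.inl k)) le_rfl, isPol_gen (Sum.inl (Sum.inr k)) le_rfl⟩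
  have h2 : ∀ (t : J → ℂ) (k : σ ⊕ J × Fin N), IsPolC U' γ 1
      fun x => Sum.elim (cx x) (fun a : J × Fin N => t a.1 * Y x a.1 (some a.2)) k := by
    rintro t (k | ⟨j, k⟩)
    · exact h1 k
    · exact IsPolC.const_mul ⟨isPol_gen (Sum.inr (j, Sum.inl (some k))) le_rfl,
        isPol_gen (Sum.inr (j, Sum.inr (some k))) le_rfl⟩ (t j)
  let f : Q ⊕ (P × (J → ℂ)) × Bool → (σ ⊕ σ → ℝ) → ℝ := Sum.elim
    (fun q x => (eval (cx x) q.1).im) fun a x => (if a.2 then Complex.re else Complex.im)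
      (eval (Sum.elim (cx x) fun b : J × Fin N => a.1.2 b.1 * Y x b.1 (some b.2)) a.1.1.1)
  have hf : ∀ a, IsPol U' γ D (f a) := by
    rintro (q | ⟨⟨p, t⟩, _ | _⟩)
    · exact (isPolC_eval h1 _ (hQ _ q.2)).2.mono (by omega)
    · exact (isPolC_eval (h2 t) _ (hP _ p.2)).2.mono (by omega)
    · exact (isPolC_eval (h2 t) _ (hP _ p.2)).1.mono (by omega)
  have key : ∀ x ∈ U', (∀ a, f a x = 0) ↔ cx x ∈ Sol A W Q P := by
    intro x hx
    choose t ht0 ht using hY x hx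
    refine ⟨fun h => ⟨fun q hq => h (Sum.inl ⟨q, hq⟩), fun p hp s => ?_⟩, fun h => ?_⟩
    · have e : (fun a : J × Fin N => s a.1 * A.θ (fun e => eval (cx x) (W a.1 e)) a.2) =
          fun b : J × Fin N => (s b.1 / t b.1) * Y x b.1 (some b.2) := by
        funext b
        rw [ht, ← mul_assoc, div_mul_cancel₀ _ (ht0 _)]
      rw [e]
      exact Complex.ext (h (Sum.inr ((⟨p, hp⟩, fun j => s j / t j), true)))
        (h (Sum.inr ((⟨p, hp⟩, fun j => s j / t j), false)))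
    · rintro (q | ⟨⟨p, s⟩, b⟩)
      · exact h.1 _ q.2
      · have := h.2 _ p.2 fun j => s j * t j
        simp only [mul_assoc, ← ht] at this
        simp only [f, Sum.elim_inr, this]
        cases b <;> rfl
  rw [← Finset.card_image_of_injective S (f := rl) fun a b h => by simpa using congrArg cx h]
  have hUo : IsOpen U' := hC.isOpen
  have hSU : ∀ ξ ∈ S, rl ξ ∈ U' := fun ξ hξ j => by simpa only [cx_rl] using (hS ξ hξ).1 j
  refine iso_family hC hB hf _ (fun x hx => ?_) (fun x hx => ?_) fun x hx => ?_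
  all_goals obtain ⟨ξ, hξ, rfl⟩ := Finset.mem_image.1 hx
  · have h3 : R⁻¹ * ∑ i, rl ξ i * rl ξ i < 1 / 2 := by
      rw [inv_mul_lt_iff₀ hR]
      linarith [hRS ξ hξ]
    have h4 : Continuous fun x : σ ⊕ σ → ℝ => R⁻¹ * ∑ i, x i * x i := by fun_prop
    refine ⟨hSU ξ hξ, ?_⟩
    filter_upwards [hUo.mem_nhds (hSU ξ hξ),
      h4.continuousAt.eventually_lt continuousAt_const h3] with y hy h5 using ⟨hy, h5.le⟩
  · exact (key _ (hSU ξ hξ)).2 (by simpa only [cx_rl] using (hS ξ hξ).2.1)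
  · filter_upwards [hUo.mem_nhds (hSU ξ hξ),
      (continuous_cx.tendsto' _ _ (cx_rl ξ)).eventually (hS ξ hξ).2.2] with y hy h3 h4
    rw [← h3 ((key y hy).1 h4), rl_cx]

end Pool.Agent.P.MP_f17f76_ag.K
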