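import Pool.Agent.P.MP_f17f76_ag.BrFib
import Pool.Agent.P.MP_f17f76_ag.K.GA
import Pool.Agent.P.MP_f17f76_ag.K.GB
import Pool.Agent.P.MP_f17f76_ag.K.Iso

/-!
The real torus generated by a subspace, transversal points, and the two null sets.
-/

namespace Pool.Agent.P.MP_f17f76_ag.K

open Filter Topology Set MeasureTheory Metric Module MvPolynomial

variable {g N d : ℕ}

theorem rat_or_line_real (A : AbVar g N) (L : Submodule ℝ (Fin g → ℂ)) :
    (L : Set (Fin g → ℂ)) ⊆ Submodule.span ℝ ((A.Λ : Set (Fin g → ℂ)) ∩ L) ∨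
      ∃ v, v ∉ L ∧ ∀ τ : ℝ, τ • v ∈ closure {x | ∃ l ∈ L, ∃ m ∈ A.Λ, x = l + m} := by
  obtain ⟨L', hL⟩ := L.exists_isCompl
  set p : (Fin g → ℂ) →ₗ[ℝ] (Fin g → ℂ) := L'.projection L hL.symm with hp
  have hp0 : ∀ x, p x = 0 ↔ x ∈ L := fun x => Submodule.projection_apply_eq_zero_iff hL.symm
  have hp1 : ∀ x, x - p x ∈ L := fun x => Submodule.sub_projection_mem hL.symm x
  have hp2 : ∀ x, p x ∈ L' := fun x => Submodule.projection_apply_mem hL.symm x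
  by_cases hc : ∃ ε > 0, ∀ m ∈ A.Λ, ‖p m‖ < ε → p m = 0
  · left
    obtain ⟨ε, hε, h⟩ := hc
    obtain ⟨R, hR⟩ := A.exists_bdd
    obtain ⟨C, hC⟩ := rat_reps A.Λ p.toAddMonoidHom hε h (‖p.toContinuousLinearMap‖ * R)
    intro x hx
    have hcl := (Submodule.span ℝ ((A.Λ : Set (Fin g → ℂ)) ∩ L)).closed_of_finiteDimensional
    rw [← hcl.closure_eq, Metric.mem_closure_iff]
    intro δ hδ
    obtain ⟨n, hn⟩ := exists_nat_gt (max 0 ((R + C) / δ))
    have hn0 : (0 : ℝ) < n := (le_max_left _ _).trans_lt hn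
    have hn1 : R + C < n * δ := (div_lt_iff₀ hδ).mp ((le_max_right _ _).trans_lt hn)
    obtain ⟨m, hm, hb⟩ := hR ((n : ℝ) • x)
    have hx' : p ((n : ℝ) • x) = 0 := (hp0 _).mpr (L.smul_mem _ hx)
    obtain ⟨μ, hμ, hμC, hμ0⟩ := hC m hm (by
      have e : p m = -p ((n : ℝ) • x - m) := by rw [map_sub, hx']; simp
      change ‖p m‖ ≤ _
      rw [e, norm_neg]
      exact (p.toContinuousLinearMap.le_opNorm _).trans
        (mul_le_mul_of_nonneg_left hb (norm_nonneg _)))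
    refine ⟨(n : ℝ)⁻¹ • (m - μ), Submodule.smul_mem _ _
      (Submodule.subset_span ⟨A.Λ.sub_mem hm hμ, (hp0 _).mp hμ0⟩), ?_⟩
    have e : x - (n : ℝ)⁻¹ • (m - μ) = (n : ℝ)⁻¹ • (((n : ℝ) • x - m) + μ) := by
      rw [smul_add, smul_sub, smul_sub, smul_smul, inv_mul_cancel₀ hn0.ne', one_smul]
      abel
    rw [dist_eq_norm, e, norm_smul, norm_inv, Real.norm_of_nonneg hn0.le, inv_mul_lt_iff₀ hn0]
    exact ((norm_add_le _ _).trans (add_le_add hb hμC)).trans_lt hn1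
  · right
    push Not at hc
    choose m hm1 hm2 hm3 using fun n : ℕ => hc (1 / ((n : ℝ) + 1)) Nat.one_div_pos_of_nat
    have hpos : ∀ n, 0 < ‖p (m n)‖ := fun n => norm_pos_iff.mpr (hm3 n)
    have ha : Tendsto (fun n => ‖p (m n)‖) atTop (𝓝 0) :=
      squeeze_zero (fun n => norm_nonneg _) (fun n => (hm2 n).le)
        tendsto_one_div_add_atTop_nhds_zero_nat
    obtain ⟨v, hv, φ, hφ, hlim⟩ := (isCompact_sphere (0 : Fin g → ℂ) 1).tendsto_subseq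
      (x := fun n => ‖p (m n)‖⁻¹ • p (m n)) fun n => by
        rw [mem_sphere_zero_iff_norm, norm_smul, norm_inv, norm_norm,
          inv_mul_cancel₀ (hpos n).ne']
    have hvL' : v ∈ L' := L'.closed_of_finiteDimensional.mem_of_tendsto hlim
      (Eventually.of_forall fun n => L'.smul_mem _ (hp2 _))
    refine ⟨v, fun hvL => ?_, fun τ => ?_⟩
    · have : v = 0 := Submodule.disjoint_def.mp hL.disjoint v hvL hvL'
      rw [this] at hv
      simp at hv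
    · have h1 := (rat_floor τ (fun n => hpos (φ n)) (ha.comp hφ.tendsto_atTop)).smul hlim
      refine mem_closure_of_tendsto h1 (Eventually.of_forall fun n => ?_)
      refine ⟨⌊τ / ‖p (m (φ n))‖⌋ • -(m (φ n) - p (m (φ n))),
        L.smul_of_tower_mem _ (L.neg_mem (hp1 _)), ⌊τ / ‖p (m (φ n))‖⌋ • m (φ n),
        A.Λ.smul_mem _ (hm1 _), ?_⟩
      rw [Function.comp_apply, smul_smul, mul_inv_cancel_right₀ (hpos _).ne', Int.cast_smul_eq_zsmul,
        ← smul_add, neg_sub, sub_add_cancel]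

/-- A rational real subspace between `L` and the closure of `L + Λ`. -/
theorem exists_torus (A : AbVar g N) (L : Submodule ℂ (Fin g → ℂ)) :
    ∃ (r : ℕ) (j : (Fin r → ℝ) →L[ℝ] (Fin g → ℂ)), (∀ n : Fin r → ℤ, j (fun i => n i) ∈ A.Λ) ∧
      (∀ l ∈ L, ∃ u, j u = l) ∧ ∀ u, ∀ l ∈ L,
        j u + l ∈ closure {x | ∃ l ∈ L, ∃ m ∈ A.Λ, x = l + m} := by
  classical
  let Γ := (L.toAddSubgroup ⊔ A.Λ.toAddSubgroup).topologicalClosure
  have hΓ : (Γ : Set (Fin g → ℂ)) = closure {x | ∃ l ∈ L, ∃ m ∈ A.Λ, x = l + m} := by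
    exact congrArg closure (Set.ext fun x => AddSubgroup.mem_sup.trans
      ⟨fun ⟨l, hl, m, hm, e⟩ => ⟨l, hl, m, hm, e.symm⟩,
        fun ⟨l, hl, m, hm, e⟩ => ⟨l, hl, m, hm, e.symm⟩⟩)
  have hL : ∀ l ∈ L, l ∈ Γ := fun l hl => subset_closure (AddSubgroup.mem_sup_left hl)
  obtain ⟨T, ⟨h1, h2⟩, h3⟩ := exists_maximalFor_of_wellFoundedGT
    (fun T : Submodule ℝ (Fin g → ℂ) => (∀ l ∈ L, l ∈ T) ∧ ∀ x ∈ T, x ∈ Γ) id
    ⟨L.restrictScalars ℝ, fun _ h => h, hL⟩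
  rcases rat_or_line_real A T with h | ⟨v, hv, h⟩
  · obtain ⟨s, s1, s2, s3⟩ := exists_linearIndependent ℝ ((A.Λ : Set (Fin g → ℂ)) ∩ T)
    have := s3.setFinite.fintype
    let w : Fin (Fintype.card s) → Fin g → ℂ := fun i => ((Fintype.equivFin s).symm i).1
    have hw : range w = s := (((Fintype.equivFin s).symm.surjective.range_comp _).trans
      Subtype.range_val)
    have hr : LinearMap.range (Fintype.linearCombination ℝ w) = T := by
      rw [Fintype.range_linearCombination, hw, s2]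
      exact le_antisymm (Submodule.span_le.2 inter_subset_right) h
    refine ⟨_, (Fintype.linearCombination ℝ w).toContinuousLinearMap, fun n => ?_,
      fun l hl => hr.ge (h1 l hl), fun u l hl => hΓ ▸ Γ.add_mem (h2 _ (hr.le ⟨u, rfl⟩)) (hL l hl)⟩
    change ∑ i, (n i : ℝ) • w i ∈ A.Λ
    refine A.Λ.sum_mem fun i _ => ?_
    rw [Int.cast_smul_eq_zsmul]
    exact A.Λ.smul_mem _ (s1 (hw.le ⟨i, rfl⟩)).1
  · refine absurd (h3 (j := T ⊔ Submodule.span ℝ {v})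
      ⟨fun l hl => Submodule.mem_sup_left (h1 l hl), fun x hx => ?_⟩ le_sup_left
      (Submodule.mem_sup_right (Submodule.mem_span_singleton_self v))) hv
    obtain ⟨a, ha, b, hb, rfl⟩ := Submodule.mem_sup.1 hx
    obtain ⟨τ, rfl⟩ := Submodule.mem_span_singleton.1 hb
    refine Γ.add_mem (h2 a ha) (closure_minimal ?_ (AddSubgroup.isClosed_topologicalClosure _) (h τ))
    rintro _ ⟨l, hl, m, hm, rfl⟩
    exact Γ.add_mem (h2 l hl) (subset_closure (AddSubgroup.mem_sup_right hm))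

/-- Near `x` the set `Y` meets each nearby translate of the image of `β` exactly once. -/
def Good (Y : Set (Fin g → ℂ)) (β : (Fin d → ℂ) →L[ℂ] (Fin g → ℂ)) (x : Fin g → ℂ) : Prop :=
  ∃ S : (Fin g → ℂ) → Fin d → ℂ, AnalyticAt ℂ S x ∧ S x = 0 ∧ (∀ᶠ w in 𝓝 x, w + β (S w) ∈ Y) ∧
    ∀ᶠ p in 𝓝 (x, (0 : Fin d → ℂ)), p.1 + β p.2 ∈ Y → p.2 = S p.1

variable {Y : Set (Fin g → ℂ)} {β : (Fin d → ℂ) →L[ℂ] (Fin g → ℂ)}

section

variable {F : Type} [NormedAddCommGroup F] [NormedSpace ℂ F] [FiniteDimensional ℂ F]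
  {σ : F → Fin g → ℂ} {y : F}

omit [FiniteDimensional ℂ F] in
theorem surj_theta (ha : AnalyticAt ℂ σ y)
    (ht : LinearMap.range (fderiv ℂ σ y).toLinearMap ⊔ LinearMap.range β.toLinearMap = ⊤) :
    AnalyticAt ℂ (fun p : F × (Fin d → ℂ) => σ p.1 - β p.2) (y, 0) ∧
      Function.Surjective (fderiv ℂ (fun p : F × (Fin d → ℂ) => σ p.1 - β p.2) (y, 0)) := by
  refine ⟨(ha.fun_comp_of_eq analyticAt_fst rfl).sub ((β.analyticAt _).fun_comp analyticAt_snd),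
    fun w => ?_⟩
  have h1 : HasFDerivAt (fun p : F × (Fin d → ℂ) => σ p.1 - β p.2) _ (y, 0) :=
    (HasFDerivAt.comp (f := Prod.fst) (y, (0 : Fin d → ℂ)) ha.differentiableAt.hasFDerivAt
      hasFDerivAt_fst).sub (β.hasFDerivAt.comp _ hasFDerivAt_snd)
  obtain ⟨_, ⟨u, rfl⟩, _, ⟨s, rfl⟩, rfl⟩ := Submodule.mem_sup.1 (ht.ge (Submodule.mem_top (x := w)))
  exact ⟨(u, -s), by rw [h1.fderiv]; simp⟩

theorem good_of_chart (ha : AnalyticAt ℂ σ y) (hY : ∀ᶠ z in 𝓝 y, σ z ∈ Y) {κ : (Fin g → ℂ) → F}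
    (hκ : Tendsto κ (𝓝 (σ y)) (𝓝 y)) (hκ' : ∀ᶠ w in 𝓝 (σ y), w ∈ Y → σ (κ w) = w)
    (hd : finrank ℂ F + d = g)
    (ht : LinearMap.range (fderiv ℂ σ y).toLinearMap ⊔ LinearMap.range β.toLinearMap = ⊤) :
    Good Y β (σ y) := by
  obtain ⟨h1, h2⟩ := surj_theta ha ht
  have hd' : finrank ℂ (F × (Fin d → ℂ)) = finrank ℂ (Fin g → ℂ) := by simp [hd]
  obtain ⟨χ, h3, h4, h5⟩ := exists_local_inv h1
    ((LinearMap.injective_iff_surjective_of_finrank_eq_finrank hd').2 h2) hd'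
  have h6 := h4.self_of_nhds
  simp only [map_zero, sub_zero] at h3 h5 h6
  have t1 : Tendsto χ (𝓝 (σ y)) (𝓝 (y, 0)) := h6 ▸ h3.continuousAt.tendsto
  refine ⟨fun w => (χ w).2, analyticAt_snd.fun_comp h3, congrArg Prod.snd h6, ?_, ?_⟩
  · filter_upwards [h5, ((continuous_fst.tendsto _).comp t1).eventually hY] with w h7 h8
    rwa [← sub_eq_iff_eq_add.1 h7]
  · have t2 : Tendsto (fun p : (Fin g → ℂ) × (Fin d → ℂ) => p.1 + β p.2) (𝓝 (σ y, 0))
        (𝓝 (σ y)) := Continuous.tendsto' (by fun_prop) _ _ (by simp)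
    filter_upwards [t2.eventually hκ', ((hκ.comp t2).prodMk_nhds
      (continuous_snd.tendsto _)).eventually h4] with p h7 h8 h9
    simp only [Function.comp_apply, h7 h9, add_sub_cancel_right] at h8
    exact (congrArg Prod.snd h8).symm

omit [FiniteDimensional ℂ F] in
theorem exists_mul_ne {Ω : Set F} (hc : IsPreconnected Ω) {f f' : F → ℂ} (ho : IsOpen Ω)
    (hf : ∀ y ∈ Ω, AnalyticAt ℂ f y) (hf' : ∀ y ∈ Ω, AnalyticAt ℂ f' y) (h : ∃ y ∈ Ω, f y ≠ 0)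
    (h' : ∃ y ∈ Ω, f' y ≠ 0) : ∃ y ∈ Ω, f y * f' y ≠ 0 := by
  by_contra hcon
  obtain ⟨y, hy, h0⟩ := h
  obtain ⟨y', hy', h0'⟩ := h'
  refine h0' (AnalyticOnNhd.eqOn_zero_of_preconnected_of_eventuallyEq_zero hf' hc hy ?_ hy')
  filter_upwards [ho.mem_nhds hy, (hf y hy).continuousAt.eventually_ne h0] with z hz h1
  exact (mul_eq_zero.1 (not_not.1 fun h => hcon ⟨z, hz, h⟩)).resolve_left h1

end

/-- Induction over the analytic pieces of an analytic set. -/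
theorem an_ind' {X α : Type*} [MeasurableSpace X] {μ : Measure X} {R : X → (Fin g → ℂ) → Prop}
    {Φ : α → (Fin g → ℂ) → ℂ} (hΦ : ∀ a w, AnalyticAt ℂ (Φ a) w)
    (hR : ∀ x w, R x w → ∀ a, Φ a w = 0)
    (h : ∀ (F : Type) [NormedAddCommGroup F] [NormedSpace ℂ F] [FiniteDimensional ℂ F]
      (Ω : Set F) (σ : F → Fin g → ℂ), IsOpen Ω → IsPreconnected Ω → Ω.Nonempty →
      (∀ y ∈ Ω, AnalyticAt ℂ σ y) → (∀ y ∈ Ω, Function.Injective (fderiv ℂ σ y)) →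
      (∀ y ∈ Ω, ∀ a, Φ a (σ y) = 0) →
      ∃ f : F → ℂ, (∀ y ∈ Ω, AnalyticAt ℂ f y) ∧ (∃ y ∈ Ω, f y ≠ 0) ∧
        ∀ y ∈ Ω, f y ≠ 0 → ∃ U ∈ 𝓝 y, Nul μ R (σ '' U)) : μ {x | ∃ w, R x w} = 0 := by
  have := an_ind (μ := μ) (R := R) (fun F _ _ _ Ω σ h1 h2 h3 h4 h5 => ?_) _ _ univ id rfl
    isOpen_univ (fun _ _ => analyticAt_id) fun _ _ => by simpa using Function.injective_id
  · simpa [Nul] using this
  by_cases h6 : ∀ y ∈ Ω, ∀ a, Φ a (σ y) = 0
  · exact h F Ω σ h1 h2 h3 h4 h5 h6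
  push Not at h6
  obtain ⟨y₀, hy₀, a, h0⟩ := h6
  refine ⟨fun y => Φ a (σ y), fun y hy => (hΦ a _).fun_comp (h4 y hy), ⟨y₀, hy₀, h0⟩,
    fun y hy h7 => ⟨_, ((hΦ a _).fun_comp (h4 y hy)).continuousAt.eventually_ne h7,
      measure_mono_null ?_ measure_empty⟩⟩
  rintro x ⟨_, ⟨z, hz, rfl⟩, hx⟩
  exact hz (hR _ _ hx a)

variable {A : AbVar g N} {V : Set ((Fin g → ℂ) × (Fin g → ℂ))}

theorem an_eval0 (A : AbVar g N) (p : MvPolynomial (Fin g ⊕ Fin N) ℂ) (t : ℂ) (w : Fin g → ℂ) :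
    AnalyticAt ℂ (fun w => eval (Sum.elim (0 : Fin g → ℂ) (t • A.θ w)) p) w :=
  analyticAt_eval p _ (A.analyticAt_elim analyticAt_const analyticAt_id analyticAt_const)

section

variable {F : Type} [NormedAddCommGroup F] [NormedSpace ℂ F] [FiniteDimensional ℂ F]
  {σ : F → Fin g → ℂ} {Ω : Set F}

omit [FiniteDimensional ℂ F] in
theorem imm0 (ha : ∀ y ∈ Ω, AnalyticAt ℂ σ y) (hi : ∀ y ∈ Ω, Function.Injective (fderiv ℂ σ y)) :
    ∀ y ∈ Ω, Function.Injective (fderiv ℂ (fun z => ((0 : Fin g → ℂ), σ z)) y) := fun y hy => by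
  rw [((hasFDerivAt_const (0 : Fin g → ℂ) y).prodMk (ha y hy).differentiableAt.hasFDerivAt).fderiv]
  exact fun a b e => hi y hy (congrArg Prod.snd e)

theorem dim0 (ho : IsOpen Ω) (hne : Ω.Nonempty) (ha : ∀ y ∈ Ω, AnalyticAt ℂ σ y)
    (hi : ∀ y ∈ Ω, Function.Injective (fderiv ℂ σ y)) :
    finrank ℂ F + 1 ≤ tdeg (A.idl ((fun z => ((0 : Fin g → ℂ), σ z)) '' Ω)) := by
  obtain ⟨y, hy⟩ := hne
  rw [← LinearMap.finrank_range_of_inj (f := (fderiv ℂ (fun z => ((0 : Fin g → ℂ), σ z))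
    y).toLinearMap) (imm0 ha hi y hy)]
  exact AbVar.rank_lt_tdeg (analyticAt_const.prod (ha y hy)) (mem_of_superset (ho.mem_nhds hy)
    fun z hz => A.subset_zeroSet_idl _ ⟨z, hz, rfl⟩)

end

theorem finrank_sup_le {F : Type} [NormedAddCommGroup F] [NormedSpace ℂ F] [FiniteDimensional ℂ F]
    (M : F →L[ℂ] (Fin g → ℂ)) (β : (Fin d → ℂ) →L[ℂ] (Fin g → ℂ)) :
    finrank ℂ ↥(LinearMap.range M.toLinearMap ⊔ LinearMap.range β.toLinearMap) ≤
      finrank ℂ F + d := by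
  have h1 := Submodule.finrank_add_le_finrank_add_finrank (LinearMap.range M.toLinearMap)
    (LinearMap.range β.toLinearMap)
  have h2 := LinearMap.finrank_range_le M.toLinearMap
  have h3 := LinearMap.finrank_range_le β.toLinearMap
  rw [Module.finrank_fin_fun] at h3
  omega

/-- Almost every real line of translates meets the variety only in transversal points. -/
theorem bad_null (hV : A.Irred V) (hβ : Function.Injective β)
    (hdim : tdeg (A.idl V) + d ≤ g + 1) (e : Fin g → ℂ) :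
    volume {c | ∃ w, ((0, w) ∈ A.zeroSet (A.idl V) ∧
      ¬ Good {w | (0, w) ∈ A.zeroSet (A.idl V)} β w) ∧ ∃ s, ∃ τ : ℝ, w = c + (β s + τ • e)} = 0 := by
  refine an_ind' (Φ := fun (a : A.idl V × ℂ) w => eval (Sum.elim 0 (a.2 • A.θ w)) a.1.1)
    (fun a w => an_eval0 A _ _ w) (fun c w h a => h.1.1 _ a.1.2 _)
    fun F _ _ _ Ω σ ho hc hne ha hi hY => ?_
  obtain ⟨f, hf, ⟨y₀, hy₀, h0⟩, hf'⟩ := exists_minor hne ha (LinearMap.range β.toLinearMap)
  by_cases hr : finrank ℂ ↥(LinearMap.range (fderiv ℂ σ y₀).toLinearMap ⊔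
      LinearMap.range β.toLinearMap) < g
  · refine ⟨f, hf, ⟨y₀, hy₀, h0⟩, fun y hy h => ?_⟩
    obtain ⟨U, hU, h1⟩ := nul_line (ha y hy) β hβ e
      (mem_of_superset (ho.mem_nhds hy) (hf' y hy h)) ((hf' y₀ hy₀ h0 y hy).trans_lt hr)
    exact ⟨U, hU, measure_mono_null (fun _ hx => hx.imp fun _ hw => ⟨hw.1, hw.2.2⟩) h1⟩
  have h1 := finrank_sup_le (fderiv ℂ σ y₀) β
  have h2 := dim0 (A := A) ho hne ha hi
  have han : ∀ y ∈ Ω, AnalyticAt ℂ (fun z => ((0 : Fin g → ℂ), σ z)) y := fun y hy =>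
    analyticAt_const.prod (ha y hy)
  have h3 : A.idl V ≤ A.idl ((fun z => ((0 : Fin g → ℂ), σ z)) '' Ω) := fun p hp =>
    A.mem_idl.2 (forall_mem_image.2 fun y hy t => hY y hy (⟨p, hp⟩, t))
  have : (A.idl V).IsPrime := hV
  have : (A.idl ((fun z => ((0 : Fin g → ℂ), σ z)) '' Ω)).IsPrime :=
    AbVar.irred_image ho hc hne han
  have h4 := eq_of_le_of_tdeg_le h3 (by omega)
  have hP : A.IsPar (A.idl V) Ω fun z => ((0 : Fin g → ℂ), σ z) :=
    h4 ▸ AbVar.isPar_of_tdeg ho hc hne han (imm0 ha hi) (by rw [← h4]; omega)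
  rw [← h4] at h2
  obtain ⟨D, hD, hreg⟩ := hP.exists_reg
  obtain ⟨y₁, hy₁, t, ht⟩ : ∃ y ∈ Ω, ∃ t : ℂ, eval (Sum.elim 0 (t • A.θ (σ y))) D ≠ 0 := by
    by_contra hcon
    exact hD ((hP.mem D).2 fun y hy t => not_not.1 fun h => hcon ⟨y, hy, t, h⟩)
  have hf₁ := fun y hy => (an_eval0 A D t (σ y)).fun_comp (ha y hy)
  refine ⟨fun y => f y * eval (Sum.elim 0 (t • A.θ (σ y))) D, fun y hy => (hf y hy).mul (hf₁ y hy),
    exists_mul_ne hc ho hf hf₁ ⟨y₀, hy₀, h0⟩ ⟨y₁, hy₁, ht⟩, fun y hy h => ⟨_, (ho.eventually_mem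
      hy).and (((hf y hy).mul (hf₁ y hy)).continuousAt.eventually_ne h),
      measure_mono_null ?_ measure_empty⟩⟩
  rintro c ⟨_, ⟨z, ⟨hz, h5⟩, rfl⟩, ⟨-, h6⟩, -⟩
  obtain ⟨κ, k1, k2, k3⟩ := hreg z hz t (right_ne_zero_of_mul h5)
  have t1 : Tendsto (fun w => ((0 : Fin g → ℂ), w)) (𝓝 (σ z)) (𝓝 (0, σ z)) :=
    (Continuous.prodMk_right _).tendsto _
  refine h6 (good_of_chart (κ := fun w => κ (0, w)) (ha z hz)
    (mem_of_superset (ho.mem_nhds hz) fun u hu => hP.mem_zeroSet hu) ?_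
    ((t1.eventually k3).mono fun w hw h => congrArg Prod.snd (hw h)) (by omega) ?_)
  · have := k1.continuousAt.tendsto.comp t1
    rwa [k2.self_of_nhds] at this
  · refine Submodule.eq_top_of_finrank_eq (le_antisymm (Submodule.finrank_le _) ?_)
    rw [Module.finrank_fin_fun]
    exact (not_lt.1 hr).trans (hf' z hz (left_ne_zero_of_mul h5) y₀ hy₀)

/-- A proper subvariety, moved along `β`, meets every coset of the real torus in a null set. -/
theorem sub_null (hV : A.Irred V) (hdim : tdeg (A.idl V) + d ≤ g + 1) {r : ℕ}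
    {j : (Fin r → ℝ) →L[ℝ] (Fin g → ℂ)} (hj : ∀ n : Fin r → ℤ, j (fun i => n i) ∈ A.Λ)
    (hβj : ∀ s, ∃ u, j u = β s) (hfree : ∀ H, A.IsLie H → (∀ u, j u ∈ H) → H = ⊤)
    {D : MvPolynomial (Fin g ⊕ Fin N) ℂ} (hD : D ∉ A.idl V) (c : Fin g → ℂ) :
    volume {u | ∃ w, ((0, w) ∈ A.zeroSet (A.idl V) ∧
      ∀ t : ℂ, eval (Sum.elim 0 (t • A.θ w)) D = 0) ∧
        w - (c + j u) ∈ LinearMap.range β.toLinearMap} = 0 := by
  obtain ⟨k, M, hk, hM, hM'⟩ := AbVar.exists_quot_map (Submodule.span ℂ (range j)) ⊤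
  have hMj : ∀ u, M (j u) = 0 := fun u => hM _ (Submodule.subset_span ⟨u, rfl⟩)
  have hMβ : ∀ s, M (β s) = 0 := fun s => (hβj s).elim fun u hu => hu ▸ hMj u
  refine an_ind' (Φ := Sum.elim
      (fun (a : ↥(insert D (A.idl V : Set _)) × ℂ) w => eval (Sum.elim 0 (a.2 • A.θ w)) a.1.1)
      fun (i : Fin k) w => M (w - c) i) ?_ ?_ fun F _ _ _ Ω σ ho hc hne ha hi hY => ?_
  · rintro (a | i) w
    · exact an_eval0 A _ _ w
    · exact analyticAt_pi_iff.1 ((M.analyticAt _).fun_comp (f := fun w => w - c)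
        (analyticAt_id.sub analyticAt_const)) i
  · rintro u w ⟨⟨h1, h2⟩, s, hs⟩ (⟨⟨p, rfl | hp⟩, t⟩ | i)
    · exact h2 t
    · exact h1 p hp t
    · have : w - c = β s + j u := by
        rw [show β s = _ from hs]
        abel
      change M (w - c) i = 0
      rw [this, map_add, hMj, hMβ, add_zero]
      rfl
  obtain ⟨f, hf, h0, hf'⟩ := exists_minor hne ha (LinearMap.range β.toLinearMap)
  refine ⟨f, hf, h0, fun y hy h => ?_⟩
  by_cases hu : ∀ u, j u ∈ LinearMap.range (fderiv ℂ σ y).toLinearMap ⊔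
      LinearMap.range β.toLinearMap
  swap
  · obtain ⟨u₀, hu⟩ := not_forall.1 hu
    obtain ⟨U, hU, h1⟩ := nul_real (ha y hy) _ j c
      (mem_of_superset (ho.mem_nhds hy) (hf' y hy h)) hu
    exact ⟨U, hU, measure_mono_null (fun _ hx => hx.imp fun _ hw => ⟨hw.1, hw.2.2⟩) h1⟩
  exfalso
  have han : ∀ y ∈ Ω, AnalyticAt ℂ (fun z => ((0 : Fin g → ℂ), σ z)) y := fun y hy =>
    analyticAt_const.prod (ha y hy)
  have h3 : ∀ p ∈ insert D (A.idl V : Set _),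
      p ∈ A.idl ((fun z => ((0 : Fin g → ℂ), σ z)) '' Ω) := fun p hp =>
    A.mem_idl.2 (forall_mem_image.2 fun y hy t => hY y hy (Sum.inl (⟨p, hp⟩, t)))
  have : (A.idl V).IsPrime := hV
  have : (A.idl ((fun z => ((0 : Fin g → ℂ), σ z)) '' Ω)).IsPrime :=
    AbVar.irred_image ho hc hne han
  have h4 := tdeg_lt (lt_of_le_of_ne (fun p hp => h3 p (Or.inr hp))
    fun e => hD (e ▸ h3 D (Or.inl rfl)))
  have h5 := (Submodule.finrank_mono (Submodule.span_le.2 (range_subset_iff.2 hu))).trans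
    (finrank_sup_le (fderiv ℂ σ y) β)
  rw [inf_top_eq, finrank_top, Module.finrank_fin_fun] at hk
  obtain ⟨ℓ, hℓ, L₀, hL, h6, h7⟩ := AbVar.ax_gen (A := A) ho hc hne han (imm0 ha hi) M (M c)
    (fun z hz => by
      rw [sub_zero, ← sub_eq_zero, ← map_sub]
      exact funext fun i => hY z hz (Sum.inr i))
    fun T hT => by have := hT.le_tdeg; omega
  have h8' : LinearMap.range (fderiv ℂ σ y).toLinearMap ≤ L₀ := by
    rintro _ ⟨v, rfl⟩
    exact fderiv_mem_of_sub_mem' (ha y hy).differentiableAt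
      (mem_of_superset (ho.mem_nhds hy) fun z hz => h6 z hz y hy) v
  have h8 : ∀ u, j u ∈ L₀ ⊔ LinearMap.range β.toLinearMap := fun u =>
    (sup_le_sup_right h8' _ :) (hu u)
  have h9 := hfree _ (fun x hx => ?_) h8
  · refine hℓ (ContinuousLinearMap.ext fun a => ?_)
    obtain ⟨v, -, rfl⟩ := hM' a
    obtain ⟨v, hv, _, ⟨s, rfl⟩, rfl⟩ := Submodule.mem_sup.1 (h9.ge (Submodule.mem_top (x := v)))
    rw [map_add, show M (β.toLinearMap s) = 0 from hMβ s, add_zero]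
    exact h7 v hv
  obtain ⟨v, hv, _, ⟨s, rfl⟩, rfl⟩ := Submodule.mem_sup.1 hx
  refine Submodule.add_mem _ (Submodule.span_mono (inter_subset_inter_right _
    fun z hz => Submodule.mem_sup_left hz) (hL hv)) ?_
  obtain ⟨u, hu'⟩ := hβj s
  rw [show β.toLinearMap s = j u from hu'.symm, pi_eq_sum_univ' u, map_sum]
  refine Submodule.sum_mem _ fun i _ => ?_
  rw [map_smul]
  refine Submodule.smul_mem _ _ (Submodule.subset_span ⟨?_, h8 _⟩)
  have e : (Pi.single i 1 : Fin r → ℝ) = fun a => ((Pi.single i 1 : Fin r → ℤ) a : ℝ) := by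
    funext a
    simp [Pi.single_apply]
  rw [e]
  exact hj _

end Pool.Agent.P.MP_f17f76_ag.K
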