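import Pool.Agent.P.MP_f17f76_ag.BrSub
import Pool.Agent.P.MP_f17f76_ag.K.GC

/-!
A generic point of a transversal subvariety in the closure of a coset of a free subspace.
-/

namespace Pool.Agent.P.MP_f17f76_ag.K

open Filter Topology Set MeasureTheory Metric Module MvPolynomial

variable {g N d : ℕ}

theorem cnt (A : AbVar g N) : ∃ δ > (0 : ℝ), ∀ (P : Ideal (MvPolynomial (Fin g ⊕ Fin N) ℂ)) (d : ℕ),
    ∃ K : ℕ, ∀ (β : (Fin d → ℂ) →L[ℂ] (Fin g → ℂ)) (e c : Fin g → ℂ),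
      (∀ s : Fin d ⊕ Fin d → ℝ, ‖s‖ ≤ 1 → ‖β (cx s)‖ < δ) → ‖e‖ < δ →
      Cnt K {x : Option (Fin d ⊕ Fin d) → ℝ |
        (0, c + (β (cx fun i => x (some i)) + x none • e)) ∈ A.zeroSet P} := by
  classical
  obtain ⟨δ, hδ, hA⟩ := iso_count A
  refine ⟨δ / 2, half_pos hδ, fun P d => ?_⟩
  obtain ⟨T, hT⟩ := IsNoetherian.noetherian P
  let ω : MvPolynomial (Fin g ⊕ Fin N) ℂ → MvPolynomial (Option (Fin d) ⊕ Unit × Fin N) ℂ :=
    aeval (Sum.elim (fun _ => 0) fun k => X (Sum.inr ((), k)))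
  obtain ⟨K, hK⟩ := hA (Option (Fin d)) Unit (T.sup (fun p => (ω p).totalDegree) + 1)
  refine ⟨K, fun β e c hβ he o ρ a S hS => ?_⟩
  let W : Unit → Fin g → MvPolynomial (Option (Fin d)) ℂ := fun _ k =>
    C (c k) + (∑ i, C (β (Pi.single i 1) k) * X (some i) + C (e k) * X none)
  have hW : ∀ (η : Option (Fin d) → ℂ) u,
      (fun k => eval η (W u k)) = c + (β (fun i => η (some i)) + η none • e) := fun η u => by
    funext k
    simp [W, inv_expand β (fun i => η (some i)) k, mul_comm]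
  let ξ : (Option (Fin d ⊕ Fin d) → ℝ) → Option (Fin d) → ℂ := fun x o =>
    o.elim (x none : ℂ) (cx fun i => x (some i))
  let rc : (Option (Fin d) → ℂ) → Option (Fin d ⊕ Fin d) → ℝ := fun η o =>
    o.elim (η none).re (rl fun i => η (some i))
  have h1 : ∀ x, rc (ξ x) = x := fun x => funext (by rintro (_ | i | i) <;> rfl)
  have h2 : ∀ η, (η none).im = 0 → ξ (rc η) = η := fun η h =>
    funext (by rintro (_ | i) <;> [exact Complex.ext rfl h.symm; rfl])
  have h3 : Continuous rc := continuous_pi (by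
    rintro (_ | i | i) <;> simp only [rc, rl, Option.elim, Sum.elim_inl, Sum.elim_inr] <;> fun_prop)
  obtain ⟨q, hq, hq'⟩ : ∃ q : MvPolynomial (Option (Fin d)) ℂ, q.totalDegree ≤ 1 ∧
      ∀ η, (eval η q).im = rc η o - ρ := by
    have h4 : ∀ (o : Option (Fin d)) (a b : ℂ), (C a * X o - C b :
        MvPolynomial (Option (Fin d)) ℂ).totalDegree ≤ 1 := fun o a b =>
      (totalDegree_sub _ _).trans (max_le ((totalDegree_mul _ _).trans (by simp)) (by simp))
    rcases o with _ | i | i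
    · exact ⟨_, h4 none Complex.I (Complex.I * ρ), fun η => by simp [rc]⟩
    · exact ⟨_, h4 (some i) Complex.I (Complex.I * ρ), fun η => by simp [rc, rl]⟩
    · exact ⟨_, h4 (some i) 1 (Complex.I * ρ), fun η => by simp [rc, rl]⟩
  have key : ∀ x, ξ x ∈ Sol A W {X none, q} (ω '' T) ↔ x o = ρ ∧
      (0, c + (β (cx fun i => x (some i)) + x none • e)) ∈ A.zeroSet P := fun x => by
    have e1 : ∀ (p) (t : Unit → ℂ), eval (Sum.elim (ξ x) fun a : Unit × Fin N =>
        t a.1 * A.θ (fun k => eval (ξ x) (W a.1 k)) a.2) (ω p) = eval (Sum.elim (0 : Fin g → ℂ)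
          (t () • A.θ (c + (β (cx fun i => x (some i)) + x none • e)))) p := fun p t => by
      rw [eval_aeval']
      congr 2
      funext k
      rcases k with k | k
      · simp
      · simp only [Sum.elim_inr, eval_X, hW]
        rfl
    simp only [Sol, mem_ofPred_eq, mem_insert_iff, mem_singleton_iff, forall_eq_or_imp, forall_eq,
      eval_X, hq', h1, sub_eq_zero, forall_mem_image, e1]
    refine and_congr (and_iff_right rfl) ⟨fun h p hp t => ?_, fun h p hp t =>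
      h p (hT ▸ Submodule.subset_span hp) _⟩
    have h5 : Submodule.span _ (T : Set (MvPolynomial (Fin g ⊕ Fin N) ℂ)) ≤ RingHom.ker (eval
        (Sum.elim (0 : Fin g → ℂ) (t • A.θ (c + (β (cx fun i => x (some i)) + x none • e))))) :=
      Submodule.span_le.2 fun p hp => h hp fun _ => t
    exact h5 (hT ▸ hp)
  rw [← Finset.card_image_of_injective S (f := ξ) (Function.LeftInverse.injective h1)]
  refine hK W (fun _ => c + (β (cx fun i => a (some i)) + (a none : ℝ) • e)) {X none, q} (ω '' T)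
    (fun _ k => ?_) ?_ ?_ _ fun η hη => ?_
  · refine (totalDegree_add _ _).trans (max_le (by simp) ((totalDegree_add _ _).trans (max_le
      (totalDegree_finsetSum_le fun i _ => ?_) ?_)))
    all_goals exact (totalDegree_mul _ _).trans (by simp)
  · rintro _ (rfl | rfl)
    · simp
    · omega
  · rintro _ ⟨p, hp, rfl⟩
    exact (Finset.le_sup (f := fun p => (ω p).totalDegree) hp).trans (by omega)
  obtain ⟨x, hx, rfl⟩ := Finset.mem_image.1 hη
  obtain ⟨h4, h5, h6, h7⟩ := hS x hx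
  refine ⟨fun u => ?_, (key x).2 ⟨h6, h4⟩, ?_⟩
  · have h8 : ∀ o, ‖x o - a o‖ ≤ 1 := fun o => by
      rw [← h5 o, Real.norm_eq_abs, abs_le]
      constructor <;> linarith [Int.floor_le (x o), Int.lt_floor_add_one (x o)]
    have h9 := hβ ((fun i => x (some i)) - fun i => (a (some i) : ℝ))
      ((pi_norm_le_iff_of_nonneg zero_le_one).2 fun i => h8 _)
    have h10 : ‖(x none - a none) • e‖ ≤ ‖e‖ := by
      rw [norm_smul]
      exact mul_le_of_le_one_left (norm_nonneg _) (h8 _)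
    rw [← cxL_apply, map_sub, cxL_apply, cxL_apply, map_sub] at h9
    rw [hW _ u, mem_ball_iff_norm, add_sub_add_left_eq_sub, add_sub_add_comm]
    refine (norm_add_le _ _).trans_lt ?_
    rw [sub_smul] at h10
    exact (add_lt_add h9 (h10.trans_lt he)).trans_eq (add_halves δ)
  · filter_upwards [(h3.tendsto' _ _ (h1 x)).eventually h7] with η h8 h9
    have h10 := h2 η (by simpa using h9.1 _ (Or.inl rfl))
    obtain ⟨h11, h12⟩ := (key _).1 (h10.symm ▸ h9)
    rw [← h10, h8 h12 h11]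

variable {Y : Set (Fin g → ℂ)} {β : (Fin d → ℂ) →L[ℂ] (Fin g → ℂ)}

theorem Good.arc {c e : Fin g → ℂ} {x : Option (Fin d ⊕ Fin d) → ℝ}
    (h : Good Y β (c + (β (cx fun i => x (some i)) + x none • e))) :
    Arc {x | c + (β (cx fun i => x (some i)) + x none • e) ∈ Y} x := by
  obtain ⟨S, h1, -, h3, h4⟩ := h
  set w := c + (β (cx fun i => x (some i)) + x none • e) with hw
  have a1 : AnalyticAt ℝ (fun τ : ℝ => w + (τ - x none) • e) (x none) := by fun_prop
  have e1 : w + (x none - x none) • e = w := by simp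
  have a2 : AnalyticAt ℝ (fun τ : ℝ => S (w + (τ - x none) • e)) (x none) :=
    h1.restrictScalars.fun_comp_of_eq a1 e1
  have e2 : ∀ (s : Fin d ⊕ Fin d → ℝ) (τ : ℝ), c + (β (cx s) + τ • e) =
      w + (τ - x none) • e + β (cx (s - fun i => x (some i))) := fun s τ => by
    rw [← cxL_apply (s - _), map_sub, cxL_apply, cxL_apply, map_sub, sub_smul, hw]
    abel
  refine ⟨fun τ o => o.elim τ fun i => x (some i) + rl (S (w + (τ - x none) • e)) i,
    analyticAt_pi_iff.2 ?_, fun _ => rfl, ?_, ?_⟩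
  · rintro (_ | i | i)
    · exact analyticAt_id
    · exact analyticAt_const.add ((Complex.reCLM.analyticAt _).comp (analyticAt_pi_iff.1 a2 i))
    · exact analyticAt_const.add ((Complex.imCLM.analyticAt _).comp (analyticAt_pi_iff.1 a2 i))
  · filter_upwards [(e1 ▸ a1.continuousAt.tendsto).eventually h3] with τ hτ
    change c + (β (cx fun i => x (some i) + rl (S (w + (τ - x none) • e)) i) + τ • e) ∈ Y
    rw [e2]
    convert hτ using 3
    exact (congrArg cx (funext fun i => add_sub_cancel_left _ _)).trans (cx_rl _)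
  · have t1 : Tendsto (fun y : Option (Fin d ⊕ Fin d) → ℝ => (w + (y none - x none) • e,
        cx ((fun i => y (some i)) - fun i => x (some i)))) (𝓝 x) (𝓝 (w, 0)) := by
      refine Continuous.tendsto' (Continuous.prodMk (by fun_prop)
        (continuous_cx.comp (by fun_prop))) _ _ (Prod.ext e1 ?_)
      change cx ((fun i => x (some i)) - fun i => x (some i)) = 0
      rw [sub_self]
      rfl
    filter_upwards [t1.eventually h4] with y h5 h6
    rw [e2] at h6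
    have h7 := congrArg rl (h5 h6)
    rw [rl_cx] at h7
    funext o
    rcases o with _ | i
    · rfl
    · exact sub_eq_iff_eq_add'.1 (congrFun h7 i)

variable {A : AbVar g N} {V : Set ((Fin g → ℂ) × (Fin g → ℂ))} {F : Type} [NormedAddCommGroup F]
  [NormedSpace ℂ F] [FiniteDimensional ℂ F] {ψ : F → Fin g → ℂ} {y : F}

theorem g_top {L' L : Submodule ℂ (Fin g → ℂ)} (hL : L' ≤ L)
    (hfree : ∀ H, A.IsLie H → L ≤ H → H = ⊤) (hV : A.Irred V)
    (hdim : tdeg (A.idl V) + finrank ℂ L' ≤ g + 1) (hψ : AnalyticAt ℂ ψ y)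
    (hψY : ∀ᶠ u in 𝓝 y, (0, ψ u) ∈ A.zeroSet (A.idl V))
    (htr : LinearMap.range (fderiv ℂ ψ y).toLinearMap ⊔ L' = ⊤)
    {𝒟 : Set (MvPolynomial (Fin g ⊕ Fin N) ℂ)} (hc : 𝒟.Countable) (hD : ∀ D ∈ 𝒟, D ∉ A.idl V)
    (w : Fin g → ℂ) : ∃ x, (0, x) ∈ A.zeroSet (A.idl V) ∧
      (∀ D ∈ 𝒟, ∃ t : ℂ, eval (Sum.elim 0 (t • A.θ x)) D ≠ 0) ∧
      x - w ∈ closure {x | ∃ l ∈ L, ∃ m ∈ A.Λ, x = l + m} := by
  obtain ⟨d, β₀, hd, hβ₀, hr₀⟩ := exists_lin_param L'
  obtain ⟨δ, hδ, hK⟩ := cnt A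
  obtain ⟨K, hK⟩ := hK (A.idl V) d
  obtain ⟨β, hβ, hr, hβδ⟩ : ∃ β : (Fin d → ℂ) →L[ℂ] (Fin g → ℂ), Function.Injective β ∧
      LinearMap.range β.toLinearMap = L' ∧ ∀ s, ‖s‖ ≤ 1 → ‖β (cx s)‖ < δ := by
    set M := ‖(β₀.restrictScalars ℝ).comp (cxL (Fin d))‖
    have h0 : (0 : ℝ) < δ / (M + 1) := by positivity
    have h1 : ((δ / (M + 1) : ℝ) : ℂ) ≠ 0 := Complex.ofReal_ne_zero.2 h0.ne'
    refine ⟨((δ / (M + 1) : ℝ) : ℂ) • β₀, fun a b h => hβ₀ (smul_right_injective _ h1 h),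
      (LinearMap.range_smul _ _ h1).trans (Submodule.ext fun x => (hr₀ x).symm), fun s hs => ?_⟩
    have h2 := ((β₀.restrictScalars ℝ).comp (cxL (Fin d))).unit_le_opNorm s hs
    rw [ContinuousLinearMap.comp_apply, cxL_apply] at h2
    change ‖((δ / (M + 1) : ℝ) : ℂ) • β₀ (cx s)‖ < δ
    rw [norm_smul, Complex.norm_real, Real.norm_of_nonneg h0.le, div_mul_eq_mul_div,
      div_lt_iff₀ (by positivity)]
    exact mul_lt_mul_of_pos_left (h2.trans_lt (lt_add_one M)) hδ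
  rw [hd] at hdim
  rw [← hr] at htr
  set Y := {w | (0, w) ∈ A.zeroSet (A.idl V)} with hY
  obtain ⟨x₀, hx₀⟩ : ∃ x₀, Good Y β x₀ := by
    by_contra hcon
    have := FiniteDimensional.complete ℂ F
    obtain ⟨h1, h2⟩ := surj_theta hψ htr
    have h3 := h1.hasStrictFDerivAt.map_nhds_eq_of_surj (LinearMap.range_eq_top.2 h2)
    refine (volume.measure_pos_of_mem_nhds (h3.ge (image_mem_map
      (continuous_fst.continuousAt.eventually hψY)))).ne' (measure_mono_null ?_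
        (bad_null hV hβ hdim 0))
    rintro _ ⟨p, hp, rfl⟩
    exact ⟨ψ p.1, ⟨hp, fun h => hcon ⟨_, h⟩⟩, p.2, 0, by simp⟩
  obtain ⟨r, j, hj, hjL, hjc⟩ := exists_torus A L
  let b := (β.restrictScalars ℝ).comp (cxL (Fin d))
  have hb : ∀ s, b s = β (cx s) := fun s => congrArg β (cxL_apply s)
  have hβL : ∀ s, β s ∈ L := fun s => hL (hr.le ⟨s, rfl⟩)
  obtain ⟨T, hT⟩ := exists_nat_gt (‖w - (x₀ - b fun _ => 1 / 2)‖ / δ)
  have hT0 : (0 : ℝ) < T := lt_of_le_of_lt (by positivity) hT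
  have hYc : IsClosed Y := by
    have e : Y = ⋂ p, ⋂ (_ : p ∈ A.idl V), ⋂ t : ℂ,
        {w | eval (Sum.elim 0 (t • A.θ w)) p = 0} := by
      ext w
      simp only [mem_iInter]
      rfl
    rw [e]
    exact isClosed_iInter fun p => isClosed_iInter fun _ => isClosed_iInter fun t =>
      isClosed_eq (continuous_iff_continuousAt.2 fun w => (an_eval0 A p t w).continuousAt)
        continuous_const
  have h1 := pos_meas (K := K) volume hYc b j (fun s => hjL _ (hb s ▸ hβL _))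
    (fun n x => ⟨fun h => show (0, x) ∈ A.zeroSet (A.idl V) by
      simpa using AbVar.zeroSet_per h (A.Λ.neg_mem (hj n)), fun h =>
        add_comm x _ ▸ AbVar.zeroSet_per h (hj n)⟩) (x₀ - b fun _ => 1 / 2)
    ((T : ℝ)⁻¹ • (w - (x₀ - b fun _ => 1 / 2))) T (fun c => ?_) ?_ ?_
  rotate_left
  · simp only [hb]
    refine hK β _ c hβδ ?_
    rw [norm_smul, norm_inv, Real.norm_of_nonneg hT0.le, inv_mul_lt_iff₀ hT0, ← hb]
    exact (div_lt_iff₀ hδ).1 hT
  · filter_upwards [measure_eq_zero_iff_ae_notMem.1 (bad_null hV hβ hdim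
      ((T : ℝ)⁻¹ • (w - (x₀ - b fun _ => 1 / 2))))] with c hc x hx
    simp only [hb] at hc hx ⊢
    exact Good.arc (not_not.1 fun h => hc ⟨_, ⟨hx, h⟩, _, _, rfl⟩)
  · obtain ⟨S, s1, s2, s3, -⟩ := hx₀
    have t1 : Tendsto (fun c => c + b fun _ => 1 / 2) (𝓝 (x₀ - b fun _ => 1 / 2)) (𝓝 x₀) :=
      Continuous.tendsto' (by fun_prop) _ _ (sub_add_cancel _ _)
    have t2 := (continuous_rl.tendsto' _ 0 (by
      rw [s2]
      exact funext (by rintro (i | i) <;> rfl))).comp (s1.continuousAt.tendsto.comp t1)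
    filter_upwards [t1.eventually s3, t2.eventually (ball_mem_nhds _ one_half_pos)] with c h2 h3
    refine ⟨(fun _ => 1 / 2) + rl (S (c + b fun _ => 1 / 2)), fun i => ?_, ?_⟩
    · have := abs_lt.1 ((norm_le_pi_norm _ i).trans_lt (mem_ball_zero_iff.1 h3))
      simp only [Function.comp_apply] at this
      exact ⟨by simp only [Pi.add_apply]; linarith, by simp only [Pi.add_apply]; linarith⟩
    · rwa [map_add, ← add_assoc, hb (rl _), cx_rl]
  rw [smul_smul, mul_inv_cancel₀ hT0.ne', one_smul, add_sub_cancel] at h1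
  have h2 := (measure_biUnion_null_iff hc).2 fun D hD' => sub_null (β := β) hV hdim hj
    (fun s => hjL _ (hβL s)) (fun H hH h => hfree H hH fun l hl =>
      (hjL l hl).elim fun u hu => hu ▸ h u) (hD D hD') w
  obtain ⟨u, ⟨s, hs⟩, hu⟩ := not_subset.1 fun h => h1 (measure_mono_null h h2)
  refine ⟨_, hs, fun D hD' => not_forall.1 fun h => hu (mem_iUnion₂.2
    ⟨D, hD', _, ⟨hs, h⟩, cx s, ?_⟩), ?_⟩
  · rw [add_sub_cancel_left, hb]
    rfl
  · rw [add_assoc, add_sub_cancel_left, hb]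
    exact hjc u _ (hβL _)

/-- The generic point lemma inside a rational subspace `B`. -/
theorem g_lemma {B L' L : Submodule ℂ (Fin g → ℂ)} (hB : A.IsLie B) (hL : L' ≤ L) (hLB : L ≤ B)
    (hfree : ∀ H, A.IsLie H → L ≤ H → B ≤ H) (hV : A.Irred V)
    (hVB : ∀ q ∈ V, q.1 = 0 ∧ ∃ m ∈ A.Λ, q.2 - m ∈ B)
    (hdim : tdeg (A.idl V) + finrank ℂ L' ≤ finrank ℂ B + 1) (hψ : AnalyticAt ℂ ψ y)
    (hψY : ∀ᶠ u in 𝓝 y, (0, ψ u) ∈ A.zeroSet (A.idl V))
    (htr : B ≤ LinearMap.range (fderiv ℂ ψ y).toLinearMap ⊔ L')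
    {𝒟 : Set (MvPolynomial (Fin g ⊕ Fin N) ℂ)} (hc : 𝒟.Countable) (hD : ∀ D ∈ 𝒟, D ∉ A.idl V)
    {w : Fin g → ℂ} (hw : w ∈ B) : ∃ x ∈ B, (0, x) ∈ A.zeroSet (A.idl V) ∧
      (∀ D ∈ 𝒟, ∃ t : ℂ, eval (Sum.elim 0 (t • A.θ x)) D ≠ 0) ∧
      x - w ∈ closure {x | ∃ l ∈ L, ∃ m ∈ A.Λ, m ∈ B ∧ x = l + m} := by
  obtain ⟨l, β, hl, hβ, hr⟩ := exists_lin_param B
  obtain ⟨π, hπ⟩ := β.toLinearMap.exists_leftInverse_of_injective (LinearMap.ker_eq_bot.2 hβ)
  have hπ1 : ∀ u, π (β u) = u := fun u => LinearMap.congr_fun hπ u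
  have hπ2 : ∀ x ∈ B, β (π x) = x := fun x hx => by
    obtain ⟨u, rfl⟩ := (hr x).1 hx
    rw [hπ1]
  have hrB : LinearMap.range β.toLinearMap = B := Submodule.ext fun x => (hr x).symm
  set A' := A.sub hB β hβ hr 0
  set V' : Set ((Fin l → ℂ) × (Fin l → ℂ)) := {q | (0 + β q.1, 0 + β q.2) ∈ A.zeroSet (A.idl V)}
  have e1 : A.idl ((fun q => (0 + β q.1, 0 + β q.2)) '' V') = A.idl V := by
    refine le_antisymm (fun p hp => A.mem_idl.2 fun q hq t => ?_)
      fun p hp => A.mem_idl.2 (forall_mem_image.2 fun q hq => hq p hp)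
    obtain ⟨h1, m, hm, h2⟩ := hVB q hq
    have h3 : (q.1, q.2 - m) ∈ A.zeroSet (A.idl ((fun q => (0 + β q.1, 0 + β q.2)) '' V')) := by
      have e : (q.1, q.2 - m) = (0 + β 0, 0 + β (π (q.2 - m))) := by
        rw [hπ2 _ h2, h1, map_zero, zero_add, zero_add]
      refine A.subset_zeroSet_idl _ ⟨(0, π (q.2 - m)), ?_, e.symm⟩
      rw [mem_ofPred_eq, ← e, sub_eq_add_neg]
      exact AbVar.zeroSet_per (A.subset_zeroSet_idl V hq) (A.Λ.neg_mem hm)
    simpa using AbVar.zeroSet_per h3 hm p hp t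
  have e2 : A.idl V = (A'.idl V').comap (AbVar.pb N β 0) := e1 ▸ AbVar.idl_sub hB hβ hr 0 0 V'
  have hV' : A'.Irred V' := (AbVar.irred_sub hB hβ hr 0 0 V').1 (by
    change (A.idl _).IsPrime
    rw [e1]
    exact hV)
  have : (A.idl V).IsPrime := hV
  have : (A'.idl V').IsPrime := hV'
  have e3 : tdeg (A'.idl V') ≤ tdeg (A.idl V) := by
    have h1 := AbVar.coneDim_sub hB hβ hr 0 0 V'
    change ringKrullDim (_ ⧸ A.idl _) = ringKrullDim (_ ⧸ A'.idl V') at h1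
    rw [e1] at h1
    exact le_tdeg_of_le_krull (h1 ▸ tdeg_le_krull _)
  have hψB : ∀ᶠ u in 𝓝 y, ψ u - ψ y ∈ B := by
    have h1 : A.idl (AbVar.sat₂ ⊥ B {0}) ≤ A.idl V := AbVar.idl_le_iff.2 fun q hq =>
      (AbVar.mem_zeroSet_coset hB).2 (by simpa using hVB q hq)
    exact (AbVar.fderiv_mem_coset (Ψ := fun u => (0, ψ u)) (K := ⊥) (q₀ := 0) hB
      ((differentiableAt_const _).prodMk hψ.differentiableAt)
      (hψY.mono fun u hu p hp => hu p (h1 hp))).mono fun u hu => hu.2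
  obtain ⟨m, hm, hmB⟩ : ∃ m ∈ A.Λ, ψ y - m ∈ B := by
    have h1 : A.idl (AbVar.sat₂ ⊥ B {0}) ≤ A.idl V := AbVar.idl_le_iff.2 fun q hq =>
      (AbVar.mem_zeroSet_coset hB).2 (by simpa using hVB q hq)
    simpa using ((AbVar.mem_zeroSet_coset (K := ⊥) (q₀ := 0) (q := (0, ψ y)) hB).1
      fun p hp => hψY.self_of_nhds p (h1 hp)).2
  have hd : HasFDerivAt (fun u => π.toContinuousLinearMap (ψ u - m)) _ y :=
    π.toContinuousLinearMap.hasFDerivAt.comp y (hψ.differentiableAt.hasFDerivAt.sub_const m)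
  have hx := g_top (A := A') (L' := L'.comap β.toLinearMap)
    (L := L.comap β.toLinearMap) (ψ := fun u => π.toContinuousLinearMap (ψ u - m)) (y := y)
    (Submodule.comap_mono hL) (fun H hH h => ?_) hV' ?_
    ((π.toContinuousLinearMap.analyticAt _).fun_comp (f := fun u => ψ u - m)
      (hψ.sub analyticAt_const)) ?_ ?_
    (hc.image (AbVar.pb N β 0)) (forall_mem_image.2 fun D h h' => hD D h (e2 ▸ h')) (π w)
  · obtain ⟨x, h1, h2, h3⟩ := hx
    refine ⟨β x, (hr _).2 ⟨x, rfl⟩, fun p hp t => ?_, fun D hD => ?_, ?_⟩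
    · simpa [AbVar.eval_pb, A'] using h1 (AbVar.pb N β 0 p) (by rwa [e2] at hp) t
    · simpa [AbVar.eval_pb, A'] using h2 _ ⟨D, hD, rfl⟩
    · rw [← hπ2 w hw, ← map_sub]
      refine closure_mono ?_ (image_closure_subset_closure_image β.continuous ⟨_, h3, rfl⟩)
      rintro _ ⟨_, ⟨a, ha, b, hb, rfl⟩, rfl⟩
      exact ⟨β a, ha, β b, hb, (hr _).2 ⟨b, rfl⟩, map_add _ _ _⟩
  · refine eq_top_iff.2 fun u _ => ?_
    obtain ⟨v, hv, e⟩ := hfree _ ((AbVar.sub_isLie hB hβ hr 0 H).1 hH) (fun a ha =>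
      ⟨π a, h (show β (π a) ∈ L by rwa [hπ2 a (hLB ha)]), hπ2 a (hLB ha)⟩) ((hr _).2 ⟨u, rfl⟩)
    exact hβ e ▸ hv
  · have h1 := (Submodule.comap_equiv_self_of_inj_of_le hβ
      ((hL.trans hLB).trans hrB.ge)).finrank_eq
    omega
  · filter_upwards [hψY, hψB] with u h1 h2
    refine A'.subset_zeroSet_idl V' ?_
    have h3 : ψ u - m ∈ B := by simpa using B.add_mem h2 hmB
    change (0 + β 0, 0 + β (π (ψ u - m))) ∈ A.zeroSet _
    rw [hπ2 _ h3, map_zero, zero_add, zero_add, sub_eq_add_neg]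
    exact AbVar.zeroSet_per h1 (A.Λ.neg_mem hm)
  · refine eq_top_iff.2 fun u _ => ?_
    obtain ⟨_, ⟨v, rfl⟩, a, ha, e⟩ := Submodule.mem_sup.1 (htr ((hr _).2 ⟨u, rfl⟩))
    rw [← hπ1 u, ← e, map_add, hd.fderiv]
    exact Submodule.add_mem_sup ⟨v, rfl⟩ (show β (π a) ∈ L' by rwa [hπ2 a (hLB (hL ha))])

end Pool.Agent.P.MP_f17f76_ag.K
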