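import Pool.Agent.P.MP_f17f76_ag.K.Khov

/-!
Transfer of the bound to graphs of integrals and to coordinate planes.
-/

namespace Pool.Agent.P.MP_f17f76_ag.K

open Filter Topology Set MvPolynomial

variable {ι ι' κ : Type*} [Fintype ι] [DecidableEq ι] [Fintype ι'] [DecidableEq ι'] [Fintype κ]

omit [Fintype ι] [DecidableEq ι] [Fintype ι'] [DecidableEq ι'] [Fintype κ] in
theorem IsPol.comp {U : Set (ι → ℝ)} {U' : Set (ι' → ℝ)} {γ : (ι → ℝ) → κ → ℝ} {D : ℕ}
    {f : (ι → ℝ) → ℝ} (h : IsPol U γ D f) {j : (ι' → ℝ) → ι → ℝ} (hj : ∀ x ∈ U', j x ∈ U) :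
    IsPol U' (fun x => γ (j x)) D fun x => f (j x) := by
  obtain ⟨p, h1, h2⟩ := h
  exact ⟨p, h1, fun x hx => h2 _ (hj x hx)⟩

omit [Fintype κ] in
/-- Pull back of an integral along a map whose components are integrals. -/
theorem IsInt.comp {U : Set (ι → ℝ)} {U' : Set (ι' → ℝ)} {γ : (ι → ℝ) → κ → ℝ} {D D' : ℕ}
    {f : (ι → ℝ) → ℝ} (h : IsInt U γ D f) {j : (ι' → ℝ) → ι → ℝ} (hj : ∀ x ∈ U', j x ∈ U)
    (hI : ∀ i, IsInt U' (fun x => γ (j x)) D' fun x => j x i) :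
    IsInt U' (fun x => γ (j x)) (D + D') fun x => f (j x) := by
  have hjd : ∀ x ∈ U', DifferentiableAt ℝ j x := fun x hx =>
    differentiableAt_pi.2 fun i => (hI i).1 x hx
  refine ⟨fun x hx => (h.1 _ (hj x hx)).comp x (hjd x hx), fun a => ?_⟩
  refine (isPol_sum Finset.univ fun i _ => ((h.2 i).comp hj).mul ((hI i).2 a)).congr
    fun x hx => ?_
  have e : fderiv ℝ (fun x => f (j x)) x = (fderiv ℝ f (j x)).comp (fderiv ℝ j x) :=
    fderiv_comp x (h.1 _ (hj x hx)) (hjd x hx)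
  have e2 : fderiv ℝ j x = _ := fderiv_pi fun i => (hI i).1 x hx
  rw [e, ContinuousLinearMap.comp_apply]
  conv_lhs => rw [clm_eq_sum (fderiv ℝ f (j x)), e2]
  simp

omit [Fintype κ] in
theorem Chain.comp {U : Set (ι → ℝ)} {U' : Set (ι' → ℝ)} {γ : (ι → ℝ) → κ → ℝ} {d d' : ℕ}
    (h : Chain d U γ) (hU' : IsOpen U') {j : (ι' → ℝ) → ι → ℝ} (hj : ∀ x ∈ U', j x ∈ U)
    (hI : ∀ i, IsInt U' (fun x => γ (j x)) d' fun x => j x i) :
    Chain (d + d') U' fun x => γ (j x) :=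
  ⟨hU', fun k => (h.der k).comp hj hI⟩

omit [DecidableEq ι'] in
/-- General transfer. The map `j` parametrizes the common zeros of the functions `H e`; rows of
the big system are indexed through `σ : ι ≃ ι' ⊕ ε`. -/
theorem bound_of_param {ε : Type*} [Fintype ε] (σ : ι ≃ ι' ⊕ ε) {U V₀ : Set (ι → ℝ)}
    {U' : Set (ι' → ℝ)} {γ : (ι → ℝ) → κ → ℝ} {d D K : ℕ} (hC : Chain d U γ) (hU' : IsOpen U')
    {j : (ι' → ℝ) → ι → ℝ} (hj : ∀ x ∈ U', j x ∈ U) (hjd : ∀ x ∈ U', DifferentiableAt ℝ j x)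
    (hinj : InjOn j U') {H : ε → (ι → ℝ) → ℝ} (hH : ∀ e, ∀ y ∈ U, DifferentiableAt ℝ (H e) y)
    (hH0 : ∀ e, ∀ x ∈ U', H e (j x) = 0)
    (hker : ∀ x ∈ U', ∀ u, (∀ e, fderiv ℝ (H e) (j x) u = 0) → ∃ v, u = fderiv ℝ j x v)
    (hK : ∀ G : ι' → (ι → ℝ) → ℝ, (∀ i, IsPol U γ D (G i)) → ∀ S : Finset (ι → ℝ),
      (∀ y ∈ S, y ∈ V₀ ∧ (∀ i, Sum.elim G H (σ i) y = 0) ∧
        Function.Injective (fderiv ℝ (fun y i => Sum.elim G H (σ i) y) y)) → S.card ≤ K) :
    Bound {x | x ∈ U' ∧ j x ∈ V₀} U' (fun x => γ (j x)) D K := by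
  classical
  intro F hF S hS
  choose P hP hP' using hF
  rw [← Finset.card_image_of_injOn (f := j) fun a ha b hb h =>
    hinj (hS a ha).1.1 (hS b hb).1.1 h]
  refine hK (fun i y => eval (γ y) (P i)) (fun i => isPol_eval _ (hP i)) _ fun y hy => ?_
  obtain ⟨x, hx, rfl⟩ := Finset.mem_image.1 hy
  obtain ⟨⟨hxU, hxV⟩, hx0, hxN⟩ := hS x hx
  have hG : ∀ i, DifferentiableAt ℝ (fun y => eval (γ y) (P i)) (j x) := fun i =>
    ((isPol_eval _ (hP i)).isInt hC).1 _ (hj x hxU)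
  have hd : ∀ a, DifferentiableAt ℝ (Sum.elim (fun i y => eval (γ y) (P i)) H a) (j x) := by
    rintro (i | e)
    · exact hG i
    · exact hH e _ (hj x hxU)
  refine ⟨hxV, fun i => ?_, ?_⟩
  · rcases σ i with a | e
    · exact (hP' a x hxU).symm.trans (hx0 a)
    · exact hH0 e x hxU
  · rw [injective_iff_map_eq_zero]
    intro u hu
    rw [fderiv_pi fun i => hd (σ i)] at hu
    have hu' : ∀ a, fderiv ℝ (Sum.elim (fun i y => eval (γ y) (P i)) H a) (j x) u = 0 := by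
      intro a
      simpa using congrFun hu (σ.symm a)
    obtain ⟨v, rfl⟩ := hker x hxU u fun e => hu' (Sum.inr e)
    have hFd : ∀ i, HasFDerivAt (F i)
        ((fderiv ℝ (fun y => eval (γ y) (P i)) (j x)).comp (fderiv ℝ j x)) x := fun i =>
      ((hG i).hasFDerivAt.comp x (hjd x hxU).hasFDerivAt).congr_of_eventuallyEq (by
        filter_upwards [hU'.mem_nhds hxU] with z hz using hP' i z hz)
    have : v = 0 := by
      refine (injective_iff_map_eq_zero _).1 hxN v ?_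
      rw [(hasFDerivAt_pi.2 hFd).fderiv]
      funext i
      exact hu' (Sum.inl i)
    rw [this, map_zero]

/-- The bound on the graph of a map `W` whose graph equations are integrals. -/
theorem bound_graph {ε : Type*} [Fintype ε] [DecidableEq ε] {U : Set (ι' ⊕ ε → ℝ)}
    {U' : Set (ι' → ℝ)} {γ : (ι' ⊕ ε → ℝ) → κ → ℝ} {ρ : (ι' ⊕ ε → ℝ) → ℝ} {d D K : ℕ}
    (hC : Chain d U γ) (hU' : IsOpen U') {W : (ι' → ℝ) → ε → ℝ}
    (hj : ∀ x ∈ U', Sum.elim x (W x) ∈ U) (hW : ∀ x ∈ U', DifferentiableAt ℝ W x)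
    (hI : ∀ e, IsInt U γ D fun y => y (Sum.inr e) - W (fun i => y (Sum.inl i)) e)
    (hK : BoundI U γ ρ (Fintype.card ε) D K) :
    Bound {x | x ∈ U' ∧ 0 < ρ (Sum.elim x (W x))} U' (fun x => γ (Sum.elim x (W x))) D K := by
  classical
  let L : (ι' ⊕ ε → ℝ) →L[ℝ] (ι' → ℝ) :=
    ContinuousLinearMap.pi fun i => ContinuousLinearMap.proj (Sum.inl i)
  have hjD : ∀ x ∈ U', HasFDerivAt (fun x => (Sum.elim x (W x) : ι' ⊕ ε → ℝ))
      (ContinuousLinearMap.pi (Sum.elim (fun i => ContinuousLinearMap.proj i)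
        (fun e => (ContinuousLinearMap.proj e).comp (fderiv ℝ W x)))) x := by
    intro x hx
    refine hasFDerivAt_pi.2 ?_
    rintro (i | e)
    · exact hasFDerivAt_apply i x
    · exact (hasFDerivAt_apply e (W x)).comp x (hW x hx).hasFDerivAt
  have := bound_of_param (Equiv.refl _) (V₀ := {y | y ∈ U ∧ 0 < ρ y}) (D := D) (K := K) hC hU' hj
    (fun x hx => (hjD x hx).differentiableAt)
    (fun a _ b _ h => funext fun i => congrFun h (Sum.inl i))
    (H := fun e y => y (Sum.inr e) - W (fun i => y (Sum.inl i)) e) (fun e => (hI e).1)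
    (fun e x _ => sub_self _) ?_ ?_
  · intro F hF S hS
    exact this F hF S fun x hx => ⟨⟨(hS x hx).1.1, hj x (hS x hx).1.1, (hS x hx).1.2⟩, (hS x hx).2⟩
  · intro x hx u hu
    refine ⟨fun i => u (Sum.inl i), ?_⟩
    rw [(hjD x hx).fderiv]
    funext a
    rcases a with i | e
    · rfl
    · have hWx : HasFDerivAt W (fderiv ℝ W x) (L (Sum.elim x (W x))) := (hW x hx).hasFDerivAt
      have h1 : HasFDerivAt (fun y : ι' ⊕ ε → ℝ => W (L y) e)
          ((ContinuousLinearMap.proj e).comp ((fderiv ℝ W x).comp L)) (Sum.elim x (W x)) :=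
        hasFDerivAt_pi'.1 (hWx.comp (Sum.elim x (W x)) L.hasFDerivAt) e
      have h2 := (hasFDerivAt_apply (𝕜 := ℝ) (Sum.inr e) (Sum.elim x (W x) : ι' ⊕ ε → ℝ)).sub h1
      have h3 : fderiv ℝ (fun y : ι' ⊕ ε → ℝ => y (Sum.inr e) - W (fun i => y (Sum.inl i)) e)
        (Sum.elim x (W x)) = _ := h2.fderiv
      have h4 := hu e
      rw [h3] at h4
      exact sub_eq_zero.1 h4
  · intro G hG S hS
    refine hK (Finset.univ.image Sum.inr) _ (Finset.card_image_le.trans (by simp)) ?_ ?_ S hS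
    · intro i hi
      obtain ⟨e, -, rfl⟩ := Finset.mem_image.1 hi
      exact hI e
    · rintro (i | e) hi
      · exact hG i
      · exact absurd (Finset.mem_image_of_mem _ (Finset.mem_univ e)) hi

/-- The embedding of a coordinate plane through `c`. -/
def plEmb (p : ι → Prop) [DecidablePred p] (c : ι → ℝ) (x : {i // p i} → ℝ) : ι → ℝ :=
  fun i => if h : p i then x ⟨i, h⟩ else c i

omit [DecidableEq ι] in
theorem hasFDerivAt_plEmb (p : ι → Prop) [DecidablePred p] (c : ι → ℝ) (x : {i // p i} → ℝ) :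
    HasFDerivAt (plEmb p c) (ContinuousLinearMap.pi fun i =>
      if h : p i then (ContinuousLinearMap.proj (⟨i, h⟩ : {i // p i}) : ({i // p i} → ℝ) →L[ℝ] ℝ)
        else 0) x := by
  refine hasFDerivAt_pi.2 fun i => ?_
  by_cases h : p i
  · simp only [plEmb, dif_pos h]
    exact hasFDerivAt_apply _ x
  · simp only [plEmb, dif_neg h]
    exact hasFDerivAt_const _ x

omit [DecidableEq ι] in
theorem continuous_plEmb (p : ι → Prop) [DecidablePred p] (c : ι → ℝ) : Continuous (plEmb p c) :=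
  continuous_iff_continuousAt.2 fun x => (hasFDerivAt_plEmb p c x).continuousAt

omit [Fintype κ] in
theorem Chain.plane {U : Set (ι → ℝ)} {γ : (ι → ℝ) → κ → ℝ} {d : ℕ} (h : Chain d U γ)
    (p : ι → Prop) [DecidablePred p] (c : ι → ℝ) :
    Chain d (plEmb p c ⁻¹' U) fun x => γ (plEmb p c x) := by
  refine Chain.comp (d' := 0) h (h.isOpen.preimage (continuous_plEmb p c)) (fun x hx => hx)
    fun i => ?_
  have hd := fun x => hasFDerivAt_pi.1 (hasFDerivAt_plEmb p c x) i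
  refine ⟨fun x _ => (hd x).differentiableAt, fun a => ?_⟩
  exact (isPol_const _).congr fun x _ => by rw [(hd x).fderiv]

theorem Bound.plane {U₀ U : Set (ι → ℝ)} {γ : (ι → ℝ) → κ → ℝ} {d D K : ℕ} (hC : Chain d U γ)
    (hK : Bound U₀ U γ D K) (hx : ∀ i, IsPol U γ D fun x => x i)
    (p : ι → Prop) [DecidablePred p] (c : ι → ℝ) :
    Bound {x | plEmb p c x ∈ U ∧ plEmb p c x ∈ U₀} (plEmb p c ⁻¹' U)
      (fun x => γ (plEmb p c x)) D K := by
  refine bound_of_param (Equiv.sumCompl p).symm hC (hC.isOpen.preimage (continuous_plEmb p c))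
    (fun x hx => hx) (fun x _ => (hasFDerivAt_plEmb p c x).differentiableAt)
    (fun a _ b _ h => funext fun i => by simpa [plEmb, i.2] using congrFun h i.1)
    (H := fun e y => y e.1 - c e.1) (fun e y _ => (differentiableAt_apply e.1 y).sub_const _)
    (fun e x _ => by simp [plEmb, e.2]) (fun x _ u hu => ⟨fun i => u i.1, ?_⟩)
    fun G hG S hS => hK _ (fun i => ?_) S hS
  · rw [(hasFDerivAt_plEmb p c x).fderiv]
    funext i
    by_cases h : p i
    · simp [h]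
    · have := hu ⟨i, h⟩
      rw [((hasFDerivAt_apply i _).sub_const _).fderiv] at this
      simpa [h] using this
  · rcases (Equiv.sumCompl p).symm i with a | e
    · exact hG a
    · exact (hx e.1).sub (isPol_const _)

end Pool.Agent.P.MP_f17f76_ag.K
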