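import Pool.Agent.P.MP_f17f76_ag.K.RC
import Pool.Agent.P.MP_f17f76_ag.E.Loc
import Pool.Agent.P.MP_f17f76_ag.E.Hol3
import Pool.Agent.P.MP_f17f76_ag.S.Alg

/-!
Bounded valence of the internal holomorphic functions attached to a solution of an exponential
system with nondegenerate differentials.
-/

namespace Pool.Agent.P.MP_f17f76_ag.K

open Filter Topology Set Metric MvPolynomial E AbVar

variable {g N : ℕ} {A : AbVar g N} {k : Subfield ℂ}

theorem Val.congr {E : Type*} [NormedAddCommGroup E] [NormedSpace ℂ E] {K : ℕ} {U : Set E}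
    {f f' : E → ℂ} (h : Val K U f) (hU : IsOpen U) (e : ∀ z ∈ U, f z = f' z) : Val K U f' := by
  have key : ∀ (x v : E) (t : ℂ), x + t • v ∈ U → ∀ᶠ s in 𝓝 t, f (x + s • v) = f' (x + s • v) :=
    fun x v t ht => ((Continuous.tendsto (f := fun s : ℂ => x + s • v) (by fun_prop) t).eventually
      (hU.mem_nhds ht)).mono fun s hs => e _ hs
  refine fun x v c => ⟨fun S hS => (h x v c).1 S fun t ht => ?_, fun S hS =>
    (h x v c).2 S fun t ht => ?_⟩
  all_goals obtain ⟨h1, h2, h3⟩ := hS t ht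
  · exact ⟨h1, e _ h1 ▸ h2, (h3.and ((key x v t h1).filter_mono nhdsWithin_le_nhds)).mono
      fun s hs => hs.2 ▸ hs.1⟩
  · exact ⟨h1, e _ h1 ▸ h2, (h3.and (((Complex.continuous_ofReal.tendsto t).eventually
      (key x v t h1)).filter_mono nhdsWithin_le_nhds)).mono fun s hs => hs.2 ▸ hs.1⟩

theorem fderiv_eval {τ : Type} [Fintype τ] (η υ : τ → ℂ) (q : MvPolynomial τ ℂ) :
    fderiv ℂ (fun η => eval η q) η υ = tg η υ q := by
  rw [(Pool.Agent.P.MP_f17f76_ag.hasFDerivAt_eval q (fun η => η) _ fun i =>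
    (ContinuousLinearMap.proj (R := ℂ) (φ := fun _ => ℂ) i).hasFDerivAt).fderiv, tg_eq_sum]
  simp

/-- Bounded valence for a system of polynomial equations and chart equations. -/
theorem val_sys (A : AbVar g N) : ∃ δ > 0, ∀ (M σ J : Type) [Fintype M] [Fintype σ]
    [Fintype J] (D : ℕ), ∃ K : ℕ, ∀ (Q : Set (MvPolynomial (M ⊕ σ) ℂ))
      (W : J → Fin g → MvPolynomial (M ⊕ σ) ℂ) (w₀ : J → Fin g → ℂ) (i : J → Fin N)
      (a : J → Fin N → σ), (∀ j e, (W j e).totalDegree ≤ D) → (∀ q ∈ Q, q.totalDegree ≤ D) →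
      ∀ (U : Set (M → ℂ)) (G : (M → ℂ) → σ → ℂ), IsOpen U → ContinuousOn G U →
      (∀ x ∈ U, (∀ j, (fun e => eval (Sum.elim x (G x)) (W j e)) ∈ ball (w₀ j) δ ∧
          A.θ (fun e => eval (Sum.elim x (G x)) (W j e)) (i j) ≠ 0 ∧
          ∀ m, G x (a j m) = A.aff (i j) (fun e => eval (Sum.elim x (G x)) (W j e)) m) ∧
        (∀ q ∈ Q, eval (Sum.elim x (G x)) q = 0) ∧ ∀ u : σ → ℂ,
          (∀ q ∈ Q, tg (Sum.elim x (G x)) (Sum.elim 0 u) q = 0) →
          (∀ j m, u (a j m) = fderiv ℂ (A.aff (i j)) (fun e => eval (Sum.elim x (G x)) (W j e))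
            (fun e => tg (Sum.elim x (G x)) (Sum.elim 0 u) (W j e)) m) → u = 0) →
      ∀ p : MvPolynomial (M ⊕ σ) ℂ, p.totalDegree ≤ D →
        Val K U fun x => eval (Sum.elim x (G x)) p := by
  obtain ⟨δ, hδ, hA⟩ := val_of_ker A
  refine ⟨δ, hδ, fun M σ J _ _ _ D => ?_⟩
  obtain ⟨K, hK⟩ := hA M σ J (D + 2)
  refine ⟨K, fun Q W w₀ i a hW hQ U G hU hG h p hp => hK W w₀ (rename Sum.inl '' Q ∪
    range fun b : J × Fin N => X (.inl (.inr (a b.1 b.2))) * X (.inr (b.1, i b.1)) - X (.inr b))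
    (fun j e => (hW j e).trans (by omega)) ?_ U G hU hG (fun x hx => ?_) p (by omega)⟩
  · rintro _ (⟨q, hq, rfl⟩ | ⟨b, rfl⟩)
    · exact (totalDegree_rename_le _ _).trans ((hQ q hq).trans (by omega))
    · exact (totalDegree_sub _ _).trans (max_le ((totalDegree_mul _ _).trans (by simp)) (by simp))
  obtain ⟨h1, h2, h3⟩ := h x hx
  refine ⟨fun j => (h1 j).1, ⟨by simp, ?_⟩, fun u hu => h3 u (fun q hq => ?_) fun j m => ?_⟩
  · rintro _ (⟨q, hq, rfl⟩ | ⟨⟨j, m⟩, rfl⟩) t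
    · rw [eval_rename]
      exact h2 q hq
    · have := (h1 j).2.1
      simp only [map_sub, map_mul, eval_X, Sum.elim_inl, Sum.elim_inr, (h1 j).2.2, aff,
        Pi.smul_apply, smul_eq_mul]
      field_simp
      ring
  · simpa only [eval_rename, Sum.elim_comp_inl, fderiv_eval] using hu _ (.inl ⟨q, hq, rfl⟩) 1
  obtain ⟨-, h4, h5⟩ := h1 j
  set η := Sum.elim x (G x)
  have h6 : AnalyticAt ℂ (fun (η : M ⊕ σ → ℂ) e => eval η (W j e)) η :=
    analyticAt_pi_iff.2 fun e => nash1_analytic_eval _ _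
  have h7 := h6.differentiableAt.hasFDerivAt
  have h8 : fderiv ℂ (fun (η : M ⊕ σ → ℂ) e => eval η (W j e)) η (Sum.elim 0 u) =
      fun e => tg η (Sum.elim 0 u) (W j e) := funext fun e => by
    rw [← fderiv_eval, (hasFDerivAt_pi'.1 h7 e).fderiv]
    rfl
  have h9 := ((A.analyticAt_coord h6 (i j)).differentiableAt.hasFDerivAt.fun_mul
    ((hasFDerivAt_apply (𝕜 := ℂ) (Sum.inr (a j m)) η).fun_sub (hasFDerivAt_pi'.1
      ((aff_analytic h4).differentiableAt.hasFDerivAt.comp η h7) m))).fderiv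
  have h10 := hu _ (.inr ⟨(j, m), rfl⟩) 1
  rw [Filter.EventuallyEq.fderiv_eq (f := fun y => A.θ (fun e => eval y (W j e)) (i j) *
    (y (.inr (a j m)) - (A.aff (i j) ∘ fun y e => eval y (W j e)) y m)), h9] at h10
  · simpa [h4, h8, sub_eq_zero, show η (.inr (a j m)) = _ from h5 m] using h10
  filter_upwards [h6.continuousAt.eventually (eventually_chart h4)] with y hy
  simp only [map_sub, map_mul, eval_X, Sum.elim_inl, Sum.elim_inr, aff, Pi.smul_apply, smul_eq_mul,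
    Function.comp_apply, Pi.one_apply]
  field_simp

/-- A Zariski tangent vector of the locus of a point comes from a derivation. -/
theorem exists_der_of_tg {σ : Type} [Fintype σ] {c : Subfield ℂ} {ξ u : σ → ℂ}
    (h : ∀ r : MvPolynomial σ c, aeval ξ r = 0 → tg ξ u (map c.subtype r) = 0) :
    ∃ D ∈ kil (c : Set ℂ), ∀ s, D (ξ s) = u s := by
  obtain ⟨v, h1, h2, h3⟩ := exists_trd_basis (c : Set ℂ) (finite_range ξ)
  choose e he using h1
  obtain ⟨D, hD, h4⟩ := exists_der h2 fun m => u (e m)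
  refine ⟨D, hD, fun s => ?_⟩
  rw [Subfield.closure_eq] at h2
  obtain ⟨f, -, h5, h6⟩ := exists_sep h2 (h3 ⟨s, rfl⟩)
  obtain ⟨P, rfl⟩ := (optionEquivLeft c _).surjective f
  rw [derivative_option] at h6
  rw [pev_option] at h5 h6
  have e1 : (ξ ∘ fun o : Option _ => o.elim s e) = fun o => o.elim (ξ s) v :=
    funext (by rintro (_ | m) <;> [rfl; exact he m])
  have h7 := h (rename (fun o : Option _ => o.elim s e) P) (by rwa [aeval_rename, e1])
  have h8 := der_aeval hD (fun o : Option _ => o.elim (ξ s) v) P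
  rw [map_rename, tg_rename, e1, tg_map_sub, Fintype.sum_option] at h7
  rw [h5, map_zero, Fintype.sum_option] at h8
  simp only [Option.elim, h4, Function.comp_apply] at h7 h8
  exact mul_left_cancel₀ h6 (add_right_cancel (h8.symm.trans h7.symm))

end Pool.Agent.P.MP_f17f76_ag.K

namespace Pool.Agent.P.MP_f17f76_ag.N

open Filter Topology Set Metric MvPolynomial E AbVar K

variable {g N : ℕ} {A : AbVar g N} {k : Subfield ℂ} {I τ : Type} [Fintype I]

/-- Internal functions of standard bounded valence. -/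
def HVal (h : H I) : Prop :=
  ∃ (K : ℕ) (f : HS I), H.mk f = h ∧ ∀ᶠ n in UF, Val K (ball 0 1) (f.1 n)

theorem HVal.rep {f : HS I} (h : HVal (H.mk f)) : ∃ K, ∀ᶠ n in UF, Val K (ball 0 1) (f.1 n) :=
  let ⟨K, _, h1, h2⟩ := h
  ⟨K, (h2.and (H.mk_eq.1 h1)).mono fun _ hn => hn.1.congr isOpen_ball hn.2⟩

/-- The `n`-th member of a sequence of polynomials. -/
noncomputable abbrev at' (n : ℕ) : MvPolynomial τ (ℕ → ℂ) →+* MvPolynomial τ ℂ :=
  map (Pi.evalRingHom (fun _ => ℂ) n)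

theorem eval_vec (η : ℕ → τ → ℂ) (p : MvPolynomial τ (ℕ → ℂ)) :
    eval (vec η) (map qs p) = qs fun n => eval (η n) (at' n p) := by
  induction p using MvPolynomial.induction_on with
  | C a => simp [Pi.evalRingHom]
  | add p q hp hq =>
    simp only [map_add, hp, hq]
    rfl
  | mul_X p i hp =>
    simp only [map_mul, hp, map_X, eval_X]
    rfl

theorem tg_vec (η υ : ℕ → τ → ℂ) (p : MvPolynomial τ (ℕ → ℂ)) :
    tg (vec η) (vec υ) (map qs p) = qs fun n => tg (η n) (υ n) (at' n p) := by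
  induction p using MvPolynomial.induction_on with
  | C a =>
    simp only [map_C, tg_C]
    rfl
  | add p q hp hq =>
    simp only [map_add, tg_add, hp, hq]
    rfl
  | mul_X p i hp =>
    simp only [map_mul, tg_mul, hp, map_X, eval_X, tg_X, eval_vec]
    rfl

theorem eval₂_sub_vec (η : ℕ → τ → ℂ) (p : MvPolynomial τ k) :
    eval₂ (co.comp k.subtype) (vec η) p = qs fun n => aeval (η n) p := by
  induction p using MvPolynomial.induction_on with
  | C a =>
    simp only [eval₂_C, aeval_C]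
    rfl
  | add p q hp hq =>
    simp only [eval₂_add, map_add, hp, hq]
    rfl
  | mul_X p i hp =>
    simp only [eval₂_mul, map_mul, hp, eval₂_X, aeval_X]
    rfl

theorem deg_at (n : ℕ) (p : MvPolynomial τ (ℕ → ℂ)) : (at' n p).totalDegree ≤ p.totalDegree :=
  Finset.sup_mono (support_map_subset _ _)

theorem evv_elim {σ : Type} {x : I → Cs} (hx : Pt x) (ξ : σ → H I) :
    evv x (Sum.elim xc ξ) = Sum.elim x (evv x ξ) :=
  funext (by rintro (i | s) <;> [exact ev_xc hx i; rfl])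

theorem hval_sys {σ J α : Type} [Fintype σ] [Fintype J] [Fintype α] (ξ : σ → H I)
    (Q : α → MvPolynomial (I ⊕ σ) Cs) (W : J → Fin g → MvPolynomial (I ⊕ σ) Cs)
    (w₀ : J → Fin g → ℂ) (i : J → Fin N) (a : J → Fin N → σ)
    {R S : J → Fin g → Fin N → MvPolynomial (Fin N) k} (hc : ∀ j, A.Ch k (i j) (R j) (S j))
    (h : ∀ x, Pt x → (∀ j, (∀ e, Ll (nm (eval (Sum.elim x (evv x ξ)) (W j e) - co (w₀ j e))) 1) ∧
        Hold (fun _ w => A.θ w (i j) ≠ 0) (fun e => eval (Sum.elim x (evv x ξ)) (W j e)) ∧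
        ∀ m, ev x (ξ (a j m)) =
          app (fun _ w => A.aff (i j) w m) fun e => eval (Sum.elim x (evv x ξ)) (W j e)) ∧
      (∀ q, eval (Sum.elim x (evv x ξ)) (Q q) = 0) ∧ ∀ u : σ → Cs,
        (∀ q, tg (Sum.elim x (evv x ξ)) (Sum.elim 0 u) (Q q) = 0) →
        (∀ j m, u (a j m) = ∑ l, eval₂ (co.comp k.subtype) (fun m => ev x (ξ (a j m))) (R j l m) *
          tg (Sum.elim x (evv x ξ)) (Sum.elim 0 u) (W j l)) →
        (∀ j l, tg (Sum.elim x (evv x ξ)) (Sum.elim 0 u) (W j l) = ∑ m, eval₂ (co.comp k.subtype)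
          (fun m => ev x (ξ (a j m))) (S j l m) * u (a j m)) → u = 0)
    (p : MvPolynomial (I ⊕ σ) Cs) : HVal (aeval (Sum.elim xc ξ) p) := by
  classical
  obtain ⟨f, rfl⟩ := exists_reps ξ
  obtain ⟨p, rfl⟩ := map_surjective qs qs_surj p
  obtain ⟨Q, rfl⟩ := (map_surjective qs qs_surj).comp_left Q
  obtain ⟨W, rfl⟩ := (map_surjective qs qs_surj).comp_left.comp_left W
  obtain ⟨δ, hδ, hA⟩ := val_sys A
  obtain ⟨D, h1, h2, h3⟩ : ∃ D, p.totalDegree ≤ D ∧ (∀ q, (Q q).totalDegree ≤ D) ∧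
      ∀ j e, (W j e).totalDegree ≤ D := by
    obtain ⟨D, hD⟩ := (finite_range fun q => (Q q).totalDegree).bddAbove
    obtain ⟨D', hD'⟩ := (finite_range fun b : J × Fin g => (W b.1 b.2).totalDegree).bddAbove
    exact ⟨p.totalDegree + D + D', by omega, fun q => (hD ⟨q, rfl⟩).trans (by omega),
      fun j e => (hD' ⟨(j, e), rfl⟩).trans (by omega)⟩
  obtain ⟨K, hK⟩ := hA I σ J D
  let G : ℕ → (I → ℂ) → σ → ℂ := fun n z s => (f s).1 n z
  have e1 : ∀ z, Pt (vec z) → Sum.elim (vec z) (evv (vec z) fun s => H.mk (f s)) =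
      vec fun n => Sum.elim (z n) (G n (z n)) := fun z hz => by
    rw [evv_mk hz]
    exact funext (by rintro (i | s) <;> rfl)
  refine ⟨K, ⟨fun n z => eval (Sum.elim z (G n z)) (at' n p), fun n => ?_⟩,
    H.ext fun x hx => ?_, ?_⟩
  · refine fun z hz => (Pool.Agent.P.MP_f17f76_ag.hasFDerivAt_eval _ _ (fun s =>
      fderiv ℂ (fun z => Sum.elim z (G n z) s) z) ?_).differentiableAt.differentiableWithinAt
    rintro (i | s)
    · exact (differentiableAt_apply (𝕜 := ℂ) i z).hasFDerivAt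
    · exact (sdiff (f s) n hz).hasFDerivAt
  · obtain ⟨z, rfl⟩ := vec_surj x
    rw [ev_mk hx, ev_aeval, evv_elim hx, e1 z hx, eval_vec]
  refine (forall_pt.1 fun z hz => ?_).mono fun n hn => hK (range fun q => at' n (Q q))
    (fun j e => at' n (W j e)) w₀ i a (fun j e => (deg_at _ _).trans (h3 j e))
    (forall_mem_range.2 fun q => (deg_at _ _).trans (h2 q)) _ (G n) isOpen_ball
    (continuousOn_pi.2 fun s => ((f s).2 n).continuousOn) hn _ ((deg_at _ _).trans h1)
  obtain ⟨h4, h5, h6⟩ := h _ hz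
  have e2 : ∀ j, (fun e => qs fun n => eval (Sum.elim (z n) (G n (z n))) (at' n (W j e))) =
      vec fun n e => eval (Sum.elim (z n) (G n (z n))) (at' n (W j e)) := fun _ => rfl
  simp only [e1 z hz, Function.comp_apply, eval_vec, ev_mk hz, e2, hold_vec, app_vec, near_qs,
    qs_eq, qs_eq_zero] at h4 h5 h6
  have h7 := eventually_all.2 fun j => (h4 j).2.1.and (eventually_all.2 (h4 j).2.2)
  refine .and (eventually_all.2 fun j => .and ((tendsto_pi_nhds.2 (h4 j).1).eventually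
    (ball_mem_nhds _ hδ)) (h7.mono fun n hn => hn j)) (.and ((eventually_all.2 h5).mono
      fun n hn => forall_mem_range.2 hn) (forall_seq.1 fun u => ?_))
  refine Ultrafilter.eventually_imp.2 fun h8 => Ultrafilter.eventually_imp.2 fun h9 => ?_
  have e3 : Sum.elim (0 : I → Cs) (vec u) = vec fun n => Sum.elim 0 (u n) :=
    funext (by rintro (i | s) <;> rfl)
  have e4 : ∀ j, (fun m => qs fun n => (f (a j m)).1 n (z n)) =
      vec fun n m => (f (a j m)).1 n (z n) := fun _ => rfl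
  refine vec_eq.1 (h6 (vec u) (fun q => ?_) (fun j m => ?_) fun j l => ?_)
  all_goals simp only [e3, e4, tg_vec, eval₂_sub_vec, vec, ← map_mul, ← map_sum]
  · exact qs_eq_zero.2 (h8.mono fun n hn => hn _ ⟨q, rfl⟩)
  · refine qs_eq.2 ((h9.and h7).mono fun n hn => ?_)
    rw [hn.1, (hc j).field _ (hn.2 j).1, ← funext (hn.2 j).2, Finset.sum_apply]
    rfl
  · refine qs_eq.2 ((h9.and h7).mono fun n hn => ?_)
    simp only [Finset.sum_apply, Pi.mul_apply, hn.1, funext (hn.2 j).2]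
    exact (hc j).form _ (hn.2 j).1 (fun e => tg _ _ (at' n (W j e))) l

/-- `b` are the coordinates in the chart `i` of the exponential of `W`, and `W` is infinitely
close to a standard point. -/
structure ExpCh (A : AbVar g N) (i : Fin N) (W : Fin g → H I) (b : Fin N → H I) : Prop where
  near : ∃ w₀ : Fin g → ℂ, ∀ x, Pt x → ∀ e, Ll (nm (ev x (W e) - co (w₀ e))) 1
  ne : ∀ x, Pt x → Hold (fun _ w => A.θ w i ≠ 0) (evv x W)
  eq : ∀ x, Pt x → ∀ m, ev x (b m) = app (fun _ w => A.aff i w m) (evv x W)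

theorem exists_expCh {W : Fin g → H I} {w₀ : Fin g → ℂ} {i : Fin N} (hi : A.θ w₀ i ≠ 0)
    (h : ∀ x, Pt x → ∀ e, Ll (nm (ev x (W e) - co (w₀ e))) 1) : ∃ b, ExpCh A i W b := by
  have h1 : ∀ x, Pt x → Hold (fun _ w => A.θ w i ≠ 0) (evv x W) := fun x hx =>
    (tendsto_pi_nhds.2 fun e => near_qs.1 (by
      rw [show qs (fun n => rep (evv x W) n e) = ev x (W e) from congrFun (vec_rep _) e]
      exact h x hx e)).eventually (eventually_chart hi)
  choose b hb using fun m => exists_cmp W (f := fun _ w => A.aff i w m) fun x hx =>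
    (h1 x hx).mono fun n hn => differentiableAt_pi.1 (aff_analytic hn).differentiableAt m
  exact ⟨b, ⟨w₀, h⟩, h1, fun x hx m => hb m x hx⟩

theorem expCh_of_exp {W : Fin g → H I} {w₀ : Fin g → ℂ} {i : Fin N} {b : Fin N → H I}
    (h : ∀ x, Pt x → ∀ e, Ll (nm (ev x (W e) - co (w₀ e))) 1) (hi : b i = 1)
    (hb : ∀ x, Pt x → A.Exp (evv x W) (evv x b)) : ExpCh A i W b := by
  have key : ∀ x, Pt x → ∃ t : ℕ → ℂ, (∀ᶠ n in UF, t n * A.θ (rep (evv x W) n) i = 1) ∧
      ∀ m, ev x (b m) = qs fun n => t n * A.θ (rep (evv x W) n) m := fun x hx => by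
    obtain ⟨t, ht⟩ := hb x hx
    obtain ⟨t, rfl⟩ := qs_surj t
    exact ⟨t, (qs_eq (v := 1)).1 ((ht i).symm.trans (by rw [evv, hi, map_one, map_one])), ht⟩
  refine ⟨⟨w₀, h⟩, fun x hx => ?_, fun x hx m => ?_⟩
  all_goals obtain ⟨t, h1, h2⟩ := key x hx
  · exact h1.mono fun n hn => right_ne_zero_of_mul_eq_one hn
  · exact (h2 m).trans (qs_eq.2 (h1.mono fun n hn => by
      rw [eq_inv_of_mul_eq_one_left hn]
      rfl))

theorem map_aeval_sub {c : Subfield ℂ} (Φ : ℂ →+* Cs) {cc : c →+* Cs} (h : ∀ a : c, Φ a = cc a)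
    (v : τ → ℂ) (r : MvPolynomial τ c) : Φ (aeval v r) = eval₂ cc (Φ ∘ v) r := by
  rw [aeval_def, eval₂_comp_left]
  congr 1
  exact RingHom.ext h

variable {c K : Subfield ℂ}

theorem hval_main (hA : A.Over k) (hkc : k ≤ c) (hcK : c ≤ K) (hK : (K : Set ℂ).Countable)
    (ι : K →+* H I) (hk : ∀ a : K, a.1 ∈ k → ι a = cn (co a))
    (hc : ∀ a : K, a.1 ∈ c → ∃ b, ι a = cn b) {σ B J : Type} [Fintype σ] [Fintype B] [Fintype J]
    (ξ : σ → K) (ey : J → σ) (π : J → MvPolynomial I Cs) (hy : ∀ l, ι (ξ (ey l)) = aeval xc (π l))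
    (eu : Fin g → σ) (Λ : Fin g → MvPolynomial I Cs) (ea : Fin N → σ) {a : Fin g → ℂ} {i₀ : Fin N}
    (ha : A.θ a i₀ ≠ 0) (hea : ∀ m, ξ (ea m) = A.aff i₀ a m)
    (h0 : ExpCh A i₀ (fun e => ι (ξ (eu e)) - aeval xc (Λ e)) fun m => ι (ξ (ea m)))
    (hinj : ∀ D ∈ kil (c : Set ℂ), (∀ l, D (ξ (ey l)) = 0) → (∀ e, D (ξ (eu e)) = A.dl a D e) →
      D ∈ kil (K : Set ℂ))
    (i : B → Fin N) (W : B → Fin g → MvPolynomial (I ⊕ σ) Cs) (b : B → Fin N → H I)
    (hb : ∀ j, ExpCh A (i j) (fun e => aeval (Sum.elim xc fun s => ι (ξ s)) (W j e)) (b j))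
    (p : MvPolynomial (I ⊕ (σ ⊕ B × Fin N)) Cs) :
    HVal (aeval (Sum.elim xc (Sum.elim (fun s => ι (ξ s)) fun d => b d.1 d.2)) p) := by
  let cc : c →+* Cs := (ev 0).comp (ι.comp (Subfield.inclusion hcK))
  obtain ⟨T, hT⟩ := IsNoetherian.noetherian (RingHom.ker (aeval (R := c) fun s => (ξ s : ℂ)))
  choose R S hRS using fun o : Option B => hA.exists_ch (o.elim i₀ i)
  let W' : Option B → Fin g → MvPolynomial (I ⊕ σ) Cs := fun o =>
    o.elim (fun e => X (.inr (eu e)) - rename Sum.inl (Λ e)) W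
  have hN : ∀ o : Option B, ExpCh A (o.elim i₀ i) (fun e => aeval (Sum.elim xc fun s => ι (ξ s))
      (W' o e)) (o.elim (fun m => ι (ξ (ea m))) b) := by
    rintro (_ | j)
    · simpa [W', aeval_rename] using h0
    · exact hb j
  choose w₀ hw₀ using fun o => (hN o).near
  refine hval_sys _ (Sum.elim (fun r : T => rename (Sum.inr ∘ Sum.inl) (map cc r.1))
    fun l => X (.inr (.inl (ey l))) - rename Sum.inl (π l))
    (fun o e => rename (Sum.map id Sum.inl) (W' o e)) w₀ (fun o => o.elim i₀ i)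
    (fun o m => o.elim (.inl (ea m)) fun j => .inr (j, m)) hRS (fun x hx => ?_) p
  obtain ⟨Φ, hΦ⟩ := exists_equiv_sub mk_Cs.symm K hK ((ev x).comp ι)
  have h1 : ∀ a : c, Φ.toRingHom a = cc a := fun a => by
    obtain ⟨b, hb⟩ := hc ⟨a, hcK a.2⟩ a.2
    exact (hΦ ⟨a, hcK a.2⟩).trans (((congrArg (ev x) hb).trans (ev_cn _ _)).trans
      ((congrArg (ev 0) hb).trans (ev_cn _ _)).symm)
  have h2 : ∀ a : k, Φ.toRingHom a = co.comp k.subtype a := fun a =>
    (hΦ ⟨a, hcK (hkc a.2)⟩).trans ((congrArg (ev x) (hk _ a.2)).trans (ev_cn _ _))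
  set η := Sum.elim x (evv x (Sum.elim (fun s => ι (ξ s)) fun d : B × Fin N => b d.1 d.2)) with hη
  have e1 : η ∘ Sum.map id Sum.inl = evv x (Sum.elim xc fun s => ι (ξ s)) :=
    funext (by rintro (i | s) <;> [exact (ev_xc hx i).symm; rfl])
  have e2 : η ∘ Sum.inr ∘ Sum.inl = Φ.toRingHom ∘ fun s => (ξ s : ℂ) := funext fun s => (hΦ _).symm
  have e3 : η ∘ Sum.inl = evv x xc := funext fun i => (ev_xc hx i).symm
  refine ⟨fun o => ?_, ?_, fun u h3 h4 h5 => ?_⟩
  · simp only [eval_rename, e1, ← ev_aeval]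
    exact ⟨hw₀ o x hx, (hN o).ne x hx, fun m => Eq.trans (by cases o <;> rfl) ((hN o).eq x hx m)⟩
  · rintro (r | l)
    · rw [Sum.elim_inl, eval_rename, e2, eval_map, ← map_aeval_sub _ h1,
        RingHom.mem_ker.1 (hT.le (Submodule.subset_span r.2)), map_zero]
    · rw [Sum.elim_inr, map_sub, eval_rename, e3, ← ev_aeval, ← hy, eval_X]
      exact sub_self _
  obtain ⟨u₀, e4⟩ : ∃ u₀ : σ → ℂ, ∀ s, u (.inl s) = Φ.toRingHom (u₀ s) :=
    ⟨_, fun s => (Φ.apply_symm_apply _).symm⟩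
  obtain ⟨D, hD, h6⟩ := exists_der_of_tg (c := c) (ξ := fun s => (ξ s : ℂ)) (u := u₀)
    fun r hr => congrArg TrivSqZeroExt.snd ((Submodule.span_le (p := RingHom.ker
      ((dev (fun s => (ξ s : ℂ)) u₀).toRingHom.comp (map c.subtype)))).2 (fun r hr => by
        refine TrivSqZeroExt.ext ((dev_fst _ _ _).trans ((eval_map_sub _ _).trans
          (hT.le (Submodule.subset_span hr)))) ((map_eq_zero Φ.toRingHom).1 ?_)
        have h6 := h3 (.inl ⟨r, hr⟩)
        rw [Sum.elim_inl, tg_rename, e2, tg_eq_sum] at h6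
        change Φ.toRingHom (tg _ _ (map c.subtype r)) = 0
        simpa only [tg_map_sub, map_sum, map_mul, map_aeval_sub _ h1, pderiv_map, eval_map,
          Function.comp_apply, Sum.elim_inr, e4] using h6) (hT.ge hr))
  have e5 : ∀ q : MvPolynomial I Cs, tg η (Sum.elim 0 u) (rename Sum.inl q) = 0 := fun q => by
    rw [tg_rename]
    exact tg_zero_vec _ _
  have h7 := hinj D hD (fun l => by
    simpa [tg_sub, e5, e4, ← h6] using h3 (.inr l)) fun e => Φ.toRingHom.injective (by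
      have h7 := h5 none e
      simp only [W', Option.elim, map_sub, rename_X, rename_rename, tg_sub, tg_X, Sum.map_inr,
        Sum.elim_inr, e4, ← h6, hea] at h7
      rw [show tg η _ (rename (Sum.map id Sum.inl ∘ Sum.inl) (Λ e)) = 0 from e5 _, sub_zero] at h7
      rw [h7, (hRS none).dl hA (kil_anti hkc hD) ha, map_sum]
      refine Finset.sum_congr rfl fun m _ => ?_
      rw [map_mul, map_aeval_sub _ h2]
      congr 2
      exact funext fun m => (hΦ _).symm.trans (congrArg Φ (hea m)))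
  have h8 : ∀ s, u (.inl s) = 0 := fun s => by rw [e4, ← h6, h7 _ (ξ s).2, map_zero]
  funext s
  rcases s with s | ⟨j, m⟩
  · exact h8 s
  refine (h4 (some j) m).trans (Finset.sum_eq_zero fun l _ => mul_eq_zero_of_right _ ?_)
  rw [tg_rename, ← tg_zero_vec (η ∘ Sum.map id Sum.inl) (W' (some j) l)]
  congr 1
  exact funext (by rintro (i | s) <;> [rfl; exact h8 s])

/-- Chart coordinates of exponentials of polynomial expressions in `ι K` and the coordinates. -/
def Cht (A : AbVar g N) (ι : K →+* H I) : Set (H I) :=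
  {f | ∃ i W b m, ExpCh A i W b ∧ (∀ e, W e ∈ Algebra.adjoin Cs (range ι ∪ range xc)) ∧ b m = f}

theorem xt_val {R : Type} [CommRing R] (ι : K →+* R) {a : ℂ} (h : a ∈ K) : xt ι a = ι ⟨a, h⟩ :=
  dif_pos h

/-- The valence theorem. -/
theorem valence (hA : A.Over k) (hkc : k ≤ c) (hcK : c ≤ K) (hK : (K : Set ℂ).Countable)
    (ι : K →+* H I) (hk : ∀ a ∈ k, xt ι a = cn (co a)) (hc : ∀ a ∈ c, ∃ b, xt ι a = cn b)
    {J : Type} [Finite J] {y : J → ℂ} (hyK : ∀ l, y l ∈ K)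
    (hy : ∀ l, xt ι (y l) ∈ Algebra.adjoin Cs (range xc)) {u a w₀ : Fin g → ℂ} (huK : ∀ e, u e ∈ K)
    (haK : ∀ m, A.crd a m ∈ K) {W : Fin g → H I}
    (hW : ∀ e, xt ι (u e) - W e ∈ Algebra.adjoin Cs (range xc))
    (hw : ∀ x, Pt x → ∀ e, Ll (nm (ev x (W e) - co (w₀ e))) 1)
    (hexp : ∀ x, Pt x → A.Exp (evv x W) (evv x fun m => xt ι (A.crd a m)))
    (hinj : ∀ D ∈ kil (c : Set ℂ), dv y D = 0 → dv u D = A.dl a D → D ∈ kil (K : Set ℂ))
    {f : H I} (hf : f ∈ Algebra.adjoin Cs (range ι ∪ range xc ∪ Cht A ι)) : HVal f := by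
  classical
  have := Fintype.ofFinite J
  let CD := {d : Fin N × (Fin g → H I) × (Fin N → H I) // ExpCh A d.1 d.2.1 d.2.2 ∧
    ∀ e, d.2.1 e ∈ Algebra.adjoin Cs (range (Sum.elim xc ι))}
  obtain ⟨p, rfl⟩ : f ∈ (aeval (R := Cs) (Sum.elim xc (Sum.elim ι
      fun d : CD × Fin N => d.1.1.2.2 d.2))).range := by
    rw [← Algebra.adjoin_range_eq_range_aeval]
    refine Algebra.adjoin_mono ?_ hf
    rintro _ ((⟨s, rfl⟩ | ⟨i, rfl⟩) | ⟨i, W, b, m, h1, h2, rfl⟩)
    · exact ⟨.inr (.inl s), rfl⟩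
    · exact ⟨.inl i, rfl⟩
    · exact ⟨.inr (.inr (⟨(i, W, b), h1, by rwa [Sum.elim_range, union_comm]⟩, m)), rfl⟩
  simp only [Algebra.adjoin_range_eq_range_aeval, AlgHom.mem_range] at hy hW
  choose π hπ using hy
  choose Λ hΛ using hW
  choose V hV using fun (d : CD) e => (AlgHom.mem_range _).1
    ((Algebra.adjoin_range_eq_range_aeval Cs _).le (d.2.2 e))
  let B : Set CD := Prod.fst '' {d : CD × Fin N | .inr (.inr d) ∈ p.vars}
  have hB : B.Finite :=
    (p.vars.finite_toSet.preimage (Sum.inr_injective.comp Sum.inr_injective).injOn).image _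
  let S : Set K := ({s | .inr (.inl s) ∈ p.vars} ∪ ⋃ d ∈ B, ⋃ e,
    {s | .inr s ∈ (V d e).vars}) ∪ Subtype.val ⁻¹' (range y ∪ range u ∪ range (A.crd a))
  have hS : S.Finite := ((p.vars.finite_toSet.preimage
    (Sum.inr_injective.comp Sum.inl_injective).injOn).union (hB.biUnion fun d _ => finite_iUnion
      fun e => (V d e).vars.finite_toSet.preimage Sum.inr_injective.injOn)).union
    ((((finite_range _).union (finite_range _)).union (finite_range _)).preimage
      Subtype.val_injective.injOn)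
  have := hB.fintype
  have := hS.fintype
  obtain ⟨q, hq⟩ := p.exists_rename_eq_of_vars_subset_range
    (Sum.map id (Sum.map (Subtype.val : S → K) (Prod.map (Subtype.val : B → CD) id)))
    (Function.injective_id.sumMap (Subtype.val_injective.sumMap
      (Subtype.val_injective.prodMap Function.injective_id))) (by
      rintro (i | s | ⟨d, m⟩) h
      exacts [⟨.inl i, rfl⟩, ⟨.inr (.inl ⟨s, .inl (.inl h)⟩), rfl⟩,
        ⟨.inr (.inr (⟨d, _, h, rfl⟩, m)), rfl⟩])
  choose V' hV' using fun (d : B) e => (V d e).exists_rename_eq_of_vars_subset_range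
    (Sum.map id (Subtype.val : S → K)) (Function.injective_id.sumMap Subtype.val_injective) (by
      rintro (i | s) h
      exacts [⟨.inl i, rfl⟩, ⟨.inr ⟨s, .inl (.inr (mem_iUnion₂.2 ⟨d, d.2, mem_iUnion.2 ⟨e, h⟩⟩))⟩,
        rfl⟩])
  obtain ⟨i₀, h1, h2⟩ := A.exists_aff a
  have h3 := hval_main hA hkc hcK hK ι (fun a ha => (xt_val ι a.2).symm.trans (hk _ ha))
    (fun a ha => xt_val ι a.2 ▸ hc _ ha) (Subtype.val : S → K)
    (fun l => ⟨⟨_, hyK l⟩, .inr (.inl (.inl ⟨l, rfl⟩))⟩) π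
    (fun l => (xt_val ι _).symm.trans (hπ l).symm)
    (fun e => ⟨⟨_, huK e⟩, .inr (.inl (.inr ⟨e, rfl⟩))⟩) Λ
    (fun m => ⟨⟨_, haK m⟩, .inr (.inr ⟨m, rfl⟩)⟩) h1 (fun m => (congrFun h2 m).symm) (by
      simp only [hΛ, ← xt_val, sub_sub_cancel]
      exact expCh_of_exp hw (by
        rw [← h2, aff_self h1, xt_val ι K.one_mem]
        exact map_one ι) hexp)
    (fun D hD h3 h4 => hinj D hD (funext h3) (funext h4)) (fun d : B => d.1.1.1) V'
    (fun d => d.1.1.2.2) (fun d => by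
      convert d.1.2.1 using 2 with e
      rw [← hV, ← hV', aeval_rename]
      congr 2
      exact funext (by rintro (i | s) <;> rfl)) q
  convert h3 using 1
  rw [AlgHom.toRingHom_eq_coe, RingHom.coe_coe, ← hq, aeval_rename]
  congr 2
  exact funext (by rintro (i | s | d) <;> rfl)

end Pool.Agent.P.MP_f17f76_ag.N
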