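import Pool.Agent.P.MP_f17f76_ag.K.Chain

/-!
The Khovanskii-Rolle bound for square systems made of polynomials in a chain and of integrals.
-/

namespace Pool.Agent.P.MP_f17f76_ag.K

open Filter Topology Set MvPolynomial MeasureTheory

variable {ι κ : Type*} [Fintype ι] [DecidableEq ι] [Fintype κ]

/-- The chain `γ` embeds `U` as an open piece of a real algebraic set, and `ρ` cuts out a compact
part of `U`. -/
structure Emb (d : ℕ) (U : Set (ι → ℝ)) (γ : (ι → ℝ) → κ → ℝ) (ρ : (ι → ℝ) → ℝ) : Prop where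
  inj : InjOn γ U
  alg : ∃ Q : MvPolynomial κ ℝ, Q.totalDegree ≤ d ∧ (∀ x ∈ U, eval (γ x) Q = 0) ∧
    ∀ x ∈ U, ∀ N ∈ 𝓝 x, ∀ᶠ y in 𝓝 (γ x), eval y Q = 0 → y ∈ γ '' N
  pol : IsPol U γ d ρ
  cpt : IsCompact {x | x ∈ U ∧ 0 ≤ ρ x}

variable {U : Set (ι → ℝ)} {γ : (ι → ℝ) → κ → ℝ} {ρ : (ι → ℝ) → ℝ} {d D : ℕ}

theorem contDiffAt_sys (hC : Chain d U γ) {F : ι → (ι → ℝ) → ℝ} (hF : ∀ i, IsInt U γ D (F i))
    {x : ι → ℝ} (hx : x ∈ U) : ContDiffAt ℝ 1 (fun x i => F i x) x :=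
  contDiffAt_pi.2 fun i => (hF i).contDiffAt hC hx

/-- The Jacobian determinant of a system. -/
noncomputable def jac (F : ι → (ι → ℝ) → ℝ) (x : ι → ℝ) : ℝ :=
  (Matrix.of fun i j => fderiv ℝ (F i) x (Pi.single j 1)).det

omit [Fintype κ] in
theorem isPol_jac {F : ι → (ι → ℝ) → ℝ} (hF : ∀ i, IsInt U γ D (F i)) :
    IsPol U γ (Fintype.card ι * D) (jac F) :=
  isPol_det (M := fun x => Matrix.of fun i j => fderiv ℝ (F i) x (Pi.single j 1))
    fun i j => (hF i).2 j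

theorem jac_ne_zero_iff {F : ι → (ι → ℝ) → ℝ} {x : ι → ℝ}
    (hF : ∀ i, DifferentiableAt ℝ (F i) x) :
    jac F x ≠ 0 ↔ Function.Injective (fderiv ℝ (fun x i => F i x) x) := by
  have key : ∀ v, fderiv ℝ (fun x i => F i x) x v =
      (Matrix.of fun i j => fderiv ℝ (F i) x (Pi.single j 1)).mulVec v := by
    intro v
    funext i
    rw [fderiv_pi hF, ContinuousLinearMap.pi_apply, clm_eq_sum (fderiv ℝ (F i) x)]
    simp [Matrix.mulVec, dotProduct]
  rw [jac, ne_eq, ← Matrix.exists_mulVec_eq_zero_iff, injective_iff_map_eq_zero]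
  simp only [key]
  constructor
  · intro h v hv
    by_contra h0
    exact h ⟨v, h0, hv⟩
  · rintro h ⟨v, h0, hv⟩
    exact h0 (h v hv)

theorem khov_zero (hC : Chain d U γ) (hE : Emb d U γ ρ) :
    Bound U U γ D ((2 * (d + D) + 1) ^ Fintype.card κ) := by
  classical
  intro F hF S hS
  obtain ⟨Q, hQd, hQ0, hQ⟩ := hE.alg
  choose P hP hP' using hF
  have hI : ∀ i, IsInt U γ (D + d) (F i) := fun i => IsPol.isInt hC ⟨P i, hP i, hP' i⟩
  rw [← Finset.card_image_of_injOn (f := γ) fun a ha b hb h => hE.inj (hS a ha).1 (hS b hb).1 h]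
  have hpol : IsPol (univ : Set (κ → ℝ)) (fun y => y) (2 * (d + D))
      fun y => eval y Q * eval y Q + ∑ i, eval y (P i) * eval y (P i) :=
    (((isPol_eval Q hQd).mul (isPol_eval Q hQd)).mono (by omega)).add
      (isPol_sum _ fun i _ => ((isPol_eval _ (hP i)).mul (isPol_eval _ (hP i))).mono (by omega))
  refine isolated_count chain_id (bound_id _) hpol _ (fun _ _ => ⟨trivial, univ_mem⟩) ?_
  intro y hy
  obtain ⟨x, hx, rfl⟩ := Finset.mem_image.1 hy
  obtain ⟨hxU, hx0, hxN⟩ := hS x hx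
  obtain ⟨W, hW, hinj⟩ := (locHomeo_of_contDiffAt (contDiffAt_sys hC hI hxU) rfl hxN).inj
  have h0 : ∀ i, eval (γ x) (P i) = 0 := fun i => (hP' i x hxU).symm.trans (hx0 i)
  filter_upwards [hQ x hxU _ (inter_mem hW (hC.isOpen.mem_nhds hxU))] with y hy hne
  simp only [hQ0 x hxU, h0, mul_zero, Finset.sum_const_zero, add_zero]
  have h1 : 0 ≤ ∑ i, eval y (P i) * eval y (P i) :=
    Finset.sum_nonneg fun i _ => mul_self_nonneg _
  by_contra hle
  have h2 : eval y Q * eval y Q = 0 := by nlinarith [mul_self_nonneg (eval y Q)]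
  have h3 : ∑ i, eval y (P i) * eval y (P i) = 0 := by nlinarith
  obtain ⟨x', hx', rfl⟩ := hy (mul_self_eq_zero.1 h2)
  refine hne (congrArg γ (hinj hx'.1 (mem_of_mem_nhds hW) ?_))
  funext i
  have := (Finset.sum_eq_zero_iff_of_nonneg fun i _ => mul_self_nonneg _).1 h3 i (Finset.mem_univ _)
  change F i x' = F i x
  rw [hx0 i, hP' i x' hx'.2, mul_self_eq_zero.1 this]

/-- Systems with integrals in the rows `I` have at most `K` nondegenerate zeros. -/
def BoundI (U : Set (ι → ℝ)) (γ : (ι → ℝ) → κ → ℝ) (ρ : (ι → ℝ) → ℝ) (k D K : ℕ) : Prop :=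
  ∀ (I : Finset ι) (F : ι → (ι → ℝ) → ℝ), I.card ≤ k → (∀ i ∈ I, IsInt U γ D (F i)) →
    (∀ i ∉ I, IsPol U γ D (F i)) → ∀ S : Finset (ι → ℝ),
      (∀ x ∈ S, (x ∈ U ∧ 0 < ρ x) ∧ (∀ i, F i x = 0) ∧
        Function.Injective (fderiv ℝ (fun x i => F i x) x)) → S.card ≤ K

theorem rolle_step (hC : Chain d U γ) (hE : Emb d U γ ρ) {k K : ℕ}
    (hK : BoundI U γ ρ k (2 * (Fintype.card ι * (D + d)) + (D + d)) K) :
    BoundI U γ ρ (k + 1) D (2 * K) := by
  classical
  set D' := 2 * (Fintype.card ι * (D + d)) + (D + d) with hD'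
  intro I F hI hFI hFP S hS
  rcases I.eq_empty_or_nonempty with rfl | ⟨i₀, hi₀⟩
  · have := hK ∅ F (by simp) (by simp) (fun i hi => (hFP i hi).mono (by omega)) S hS
    omega
  have hF : ∀ i, IsInt U γ (D + d) (F i) := fun i => by
    by_cases h : i ∈ I
    · exact (hFI i h).mono (by omega)
    · exact (hFP i h).isInt hC
  let Fm : (ι → ℝ) → ι → ℝ := fun x i => F i x
  have hJ : IsPol U γ D' fun x => jac F x * jac F x :=
    ((isPol_jac hF).mul (isPol_jac hF)).mono (by omega)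
  have hρ : IsPol U γ D' ρ := hE.pol.mono (by omega)
  -- a common lower bound
  obtain ⟨a, ha, haS⟩ : ∃ a > 0, ∀ x ∈ S, a < jac F x * jac F x ∧ a < ρ x := by
    have : ∀ᶠ a in 𝓝[>] (0 : ℝ), ∀ x ∈ S, a < jac F x * jac F x ∧ a < ρ x := by
      rw [Finset.eventually_all]
      intro x hx
      have h1 : 0 < jac F x * jac F x := mul_self_pos.2
        ((jac_ne_zero_iff fun i => (hF i).1 x (hS x hx).1.1).2 (hS x hx).2.2)
      exact ((eventually_lt_nhds h1).and (eventually_lt_nhds (hS x hx).1.2)).filter_mono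
        nhdsWithin_le_nhds
    obtain ⟨a, h1, h2⟩ := (this.and self_mem_nhdsWithin).exists
    exact ⟨a, h2, h1⟩
  have hopen : ∀ t : ℝ, IsOpen {x | x ∈ U ∧ t < jac F x * jac F x ∧ t < ρ x} := fun t => by
    have h1 := (hJ.continuousOn hC).isOpen_inter_preimage hC.isOpen (isOpen_Ioi (a := t))
    have h2 := (hρ.continuousOn hC).isOpen_inter_preimage hC.isOpen (isOpen_Ioi (a := t))
    convert h1.inter h2 using 1
    ext x
    simp only [mem_ofPred_eq, mem_inter_iff, mem_preimage, mem_Ioi]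
    tauto
  have hper := persist_finset (F := Fm) S (y₀ := 0) (fun x hx => funext (hS x hx).2.1)
    (fun x hx => locHomeo_of_contDiffAt (contDiffAt_sys hC hF (hS x hx).1.1) rfl (hS x hx).2.2)
    (N := {x | x ∈ U ∧ a < jac F x * jac F x ∧ a < ρ x})
    (fun x hx => (hopen a).mem_nhds ⟨(hS x hx).1.1, haS x hx⟩)
  -- the two exit systems
  let G : ((ι → ℝ) → ℝ) → ι → (ι → ℝ) → ℝ := fun h => Function.update F i₀ h
  have hGd : ∀ h, IsPol U γ D' h → ∀ x ∈ U, DifferentiableAt ℝ (fun x i => G h i x) x := by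
    intro h hh x hx
    refine differentiableAt_pi.2 fun i => ?_
    by_cases hi : i = i₀
    · subst hi
      simpa [G] using (hh.isInt hC).1 x hx
    · simpa [G, hi] using (hF i).1 x hx
  have hcont : Continuous fun v : ι → ℝ => Function.update v i₀ (0 : ℝ) :=
    continuous_id.update i₀ continuous_const
  have hO : {v : ι → ℝ | (0 < v i₀ ∧ v i₀ < a) ∧ ∃ S' : Finset (ι → ℝ), S'.card = S.card ∧
      ∀ u ∈ S', u ∈ {x | x ∈ U ∧ a < jac F x * jac F x ∧ a < ρ x} ∧
        Fm u = Function.update v i₀ 0} ∈ 𝓝 (Pi.single i₀ (a / 2) : ι → ℝ) := by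
    have e : Function.update (Pi.single i₀ (a / 2) : ι → ℝ) i₀ (0 : ℝ) = 0 := by
      funext i
      by_cases hi : i = i₀
      · subst hi
        simp
      · simp [hi]
    have t1 : Tendsto (fun v : ι → ℝ => Function.update v i₀ (0 : ℝ))
        (𝓝 (Pi.single i₀ (a / 2) : ι → ℝ)) (𝓝 0) := e ▸ hcont.tendsto _
    have t2 : Tendsto (fun v : ι → ℝ => v i₀) (𝓝 (Pi.single i₀ (a / 2) : ι → ℝ)) (𝓝 (a / 2)) := by
      simpa using (continuous_apply i₀).tendsto (Pi.single i₀ (a / 2) : ι → ℝ)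
    exact (t2.eventually (Ioo_mem_nhds (by linarith : 0 < a / 2) (by linarith : a / 2 < a))).and
      (t1.eventually hper)
  obtain ⟨v, ⟨⟨hv0, hva⟩, S', hcard, hS'⟩, hs1, hs2⟩ :=
    exists_of_ae ((sard (hGd _ hJ)).and (sard (hGd _ hρ))) hO
  set t := v i₀ with ht
  have hexit : ∀ h, IsPol U γ D' h →
      (∀ x ∈ U, (fun i => G h i x) = v → Function.Injective (fderiv ℝ (fun x i => G h i x) x)) →
      ∀ S₁ : Finset (ι → ℝ), (∀ x ∈ S₁, (x ∈ U ∧ 0 < ρ x) ∧ h x = t ∧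
        ∀ i, i ≠ i₀ → F i x = v i) → S₁.card ≤ K := by
    intro h hh hs S₁ hS₁
    refine hK (I.erase i₀) (fun i x => G h i x - v i) ?_ ?_ ?_ S₁ fun x hx => ?_
    · rw [Finset.card_erase_of_mem hi₀]
      omega
    · intro i hi
      obtain ⟨h1, h2⟩ := Finset.mem_erase.1 hi
      simpa [G, h1] using ((hFI i h2).mono (by omega : D ≤ D')).sub_const (v i)
    · intro i hi
      by_cases h1 : i = i₀
      · subst h1
        simpa [G] using hh.sub (isPol_const (v i))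
      · have h2 : i ∉ I := fun h2 => hi (Finset.mem_erase.2 ⟨h1, h2⟩)
        simpa [G, h1] using ((hFP i h2).mono (by omega : D ≤ D')).sub (isPol_const (v i))
    · have hv : (fun i => G h i x) = v := by
        funext i
        by_cases h1 : i = i₀
        · subst h1
          simpa [G] using (hS₁ x hx).2.1
        · simpa [G, h1] using (hS₁ x hx).2.2 i h1
      refine ⟨(hS₁ x hx).1, fun i => sub_eq_zero.2 (congrFun hv i), ?_⟩
      have : (fun x i => G h i x - v i) = fun x => (fun i => G h i x) - v := rfl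
      rw [this, fderiv_sub_const]
      exact hs x (hS₁ x hx).1.1 hv
  -- the compact set
  set Kc : Set (ι → ℝ) := {x | x ∈ U ∧ t ≤ jac F x * jac F x ∧ t ≤ ρ x} with hKc
  have hKU : Kc ⊆ U := fun x hx => hx.1
  have hKcpt : IsCompact Kc := by
    have hsub : {x | x ∈ U ∧ 0 ≤ ρ x} ⊆ U := fun x hx => hx.1
    have h1 := ((hJ.continuousOn hC).mono hsub).preimage_isClosed_of_isClosed hE.cpt.isClosed
      (isClosed_Ici (a := t))
    have h2 := ((hρ.continuousOn hC).mono hsub).preimage_isClosed_of_isClosed hE.cpt.isClosed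
      (isClosed_Ici (a := t))
    refine hE.cpt.of_isClosed_subset ?_ fun x hx => ⟨hx.1, hv0.le.trans hx.2.2⟩
    convert h1.inter h2 using 1
    ext x
    simp only [hKc, mem_ofPred_eq, mem_inter_iff, mem_preimage, mem_Ici]
    constructor
    · exact fun h => ⟨⟨⟨h.1, hv0.le.trans h.2.2⟩, h.2.1⟩, ⟨h.1, hv0.le.trans h.2.2⟩, h.2.2⟩
    · exact fun h => ⟨h.1.1.1, h.1.2, h.2.2⟩
  have hloc : ∀ x ∈ Kc, LocHomeo Fm x := fun x hx =>
    locHomeo_of_contDiffAt (contDiffAt_sys hC hF hx.1) rfl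
      ((jac_ne_zero_iff fun i => (hF i).1 x hx.1).1
        (mul_self_pos.1 (hv0.trans_le hx.2.1)))
  have hFc : ContinuousOn Fm Kc := fun x hx =>
    (contDiffAt_sys hC hF hx.1).continuousAt.continuousWithinAt
  obtain ⟨M, hM⟩ := (hKcpt.image_of_continuousOn
    ((continuous_apply i₀).comp_continuousOn hFc)).bddAbove
  have hlift : ∀ p ∈ S', ∃ s ∈ Icc 0 (|M| + 1), ∃ η : ℝ → ι → ℝ, ContinuousOn η (Icc 0 s) ∧
      η 0 = p ∧ (∀ u ∈ Icc 0 s, η u ∈ Kc ∧ Fm (η u) = Function.update v i₀ u) ∧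
        (s = |M| + 1 ∨ η s ∉ interior Kc) := fun p hp =>
    exists_lift hKcpt hFc hloc (γ := fun u => Function.update v i₀ u)
      (continuous_const.update i₀ continuous_id)
      ⟨(hS' p hp).1.1, (hva.trans (hS' p hp).1.2.1).le, (hva.trans (hS' p hp).1.2.2).le⟩
      (hS' p hp).2 (by positivity)
  choose! s hs η hηc hη0 hη hend using hlift
  have hq : ∀ p ∈ S', η p (s p) ∈ Kc ∧ Fm (η p (s p)) = Function.update v i₀ (s p) :=
    fun p hp => hη p hp _ ⟨(hs p hp).1, le_rfl⟩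
  have hinj : InjOn (fun p => η p (s p)) S' := by
    intro p hp p' hp' h
    have h' : η p (s p) = η p' (s p') := h
    have hss : s p = s p' := by
      have := congrFun ((hq p hp).2.symm.trans (h' ▸ (hq p' hp').2)) i₀
      simpa using this
    have := lift_unique (F := Fm) (hηc p hp) (hss ▸ hηc p' hp')
      (fun u hu => by rw [(hη p hp u hu).2, (hη p' hp' u (hss ▸ hu)).2])
      (fun u hu => (hloc _ (hη p hp u hu).1).inj) ⟨(hs p hp).1, le_rfl⟩
      (h'.trans (by rw [hss])) 0 ⟨le_rfl, (hs p hp).1⟩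
    rw [← hη0 p hp, this, hη0 p' hp']
  rw [← hcard, ← Finset.card_image_of_injOn hinj]
  set E := S'.image fun p => η p (s p) with hE'
  have hE1 : ∀ x ∈ E, ((x ∈ U ∧ 0 < ρ x) ∧ ∀ i, i ≠ i₀ → F i x = v i) ∧
      (jac F x * jac F x = t ∨ ρ x = t) := by
    intro x hx
    obtain ⟨p, hp, rfl⟩ := Finset.mem_image.1 hx
    obtain ⟨h1, h2⟩ := hq p hp
    refine ⟨⟨⟨h1.1, hv0.trans_le h1.2.2⟩, fun i hi => by simpa [hi] using congrFun h2 i⟩, ?_⟩
    rcases hend p hp with h | h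
    · exfalso
      have h3 : Fm (η p (s p)) i₀ ≤ M := hM ⟨_, h1, rfl⟩
      rw [h2, Function.update_self, h] at h3
      linarith [le_abs_self M]
    · by_contra hc
      rw [not_or] at hc
      refine h (mem_interior_iff_mem_nhds.2 (mem_of_superset ((hopen t).mem_nhds
        ⟨h1.1, lt_of_le_of_ne h1.2.1 (Ne.symm hc.1), lt_of_le_of_ne h1.2.2 (Ne.symm hc.2)⟩) ?_))
      exact fun y hy => ⟨hy.1, hy.2.1.le, hy.2.2.le⟩
  have c1 := hexit _ hJ hs1 (E.filter fun x => jac F x * jac F x = t) fun x hx => by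
    obtain ⟨h1, h2⟩ := Finset.mem_filter.1 hx
    exact ⟨(hE1 x h1).1.1, h2, (hE1 x h1).1.2⟩
  have c2 := hexit _ hρ hs2 (E.filter fun x => ¬ jac F x * jac F x = t) fun x hx => by
    obtain ⟨h1, h2⟩ := Finset.mem_filter.1 hx
    exact ⟨(hE1 x h1).1.1, (hE1 x h1).2.resolve_left h2, (hE1 x h1).1.2⟩
  have := Finset.card_filter_add_card_filter_not (s := E) fun x => jac F x * jac F x = t
  omega

/-- The Khovanskii-Rolle bound, uniform in all data of bounded degree. -/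
theorem khov (ι κ : Type*) [Fintype ι] [DecidableEq ι] [Fintype κ] (d k D : ℕ) :
    ∃ K : ℕ, ∀ (U : Set (ι → ℝ)) (γ : (ι → ℝ) → κ → ℝ) (ρ : (ι → ℝ) → ℝ),
      Chain d U γ → Emb d U γ ρ → BoundI U γ ρ k D K := by
  induction k generalizing D with
  | zero =>
    refine ⟨(2 * (d + D) + 1) ^ Fintype.card κ, fun U γ ρ hC hE I F hI _ hP S hS => ?_⟩
    obtain rfl : I = ∅ := Finset.card_eq_zero.1 (by omega)
    exact khov_zero hC hE F (fun i => hP i (by simp)) S fun x hx => ⟨(hS x hx).1.1, (hS x hx).2⟩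
  | succ k ih =>
    obtain ⟨K, hK⟩ := ih (2 * (Fintype.card ι * (D + d)) + (D + d))
    exact ⟨2 * K, fun U γ ρ hC hE => rolle_step hC hE (hK U γ ρ hC hE)⟩

end Pool.Agent.P.MP_f17f76_ag.K
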