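import Mathlib

/-!
Persistence of nondegenerate zeros and lifting of paths through a local homeomorphism until the
boundary of a compact set.
-/

namespace Pool.Agent.P.MP_f17f76_ag.K

open Filter Topology Set

section Lift

variable {X Y : Type*} [TopologicalSpace X] [T2Space X] [TopologicalSpace Y]

/-- Two lifts of the same path that agree at one point agree everywhere. -/
theorem lift_unique {F : X → Y} {a b : ℝ} {η η' : ℝ → X} (hη : ContinuousOn η (Icc a b))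
    (hη' : ContinuousOn η' (Icc a b)) (hF : ∀ s ∈ Icc a b, F (η s) = F (η' s))
    (hinj : ∀ s ∈ Icc a b, ∃ W ∈ 𝓝 (η s), InjOn F W) {c : ℝ} (hc : c ∈ Icc a b)
    (h0 : η c = η' c) : ∀ s ∈ Icc a b, η s = η' s := by
  haveI : PreconnectedSpace (Icc a b) := Subtype.preconnectedSpace isPreconnected_Icc
  have h1 : Continuous fun s : Icc a b => η s := hη.restrict
  have h2 : Continuous fun s : Icc a b => η' s := hη'.restrict
  have hcl : IsClopen {s : Icc a b | η s = η' s} := by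
    refine ⟨isClosed_eq h1 h2, isOpen_iff_mem_nhds.2 fun s hs => ?_⟩
    obtain ⟨W, hW, hI⟩ := hinj s s.2
    have hs' : η s = η' s := hs
    filter_upwards [h1.continuousAt.preimage_mem_nhds hW,
      h2.continuousAt.preimage_mem_nhds (hs' ▸ hW)] with u hu hu'
    exact hI hu hu' (hF u u.2)
  have := hcl.eq_univ ⟨⟨c, hc⟩, h0⟩
  intro s hs
  have h : (⟨s, hs⟩ : Icc a b) ∈ {s : Icc a b | η s = η' s} := this ▸ mem_univ _
  exact h

omit [T2Space X] in
theorem glue {η ζ : ℝ → X} {a b c : ℝ} (hab : a ≤ b) (hbc : b ≤ c) (hη : ContinuousOn η (Icc a b))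
    (hζ : ContinuousOn ζ (Icc b c)) (h : η b = ζ b) :
    ContinuousOn (fun s => if s ≤ b then η s else ζ s) (Icc a c) := by
  rw [← Icc_union_Icc_eq_Icc hab hbc]
  refine ContinuousOn.union_of_isClosed ?_ ?_ isClosed_Icc isClosed_Icc
  · exact hη.congr fun s hs => if_pos hs.2
  · refine hζ.congr fun s hs => ?_
    by_cases hs' : s ≤ b
    · have : s = b := le_antisymm hs' hs.1
      simp [this, h]
    · exact if_neg hs'

/-- `F` is a local homeomorphism at `x`. -/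
def LocHomeo (F : X → Y) (x : X) : Prop :=
  ∃ (W : Set X) (ψ : Y → X), W ∈ 𝓝 x ∧ (∀ u ∈ W, ψ (F u) = u) ∧
    ∀ᶠ y in 𝓝 (F x), ContinuousAt ψ y ∧ F (ψ y) = y

omit [T2Space X] in
theorem LocHomeo.inj {F : X → Y} {x : X} (h : LocHomeo F x) : ∃ W ∈ 𝓝 x, InjOn F W := by
  obtain ⟨W, ψ, hW, h1, -⟩ := h
  exact ⟨W, hW, fun u hu v hv huv => by rw [← h1 u hu, huv, h1 v hv]⟩

/-- A path lifts until its end or until the lift reaches the boundary of the compact set. -/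
theorem exists_lift [FirstCountableTopology X] {F : X → Y} {K : Set X} (hK : IsCompact K)
    (hFc : ContinuousOn F K) [T2Space Y]
    (hF : ∀ x ∈ K, LocHomeo F x) {γ : ℝ → Y} (hγ : Continuous γ) {p : X} (hp : p ∈ K)
    (h0 : F p = γ 0) {T : ℝ} (hT : 0 ≤ T) :
    ∃ t ∈ Icc 0 T, ∃ η : ℝ → X, ContinuousOn η (Icc 0 t) ∧ η 0 = p ∧
      (∀ s ∈ Icc 0 t, η s ∈ K ∧ F (η s) = γ s) ∧ (t = T ∨ η t ∉ interior K) := by
  set A : Set ℝ := {t | t ∈ Icc 0 T ∧ ∃ η : ℝ → X, ContinuousOn η (Icc 0 t) ∧ η 0 = p ∧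
      ∀ s ∈ Icc 0 t, η s ∈ K ∧ F (η s) = γ s} with hA
  have hA0 : (0 : ℝ) ∈ A := ⟨⟨le_rfl, hT⟩, fun _ => p, continuousOn_const, rfl, fun s hs => by
    have : s = 0 := le_antisymm hs.2 hs.1
    exact ⟨hp, this ▸ h0⟩⟩
  have hbd : BddAbove A := ⟨T, fun t ht => ht.1.2⟩
  set s₀ := sSup A with hs₀
  have hs0 : 0 ≤ s₀ := le_csSup hbd hA0
  have hsT : s₀ ≤ T := csSup_le ⟨0, hA0⟩ fun t ht => ht.1.2
  obtain ⟨u, -, hu, huA⟩ := exists_seq_tendsto_sSup ⟨0, hA0⟩ hbd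
  choose η hηc hη0 hη using fun n => (huA n).2
  have hule : ∀ n, u n ≤ s₀ := fun n => le_csSup hbd (huA n)
  have hu0 : ∀ n, 0 ≤ u n := fun n => (huA n).1.1
  obtain ⟨q, hqK, φ, hφ, hq⟩ := hK.tendsto_subseq (x := fun n => η n (u n))
    (fun n => (hη n _ ⟨hu0 n, le_rfl⟩).1)
  have huφ : Tendsto (fun n => u (φ n)) atTop (𝓝 s₀) := hu.comp hφ.tendsto_atTop
  have hFq : F q = γ s₀ := by
    have h1 : Tendsto (fun n => F (η (φ n) (u (φ n)))) atTop (𝓝 (F q)) :=
      (hFc q hqK).tendsto.comp (tendsto_nhdsWithin_iff.2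
        ⟨hq, Eventually.of_forall fun n => (hη _ _ ⟨hu0 _, le_rfl⟩).1⟩)
    have h2 : Tendsto (fun n => F (η (φ n) (u (φ n)))) atTop (𝓝 (γ s₀)) :=
      (hγ.continuousAt.tendsto.comp huφ).congr fun n => ((hη _ _ ⟨hu0 _, le_rfl⟩).2).symm
    exact tendsto_nhds_unique h1 h2
  obtain ⟨W, ψ, hW, hψ1, hψ2⟩ := hF q hqK
  rw [hFq] at hψ2
  obtain ⟨ε, hε, hεψ⟩ := Metric.eventually_nhds_iff.1 (hγ.continuousAt.eventually hψ2)
  have hψq : ψ (γ s₀) = q := by rw [← hFq]; exact hψ1 q (mem_of_mem_nhds hW)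
  obtain ⟨n, hn1, hn2⟩ := ((hq.eventually hW).and
    (huφ.eventually (Metric.ball_mem_nhds s₀ hε))).exists
  set m := φ n
  have hn1' : η m (u m) ∈ W := hn1
  have hn2' : s₀ - ε < u m := by
    have := Metric.mem_ball.1 hn2
    rw [Real.dist_eq, abs_lt] at this
    linarith [this.1]
  have hcont : ∀ b, b < s₀ + ε → ContinuousOn (fun s => ψ (γ s)) (Icc (u m) b) := by
    intro b hb s hs
    refine (ContinuousAt.comp (hεψ ?_).1 hγ.continuousAt).continuousWithinAt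
    rw [Real.dist_eq, abs_lt]
    constructor <;> linarith [hs.1, hs.2]
  have hFψ : ∀ b, b < s₀ + ε → ∀ s ∈ Icc (u m) b, F (ψ (γ s)) = γ s := by
    intro b hb s hs
    refine (hεψ ?_).2
    rw [Real.dist_eq, abs_lt]
    constructor <;> linarith [hs.1, hs.2]
  have hstart : η m (u m) = ψ (γ (u m)) := by
    rw [← (hη m _ ⟨hu0 _, le_rfl⟩).2, hψ1 _ hn1']
  have hinK : ∀ s ∈ Icc (u m) s₀, ψ (γ s) ∈ K := by
    intro s hs
    rcases hs.2.eq_or_lt with h | h
    · rw [h, hψq]; exact hqK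
    · obtain ⟨k, hk⟩ := (hu.eventually (lt_mem_nhds h)).exists
      have hmk : u m ≤ u k := hs.1.trans hk.le
      have e1 : η k (u m) = η m (u m) :=
        lift_unique ((hηc k).mono (Icc_subset_Icc le_rfl hmk)) (hηc m)
          (fun v hv => by rw [(hη k v ⟨hv.1, hv.2.trans hmk⟩).2, (hη m v hv).2])
          (fun v hv => (hF _ (hη k v ⟨hv.1, hv.2.trans hmk⟩).1).inj) ⟨le_rfl, hu0 m⟩
          (by rw [hη0, hη0]) _ ⟨hu0 m, le_rfl⟩
      have e2 : η k s = ψ (γ s) :=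
        lift_unique ((hηc k).mono (Icc_subset_Icc (hu0 m) le_rfl))
          (hcont _ (by linarith [hule k]))
          (fun v hv => by
            rw [(hη k v ⟨(hu0 m).trans hv.1, hv.2⟩).2, hFψ _ (by linarith [hule k]) v hv])
          (fun v hv => (hF _ (hη k v ⟨(hu0 m).trans hv.1, hv.2⟩).1).inj) ⟨le_rfl, hmk⟩
          (e1.trans hstart) _ ⟨hs.1, hk.le⟩
      rw [← e2]
      exact (hη k s ⟨(hu0 m).trans hs.1, hk.le⟩).1
  have hglue : ∀ b, u m ≤ b → b < s₀ + ε → (∀ s ∈ Icc (u m) b, ψ (γ s) ∈ K) →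
      ∃ ζ : ℝ → X, ContinuousOn ζ (Icc 0 b) ∧ ζ 0 = p ∧
        (∀ s ∈ Icc 0 b, ζ s ∈ K ∧ F (ζ s) = γ s) ∧ ζ b = ψ (γ b) := by
    intro b hb hb' hbK
    refine ⟨fun s => if s ≤ u m then η m s else ψ (γ s),
      glue (hu0 m) hb (hηc m) (hcont b hb') hstart, by simp [hu0 m, hη0], fun s hs => ?_, ?_⟩
    · by_cases h : s ≤ u m
      · simp only [if_pos h]
        exact hη m s ⟨hs.1, h⟩
      · simp only [if_neg h]
        exact ⟨hbK s ⟨(not_le.1 h).le, hs.2⟩, hFψ b hb' s ⟨(not_le.1 h).le, hs.2⟩⟩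
    · by_cases h : b ≤ u m
      · have : b = u m := le_antisymm h hb
        simp [this, hstart]
      · simp [h]
  obtain ⟨ζ, hζc, hζ0, hζ, hζe⟩ := hglue s₀ (hule m) (by linarith) hinK
  refine ⟨s₀, ⟨hs0, hsT⟩, ζ, hζc, hζ0, hζ, ?_⟩
  by_contra hcon
  rw [not_or, not_not, hζe] at hcon
  have hlt : s₀ < T := lt_of_le_of_ne hsT hcon.1
  have hc : ContinuousAt (fun s => ψ (γ s)) s₀ :=
    ContinuousAt.comp (hεψ (by simpa using hε)).1 hγ.continuousAt
  obtain ⟨δ, hδ, hδK⟩ := Metric.eventually_nhds_iff.1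
    (hc.eventually (mem_interior_iff_mem_nhds.1 hcon.2))
  obtain ⟨b, hb1, hb2⟩ := exists_between (show s₀ < min T (min (s₀ + ε) (s₀ + δ)) by
    simp only [lt_min_iff]; exact ⟨hlt, by linarith, by linarith⟩)
  simp only [lt_min_iff] at hb2
  obtain ⟨ζ', h1, h2, h3, -⟩ := hglue b ((hule m).trans hb1.le) hb2.2.1 (fun s hs => by
    rcases le_total s s₀ with h | h
    · exact hinK s ⟨hs.1, h⟩
    · refine hδK ?_
      rw [Real.dist_eq, abs_lt]
      constructor <;> linarith [hs.2, hb2.2.2])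
  have : b ≤ s₀ := le_csSup hbd ⟨⟨hs0.trans hb1.le, hb2.1.le⟩, ζ', h1, h2, h3⟩
  linarith

end Lift

section Deriv

variable {E E' : Type*} [NormedAddCommGroup E] [NormedSpace ℝ E] [FiniteDimensional ℝ E]
  [NormedAddCommGroup E'] [NormedSpace ℝ E'] [FiniteDimensional ℝ E']

theorem exists_equiv (L : E →L[ℝ] E') (hd : Module.finrank ℝ E = Module.finrank ℝ E')
    (hL : Function.Injective L) : ∃ e : E ≃L[ℝ] E', (e : E →L[ℝ] E') = L := by
  have hb : Function.Bijective L.toLinearMap :=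
    ⟨hL, (LinearMap.injective_iff_surjective_of_finrank_eq_finrank hd).1 hL⟩
  exact ⟨(LinearEquiv.ofBijective L.toLinearMap hb).toContinuousLinearEquiv, by ext; rfl⟩

theorem locHomeo_of_contDiffAt {F : E → E'} {x : E} (hF : ContDiffAt ℝ 1 F x)
    (hd : Module.finrank ℝ E = Module.finrank ℝ E') (hL : Function.Injective (fderiv ℝ F x)) :
    LocHomeo F x := by
  haveI := FiniteDimensional.complete ℝ E
  obtain ⟨e, he⟩ := exists_equiv _ hd hL
  have hs : HasStrictFDerivAt F (e : E →L[ℝ] E') x := he ▸ hF.hasStrictFDerivAt one_ne_zero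
  refine ⟨(hs.toOpenPartialHomeomorph F).source, (hs.toOpenPartialHomeomorph F).symm,
    (hs.toOpenPartialHomeomorph F).open_source.mem_nhds hs.mem_toOpenPartialHomeomorph_source,
    fun u hu => (hs.toOpenPartialHomeomorph F).left_inv hu, ?_⟩
  filter_upwards [(hs.toOpenPartialHomeomorph F).open_target.mem_nhds
    hs.image_mem_toOpenPartialHomeomorph_target] with y hy
  exact ⟨(hs.toOpenPartialHomeomorph F).continuousAt_symm hy,
    (hs.toOpenPartialHomeomorph F).right_inv hy⟩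

theorem LocHomeo.map_nhds {X Y : Type*} [TopologicalSpace X] [TopologicalSpace Y] {F : X → Y}
    {x : X} (h : LocHomeo F x) {N : Set X} (hN : N ∈ 𝓝 x) :
    ∀ᶠ y in 𝓝 (F x), ∃ u ∈ N, F u = y := by
  obtain ⟨W, ψ, hW, h1, h2⟩ := h
  have hx : ψ (F x) = x := h1 x (mem_of_mem_nhds hW)
  have hc : ContinuousAt ψ (F x) := h2.self_of_nhds.1
  filter_upwards [h2, hc.eventually (show N ∈ 𝓝 (ψ (F x)) by rwa [hx])] with y hy hy'
  exact ⟨ψ y, hy', hy.2⟩

/-- Finitely many points at which `F` is a local homeomorphism with the same value persist. -/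
theorem persist_finset {X Y : Type*} [TopologicalSpace X] [T2Space X] [TopologicalSpace Y]
    {F : X → Y} (S : Finset X) {y₀ : Y} (h0 : ∀ x ∈ S, F x = y₀) (h : ∀ x ∈ S, LocHomeo F x)
    {N : Set X} (hN : ∀ x ∈ S, N ∈ 𝓝 x) :
    ∀ᶠ y in 𝓝 y₀, ∃ S' : Finset X, S'.card = S.card ∧ ∀ u ∈ S', u ∈ N ∧ F u = y := by
  classical
  obtain ⟨O, hO, hdis⟩ := S.finite_toSet.t2_separation
  have h1 : ∀ᶠ y in 𝓝 y₀, ∀ x ∈ S, ∃ u ∈ N ∩ O x, F u = y := by
    rw [Finset.eventually_all]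
    intro x hx
    have := (h x hx).map_nhds (inter_mem (hN x hx) ((hO x).2.mem_nhds (hO x).1))
    rwa [h0 x hx] at this
  filter_upwards [h1] with y hy
  choose! e he1 he2 using hy
  refine ⟨S.image e, Finset.card_image_of_injOn fun a ha b hb hab => ?_, fun u hu => ?_⟩
  · by_contra hne
    exact (hdis ha hb hne).ne_of_mem (he1 a ha).2 (he1 b hb).2 hab
  · obtain ⟨x, hx, rfl⟩ := Finset.mem_image.1 hu
    exact ⟨(he1 x hx).1, he2 x hx⟩

end Deriv

end Pool.Agent.P.MP_f17f76_ag.K
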